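import Pool.Agent.Octa.GaugeMain

/-! module FINAL-gauge: the reduction from a convex body `K` to its gauge -/

set_option autoImplicit false

namespace Pool.Agent.Octa
open Quaternion

/-- the gauge of a compact convex neighbourhood of the origin is a good gauge -/
theorem goodGauge_gauge {S : Set E3} (hc : Convex ℝ S) (h0 : S ∈ nhds (0 : E3))
    (hb : Bornology.IsBounded S) : GoodGauge (gauge S) := by
  have habs : Absorbent ℝ S := absorbent_nhds_zero h0
  refine ⟨fun x y => gauge_add_le hc habs x y, fun t ht x => ?_, ?_, ?_⟩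
  · rw [gauge_smul_of_nonneg ht, smul_eq_mul]
  · -- lower bound from boundedness
    obtain ⟨R, hR, hsub⟩ := hb.subset_ball_lt 0 0
    refine ⟨1 / R, by positivity, fun x => ?_⟩
    have h1 : gauge (Metric.ball (0 : E3) R) x ≤ gauge S x := gauge_mono habs hsub x
    rw [gauge_ball hR.le] at h1
    calc 1 / R * ‖x‖ = ‖x‖ / R := by ring
      _ ≤ gauge S x := h1
  · obtain ⟨r, hr, hsub⟩ := Metric.mem_nhds_iff.1 h0
    refine ⟨1 / r, by positivity, fun x => ?_⟩
    have h1 : gauge S x ≤ gauge (Metric.ball (0 : E3) r) x :=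
      gauge_mono (absorbent_nhds_zero (Metric.ball_mem_nhds 0 hr)) hsub x
    rw [gauge_ball hr.le] at h1
    calc gauge S x ≤ ‖x‖ / r := h1
      _ = 1 / r * ‖x‖ := by ring

/-- reduction of the frozen statement to gauges -/
theorem body_main (K : Set E3) (hK : IsCompact K) (hK' : Convex ℝ K) (hi : (interior K).Nonempty) :
    ∃ c v₁ v₂ v₃ : E3,
        v₁ ≠ 0 ∧
        ‖v₁‖ = ‖v₂‖ ∧ ‖v₂‖ = ‖v₃‖ ∧
        inner ℝ v₁ v₂ = 0 ∧ inner ℝ v₁ v₃ = 0 ∧ inner ℝ v₂ v₃ = 0 ∧
        c + v₁ ∈ frontier K ∧ c - v₁ ∈ frontier K ∧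
        c + v₂ ∈ frontier K ∧ c - v₂ ∈ frontier K ∧
        c + v₃ ∈ frontier K ∧ c - v₃ ∈ frontier K := by
  obtain ⟨p, hp⟩ := hi
  -- translate
  set S : Set E3 := (fun x => p + x) ⁻¹' K with hS
  have hSc : Convex ℝ S := hK'.translate_preimage_right p
  have hS0 : S ∈ nhds (0 : E3) := by
    have h1 : K ∈ nhds (p + 0) := by rw [add_zero]; exact mem_interior_iff_mem_nhds.1 hp
    exact (continuous_const.add continuous_id).continuousAt.preimage_mem_nhds h1
  have hSb : Bornology.IsBounded S := by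
    obtain ⟨R, hR⟩ := hK.isBounded.subset_closedBall 0
    refine (Metric.isBounded_closedBall (x := (0 : E3)) (r := R + ‖p‖)).subset fun x hx => ?_
    have h1 := hR hx
    rw [mem_closedBall_zero_iff] at h1 ⊢
    calc ‖x‖ = ‖(p + x) - p‖ := by rw [add_sub_cancel_left]
      _ ≤ ‖p + x‖ + ‖p‖ := norm_sub_le _ _
      _ ≤ R + ‖p‖ := by linarith
  have hfr : ∀ x : E3, gauge S x = 1 → p + x ∈ frontier K := by
    intro x hx
    have h1 : x ∈ frontier S := by
      rw [gauge_eq_one_iff_mem_frontier hSc hS0] at hx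
      exact hx
    have h2 : S = (Homeomorph.addLeft p) ⁻¹' K := rfl
    rw [h2, ← (Homeomorph.addLeft p).preimage_frontier] at h1
    exact h1
  obtain ⟨c, u, r, hu, hr, hmain⟩ := gauge_main (gauge S) (goodGauge_gauge hSc hS0 hSb)
  have ho := fr_orthonormal u hu
  have hn := ho.1
  refine ⟨p + c, r • fr u 0, r • fr u 1, r • fr u 2, ?_, ?_, ?_, ?_, ?_, ?_, ?_, ?_, ?_, ?_, ?_, ?_⟩
  · intro h
    have h1 : ‖r • fr u 0‖ = 0 := by rw [h, norm_zero]
    rw [norm_smul, hn 0, mul_one, norm_eq_zero] at h1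
    exact hr.ne' h1
  · rw [norm_smul, norm_smul, hn 0, hn 1]
  · rw [norm_smul, norm_smul, hn 1, hn 2]
  · rw [real_inner_smul_left, real_inner_smul_right, ho.2 (by decide), mul_zero, mul_zero]
  · rw [real_inner_smul_left, real_inner_smul_right, ho.2 (by decide), mul_zero, mul_zero]
  · rw [real_inner_smul_left, real_inner_smul_right, ho.2 (by decide), mul_zero, mul_zero]
  · rw [add_assoc]; exact hfr _ (hmain 0).1
  · rw [add_sub_assoc]; exact hfr _ (hmain 0).2
  · rw [add_assoc]; exact hfr _ (hmain 1).1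
  · rw [add_sub_assoc]; exact hfr _ (hmain 1).2
  · rw [add_assoc]; exact hfr _ (hmain 2).1
  · rw [add_sub_assoc]; exact hfr _ (hmain 2).2

end Pool.Agent.Octa
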