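import Pool.Agent.Octa.Frame

/-! module CELLS (T5): the quaternionic cells, section 1.4 of proof_MP_f08f91_co.md.
`q 4 = t, q 5 = r, q 6 = s`. -/

set_option autoImplicit false

namespace Pool.Agent.Octa
open Quaternion

noncomputable def e1 (t : ℝ) : ℍ[ℝ] := (1 - t) • (1 : ℍ[ℝ]) + t • om
noncomputable def jq : ℍ[ℝ] := ⟨0, 1, -1, 0⟩
noncomputable def UU (k : Fin 3) (t r s : ℝ) : ℍ[ℝ] := (1 - r) • (e1 t * om ^ (k : ℕ)) + r • (jq * e1 s)
/-- the cell -/
noncomputable def cell (k : Fin 3) (t r s : ℝ) : ℍ[ℝ] := ‖UU k t r s‖⁻¹ • UU k t r s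

theorem om_pow_succ (k : Fin 3) : om ^ ((k + 1 : Fin 3) : ℕ) = om ^ (k : ℕ) * om := by
  fin_cases k
  · show om ^ 1 = om ^ 0 * om
    simp
  · show om ^ 2 = om ^ 1 * om
    rw [pow_two, pow_one]
  · show om ^ 0 = om ^ 2 * om
    rw [pow_zero, pow_two, om_cube]

theorem e1_eq (t : ℝ) : e1 t = ⟨1 - 3*t/2, t/2, t/2, t/2⟩ := by
  unfold e1 om
  ext <;> simp <;> ring

theorem jq_mul_e1 (s : ℝ) : jq * e1 s = ⟨0, 1 - 2*s, -1 + s, s⟩ := by
  rw [e1_eq]
  unfold jq
  ext <;> simp <;> ring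

theorem normSq_UU (k : Fin 3) (t r s : ℝ) : ‖UU k t r s‖ * ‖UU k t r s‖ =
    (1 - r)^2 * (1 - 3*t + 3*t^2) + 2 * r^2 * (1 - 3*s + 3*s^2) := by
  rw [← Quaternion.normSq_eq_norm_mul_self, Quaternion.normSq_def']
  unfold UU
  rw [jq_mul_e1, e1_eq]
  fin_cases k
  · simp
    ring
  · simp [om]
    ring
  · simp [pow_two, om_sq]
    ring

theorem UU_ne_zero (k : Fin 3) (t r s : ℝ) : UU k t r s ≠ 0 := by
  intro h
  have h1 := normSq_UU k t r s
  rw [h, norm_zero] at h1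
  nlinarith [sq_nonneg (1 - 2*t), sq_nonneg (1 - 2*s), sq_nonneg ((1 - r) * (1 - 2*t)),
    sq_nonneg (r * (1 - 2*s)), sq_nonneg (1 - 2*r), sq_nonneg r, sq_nonneg (1 - r)]

theorem norm_cell (k : Fin 3) (t r s : ℝ) : ‖cell k t r s‖ = 1 := by
  unfold cell
  rw [norm_smul, norm_inv, norm_norm]
  exact inv_mul_cancel₀ (norm_ne_zero_iff.2 (UU_ne_zero k t r s))

theorem continuous_UU (k : Fin 3) :
    Continuous (fun q : ℝ × ℝ × ℝ => UU k q.1 q.2.1 q.2.2) := by
  unfold UU e1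
  fun_prop

theorem continuous_cell (k : Fin 3) : Continuous (fun q : ℝ × ℝ × ℝ => cell k q.1 q.2.1 q.2.2) := by
  unfold cell
  have h := continuous_UU k
  exact (h.norm.inv₀ (fun q => norm_ne_zero_iff.2 (UU_ne_zero k _ _ _))).smul h

theorem cell_h1 (k : Fin 3) (r s : ℝ) : cell k 1 r s = cell (k + 1) 0 r s := by
  have h : UU k 1 r s = UU (k + 1) 0 r s := by
    unfold UU e1
    rw [om_pow_succ]
    simp only [sub_self, zero_smul, zero_add, one_smul, sub_zero, add_zero, one_mul]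
    rw [← pow_succ, ← pow_succ']
  unfold cell
  rw [h]

theorem cell_h2 (k : Fin 3) (t t' s : ℝ) : cell k t 1 s = cell k t' 1 s := by
  have h : UU k t 1 s = UU k t' 1 s := by
    unfold UU
    simp
  unfold cell
  rw [h]

theorem cell_h3 (k : Fin 3) (t s s' : ℝ) : cell k t 0 s = cell k t 0 s' := by
  have h : UU k t 0 s = UU k t 0 s' := by
    unfold UU
    simp
  unfold cell
  rw [h]

theorem cell_of_UU {k k' : Fin 3} {t r s t' r' s' : ℝ}
    (h : UU k' t' r' s' = UU k t r s * om) : cell k' t' r' s' = cell k t r s * om := by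
  unfold cell
  rw [h, norm_mul, norm_om, mul_one, smul_mul_assoc]

theorem cell_h4 (k : Fin 3) (t r : ℝ) : cell (k + 1) t r 1 = cell k t r 0 * om := by
  apply cell_of_UU
  unfold UU
  rw [om_pow_succ]
  have h1 : e1 1 = om := by unfold e1; simp
  have h0 : e1 0 = 1 := by unfold e1; simp
  rw [h1, h0, add_mul, smul_mul_assoc, smul_mul_assoc, mul_one, mul_assoc]

theorem cell_h6 (k : Fin 3) (t s : ℝ) : cell (k + 1) t 0 s = cell k t 0 s * om := by
  apply cell_of_UU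
  unfold UU
  rw [om_pow_succ, add_mul, smul_mul_assoc, smul_mul_assoc, mul_assoc]
  simp

end Pool.Agent.Octa
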