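import Pool.Agent.Octa.Defs

/-! module DER: the one-sided directional derivative of the gauge, section 3.2 of proof_MP_f08f91_co.md -/

set_option autoImplicit false

namespace Pool.Agent.Octa

open Filter Topology

/-- difference function along the ray -/
noncomputable def dG (g : E3 → ℝ) (p : E3) (N : ℝ) (v : E3) : ℝ := g (N • p + v) - N * g p

/-- the derivative -/
noncomputable def dD (g : E3 → ℝ) (p : E3) (v : E3) : ℝ := ⨅ N : ℝ, dG g p N v

theorem gg_zero {g : E3 → ℝ} (hg : GoodGauge g) : g 0 = 0 := by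
  have := hg.hom 0 le_rfl 0
  simpa using this

theorem gg_lip {g : E3 → ℝ} (hg : GoodGauge g) : ∃ M : ℝ, 0 < M ∧ ∀ x y, |g x - g y| ≤ M * ‖x - y‖ := by
  obtain ⟨M, hM, hu⟩ := hg.upper
  refine ⟨M, hM, fun x y => ?_⟩
  rw [abs_le]
  constructor
  · have h1 := hg.sub x (y - x)
    have h2 := hu (y - x)
    rw [add_sub_cancel] at h1
    rw [norm_sub_rev] at h2
    linarith
  · have h1 := hg.sub y (x - y)
    have h2 := hu (x - y)
    rw [add_sub_cancel] at h1
    linarith

theorem gg_cont {g : E3 → ℝ} (hg : GoodGauge g) : Continuous g := by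
  obtain ⟨M, hM, hl⟩ := gg_lip hg
  rw [Metric.continuous_iff]
  intro x ε hε
  refine ⟨ε / M, by positivity, fun y hy => ?_⟩
  rw [Real.dist_eq]
  calc |g y - g x| ≤ M * ‖y - x‖ := hl y x
    _ < M * (ε / M) := by
        apply mul_lt_mul_of_pos_left _ hM
        rwa [← dist_eq_norm]
    _ = ε := by field_simp

theorem dG_anti {g : E3 → ℝ} (hg : GoodGauge g) (p v : E3) : Antitone (fun N => dG g p N v) := by
  intro N N' h
  simp only [dG]
  have h1 := hg.sub (N • p + v) ((N' - N) • p)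
  rw [hg.hom (N' - N) (by linarith)] at h1
  have h2 : N • p + v + (N' - N) • p = N' • p + v := by module
  rw [h2] at h1
  linarith

theorem dG_lower {g : E3 → ℝ} (hg : GoodGauge g) (p v : E3) (N : ℝ) : - g (- v) ≤ dG g p N v := by
  have h0 : dG g p (max N 0) v ≤ dG g p N v := dG_anti hg p v (le_max_left N 0)
  refine le_trans ?_ h0
  have hN : 0 ≤ max N 0 := le_max_right _ _
  simp only [dG]
  have h1 := hg.sub ((max N 0) • p + v) (- v)
  rw [add_neg_cancel_right, hg.hom _ hN] at h1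
  linarith

theorem dG_bdd {g : E3 → ℝ} (hg : GoodGauge g) (p v : E3) : BddBelow (Set.range (fun N => dG g p N v)) :=
  ⟨- g (- v), by rintro _ ⟨N, rfl⟩; exact dG_lower hg p v N⟩

theorem dG_tendsto {g : E3 → ℝ} (hg : GoodGauge g) (p v : E3) :
    Tendsto (fun N => dG g p N v) atTop (𝓝 (dD g p v)) :=
  tendsto_atTop_ciInf (dG_anti hg p v) (dG_bdd hg p v)

theorem dD_le {g : E3 → ℝ} (hg : GoodGauge g) (p v : E3) (N : ℝ) : dD g p v ≤ dG g p N v :=
  ciInf_le (dG_bdd hg p v) N

theorem dD_sub {g : E3 → ℝ} (hg : GoodGauge g) (p x y : E3) : dD g p (x + y) ≤ dD g p x + dD g p y := by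
  have h := (dG_tendsto hg p x).add (dG_tendsto hg p y)
  refine ge_of_tendsto' h (fun N => ?_)
  refine (dD_le hg p (x + y) (N + N)).trans ?_
  simp only [dG]
  have h1 := hg.sub (N • p + x) (N • p + y)
  have h2 : N • p + x + (N • p + y) = (N + N) • p + (x + y) := by module
  rw [h2] at h1
  linarith

theorem dD_hom {g : E3 → ℝ} (hg : GoodGauge g) (p : E3) (t : ℝ) (ht : 0 ≤ t) (x : E3) :
    dD g p (t • x) = t * dD g p x := by
  rcases ht.eq_or_lt with h | h
  · subst h
    have h1 : Tendsto (fun N => dG g p N ((0 : ℝ) • x)) atTop (𝓝 0) := by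
      refine (tendsto_congr' ?_).2 tendsto_const_nhds
      filter_upwards [eventually_ge_atTop (0 : ℝ)] with N hN
      simp only [dG, zero_smul, add_zero]
      rw [hg.hom N hN]; ring
    rw [tendsto_nhds_unique (dG_tendsto hg p _) h1, zero_mul]
  · have h1 : Tendsto (fun N => t * dG g p (N / t) x) atTop (𝓝 (t * dD g p x)) :=
      ((dG_tendsto hg p x).comp (tendsto_id.atTop_div_const h)).const_mul t
    refine tendsto_nhds_unique (dG_tendsto hg p _) (h1.congr (fun N => ?_))
    simp only [dG]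
    have h2 : N • p + t • x = t • ((N / t) • p + x) := by
      rw [smul_add, smul_smul]; congr 2; field_simp
    rw [h2, hg.hom t h.le]
    field_simp

theorem dD_add {g : E3 → ℝ} (hg : GoodGauge g) (p : E3) (t : ℝ) (v : E3) :
    dD g p (v + t • p) = dD g p v + t * g p := by
  have h1 : Tendsto (fun N => dG g p (N + t) v + t * g p) atTop (𝓝 (dD g p v + t * g p)) :=
    ((dG_tendsto hg p v).comp (tendsto_atTop_add_const_right _ t tendsto_id)).add_const _
  refine tendsto_nhds_unique (dG_tendsto hg p _) (h1.congr (fun N => ?_))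
  simp only [dG]
  have h2 : N • p + (v + t • p) = (N + t) • p + v := by module
  rw [h2]; ring

theorem dG_cont {g : E3 → ℝ} (hg : GoodGauge g) (p : E3) (N : ℝ) : Continuous (dG g p N) := by
  unfold dG
  exact ((gg_cont hg).comp (by fun_prop)).sub continuous_const

theorem dD_lip {g : E3 → ℝ} (hg : GoodGauge g) (p : E3) : ∃ M : ℝ, 0 < M ∧ ∀ x y, |dD g p x - dD g p y| ≤ M * ‖x - y‖ := by
  obtain ⟨M, hM, hl⟩ := gg_lip hg
  refine ⟨M, hM, fun x y => ?_⟩
  have h := ((dG_tendsto hg p x).sub (dG_tendsto hg p y)).abs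
  refine le_of_tendsto' h (fun N => ?_)
  simp only [dG]
  have h1 := hl (N • p + x) (N • p + y)
  rw [add_sub_add_left_eq_sub] at h1
  have h2 : g (N • p + x) - N * g p - (g (N • p + y) - N * g p) = g (N • p + x) - g (N • p + y) := by ring
  rw [h2]; exact h1

theorem dD_cont {g : E3 → ℝ} (hg : GoodGauge g) (p : E3) : Continuous (dD g p) := by
  obtain ⟨M, hM, hl⟩ := dD_lip hg p
  rw [Metric.continuous_iff]
  intro x ε hε
  refine ⟨ε / M, by positivity, fun y hy => ?_⟩
  rw [Real.dist_eq]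
  calc |dD g p y - dD g p x| ≤ M * ‖y - x‖ := hl y x
    _ < M * (ε / M) := by
        apply mul_lt_mul_of_pos_left _ hM
        rwa [← dist_eq_norm]
    _ = ε := by field_simp

theorem dD_err {g : E3 → ℝ} (hg : GoodGauge g) (p : E3) :
    ∀ ε : ℝ, 0 < ε → ∃ η : ℝ, 0 < η ∧ ∀ v : E3, ‖v‖ ≤ η → |g (p + v) - g p - dD g p v| ≤ ε * ‖v‖ := by
  intro ε hε
  have hU : TendstoUniformlyOn (fun N : ℝ => dG g p N) (dD g p) atTop (Metric.sphere (0 : E3) 1) :=
    Antitone.tendstoUniformlyOn_of_forall_tendsto (isCompact_sphere _ _)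
      (fun N => (dG_cont hg p N).continuousOn) (fun x _ => dG_anti hg p x)
      (dD_cont hg p).continuousOn (fun x _ => dG_tendsto hg p x)
  rw [Metric.tendstoUniformlyOn_iff] at hU
  obtain ⟨N₀, hN₀⟩ := (hU ε hε).exists_forall_of_atTop
  refine ⟨1 / (max N₀ 1), by positivity, fun v hv => ?_⟩
  rcases eq_or_ne v 0 with h0 | h0
  · subst h0
    have : dD g p 0 = 0 := by
      have := dD_hom hg p 0 le_rfl 0
      simpa using this
    simp [this]
  · have hs : 0 < ‖v‖ := norm_pos_iff.2 h0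
    set w : E3 := ‖v‖⁻¹ • v with hw
    have hw1 : w ∈ Metric.sphere (0 : E3) 1 := by
      simp [hw, norm_smul, hs.ne']
    have hN : N₀ ≤ ‖v‖⁻¹ := by
      refine (le_max_left N₀ 1).trans ?_
      rw [le_inv_comm₀ (by positivity) hs, ← one_div]
      exact hv
    have h1 := hN₀ _ hN w hw1
    have hvw : v = ‖v‖ • w := by
      rw [hw, smul_smul, mul_inv_cancel₀ hs.ne', one_smul]
    have h2 : g (p + v) - g p - dD g p v = ‖v‖ * (dG g p ‖v‖⁻¹ w - dD g p w) := by
      have h3 : dD g p v = ‖v‖ * dD g p w := by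
        conv_lhs => rw [hvw]
        exact dD_hom hg p _ hs.le _
      have h4 : p + v = ‖v‖ • (‖v‖⁻¹ • p + w) := by
        rw [smul_add, smul_smul, mul_inv_cancel₀ hs.ne', one_smul, ← hvw]
      rw [h3, h4, hg.hom _ hs.le]
      simp only [dG]
      field_simp
    rw [h2, abs_mul, abs_of_pos hs, mul_comm]
    apply mul_le_mul_of_nonneg_right _ hs.le
    rw [Real.dist_eq, abs_sub_comm] at h1
    exact h1.le

theorem dir_deriv (g : E3 → ℝ) (hg : GoodGauge g) (p : E3) :
    ∃ D : E3 → ℝ, (∀ x y, D (x + y) ≤ D x + D y) ∧ (∀ t : ℝ, 0 ≤ t → ∀ x, D (t • x) = t * D x) ∧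
      (∀ (t : ℝ) (v : E3), D (v + t • p) = D v + t * g p) ∧
      ∀ ε : ℝ, 0 < ε → ∃ η : ℝ, 0 < η ∧ ∀ v : E3, ‖v‖ ≤ η → |g (p + v) - g p - D v| ≤ ε * ‖v‖ :=
  ⟨dD g p, dD_sub hg p, fun t ht x => dD_hom hg p t ht x, fun t v => dD_add hg p t v, dD_err hg p⟩

end Pool.Agent.Octa
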