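import Pool.Agent.Octa.Signs
import Pool.Agent.Octa.DirDeriv

/-! module CLAIM0 (A2b): sections 3.3 and 3.4 of proof_MP_f08f91_co.md -/

set_option autoImplicit false

namespace Pool.Agent.Octa
open Quaternion Filter Topology

theorem on_expand (u : Fin 3 → E3) (hu : Orthonormal ℝ u) (d : E3) :
    d = (inner ℝ d (u 0)) • u 0 + (inner ℝ d (u 1)) • u 1 + (inner ℝ d (u 2)) • u 2 := by
  have hsp : ⊤ ≤ Submodule.span ℝ (Set.range u) := by
    rw [hu.linearIndependent.span_eq_top_of_card_eq_finrank (by simp)]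
  have h := (OrthonormalBasis.mk hu hsp).sum_repr' d
  rw [Fin.sum_univ_three] at h
  simp only [OrthonormalBasis.coe_mk] at h
  rw [real_inner_comm d (u 0), real_inner_comm d (u 1), real_inner_comm d (u 2)] at h
  exact h.symm

theorem on_expand' (u : Fin 3 → E3) (hu : Orthonormal ℝ u) (d : E3) (i j k : Fin 3)
    (hij : i ≠ j) (hik : i ≠ k) (hjk : j ≠ k) :
    d = (inner ℝ d (u i)) • u i + (inner ℝ d (u j)) • u j + (inner ℝ d (u k)) • u k := by
  have h := on_expand u hu d
  have key : ∀ f : Fin 3 → E3, f 0 + f 1 + f 2 = f i + f j + f k := by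
    intro f
    fin_cases i <;> fin_cases j <;> fin_cases k <;> simp_all <;> abel
  rw [← key (fun l => (inner ℝ d (u l)) • u l)]
  exact h

/-- Lemma D -/
theorem lemmaD (ψ : E3 → ℝ) (hψ : ConvexOn ℝ Set.univ ψ) (d : E3) (hd : ∀ (y : E3) (t : ℝ), ψ (y + t • d) = ψ y - t)
    (u : Fin 3 → E3) (hu : Orthonormal ℝ u) (hz : ∀ k, ψ (u k) = 0 ∧ ψ (- u k) = 0) (i j k : Fin 3)
    (hij : i ≠ j) (hik : i ≠ k) (hjk : j ≠ k) :
    |inner ℝ d (u i)| < |inner ℝ d (u j)| + |inner ℝ d (u k)| := by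
  by_contra hcon
  push Not at hcon
  set A : ℝ := inner ℝ d (u i) with hA
  set B : ℝ := inner ℝ d (u j) with hB
  set C : ℝ := inner ℝ d (u k) with hC
  have hexp : d = A • u i + B • u j + C • u k := on_expand' u hu d i j k hij hik hjk
  have hA0 : A ≠ 0 := by
    intro h0
    rw [h0, abs_zero] at hcon
    have hB0 : B = 0 := by
      have := abs_nonneg B; have := abs_nonneg C
      exact abs_eq_zero.1 (by linarith)
    have hC0 : C = 0 := by
      have := abs_nonneg B; have := abs_nonneg C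
      exact abs_eq_zero.1 (by linarith)
    have hd0 : d = 0 := by rw [hexp, h0, hB0, hC0]; simp
    have := hd 0 1
    rw [hd0, smul_zero, add_zero] at this
    linarith
  have hApos : 0 < |A| := abs_pos.2 hA0
  -- sign vector
  obtain ⟨σ, hσ, hσA⟩ : ∃ σ : ℝ, (σ = 1 ∨ σ = -1) ∧ |A| = σ * A := by
    rcases le_or_gt 0 A with h | h
    · exact ⟨1, Or.inl rfl, by rw [abs_of_nonneg h]; ring⟩
    · exact ⟨-1, Or.inr rfl, by rw [abs_of_neg h]; ring⟩
  have hσσ : σ * σ = 1 := by rcases hσ with h | h <;> rw [h] <;> norm_num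
  have hAinv : |A|⁻¹ * A = σ := by
    have : A = σ * |A| := by rw [hσA, ← mul_assoc, hσσ, one_mul]
    rw [this, abs_mul, abs_abs]
    rcases hσ with h | h <;> rw [h] <;> simp [hApos.ne']
  have hψu : ψ (σ • u i) = 0 := by
    rcases hσ with h | h
    · rw [h, one_smul]; exact (hz i).1
    · rw [h, neg_smul, one_smul]; exact (hz i).2
  set zz : E3 := (-(|A|⁻¹ * B)) • u j + (-(|A|⁻¹ * C)) • u k with hzz
  have hsig : σ • u i = zz + |A|⁻¹ • d := by
    conv_rhs => rw [hexp]
    rw [hzz, smul_add, smul_add, smul_smul, smul_smul, smul_smul, hAinv]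
    module
  have hψz : ψ zz ≤ 0 := by
    -- convex combination
    have hconv := hψ.2
    have h2 : ∀ x y : E3, ∀ a b : ℝ, 0 ≤ a → 0 ≤ b → a + b = 1 → ψ (a • x + b • y) ≤ a * ψ x + b * ψ y := by
      intro x y a b ha hb hab
      have := hconv (Set.mem_univ x) (Set.mem_univ y) ha hb hab
      simpa using this
    -- points of the segments
    have hseg : ∀ l : Fin 3, ∀ t : ℝ, |t| ≤ 1 → ψ (t • u l) ≤ 0 := by
      intro l t ht
      rw [abs_le] at ht
      have := h2 (u l) (- u l) ((1 + t) / 2) ((1 - t) / 2) (by linarith) (by linarith) (by ring)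
      rw [(hz l).1, (hz l).2] at this
      have e : ((1 + t) / 2) • u l + ((1 - t) / 2) • (- u l) = t • u l := by module
      rw [e] at this
      linarith
    -- combine
    set α := |A|⁻¹ * |B| with hα
    set β := |A|⁻¹ * |C| with hβ
    have hα0 : 0 ≤ α := by positivity
    have hβ0 : 0 ≤ β := by positivity
    have hαβ : α + β ≤ 1 := by
      rw [hα, hβ, ← mul_add, inv_mul_le_iff₀ hApos, mul_one]; exact hcon
    by_cases hb1 : β = 1
    · have ha1 : α = 0 := by linarith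
      have hB0 : B = 0 := by
        rw [hα] at ha1
        rcases mul_eq_zero.1 ha1 with h | h
        · exact absurd (inv_eq_zero.1 h) hApos.ne'
        · exact abs_eq_zero.1 h
      rw [hzz, hB0]
      have : (-(|A|⁻¹ * 0)) • u j + (-(|A|⁻¹ * C)) • u k = (-(|A|⁻¹ * C)) • u k := by simp
      rw [this]
      apply hseg
      rw [abs_neg, abs_mul, abs_inv, abs_abs, ← hβ, hb1]
    · have hb1' : 0 < 1 - β := by
        rcases lt_or_eq_of_le (show β ≤ 1 by linarith) with h | h
        · linarith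
        · exact absurd h hb1
      by_cases hb0 : β = 0
      · have hC0 : C = 0 := by
          rw [hβ] at hb0
          rcases mul_eq_zero.1 hb0 with h | h
          · exact absurd (inv_eq_zero.1 h) hApos.ne'
          · exact abs_eq_zero.1 h
        rw [hzz, hC0]
        have : (-(|A|⁻¹ * B)) • u j + (-(|A|⁻¹ * 0)) • u k = (-(|A|⁻¹ * B)) • u j := by simp
        rw [this]
        apply hseg
        rw [abs_neg, abs_mul, abs_inv, abs_abs, ← hα]; linarith
      · have hb0' : 0 < β := lt_of_le_of_ne hβ0 (Ne.symm hb0)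
        have h3 := h2 ((-(|A|⁻¹ * B) / (1 - β)) • u j) ((-(|A|⁻¹ * C) / β) • u k) (1 - β) β hb1'.le hβ0 (by ring)
        have e : (1 - β) • ((-(|A|⁻¹ * B) / (1 - β)) • u j) + β • ((-(|A|⁻¹ * C) / β) • u k) = zz := by
          rw [smul_smul, smul_smul, mul_div_cancel₀ _ hb1'.ne', mul_div_cancel₀ _ hb0'.ne']
        rw [e] at h3
        have h4 := hseg j (-(|A|⁻¹ * B) / (1 - β)) (by
          rw [abs_div, abs_neg, abs_mul, abs_inv, abs_abs, ← hα, abs_of_pos hb1', div_le_one hb1']; linarith)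
        have h5 := hseg k (-(|A|⁻¹ * C) / β) (by
          rw [abs_div, abs_neg, abs_mul, abs_inv, abs_abs, ← hβ, abs_of_pos hb0', div_self hb0'.ne'])
        nlinarith [mul_nonneg hb1'.le (neg_nonneg.2 h4), mul_nonneg hβ0 (neg_nonneg.2 h5)]
  have := hd zz (|A|⁻¹)
  rw [← hsig, hψu] at this
  have hpos : 0 < |A|⁻¹ := by positivity
  linarith

/-! ### Claim 0 -/

theorem ulim {E : Type*} [TopologicalSpace E] (U : Ultrafilter ℕ) {K : Set E} (hK : IsCompact K)
    (f : ℕ → E) (h : ∀ᶠ n in (U : Filter ℕ), f n ∈ K) : ∃ a ∈ K, Tendsto f U (𝓝 a) := by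
  obtain ⟨a, ha, hle⟩ := hK.ultrafilter_le_nhds (U.map f) (by
    rw [Ultrafilter.coe_map, le_principal_iff, mem_map]; exact h)
  exact ⟨a, ha, hle⟩

theorem gg_nonneg {g : E3 → ℝ} (hg : GoodGauge g) (x : E3) : 0 ≤ g x := by
  obtain ⟨m, hm, hl⟩ := hg.lower
  exact le_trans (by positivity) (hl x)

theorem fs_conv {g : E3 → ℝ} (hg : GoodGauge g) {s : ℝ} (hs : s ∈ Set.Icc (0 : ℝ) 1) (x y : E3) (a b : ℝ)
    (ha : 0 ≤ a) (hb : 0 ≤ b) (hab : a + b = 1) :
    fs g s (a • x + b • y) ≤ a * fs g s x + b * fs g s y := by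
  have h1 : g (a • x + b • y) ≤ a * g x + b * g y := by
    have := hg.sub (a • x) (b • y)
    rwa [hg.hom a ha, hg.hom b hb] at this
  have h2 : ‖a • x + b • y‖ ^ 2 ≤ a * ‖x‖ ^ 2 + b * ‖y‖ ^ 2 := by
    have h3 : ‖a • x + b • y‖ ≤ a * ‖x‖ + b * ‖y‖ := by
      have := norm_add_le (a • x) (b • y)
      rwa [norm_smul, norm_smul, Real.norm_of_nonneg ha, Real.norm_of_nonneg hb] at this
    have h4 : ‖a • x + b • y‖ ^ 2 ≤ (a * ‖x‖ + b * ‖y‖) ^ 2 := pow_le_pow_left₀ (norm_nonneg _) h3 2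
    have hb' : b = 1 - a := by linarith
    subst hb'
    nlinarith [mul_nonneg (mul_nonneg ha hb) (sq_nonneg (‖x‖ - ‖y‖))]
  have hs1 := hs.1
  have hs2 : 0 ≤ 1 - s := by linarith [hs.2]
  have e : a * fs g s x + b * fs g s y = (1 - s) * (a * ‖x‖ ^ 2 + b * ‖y‖ ^ 2) + s * (a * g x + b * g y) - 1 := by
    simp only [fs]
    linear_combination -hab
  rw [e]
  simp only [fs]
  nlinarith [mul_le_mul_of_nonneg_left h2 hs2, mul_le_mul_of_nonneg_left h1 hs1]

/-- blow-up quotients of `g` near the direction `p` -/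
theorem dir_lim {g : E3 → ℝ} (hg : GoodGauge g) {p : E3} {D : E3 → ℝ}
    (hD : ∀ t : ℝ, 0 ≤ t → ∀ x, D (t • x) = t * D x) (hDc : Continuous D)
    (hE : ∀ ε : ℝ, 0 < ε → ∃ η : ℝ, 0 < η ∧ ∀ v : E3, ‖v‖ ≤ η → |g (p + v) - g p - D v| ≤ ε * ‖v‖)
    (U : Ultrafilter ℕ) (a b : ℕ → ℝ) (ha : ∀ n, 0 < a n) (hb : ∀ n, 0 < b n)
    (hba : Tendsto (fun n => b n / a n) U (𝓝 0)) (q : ℕ → E3) (q₀ : E3) (hq : Tendsto q U (𝓝 q₀)) :
    Tendsto (fun n => (g (a n • p + b n • q n) - a n * g p) / b n) U (𝓝 (D q₀)) := by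
  have h1 : Tendsto (fun n => D (q n)) U (𝓝 (D q₀)) := (hDc.tendsto q₀).comp hq
  have h2 : Tendsto (fun n => (g (a n • p + b n • q n) - a n * g p) / b n - D (q n)) U (𝓝 0) := by
    rw [Metric.tendsto_nhds]
    intro ε hε
    set ε' := ε / (2 * (‖q₀‖ + 1)) with hε'
    have hε'0 : 0 < ε' := by positivity
    obtain ⟨η, hη, hη'⟩ := hE ε' hε'0
    have hqn : ∀ᶠ n in (U : Filter ℕ), ‖q n‖ < ‖q₀‖ + 1 :=
      (hq.norm).eventually (gt_mem_nhds (by linarith))
    have hcn : ∀ᶠ n in (U : Filter ℕ), b n / a n < η / (‖q₀‖ + 1) :=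
      hba.eventually (gt_mem_nhds (by positivity))
    filter_upwards [hqn, hcn] with n h3 h4
    have ha' := ha n
    have hb' := hb n
    have hc0 : 0 < b n / a n := by positivity
    have h5 : ‖(b n / a n) • q n‖ ≤ η := by
      rw [norm_smul, Real.norm_of_nonneg hc0.le]
      calc b n / a n * ‖q n‖ ≤ (η / (‖q₀‖ + 1)) * (‖q₀‖ + 1) := by gcongr
        _ = η := by field_simp
    have h6 := hη' _ h5
    have e : (g (a n • p + b n • q n) - a n * g p) / b n - D (q n) =
        (a n / b n) * (g (p + (b n / a n) • q n) - g p - D ((b n / a n) • q n)) := by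
      have e1 : a n • p + b n • q n = a n • (p + (b n / a n) • q n) := by
        rw [smul_add, smul_smul]; congr 2; field_simp
      rw [e1, hg.hom _ ha'.le, hD _ hc0.le]
      field_simp
    rw [dist_zero_right, e, norm_mul, Real.norm_of_nonneg (by positivity : 0 ≤ a n / b n), Real.norm_eq_abs]
    calc a n / b n * |g (p + (b n / a n) • q n) - g p - D ((b n / a n) • q n)|
        ≤ a n / b n * (ε' * ‖(b n / a n) • q n‖) := by gcongr
      _ = ε' * ‖q n‖ := by
          rw [norm_smul, Real.norm_of_nonneg hc0.le]; field_simp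
      _ ≤ ε' * (‖q₀‖ + 1) := by gcongr
      _ = ε / 2 := by rw [hε']; field_simp
      _ < ε := by linarith
  have h3 := h2.add h1
  simpa using h3

/-- slopes of `g` -/
theorem g_slope_up {g : E3 → ℝ} (hg : GoodGauge g) (y w : E3) {τ B : ℝ} (h0 : 0 ≤ τ) (h1 : τ ≤ B) (hB : 0 < B) :
    g (y + τ • w) - g y ≤ τ * ((g (y + B • w) - g y) / B) := by
  have h := hg.sub ((B - τ) • y) (τ • (y + B • w))
  rw [hg.hom _ (by linarith), hg.hom _ h0] at h
  have e : (B - τ) • y + τ • (y + B • w) = B • (y + τ • w) := by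
    rw [smul_add, smul_add, smul_smul, smul_smul, mul_comm τ B]; module
  rw [e, hg.hom _ hB.le] at h
  rw [mul_div_assoc', le_div_iff₀ hB]
  nlinarith

theorem g_slope_down {g : E3 → ℝ} (hg : GoodGauge g) (y w : E3) {τ B : ℝ} (h0 : 0 ≤ τ) (hB : 0 < B) :
    τ * ((g y - g (y - B • w)) / B) ≤ g (y + τ • w) - g y := by
  have h := hg.sub (B • (y + τ • w)) (τ • (y - B • w))
  rw [hg.hom _ hB.le, hg.hom _ h0] at h
  have e : B • (y + τ • w) + τ • (y - B • w) = (B + τ) • y := by
    rw [smul_add, smul_sub, smul_smul, smul_smul, mul_comm τ B]; module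
  rw [e, hg.hom _ (by linarith)] at h
  rw [mul_div_assoc', div_le_iff₀ hB]
  nlinarith

theorem P_diff (g : E3 → ℝ) (s lam : ℝ) (hlam : 0 < lam) (x v z : E3) (t : ℝ) :
    fs g s (x + lam • (v + t • z)) / lam - fs g s (x + lam • v) / lam =
      (1 - s) * (2 * t * inner ℝ (x + lam • v) z + lam * t ^ 2 * ‖z‖ ^ 2) +
      s * ((g (x + lam • v + (lam * t) • z) - g (x + lam • v)) / lam) := by
  have e : x + lam • (v + t • z) = x + lam • v + (lam * t) • z := by
    rw [smul_add, smul_smul, add_assoc]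
  rw [e]
  simp only [fs]
  rw [norm_add_sq_real, inner_smul_right, norm_smul, Real.norm_eq_abs, mul_pow, sq_abs]
  field_simp
  ring

theorem g_radial {g : E3 → ℝ} (hg : GoodGauge g) {M : ℝ} (hM : ∀ x y, |g x - g y| ≤ M * ‖x - y‖)
    (x v : E3) {lam t : ℝ} (hlam : 0 < lam) (ht : 0 ≤ t) :
    |(g (x + lam • v + (lam * t) • x) - g (x + lam • v)) / lam - t * g (x + lam • v)| ≤ M * (lam * t * ‖v‖) := by
  set c := 1 + lam * t with hc
  have hc0 : 0 < c := by positivity
  have e1 : x + lam • v + (lam * t) • x = c • (x + (lam / c) • v) := by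
    rw [smul_add, smul_smul, mul_div_cancel₀ _ hc0.ne', hc]; module
  have h1 := hM (x + (lam / c) • v) (x + lam • v)
  have e2 : x + (lam / c) • v - (x + lam • v) = (lam / c - lam) • v := by module
  rw [e2, norm_smul, Real.norm_eq_abs] at h1
  have e3 : |lam / c - lam| = lam ^ 2 * t / c := by
    have : lam / c - lam = - (lam ^ 2 * t / c) := by rw [hc]; field_simp; ring
    rw [this, abs_neg, abs_of_nonneg (by positivity)]
  rw [e3] at h1
  rw [e1, hg.hom _ hc0.le]
  have e4 : (c * g (x + (lam / c) • v) - g (x + lam • v)) / lam - t * g (x + lam • v) =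
      (c / lam) * (g (x + (lam / c) • v) - g (x + lam • v)) := by
    rw [hc]; field_simp; ring
  rw [e4, abs_mul, abs_of_pos (by positivity : 0 < c / lam)]
  calc c / lam * |g (x + (lam / c) • v) - g (x + lam • v)| ≤ c / lam * (M * (lam ^ 2 * t / c * ‖v‖)) := by gcongr
    _ = M * (lam * t * ‖v‖) := by field_simp

theorem claim0_core {g : E3 → ℝ} (hg : GoodGauge g) {p : E3} (hp : ‖p‖ = 1)
    (U : Ultrafilter ℕ) (lam a b s : ℕ → ℝ) (w x : ℕ → E3) (u : ℕ → Fin 3 → E3)
    (hlam : ∀ n, 0 < lam n) (hlam0 : Tendsto lam U (𝓝 0))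
    (ha : ∀ n, 0 < a n) (hb : ∀ n, 0 < b n) (hb0 : Tendsto b U (𝓝 0))
    (hlb : Tendsto (fun n => lam n / b n) U (𝓝 0))
    (hs : ∀ n, s n ∈ Set.Icc (0:ℝ) 1) (hw : ∀ n, ‖w n‖ = 1) (hwp : ∀ n, inner ℝ (w n) p = 0)
    (hx : ∀ n, x n = a n • p + b n • w n)
    (κ R : ℝ) (hκ : 0 < κ) (hxκ : ∀ n, κ ≤ ‖x n‖) (hxR : ∀ n, ‖x n‖ ≤ R)
    (hu : ∀ n, Orthonormal ℝ (u n))
    (hz : ∀ n k, fs g (s n) (x n + lam n • u n k) = 0 ∧ fs g (s n) (x n - lam n • u n k) = 0) : False := by
  have hpp : inner ℝ p p = (1 : ℝ) := by rw [real_inner_self_eq_norm_sq, hp]; norm_num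
  have hax : ∀ n, a n = inner ℝ (x n) p := by
    intro n
    rw [hx n, inner_add_left, inner_smul_left, inner_smul_left, hpp, hwp n]; simp
  have haR : ∀ n, a n ∈ Set.Icc 0 R := by
    intro n
    refine ⟨(ha n).le, ?_⟩
    rw [hax n]
    calc inner ℝ (x n) p ≤ ‖x n‖ * ‖p‖ := real_inner_le_norm _ _
      _ ≤ R := by rw [hp, mul_one]; exact hxR n
  obtain ⟨r, hr, hra⟩ := ulim U isCompact_Icc a (Eventually.of_forall haR)
  obtain ⟨s₀, hs₀, hss⟩ := ulim U isCompact_Icc s (Eventually.of_forall hs)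
  obtain ⟨w₀, hw₀, hww⟩ := ulim U (isCompact_sphere (0:E3) 1) w (Eventually.of_forall (fun n => by simp [hw]))
  have hw₀' : ‖w₀‖ = 1 := by simpa using hw₀
  have hu1 : ∀ k, ∃ c, Tendsto (fun n => u n k) U (𝓝 c) := by
    intro k
    obtain ⟨c, _, hc⟩ := ulim U (isCompact_sphere (0:E3) 1) (fun n => u n k)
      (Eventually.of_forall (fun n => by simp [(hu n).1 k]))
    exact ⟨c, hc⟩
  choose u₀ huu using hu1
  have hu₀ : Orthonormal ℝ u₀ := by
    rw [orthonormal_iff_ite]
    intro i j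
    have h1 : Tendsto (fun n => inner ℝ (u n i) (u n j)) U (𝓝 (inner ℝ (u₀ i) (u₀ j))) := (huu i).inner (huu j)
    have h2 : (fun n => inner ℝ (u n i) (u n j)) = fun _ => if i = j then (1:ℝ) else 0 := by
      funext n
      exact (orthonormal_iff_ite.1 (hu n)) i j
    rw [h2] at h1
    exact tendsto_nhds_unique h1 tendsto_const_nhds
  have hxx : Tendsto x U (𝓝 (r • p)) := by
    have h1 : Tendsto (fun n => a n • p + b n • w n) U (𝓝 (r • p + (0:ℝ) • w₀)) :=
      (hra.smul_const p).add (hb0.smul hww)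
    rw [zero_smul, add_zero] at h1
    exact h1.congr (fun n => (hx n).symm)
  have hr0 : 0 < r := by
    have h1 : κ ≤ ‖r • p‖ := ge_of_tendsto' hxx.norm hxκ
    rw [norm_smul, hp, mul_one, Real.norm_of_nonneg hr.1] at h1
    linarith
  have hba : Tendsto (fun n => b n / a n) U (𝓝 0) := by
    have := hb0.div hra hr0.ne'
    rwa [zero_div] at this
  have hw₀p : inner ℝ w₀ p = (0:ℝ) := by
    have h1 : Tendsto (fun n => inner ℝ (w n) p) U (𝓝 (inner ℝ w₀ p)) := hww.inner tendsto_const_nhds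
    have h2 : (fun n => inner ℝ (w n) p) = fun _ => (0:ℝ) := by funext n; exact hwp n
    rw [h2] at h1
    exact tendsto_nhds_unique h1 tendsto_const_nhds
  obtain ⟨L, hL, hLip⟩ := fs_lipschitz g hg (R + 1)
  obtain ⟨M, hM, hMl⟩ := gg_lip hg
  obtain ⟨P, hPdef⟩ : ∃ P : ℕ → E3 → ℝ, ∀ n v, P n v = fs g (s n) (x n + lam n • v) / lam n := ⟨_, fun _ _ => rfl⟩
  have hPL : ∀ V : ℝ, ∀ᶠ n in (U : Filter ℕ), ∀ v v', ‖v‖ ≤ V → ‖v'‖ ≤ V →
      |P n v - P n v'| ≤ L * ‖v - v'‖ := by
    intro V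
    have h1 : ∀ᶠ n in (U : Filter ℕ), lam n * V < 1 := by
      have := hlam0.mul_const V
      rw [zero_mul] at this
      exact this.eventually (gt_mem_nhds one_pos)
    filter_upwards [h1] with n hn v v' hv hv'
    have hb1 : ∀ v : E3, ‖v‖ ≤ V → ‖x n + lam n • v‖ ≤ R + 1 := by
      intro v hv
      calc ‖x n + lam n • v‖ ≤ ‖x n‖ + ‖lam n • v‖ := norm_add_le _ _
        _ ≤ R + 1 := by
          rw [norm_smul, Real.norm_of_nonneg (hlam n).le]
          have := mul_le_mul_of_nonneg_left hv (hlam n).le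
          linarith [hxR n]
    have h2 := hLip (s n) (hs n) _ _ (hb1 v hv) (hb1 v' hv')
    have e : x n + lam n • v - (x n + lam n • v') = lam n • (v - v') := by module
    rw [e, norm_smul, Real.norm_of_nonneg (hlam n).le] at h2
    rw [hPdef, hPdef, ← sub_div, abs_div, abs_of_pos (hlam n), div_le_iff₀ (hlam n)]
    linarith
  have hP0 : ∀ n k, P n (u n k) = 0 ∧ P n (- u n k) = 0 := by
    intro n k
    rw [hPdef, hPdef, (hz n k).1, smul_neg, ← sub_eq_add_neg, (hz n k).2]
    simp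
  have hun : ∀ n k, ‖u n k‖ = 1 := fun n k => (hu n).1 k
  have hPlim : ∀ v, ∃ c, Tendsto (fun n => P n v) U (𝓝 c) := by
    intro v
    obtain ⟨c, _, hc⟩ := ulim U (isCompact_Icc (a := -(L * (‖v‖ + 1))) (b := L * (‖v‖ + 1))) (fun n => P n v) (by
      filter_upwards [hPL (max ‖v‖ 1)] with n hn
      have h1 := hn v (u n 0) (le_max_left _ _) (by rw [hun]; exact le_max_right _ _)
      rw [(hP0 n 0).1, sub_zero] at h1
      have h2 : ‖v - u n 0‖ ≤ ‖v‖ + 1 := by
        have := norm_sub_le v (u n 0)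
        rwa [hun] at this
      have h3 : |P n v| ≤ L * (‖v‖ + 1) := h1.trans (by gcongr)
      exact abs_le.1 h3)
    exact ⟨c, hc⟩
  choose ψ hψ using hPlim
  have hψ0 : ∀ k, ψ (u₀ k) = 0 ∧ ψ (- u₀ k) = 0 := by
    intro k
    have hk : Tendsto (fun n => L * ‖u₀ k - u n k‖) U (𝓝 0) := by
      have := ((tendsto_const_nhds (x := u₀ k)).sub (huu k)).norm.const_mul L
      simpa using this
    have hu₀k : ‖u₀ k‖ = 1 := hu₀.1 k
    constructor
    · refine tendsto_nhds_unique (hψ _) (squeeze_zero_norm' ?_ hk)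
      filter_upwards [hPL 1] with n hn
      have := hn (u₀ k) (u n k) hu₀k.le (hun n k).le
      rwa [(hP0 n k).1, sub_zero] at this
    · refine tendsto_nhds_unique (hψ _) (squeeze_zero_norm' ?_ hk)
      filter_upwards [hPL 1] with n hn
      have := hn (- u₀ k) (- u n k) (by rw [norm_neg]; exact hu₀k.le) (by rw [norm_neg]; exact (hun n k).le)
      rw [(hP0 n k).2, sub_zero] at this
      have e : - u₀ k - - u n k = - (u₀ k - u n k) := by abel
      rwa [e, norm_neg] at this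
  have hψc : ConvexOn ℝ Set.univ ψ := by
    refine ⟨convex_univ, fun v _ v' _ α β hα hβ hαβ => ?_⟩
    simp only [smul_eq_mul]
    refine le_of_tendsto_of_tendsto' (hψ _) (((hψ v).const_mul α).add ((hψ v').const_mul β)) (fun n => ?_)
    rw [hPdef, hPdef, hPdef]
    have e : x n + lam n • (α • v + β • v') = α • (x n + lam n • v) + β • (x n + lam n • v') := by
      have e1 : x n = α • x n + β • x n := by rw [← add_smul, hαβ, one_smul]
      conv_lhs => rw [e1]
      module
    rw [e, mul_div_assoc', mul_div_assoc', ← add_div]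
    exact div_le_div_of_nonneg_right (fs_conv hg (hs n) _ _ _ _ hα hβ hαβ) (hlam n).le
  set μ : ℝ := (1 - s₀) * (2 * r ^ 2) + s₀ * g (r • p) with hμ
  have hμ0 : 0 < μ := by
    obtain ⟨m, hm, hml⟩ := hg.lower
    have h1 := hml (r • p)
    rw [norm_smul, hp, mul_one, Real.norm_of_nonneg hr0.le] at h1
    have h2 : 0 < g (r • p) := lt_of_lt_of_le (by positivity) h1
    have h3 := hs₀.1
    have h4 := hs₀.2
    rcases lt_or_eq_of_le h4 with h5 | h5
    · have : 0 < (1 - s₀) * (2 * r ^ 2) := by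
        apply mul_pos (by linarith) (by positivity)
      have := mul_nonneg h3 h2.le
      linarith
    · rw [hμ, h5]; simpa using h2
  have hxv : ∀ v : E3, Tendsto (fun n => x n + lam n • v) U (𝓝 (r • p)) := by
    intro v
    have := hxx.add (hlam0.smul_const v)
    simpa using this
  -- radial direction
  have lin1 : ∀ (v : E3) (t : ℝ), 0 ≤ t → ψ (v + t • (r • p)) = ψ v + t * μ := by
    intro v t ht
    have T1 : Tendsto (fun n => P n (v + t • x n) - P n v) U (𝓝 (t * μ)) := by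
      have hA : Tendsto (fun n => (1 - s n) * (2 * t * inner ℝ (x n + lam n • v) (x n) + lam n * t ^ 2 * ‖x n‖ ^ 2)) U
          (𝓝 ((1 - s₀) * (2 * t * inner ℝ (r • p) (r • p) + 0 * t ^ 2 * ‖r • p‖ ^ 2))) :=
        (tendsto_const_nhds.sub hss).mul ((((hxv v).inner hxx).const_mul (2 * t)).add
          ((hlam0.mul_const (t ^ 2)).mul (hxx.norm.pow 2)))
      have hB : Tendsto (fun n => (g (x n + lam n • v + (lam n * t) • x n) - g (x n + lam n • v)) / lam n -
          t * g (x n + lam n • v)) U (𝓝 0) := by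
        refine squeeze_zero_norm (fun n => g_radial hg hMl (x n) v (hlam n) ht) ?_
        have := ((hlam0.mul_const t).mul_const ‖v‖).const_mul M
        simpa using this
      have hC : Tendsto (fun n => t * g (x n + lam n • v)) U (𝓝 (t * g (r • p))) :=
        (((gg_cont hg).tendsto _).comp (hxv v)).const_mul t
      have hD := hA.add (hss.mul (hB.add hC))
      have e : (1 - s₀) * (2 * t * inner ℝ (r • p) (r • p) + 0 * t ^ 2 * ‖r • p‖ ^ 2) + s₀ * (0 + t * g (r • p)) = t * μ := by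
        rw [inner_smul_left, inner_smul_right, hpp, hμ]
        simp only [conj_trivial]
        ring
      rw [e] at hD
      refine hD.congr (fun n => ?_)
      rw [hPdef, hPdef, P_diff g (s n) (lam n) (hlam n) (x n) v (x n) t]
      ring
    have T2 : Tendsto (fun n => P n (v + t • (r • p)) - P n (v + t • x n)) U (𝓝 0) := by
      have hk : Tendsto (fun n => L * ‖v + t • (r • p) - (v + t • x n)‖) U (𝓝 0) := by
        have h1 : Tendsto (fun n => v + t • (r • p) - (v + t • x n)) U (𝓝 (v + t • (r • p) - (v + t • (r • p)))) :=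
          tendsto_const_nhds.sub (tendsto_const_nhds.add (hxx.const_smul t))
        have := h1.norm.const_mul L
        simpa using this
      refine squeeze_zero_norm' ?_ hk
      filter_upwards [hPL (‖v‖ + t * R)] with n hn
      apply hn
      · have h1 : ‖r • p‖ ≤ R := le_of_tendsto' hxx.norm hxR
        calc ‖v + t • (r • p)‖ ≤ ‖v‖ + ‖t • (r • p)‖ := norm_add_le _ _
          _ ≤ ‖v‖ + t * R := by rw [norm_smul, Real.norm_of_nonneg ht]; gcongr
      · calc ‖v + t • x n‖ ≤ ‖v‖ + ‖t • x n‖ := norm_add_le _ _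
          _ ≤ ‖v‖ + t * R := by rw [norm_smul, Real.norm_of_nonneg ht]; gcongr; exact hxR n
    have h3 := (T2.add T1).add (hψ v)
    have h4 := tendsto_nhds_unique (hψ (v + t • (r • p))) (h3.congr (fun n => by ring))
    rw [h4]; ring
  -- transversal direction
  have lin2 : ∀ (v : E3) (t : ℝ), 0 ≤ t → ψ (v + t • w₀) = ψ v + t * (s₀ * dD g p w₀) := by
    intro v t ht
    have hDh := dD_hom hg p
    have hDc := dD_cont hg p
    have hDe := dD_err hg p
    have hq0 : Tendsto (fun n => w n + (lam n / b n) • v) U (𝓝 w₀) := by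
      have := hww.add (hlb.smul_const v)
      simpa using this
    have hqp : Tendsto (fun n => w n + (lam n / b n) • v + (1/2 : ℝ) • w₀) U (𝓝 (w₀ + (1/2 : ℝ) • w₀)) :=
      hq0.add tendsto_const_nhds
    have hqm : Tendsto (fun n => w n + (lam n / b n) • v - (1/2 : ℝ) • w₀) U (𝓝 (w₀ - (1/2 : ℝ) • w₀)) :=
      hq0.sub tendsto_const_nhds
    have L0 := dir_lim hg hDh hDc hDe U a b ha hb hba _ _ hq0
    have Lp := dir_lim hg hDh hDc hDe U a b ha hb hba _ _ hqp
    have Lm := dir_lim hg hDh hDc hDe U a b ha hb hba _ _ hqm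
    have e1 : w₀ + (1/2 : ℝ) • w₀ = (3/2 : ℝ) • w₀ := by module
    have e2 : w₀ - (1/2 : ℝ) • w₀ = (1/2 : ℝ) • w₀ := by module
    rw [e1, hDh _ (by norm_num)] at Lp
    rw [e2, hDh _ (by norm_num)] at Lm
    have ey : ∀ n, a n • p + b n • (w n + (lam n / b n) • v) = x n + lam n • v := by
      intro n
      rw [hx n, smul_add, smul_smul, mul_div_cancel₀ _ (hb n).ne']; abel
    have eyp : ∀ n, a n • p + b n • (w n + (lam n / b n) • v + (1/2 : ℝ) • w₀) = x n + lam n • v + (b n / 2) • w₀ := by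
      intro n
      rw [smul_add, ← add_assoc, ey n, smul_smul]; congr 2; ring
    have eym : ∀ n, a n • p + b n • (w n + (lam n / b n) • v - (1/2 : ℝ) • w₀) = x n + lam n • v - (b n / 2) • w₀ := by
      intro n
      rw [smul_sub, ← add_sub_assoc, ey n, smul_smul]; congr 2; ring
    simp only [ey] at L0
    simp only [eyp] at Lp
    simp only [eym] at Lm
    have Sp : Tendsto (fun n => t * ((g (x n + lam n • v + (b n / 2) • w₀) - g (x n + lam n • v)) / (b n / 2))) U
        (𝓝 (t * dD g p w₀)) := by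
      have h1 := ((Lp.sub L0).const_mul 2).const_mul t
      have e3 : t * (2 * (3 / 2 * dD g p w₀ - dD g p w₀)) = t * dD g p w₀ := by ring
      rw [e3] at h1
      refine h1.congr (fun n => ?_)
      have := (hb n).ne'
      field_simp
      ring
    have Sm : Tendsto (fun n => t * ((g (x n + lam n • v) - g (x n + lam n • v - (b n / 2) • w₀)) / (b n / 2))) U
        (𝓝 (t * dD g p w₀)) := by
      have h1 := ((L0.sub Lm).const_mul 2).const_mul t
      have e3 : t * (2 * (dD g p w₀ - 1 / 2 * dD g p w₀)) = t * dD g p w₀ := by ring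
      rw [e3] at h1
      refine h1.congr (fun n => ?_)
      have := (hb n).ne'
      field_simp
      ring
    have hB : Tendsto (fun n => (g (x n + lam n • v + (lam n * t) • w₀) - g (x n + lam n • v)) / lam n) U
        (𝓝 (t * dD g p w₀)) := by
      refine tendsto_of_tendsto_of_tendsto_of_le_of_le' Sm Sp ?_ ?_
      · refine Eventually.of_forall (fun n => ?_)
        have h1 := g_slope_down hg (x n + lam n • v) w₀ (τ := lam n * t) (B := b n / 2)
          (mul_nonneg (hlam n).le ht) (by have := hb n; linarith)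
        show _ ≤ _
        rw [le_div_iff₀ (hlam n)]
        linarith
      · have h0 : ∀ᶠ n in (U : Filter ℕ), lam n / b n * t < 1 / 2 := by
          have := hlb.mul_const t
          rw [zero_mul] at this
          exact this.eventually (gt_mem_nhds (by norm_num))
        filter_upwards [h0] with n hn
        have hbn := hb n
        have h2 : lam n * t ≤ b n / 2 := by
          have e : lam n / b n * t = (lam n * t) / b n := by ring
          rw [e, div_lt_iff₀ hbn] at hn
          linarith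
        have h1 := g_slope_up hg (x n + lam n • v) w₀ (τ := lam n * t) (B := b n / 2)
          (mul_nonneg (hlam n).le ht) h2 (by linarith)
        rw [div_le_iff₀ (hlam n)]
        linarith
    have hA : Tendsto (fun n => (1 - s n) * (2 * t * inner ℝ (x n + lam n • v) w₀ + lam n * t ^ 2 * ‖w₀‖ ^ 2)) U
        (𝓝 ((1 - s₀) * (2 * t * inner ℝ (r • p) w₀ + 0 * t ^ 2 * ‖w₀‖ ^ 2))) :=
      (tendsto_const_nhds.sub hss).mul ((((hxv v).inner tendsto_const_nhds).const_mul (2 * t)).add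
        ((hlam0.mul_const (t ^ 2)).mul_const _))
    have hD := hA.add (hss.mul hB)
    have e : (1 - s₀) * (2 * t * inner ℝ (r • p) w₀ + 0 * t ^ 2 * ‖w₀‖ ^ 2) + s₀ * (t * dD g p w₀) =
        t * (s₀ * dD g p w₀) := by
      rw [inner_smul_left, real_inner_comm w₀ p, hw₀p]
      simp only [conj_trivial]
      ring
    rw [e] at hD
    have T1 : Tendsto (fun n => P n (v + t • w₀) - P n v) U (𝓝 (t * (s₀ * dD g p w₀))) := by
      refine hD.congr (fun n => ?_)
      rw [hPdef, hPdef, P_diff g (s n) (lam n) (hlam n) (x n) v w₀ t]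
    have h3 := T1.add (hψ v)
    have h4 := tendsto_nhds_unique (hψ (v + t • w₀)) (h3.congr (fun n => by ring))
    rw [h4]; ring
  -- extension to all `t`
  have ext : ∀ (c : E3) (ν : ℝ), (∀ (v : E3) (t : ℝ), 0 ≤ t → ψ (v + t • c) = ψ v + t * ν) →
      ∀ (v : E3) (t : ℝ), ψ (v + t • c) = ψ v + t * ν := by
    intro c ν h v t
    rcases le_or_gt 0 t with ht | ht
    · exact h v t ht
    · have := h (v + t • c) (-t) (by linarith)
      have e : v + t • c + (-t) • c = v := by module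
      rw [e] at this
      rw [this]; ring
  have lin1' := ext _ _ lin1
  have lin2' := ext _ _ lin2
  set ν : ℝ := s₀ * dD g p w₀ with hν
  set l : E3 := w₀ - (ν / μ) • (r • p) with hl
  set d : E3 := (-(1 / μ)) • (r • p) with hd
  have key : ∀ (τ : ℝ) (y : E3) (t : ℝ), ψ (y + t • (d + τ • l)) = ψ y - t := by
    intro τ y t
    have e : y + t • (d + τ • l) = y + (t * τ) • w₀ + (t * (-(1 / μ) - τ * (ν / μ))) • (r • p) := by
      rw [hl, hd]; module
    rw [e, lin1', lin2']
    field_simp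
    ring
  have hne : ∀ (τ : ℝ) (i : Fin 3), inner ℝ (d + τ • l) (u₀ i) ≠ (0:ℝ) := by
    intro τ i h0
    have hLD := lemmaD ψ hψc (d + τ • l) (key τ) u₀ hu₀ hψ0
    obtain ⟨j, k, hij, hik, hjk⟩ : ∃ j k : Fin 3, i ≠ j ∧ i ≠ k ∧ j ≠ k := by
      fin_cases i
      · exact ⟨1, 2, by decide, by decide, by decide⟩
      · exact ⟨0, 2, by decide, by decide, by decide⟩
      · exact ⟨0, 1, by decide, by decide, by decide⟩
    have h1 := hLD j i k hij.symm hjk hik
    have h2 := hLD k i j hik.symm hjk.symm hij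
    rw [h0, abs_zero, zero_add] at h1 h2
    linarith
  have hl0 : ∀ i, inner ℝ l (u₀ i) = (0:ℝ) := by
    intro i
    by_contra h
    have e : ∀ τ : ℝ, inner ℝ (d + τ • l) (u₀ i) = inner ℝ d (u₀ i) + τ * (inner ℝ l (u₀ i) : ℝ) := by
      intro τ
      rw [inner_add_left, real_inner_smul_left l]
    apply hne (-(inner ℝ d (u₀ i)) / inner ℝ l (u₀ i)) i
    rw [e, div_mul_cancel₀ _ h, add_neg_cancel]
  have hlz : l = 0 := by
    rw [on_expand u₀ hu₀ l, hl0, hl0, hl0]; simp
  have : inner ℝ l w₀ = (1:ℝ) := by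
    rw [hl, inner_sub_left, inner_smul_left, inner_smul_left, real_inner_self_eq_norm_sq, hw₀', real_inner_comm w₀ p, hw₀p]
    simp
  rw [hlz, inner_zero_left] at this
  exact zero_ne_one this

theorem claim0 (g : E3 → ℝ) (hg : GoodGauge g) (p : E3) (hp : ‖p‖ = 1) :
    ∃ C η Λ : ℝ, 0 < C ∧ 0 < η ∧ 0 < Λ ∧ ∀ lam : ℝ, 0 < lam → lam < Λ → ∀ z ∈ Zset g lam,
      0 < inner ℝ z.1 p → ‖z.1 - (inner ℝ z.1 p) • p‖ ≤ η → ‖z.1 - (inner ℝ z.1 p) • p‖ ≤ C * lam := by
  by_contra hcon
  push Not at hcon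
  have hpp : inner ℝ p p = (1 : ℝ) := by rw [real_inner_self_eq_norm_sq, hp]; norm_num
  obtain ⟨κ, Λ₀, hκ, hΛ₀, hcoord⟩ := coord_lower g hg
  obtain ⟨R, hR, hRb⟩ := center_bound g hg
  have hch : ∀ n : ℕ, ∃ lam : ℝ, 0 < lam ∧ lam < min Λ₀ (1 / ((n:ℝ) + 1)) ∧ ∃ z ∈ Zset g lam,
      0 < inner ℝ z.1 p ∧ ‖z.1 - (inner ℝ z.1 p) • p‖ ≤ 1 / ((n:ℝ) + 1) ∧
      ((n:ℝ) + 1) * lam < ‖z.1 - (inner ℝ z.1 p) • p‖ := by
    intro n
    obtain ⟨lam, h1, h2, z, h3, h4, h5, h6⟩ := hcon ((n:ℝ) + 1) (1 / ((n:ℝ) + 1)) (min Λ₀ (1 / ((n:ℝ) + 1)))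
      (by positivity) (by positivity) (by positivity)
    exact ⟨lam, h1, h2, z, h3, h4, h5, h6⟩
  choose lam h1 h2 z h3 h4 h5 h6 using hch
  have hone : Tendsto (fun n : ℕ => 1 / ((n:ℝ) + 1)) atTop (𝓝 0) := tendsto_one_div_add_atTop_nhds_zero_nat
  have hU : ((hyperfilter ℕ : Ultrafilter ℕ) : Filter ℕ) ≤ atTop := Nat.hyperfilter_le_atTop
  set b : ℕ → ℝ := fun n => ‖(z n).1 - (inner ℝ (z n).1 p) • p‖ with hb
  have hbpos : ∀ n, 0 < b n := fun n => lt_trans (mul_pos (by positivity) (h1 n)) (h6 n)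
  refine claim0_core hg hp (hyperfilter ℕ) lam (fun n => inner ℝ (z n).1 p) b (fun n => (z n).2.1)
    (fun n => (b n)⁻¹ • ((z n).1 - (inner ℝ (z n).1 p) • p)) (fun n => (z n).1) (fun n => fr (z n).2.2)
    h1 ?_ h4 hbpos ?_ ?_ ?_ ?_ ?_ ?_ κ R hκ ?_ ?_ ?_ ?_
  · refine (squeeze_zero (fun n => (h1 n).le) (fun n => ?_) hone).mono_left hU
    exact ((h2 n).trans_le (min_le_right _ _)).le
  · exact (squeeze_zero (fun n => (hbpos n).le) h5 hone).mono_left hU
  · refine (squeeze_zero (fun n => (div_pos (h1 n) (hbpos n)).le) (fun n => ?_) hone).mono_left hU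
    rw [div_le_div_iff₀ (hbpos n) (by positivity), one_mul, mul_comm]
    exact (h6 n).le
  · intro n
    obtain ⟨q1, q2, q3, q4⟩ := h3 n
    exact ⟨q1.le, q2.le⟩
  · intro n
    rw [norm_smul, norm_inv, Real.norm_of_nonneg (hbpos n).le]
    exact inv_mul_cancel₀ (hbpos n).ne'
  · intro n
    rw [real_inner_smul_left, inner_sub_left, real_inner_smul_left, hpp]; simp
  · intro n
    show (z n).1 = _
    rw [smul_smul, mul_inv_cancel₀ (hbpos n).ne', one_smul]; abel
  · intro n
    have := hcoord (lam n) (h1 n) ((h2 n).trans_le (min_le_left _ _)) (z n) (h3 n) 0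
    refine this.trans ?_
    have hf : ‖fr (z n).2.2 0‖ = 1 := (fr_orthonormal _ (h3 n).2.2.1).1 0
    have := abs_real_inner_le_norm (z n).1 (fr (z n).2.2 0)
    rwa [hf, mul_one] at this
  · intro n
    exact hRb (lam n) (z n) (h3 n)
  · intro n
    exact fr_orthonormal _ (h3 n).2.2.1
  · intro n k
    exact (h3 n).2.2.2 k

end Pool.Agent.Octa
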