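import Mathlib

/-! module CLIMB part 1: a two dimensional discrete Miranda theorem (Sperner) -/

set_option autoImplicit false

namespace Pool.Agent.Octa

/-- one dimensional discrete intermediate value theorem -/
theorem miranda1 (n : ℕ) (f : ℕ → ℝ) (δ : ℝ) (hδ : 0 ≤ δ) (h0 : 0 ≤ f 0) (hn : f n ≤ 0)
    (hf : ∀ k, k < n → |f k - f (k + 1)| ≤ δ) : ∃ k, k ≤ n ∧ |f k| ≤ δ := by
  induction n with
  | zero =>
    refine ⟨0, le_rfl, ?_⟩
    have : f 0 = 0 := le_antisymm hn h0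
    rw [this, abs_zero]; exact hδ
  | succ n ih =>
    by_cases h : f n ≤ 0
    · obtain ⟨k, hk, hk'⟩ := ih h (fun k hk => hf k (by omega))
      exact ⟨k, by omega, hk'⟩
    · refine ⟨n, by omega, ?_⟩
      push Not at h
      have := abs_le.mp (hf n (by omega))
      rw [abs_le]
      constructor <;> linarith [this.1, this.2]

/-- the labels: `1` where `D ≤ 0`, `2` where `D ≥ 0 ≥ P`, `0` where `D, P ≥ 0` -/
private noncomputable def lab (m n : ℕ) (D P : ℕ → ℕ → ℝ) (i k : ℕ) : Fin 3 :=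
  if i = m ∨ D i k < 0 then 1 else if k = n ∨ P i k < 0 then 2 else 0

/-- the edge indicator: the two labels are `0` and `1` -/
private def ed (a b : Fin 3) : ZMod 2 := if (a = 0 ∧ b = 1) ∨ (a = 1 ∧ b = 0) then 1 else 0

private lemma ed_triangle : ∀ a b c : Fin 3, ¬ ((a = 0 ∨ b = 0 ∨ c = 0) ∧ (a = 1 ∨ b = 1 ∨ c = 1) ∧
    (a = 2 ∨ b = 2 ∨ c = 2)) → ed a b + ed b c + ed a c = 0 := by decide

private lemma ed_01 : ∀ a b : Fin 3, a ≠ 2 → b ≠ 2 →
    ed a b = (if b = 1 then 1 else 0) - (if a = 1 then 1 else 0) := by decide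

private lemma ed_02 : ∀ a b : Fin 3, a ≠ 1 → b ≠ 1 → ed a b = 0 := by decide

private lemma ed_12 : ∀ a b : Fin 3, a ≠ 0 → b ≠ 0 → ed a b = 0 := by decide

/-- Sperner's lemma in the rectangle -/
private lemma sperner (m n : ℕ) (l : ℕ → ℕ → Fin 3) (h0 : ∀ k ≤ n, l 0 k ≠ 1)
    (hm : ∀ k ≤ n, l m k = 1) (hb : ∀ i ≤ m, l i 0 ≠ 2) (ht : ∀ i ≤ m, l i n ≠ 0)
    (hno : ∀ i k, i < m → k < n → (ed (l i k) (l (i + 1) k) + ed (l (i + 1) k) (l (i + 1) (k + 1)) +
        ed (l i k) (l (i + 1) (k + 1)) = 0) ∧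
      (ed (l i k) (l i (k + 1)) + ed (l i (k + 1)) (l (i + 1) (k + 1)) +
        ed (l i k) (l (i + 1) (k + 1)) = 0)) : False := by
  have hrow : ∀ k, k < n → ∑ i ∈ Finset.range m, ed (l i (k + 1)) (l (i + 1) (k + 1)) =
      ∑ i ∈ Finset.range m, ed (l i k) (l (i + 1) k) := by
    intro k hk
    have h1 : ∀ i ∈ Finset.range m, ed (l i (k + 1)) (l (i + 1) (k + 1)) =
        ed (l i k) (l (i + 1) k) + (ed (l (i + 1) k) (l (i + 1) (k + 1)) -
          ed (l i k) (l i (k + 1))) := by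
      intro i hi
      rw [Finset.mem_range] at hi
      obtain ⟨e1, e2⟩ := hno i k hi hk
      have e3 : ∀ a b c d e : ZMod 2, a + b + c = 0 → d + e + c = 0 → e = a + (b - d) := by
        decide
      exact e3 _ _ _ _ _ e1 e2
    rw [Finset.sum_congr rfl h1, Finset.sum_add_distrib,
      Finset.sum_range_sub (fun i => ed (l i k) (l i (k + 1)))]
    rw [ed_02 (l 0 k) (l 0 (k + 1)) (h0 k hk.le) (h0 (k + 1) hk),
      ed_12 (l m k) (l m (k + 1)) (by rw [hm k hk.le]; decide) (by rw [hm (k + 1) hk]; decide)]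
    simp
  have hall : ∀ k, k ≤ n → ∑ i ∈ Finset.range m, ed (l i k) (l (i + 1) k) =
      ∑ i ∈ Finset.range m, ed (l i 0) (l (i + 1) 0) := by
    intro k
    induction k with
    | zero => intro _; rfl
    | succ k ih => intro hk; rw [hrow k (by omega), ih (by omega)]
  have htop : ∑ i ∈ Finset.range m, ed (l i n) (l (i + 1) n) = 0 := by
    refine Finset.sum_eq_zero fun i hi => ?_
    rw [Finset.mem_range] at hi
    exact ed_12 _ _ (ht i hi.le) (ht (i + 1) hi)
  have hbot : ∑ i ∈ Finset.range m, ed (l i 0) (l (i + 1) 0) = 1 := by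
    have h1 : ∀ i ∈ Finset.range m, ed (l i 0) (l (i + 1) 0) =
        (if l (i + 1) 0 = 1 then (1 : ZMod 2) else 0) - (if l i 0 = 1 then 1 else 0) := by
      intro i hi
      rw [Finset.mem_range] at hi
      exact ed_01 _ _ (hb i hi.le) (hb (i + 1) hi)
    rw [Finset.sum_congr rfl h1,
      Finset.sum_range_sub (fun i => if l i 0 = 1 then (1 : ZMod 2) else 0)]
    rw [if_pos (hm 0 (Nat.zero_le _)), if_neg (h0 0 (Nat.zero_le _)), sub_zero]
  have := hall n le_rfl
  rw [htop, hbot] at this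
  exact absurd this (by decide)

/-- discrete Poincare-Miranda in the rectangle `[0,m] x [0,n]` -/
theorem miranda2 (m n : ℕ) (D P : ℕ → ℕ → ℝ) (δ : ℝ)
    (hD0 : ∀ k ≤ n, 0 ≤ D 0 k) (hDm : ∀ k ≤ n, D m k ≤ 0)
    (hP0 : ∀ i ≤ m, 0 ≤ P i 0) (hPn : ∀ i ≤ m, P i n ≤ 0)
    (hD : ∀ i k i' k', i ≤ m → k ≤ n → i' ≤ m → k' ≤ n → i ≤ i' → i' ≤ i + 1 → k ≤ k' → k' ≤ k + 1 →
      |D i k - D i' k'| ≤ δ)
    (hP : ∀ i k i' k', i ≤ m → k ≤ n → i' ≤ m → k' ≤ n → i ≤ i' → i' ≤ i + 1 → k ≤ k' → k' ≤ k + 1 →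
      |P i k - P i' k'| ≤ δ) :
    ∃ i k, i ≤ m ∧ k ≤ n ∧ |D i k| ≤ δ ∧ |P i k| ≤ δ := by
  have hδ : 0 ≤ δ := by
    have := hD 0 0 0 0 (Nat.zero_le _) (Nat.zero_le _) (Nat.zero_le _) (Nat.zero_le _) le_rfl
      (Nat.zero_le _) le_rfl (Nat.zero_le _)
    rw [sub_self, abs_zero] at this
    exact this
  rcases Nat.eq_zero_or_pos m with rfl | hmpos
  · obtain ⟨k, hk, hk'⟩ := miranda1 n (fun k => P 0 k) δ hδ (hP0 0 le_rfl) (hPn 0 le_rfl)
      (fun k hk => hP 0 k 0 (k + 1) le_rfl hk.le le_rfl hk le_rfl (Nat.zero_le _) (Nat.le_succ k)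
        le_rfl)
    refine ⟨0, k, le_rfl, hk, ?_, hk'⟩
    have : D 0 k = 0 := le_antisymm (hDm k hk) (hD0 k hk)
    rw [this, abs_zero]; exact hδ
  rcases Nat.eq_zero_or_pos n with rfl | hnpos
  · obtain ⟨i, hi, hi'⟩ := miranda1 m (fun i => D i 0) δ hδ (hD0 0 le_rfl) (hDm 0 le_rfl)
      (fun i hi => hD i 0 (i + 1) 0 hi.le le_rfl hi le_rfl (Nat.le_succ i) le_rfl le_rfl
        (Nat.zero_le _))
    refine ⟨i, 0, hi, le_rfl, hi', ?_⟩
    have : P i 0 = 0 := le_antisymm (hPn i hi) (hP0 i hi)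
    rw [this, abs_zero]; exact hδ
  by_contra hcon
  push Not at hcon
  set l := lab m n D P with hl
  have l1 : ∀ i k, k ≤ n → l i k = 1 → D i k ≤ 0 := by
    intro i k hk h
    rw [hl, lab] at h
    split_ifs at h with h1 h2
    · rcases h1 with rfl | h1
      · exact hDm k hk
      · exact h1.le
    · exact absurd h (by decide)
    · exact absurd h (by decide)
  have l2 : ∀ i k, i ≤ m → l i k = 2 → 0 ≤ D i k ∧ P i k ≤ 0 := by
    intro i k hi h
    rw [hl, lab] at h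
    split_ifs at h with h1 h2
    · exact absurd h (by decide)
    · push Not at h1
      refine ⟨h1.2, ?_⟩
      rcases h2 with rfl | h2
      · exact hPn i hi
      · exact h2.le
    · exact absurd h (by decide)
  have l0 : ∀ i k, l i k = 0 → 0 ≤ D i k ∧ 0 ≤ P i k := by
    intro i k h
    rw [hl, lab] at h
    split_ifs at h with h1 h2
    · exact absurd h (by decide)
    · exact absurd h (by decide)
    · push Not at h1 h2
      exact ⟨h1.2, h2.2⟩
  -- a labelled pair of close vertices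
  have key : ∀ i0 k0 i1 k1 i2 k2, i0 ≤ m → k0 ≤ n → k1 ≤ n → i2 ≤ m →
      |D i0 k0 - D i1 k1| ≤ δ → |P i0 k0 - P i2 k2| ≤ δ →
      l i0 k0 = 0 → l i1 k1 = 1 → l i2 k2 = 2 → False := by
    intro i0 k0 i1 k1 i2 k2 hi0 hk0 hk1 hi2 hd hp e0 e1 e2
    obtain ⟨a1, a2⟩ := l0 _ _ e0
    have a3 := l1 _ _ hk1 e1
    obtain ⟨_, a4⟩ := l2 _ _ hi2 e2
    have b1 := abs_le.mp hd
    have b2 := abs_le.mp hp
    have := hcon i0 k0 hi0 hk0 (by rw [abs_le]; constructor <;> linarith [b1.1, b1.2])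
    have h' : |P i0 k0| ≤ δ := by rw [abs_le]; constructor <;> linarith [b2.1, b2.2]
    linarith
  refine sperner m n l ?_ ?_ ?_ ?_ ?_
  · intro k hk h
    rw [hl, lab] at h
    have h1 : ¬ (0 = m ∨ D 0 k < 0) := by
      push Not
      exact ⟨by omega, hD0 k hk⟩
    rw [if_neg h1] at h
    split_ifs at h <;> exact absurd h (by decide)
  · intro k hk
    rw [hl, lab, if_pos (Or.inl rfl)]
  · intro i hi h
    rw [hl, lab] at h
    have h1 : ¬ (0 = n ∨ P i 0 < 0) := by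
      push Not
      exact ⟨by omega, hP0 i hi⟩
    rw [if_neg h1] at h
    split_ifs at h <;> exact absurd h (by decide)
  · intro i hi h
    rw [hl, lab] at h
    rw [if_pos (Or.inl rfl : n = n ∨ P i n < 0)] at h
    split_ifs at h <;> exact absurd h (by decide)
  · intro i k hi hk
    have sy : ∀ {a b : ℝ}, |a - b| ≤ δ → |b - a| ≤ δ := fun h => by rwa [abs_sub_comm]
    -- all pairs of vertices of one triangle are close
    have tri : ∀ (v0 v1 v2 : ℕ × ℕ), (∀ v ∈ [v0, v1, v2], v.1 ≤ m ∧ v.2 ≤ n) →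
        (∀ v ∈ [v0, v1, v2], ∀ w ∈ [v0, v1, v2], |D v.1 v.2 - D w.1 w.2| ≤ δ ∧
          |P v.1 v.2 - P w.1 w.2| ≤ δ) →
        ed (l v0.1 v0.2) (l v1.1 v1.2) + ed (l v1.1 v1.2) (l v2.1 v2.2) +
          ed (l v0.1 v0.2) (l v2.1 v2.2) = 0 := by
      intro v0 v1 v2 hin hcl
      apply ed_triangle
      rintro ⟨c0, c1, c2⟩
      have f0 : ∃ v ∈ [v0, v1, v2], l v.1 v.2 = 0 := by
        rcases c0 with c | c | c
        · exact ⟨v0, by simp, c⟩
        · exact ⟨v1, by simp, c⟩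
        · exact ⟨v2, by simp, c⟩
      have f1 : ∃ v ∈ [v0, v1, v2], l v.1 v.2 = 1 := by
        rcases c1 with c | c | c
        · exact ⟨v0, by simp, c⟩
        · exact ⟨v1, by simp, c⟩
        · exact ⟨v2, by simp, c⟩
      have f2 : ∃ v ∈ [v0, v1, v2], l v.1 v.2 = 2 := by
        rcases c2 with c | c | c
        · exact ⟨v0, by simp, c⟩
        · exact ⟨v1, by simp, c⟩
        · exact ⟨v2, by simp, c⟩
      obtain ⟨a, ha, ea⟩ := f0
      obtain ⟨b, hb, eb⟩ := f1
      obtain ⟨c, hc, ec⟩ := f2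
      exact key a.1 a.2 b.1 b.2 c.1 c.2 (hin a ha).1 (hin a ha).2 (hin b hb).2 (hin c hc).1
        (hcl a ha b hb).1 (hcl a ha c hc).2 ea eb ec
    have cl : ∀ v w : ℕ × ℕ, v.1 ≤ m → v.2 ≤ n → w.1 ≤ m → w.2 ≤ n → v.1 ≤ w.1 → w.1 ≤ v.1 + 1 →
        v.2 ≤ w.2 → w.2 ≤ v.2 + 1 → |D v.1 v.2 - D w.1 w.2| ≤ δ ∧ |P v.1 v.2 - P w.1 w.2| ≤ δ :=
      fun v w h1 h2 h3 h4 h5 h6 h7 h8 => ⟨hD _ _ _ _ h1 h2 h3 h4 h5 h6 h7 h8,
        hP _ _ _ _ h1 h2 h3 h4 h5 h6 h7 h8⟩
    have cl' : ∀ v w : ℕ × ℕ, v.1 ≤ m → v.2 ≤ n → w.1 ≤ m → w.2 ≤ n → v.1 ≤ w.1 → w.1 ≤ v.1 + 1 →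
        v.2 ≤ w.2 → w.2 ≤ v.2 + 1 → |D w.1 w.2 - D v.1 v.2| ≤ δ ∧ |P w.1 w.2 - P v.1 v.2| ≤ δ :=
      fun v w h1 h2 h3 h4 h5 h6 h7 h8 => ⟨sy (cl v w h1 h2 h3 h4 h5 h6 h7 h8).1,
        sy (cl v w h1 h2 h3 h4 h5 h6 h7 h8).2⟩
    constructor
    · refine tri (i, k) (i + 1, k) (i + 1, k + 1) ?_ ?_
      · intro v hv
        simp only [List.mem_cons, List.not_mem_nil, or_false] at hv
        rcases hv with rfl | rfl | rfl <;> constructor <;> dsimp only <;> omega
      · intro v hv w hw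
        simp only [List.mem_cons, List.not_mem_nil, or_false] at hv hw
        rcases hv with rfl | rfl | rfl <;> rcases hw with rfl | rfl | rfl <;>
        first
        | exact cl _ _ (by dsimp only; omega) (by dsimp only; omega) (by dsimp only; omega)
            (by dsimp only; omega) (by dsimp only; omega) (by dsimp only; omega)
            (by dsimp only; omega) (by dsimp only; omega)
        | exact cl' _ _ (by dsimp only; omega) (by dsimp only; omega) (by dsimp only; omega)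
            (by dsimp only; omega) (by dsimp only; omega) (by dsimp only; omega)
            (by dsimp only; omega) (by dsimp only; omega)
    · refine tri (i, k) (i, k + 1) (i + 1, k + 1) ?_ ?_
      · intro v hv
        simp only [List.mem_cons, List.not_mem_nil, or_false] at hv
        rcases hv with rfl | rfl | rfl <;> constructor <;> dsimp only <;> omega
      · intro v hv w hw
        simp only [List.mem_cons, List.not_mem_nil, or_false] at hv hw
        rcases hv with rfl | rfl | rfl <;> rcases hw with rfl | rfl | rfl <;>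
        first
        | exact cl _ _ (by dsimp only; omega) (by dsimp only; omega) (by dsimp only; omega)
            (by dsimp only; omega) (by dsimp only; omega) (by dsimp only; omega)
            (by dsimp only; omega) (by dsimp only; omega)
        | exact cl' _ _ (by dsimp only; omega) (by dsimp only; omega) (by dsimp only; omega)
            (by dsimp only; omega) (by dsimp only; omega) (by dsimp only; omega)
            (by dsimp only; omega) (by dsimp only; omega)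

end Pool.Agent.Octa
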