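import Pool.Agent.Octa.Frame
import Pool.Agent.Octa.Miranda2

/-! module CLIMB part 2 (M): section 2 of proof_MP_f08f91_co.md -/

set_option autoImplicit false

namespace Pool.Agent.Octa
open Quaternion

private lemma exists_seq {α : Type*} {r : α → α → Prop} {x y : α}
    (h : Relation.ReflTransGen r x y) :
    ∃ (m : ℕ) (a : ℕ → α), a 0 = x ∧ a m = y ∧ ∀ i, i < m → r (a i) (a (i + 1)) := by
  induction h with
  | refl => exact ⟨0, fun _ => x, rfl, rfl, fun i hi => absurd hi (Nat.not_lt_zero _)⟩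
  | tail _ hbc ih =>
    rename_i b c _
    obtain ⟨m, a, h0, hm, ha⟩ := ih
    refine ⟨m + 1, fun i => if i ≤ m then a i else c, ?_, ?_, ?_⟩
    · simp [h0]
    · simp
    · intro i hi
      by_cases him : i + 1 ≤ m
      · have : i ≤ m := by omega
        simp only [this, him, if_true]
        exact ha i (by omega)
      · have h1 : i = m := by omega
        subst h1
        simp only [le_refl, if_true, him, if_false, hm]
        exact hbc

private lemma re_star_mul (a b : ℍ[ℝ]) : (star a * b).re = inner ℝ a b := by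
  rw [Quaternion.inner_def]
  simp only [Quaternion.re_mul, Quaternion.re_star, Quaternion.imI_star, Quaternion.imJ_star,
    Quaternion.imK_star]
  ring

theorem climb (S : Set Y3) (hS : ∀ z ∈ S, gam z ∈ S) (hS1 : ∀ z ∈ S, ‖z.2.2‖ = 1)
    (ε : ℝ) (hε : 0 < ε) (hε1 : ε < 1 / 100) (z : Y3) (hz : z ∈ S) (h : Conn S ε z (gam z)) :
    ∃ A B, A ∈ S ∧ B ∈ S ∧ Conn S ε z A ∧ Conn S ε z B ∧ |A.2.1 - B.2.1| ≤ 4 * ε ∧
      |(star A.2.2 * B.2.2).re| ≤ 4 * ε := by
  obtain ⟨m, a, ha0, ham, hstep⟩ := exists_seq h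
  have hom : ∀ x : Y3, x ∈ S → (star x.2.2 * (gam x).2.2).re = -1 / 2 := by
    intro x hx
    have h1 : star x.2.2 * x.2.2 = 1 := by
      rw [Quaternion.star_mul_self, Quaternion.normSq_eq_norm_mul_self, hS1 x hx]
      simp
    have h2 : star x.2.2 * (gam x).2.2 = om := by
      show star x.2.2 * (x.2.2 * om) = om
      rw [← mul_assoc, h1, one_mul]
    rw [h2]; simp [om]
  have hself : ∀ x : Y3, x ∈ S → (star x.2.2 * x.2.2).re = 1 := by
    intro x hx
    rw [Quaternion.star_mul_self, Quaternion.normSq_eq_norm_mul_self, hS1 x hx]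
    simp
  have hmpos : 0 < m := by
    rcases Nat.eq_zero_or_pos m with rfl | hm
    · exfalso
      have h1 : z = gam z := ha0.symm.trans ham
      have h2 := hom z hz
      rw [← h1, hself z hz] at h2
      norm_num at h2
    · exact hm
  -- steps are invariant under `gam`
  have hgs : ∀ x y : Y3, Step S ε x y → Step S ε (gam x) (gam y) := fun x y hxy =>
    ⟨hS x hxy.1, hS y hxy.2.1, by rw [dist_gam]; exact hxy.2.2⟩
  have hgsn : ∀ (q : ℕ) (x y : Y3), Step S ε x y → Step S ε (gam^[q] x) (gam^[q] y) := by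
    intro q
    induction q with
    | zero => intro x y hxy; exact hxy
    | succ q ih =>
      intro x y hxy
      rw [Function.iterate_succ_apply', Function.iterate_succ_apply']
      exact hgs _ _ (ih x y hxy)
  set A : ℕ → Y3 := fun n => gam^[n / m] (a (n % m)) with hA
  have hA0 : A 0 = z := by
    show gam^[0 / m] (a (0 % m)) = z
    rw [Nat.zero_div, Nat.zero_mod]; exact ha0
  have hAstep : ∀ n, Step S ε (A n) (A (n + 1)) := by
    intro n
    have h1 := hgsn (n / m) _ _ (hstep (n % m) (Nat.mod_lt n hmpos))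
    have h2 : gam^[n / m] (a (n % m + 1)) = A (n + 1) := by
      show _ = gam^[(n + 1) / m] (a ((n + 1) % m))
      have hdm := Nat.div_add_mod n m
      by_cases h3 : n % m + 1 < m
      · have e1 : (n + 1) / m = n / m := by
          rw [← hdm]
          rw [add_assoc, Nat.mul_add_div hmpos, Nat.div_eq_of_lt h3, Nat.add_zero,
            Nat.mul_add_div hmpos, Nat.div_eq_of_lt (Nat.mod_lt n hmpos), Nat.add_zero]
        have e2 : (n + 1) % m = n % m + 1 := by
          conv_lhs => rw [← hdm]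
          rw [add_assoc, Nat.mul_add_mod, Nat.mod_eq_of_lt h3]
        rw [e1, e2]
      · have h4 : n % m + 1 = m := by
          have := Nat.mod_lt n hmpos
          omega
        have e0 : n + 1 = m * (n / m + 1) := by
          rw [mul_add, mul_one]; omega
        have e1 : (n + 1) / m = n / m + 1 := by
          conv_lhs => rw [e0]
          exact Nat.mul_div_cancel_left _ hmpos
        have e2 : (n + 1) % m = 0 := by
          rw [e0]; exact Nat.mul_mod_right _ _
        rw [e1, e2, h4, ham, ha0, Function.iterate_succ_apply]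
    rw [← h2]
    exact h1
  have hAS : ∀ n, A n ∈ S := fun n => (hAstep n).1
  have hAconn : ∀ n, Conn S ε z (A n) := by
    intro n
    induction n with
    | zero => rw [hA0]
    | succ n ih => exact ih.tail (hAstep n)
  have hper : ∀ n, A (n + m) = gam (A n) := by
    intro n
    show gam^[(n + m) / m] (a ((n + m) % m)) = gam (gam^[n / m] (a (n % m)))
    rw [Nat.add_div_right n hmpos, Nat.add_mod_right, Function.iterate_succ_apply']
  have hsper : ∀ n, (A (n + m)).2.1 = (A n).2.1 := by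
    intro n; rw [hper n]; rfl
  have hsmod : ∀ n, (A n).2.1 = (A (n % m)).2.1 := by
    intro n
    have : ∀ q r, (A (r + m * q)).2.1 = (A r).2.1 := by
      intro q
      induction q with
      | zero => intro r; rw [mul_zero, add_zero]
      | succ q ih => intro r; rw [mul_add, mul_one, ← add_assoc, hsper, ih]
    conv_lhs => rw [← Nat.mod_add_div n m]
    exact this (n / m) (n % m)
  obtain ⟨i0, hi0, hmin⟩ := Finset.exists_min_image (Finset.range m) (fun i => (A i).2.1)
    ⟨0, Finset.mem_range.mpr hmpos⟩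
  obtain ⟨i1, hi1, hmax⟩ := Finset.exists_max_image (Finset.range m) (fun i => (A i).2.1)
    ⟨0, Finset.mem_range.mpr hmpos⟩
  rw [Finset.mem_range] at hi0 hi1
  have hmin' : ∀ n, (A i0).2.1 ≤ (A n).2.1 := by
    intro n; rw [hsmod n]; exact hmin _ (Finset.mem_range.mpr (Nat.mod_lt n hmpos))
  have hmax' : ∀ n, (A n).2.1 ≤ (A (i1 + m)).2.1 := by
    intro n; rw [hsmod n, hsper i1]; exact hmax _ (Finset.mem_range.mpr (Nat.mod_lt n hmpos))
  -- distances
  have hs1 : ∀ n, |(A n).2.1 - (A (n + 1)).2.1| ≤ ε := by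
    intro n
    have h1 := (hAstep n).2.2
    have h2 : dist (A n).2.1 (A (n + 1)).2.1 ≤ dist (A n) (A (n + 1)) :=
      le_trans (le_max_left _ _) (le_max_right _ _)
    rw [Real.dist_eq] at h2
    linarith
  have hu1 : ∀ n, ‖(A n).2.2 - (A (n + 1)).2.2‖ ≤ ε := by
    intro n
    have h1 := (hAstep n).2.2
    have h2 : dist (A n).2.2 (A (n + 1)).2.2 ≤ dist (A n) (A (n + 1)) :=
      le_trans (le_max_right _ _) (le_max_right _ _)
    rw [dist_eq_norm] at h2
    linarith
  have hs2 : ∀ n d, d ≤ 2 → |(A n).2.1 - (A (n + d)).2.1| ≤ d * ε := by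
    intro n d
    induction d with
    | zero => intro _; simp
    | succ d ih =>
      intro hd
      have h1 := ih (by omega)
      have h2 := hs1 (n + d)
      have h3 : (A n).2.1 - (A (n + (d + 1))).2.1 = ((A n).2.1 - (A (n + d)).2.1) +
          ((A (n + d)).2.1 - (A (n + d + 1)).2.1) := by rw [← add_assoc]; ring
      rw [h3]
      refine le_trans (abs_add_le _ _) ?_
      push_cast
      linarith
  have hu2 : ∀ n d, d ≤ 2 → ‖(A n).2.2 - (A (n + d)).2.2‖ ≤ d * ε := by
    intro n d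
    induction d with
    | zero => intro _; simp
    | succ d ih =>
      intro hd
      have h1 := ih (by omega)
      have h2 := hu1 (n + d)
      have h3 : (A n).2.2 - (A (n + (d + 1))).2.2 = ((A n).2.2 - (A (n + d)).2.2) +
          ((A (n + d)).2.2 - (A (n + d + 1)).2.2) := by rw [← add_assoc]; abel
      rw [h3]
      refine le_trans (norm_add_le _ _) ?_
      push_cast
      linarith
  suffices hmir : ∃ i k, i ≤ i1 + m - i0 ∧ k ≤ m ∧
      |(A (i0 + i + k)).2.1 - (A (i0 + i)).2.1| ≤ 4 * ε ∧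
      |inner ℝ (A (i0 + i)).2.2 (A (i0 + i + k)).2.2| ≤ 4 * ε by
    obtain ⟨i, k, hi, hk, hD, hP⟩ := hmir
    refine ⟨A (i0 + i), A (i0 + i + k), hAS _, hAS _, hAconn _, hAconn _, ?_, ?_⟩
    · rw [abs_sub_comm]; exact hD
    · rw [re_star_mul]; exact hP
  refine miranda2 (i1 + m - i0) m
    (fun i k => (A (i0 + i + k)).2.1 - (A (i0 + i)).2.1)
    (fun i k => inner ℝ (A (i0 + i)).2.2 (A (i0 + i + k)).2.2) (4 * ε) ?_ ?_ ?_ ?_ ?_ ?_
  · intro k _
    have := hmin' (i0 + 0 + k)
    simp only [Nat.add_zero] at this ⊢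
    linarith
  · intro k _
    have e : i0 + (i1 + m - i0) = i1 + m := by omega
    show (A (i0 + (i1 + m - i0) + k)).2.1 - (A (i0 + (i1 + m - i0))).2.1 ≤ 0
    rw [e]
    linarith [hmax' (i1 + m + k)]
  · intro i _
    show 0 ≤ inner ℝ (A (i0 + i)).2.2 (A (i0 + i + 0)).2.2
    rw [Nat.add_zero, ← re_star_mul, hself _ (hAS _)]
    norm_num
  · intro i _
    show inner ℝ (A (i0 + i)).2.2 (A (i0 + i + m)).2.2 ≤ 0
    rw [hper, ← re_star_mul, hom _ (hAS _)]
    norm_num
  · intro i k i' k' _ _ _ _ h1 h2 h3 h4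
    obtain ⟨d, rfl⟩ : ∃ d, i' = i + d := ⟨i' - i, by omega⟩
    obtain ⟨e, rfl⟩ : ∃ e, k' = k + e := ⟨k' - k, by omega⟩
    have hd : d ≤ 1 := by omega
    have he : e ≤ 1 := by omega
    have q1 := hs2 (i0 + i) d (by omega)
    have q2 := hs2 (i0 + i + k) (d + e) (by omega)
    have e1 : i0 + (i + d) = i0 + i + d := by ring
    have e2 : i0 + i + d + (k + e) = i0 + i + k + (d + e) := by ring
    show |((A (i0 + i + k)).2.1 - (A (i0 + i)).2.1) -
      ((A (i0 + (i + d) + (k + e))).2.1 - (A (i0 + (i + d))).2.1)| ≤ 4 * ε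
    rw [e1, e2]
    have hd' : (d : ℝ) ≤ 1 := by exact_mod_cast hd
    have he' : (e : ℝ) ≤ 1 := by exact_mod_cast he
    push_cast at q2
    have q1' := abs_le.mp q1
    have q2' := abs_le.mp q2
    have r1 : (d : ℝ) * ε ≤ ε := by nlinarith
    have r2 : ((d : ℝ) + e) * ε ≤ 2 * ε := by nlinarith
    rw [abs_le]
    constructor <;> linarith [q1'.1, q1'.2, q2'.1, q2'.2]
  · intro i k i' k' _ _ _ _ h1 h2 h3 h4
    obtain ⟨d, rfl⟩ : ∃ d, i' = i + d := ⟨i' - i, by omega⟩
    obtain ⟨e, rfl⟩ : ∃ e, k' = k + e := ⟨k' - k, by omega⟩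
    have hd : d ≤ 1 := by omega
    have he : e ≤ 1 := by omega
    have q1 := hu2 (i0 + i) d (by omega)
    have q2 := hu2 (i0 + i + k) (d + e) (by omega)
    have e1 : i0 + (i + d) = i0 + i + d := by ring
    have e2 : i0 + i + d + (k + e) = i0 + i + k + (d + e) := by ring
    show |inner ℝ (A (i0 + i)).2.2 (A (i0 + i + k)).2.2 -
      inner ℝ (A (i0 + (i + d))).2.2 (A (i0 + (i + d) + (k + e))).2.2| ≤ 4 * ε
    rw [e1, e2]
    have hd' : (d : ℝ) ≤ 1 := by exact_mod_cast hd
    have he' : (e : ℝ) ≤ 1 := by exact_mod_cast he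
    push_cast at q2
    have r1 : (d : ℝ) * ε ≤ ε := by nlinarith
    have r2 : ((d : ℝ) + e) * ε ≤ 2 * ε := by nlinarith
    have n1 : ‖(A (i0 + i + k)).2.2‖ = 1 := hS1 _ (hAS _)
    have n2 : ‖(A (i0 + i + d)).2.2‖ = 1 := hS1 _ (hAS _)
    have key : inner ℝ (A (i0 + i)).2.2 (A (i0 + i + k)).2.2 -
        inner ℝ (A (i0 + i + d)).2.2 (A (i0 + i + k + (d + e))).2.2 =
        inner ℝ ((A (i0 + i)).2.2 - (A (i0 + i + d)).2.2) (A (i0 + i + k)).2.2 +
        inner ℝ (A (i0 + i + d)).2.2 ((A (i0 + i + k)).2.2 - (A (i0 + i + k + (d + e))).2.2) := by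
      rw [inner_sub_left, inner_sub_right]; ring
    rw [key]
    refine le_trans (abs_add_le _ _) ?_
    have k1 := abs_real_inner_le_norm ((A (i0 + i)).2.2 - (A (i0 + i + d)).2.2)
      (A (i0 + i + k)).2.2
    have k2 := abs_real_inner_le_norm (A (i0 + i + d)).2.2
      ((A (i0 + i + k)).2.2 - (A (i0 + i + k + (d + e))).2.2)
    rw [n1, mul_one] at k1
    rw [n2, one_mul] at k2
    linarith

end Pool.Agent.Octa
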