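import Pool.Agent.Octa.ConeB

/-! Cone lemma, part V: validity of the centers (C1). -/

set_option autoImplicit false
set_option linter.unusedVariables false

namespace Pool.Agent.Octa

theorem valid_scalar {m y1 y2 y3 n1 n2 n3 : ℝ} (hm : 0 < m) (h : m = n1 * y1 + n2 * y2 + n3 * y3)
    (h2 : |n2| ≤ m) (h3 : |n3| ≤ m) (σ : ℝ) (h1 : n1 = - σ * m) : 1 + σ * y1 ≤ |y2| + |y3| := by
  have e2 : n2 * y2 ≤ m * |y2| := by
    calc n2 * y2 ≤ |n2 * y2| := le_abs_self _
      _ = |n2| * |y2| := abs_mul _ _
      _ ≤ m * |y2| := mul_le_mul_of_nonneg_right h2 (abs_nonneg _)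
  have e3 : n3 * y3 ≤ m * |y3| := by
    calc n3 * y3 ≤ |n3 * y3| := le_abs_self _
      _ = |n3| * |y3| := abs_mul _ _
      _ ≤ m * |y3| := mul_le_mul_of_nonneg_right h3 (abs_nonneg _)
  have e4 : m * (1 + σ * y1) ≤ m * (|y2| + |y3|) := by
    rw [h1] at h; linarith
  exact le_of_mul_le_mul_left e4 hm

/-- the absolute values of the coordinates of `y` form a valid center -/
theorem valid_abs {y : V3} {M N : Fin 3 → V3} (hM : ∀ i, NA y (M i)) (hN : ∀ i, NA y (N i))
    (hM0 : ∀ i, M i ≠ 0) (hN0 : ∀ i, N i ≠ 0)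
    (hMt : ∀ i, dp (M i) (y + ee i) = 0) (hNt : ∀ i, dp (N i) (y - ee i) = 0) :
    Valid (fun i => |y i|) := by
  have key : ∀ i, 1 + |y i| ≤ |y (i + 1)| + |y (i + 2)| := by
    intro i
    have a1 : 1 + 1 * y i ≤ |y (i + 1)| + |y (i + 2)| := by
      have h0 := hMt i
      rw [dp_add, dp_ee] at h0
      exact valid_scalar ((hM i).pos (hM0 i)) (dp_cyc (M i) y i) (hM i _) (hM i _) 1 (by linarith)
    have a2 : 1 + (-1) * y i ≤ |y (i + 1)| + |y (i + 2)| := by
      have h0 := hNt i
      rw [dp_sub, dp_ee] at h0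
      exact valid_scalar ((hN i).pos (hN0 i)) (dp_cyc (N i) y i) (hN i _) (hN i _) (-1) (by linarith)
    rcases abs_cases (y i) with ⟨h, _⟩ | ⟨h, _⟩ <;> rw [h] <;> linarith
  have k0 := key 0
  have k1 := key 1
  have k2 := key 2
  simp only [zero_add, Fin.isValue] at k0 k1 k2
  have e1 : (1 : Fin 3) + 1 = 2 := by decide
  have e2 : (1 : Fin 3) + 2 = 0 := by decide
  have e3 : (2 : Fin 3) + 1 = 0 := by decide
  have e4 : (2 : Fin 3) + 2 = 1 := by decide
  rw [e1, e2] at k1
  rw [e3, e4] at k2
  constructor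
  · intro i
    fin_cases i
    · show 1 ≤ |y 0|; linarith
    · show 1 ≤ |y 1|; linarith
    · show 1 ≤ |y 2|; linarith
  · intro i
    fin_cases i
    · show 1 ≤ |y (0+1)| + |y (0+2)| - |y 0|
      simp only [zero_add]; linarith
    · show 1 ≤ |y (1+1)| + |y (1+2)| - |y 1|
      rw [e1, e2]; linarith
    · show 1 ≤ |y (2+1)| + |y (2+2)| - |y 2|
      rw [e3, e4]; linarith

/-- sign change of coordinates -/
def fl (s x : V3) : V3 := fun m => s m * x m

theorem dp_fl {s : V3} (hs : ∀ m, s m * s m = 1) (N x : V3) : dp (fl s N) (fl s x) = dp N x := by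
  simp only [dp, fl]
  have h0 := hs 0
  have h1 := hs 1
  have h2 := hs 2
  linear_combination (N 0 * x 0) * h0 + (N 1 * x 1) * h1 + (N 2 * x 2) * h2

theorem validity {y d : V3} {M N : Fin 3 → V3} (hM : ∀ i, NA y (M i)) (hN : ∀ i, NA y (N i))
    (hMt : ∀ i, dp (M i) (y + ee i) = 0) (hNt : ∀ i, dp (N i) (y - ee i) = 0)
    (hMd : ∀ i, 0 < dp (M i) d) (hNd : ∀ i, 0 < dp (N i) d) (hd : ∀ i, 0 < d i) : Valid y := by
  have hM0 : ∀ i, M i ≠ 0 := fun i h => by have := hMd i; rw [h, zero_dp] at this; linarith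
  have hN0 : ∀ i, N i ≠ 0 := fun i h => by have := hNd i; rw [h, zero_dp] at this; linarith
  have hv := valid_abs hM hN hM0 hN0 hMt hNt
  have hpos : ∀ i, 0 < y i := by
    set s : V3 := fun i => if 0 ≤ y i then 1 else -1 with hs
    have hss : ∀ m, s m * s m = 1 := by
      intro m; simp only [hs]; split_ifs <;> norm_num
    have hsy : fl s y = fun i => |y i| := by
      funext m
      simp only [fl, hs]
      split_ifs with h
      · rw [abs_of_nonneg h]; ring
      · rw [abs_of_neg (not_le.1 h)]; ring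
    have hsabs : ∀ m, |s m| = 1 := by
      intro m; simp only [hs]; split_ifs <;> norm_num
    set F : Fin 3 → V3 := fun i => if 0 ≤ y i then fl s (M i) else fl s (N i) with hF
    have hfl : ∀ G, NA y G → NA (fl s y) (fl s G) := by
      intro G hG m
      rw [dp_fl hss]
      simp only [fl, abs_mul, hsabs, one_mul]
      exact hG m
    have h1 : ∀ i, NA (fl s y) (F i) := by
      intro i
      simp only [hF]
      split_ifs
      · exact hfl _ (hM i)
      · exact hfl _ (hN i)
    have h2 : ∀ i, 0 < dp (F i) (fl s d) := by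
      intro i
      simp only [hF]
      split_ifs
      · rw [dp_fl hss]; exact hMd i
      · rw [dp_fl hss]; exact hNd i
    have h3 : ∀ i, F i ≠ 0 := fun i h => by have := h2 i; rw [h, zero_dp] at this; linarith
    have h4 : ∀ i, dp (F i) (fl s y + ee i) = 0 := by
      intro i
      simp only [hF]
      split_ifs with hi
      · have hMi := hMt i
        rw [dp_add, dp_ee] at hMi ⊢
        rw [dp_fl hss]
        have : fl s (M i) i = M i i := by simp only [fl, hs, if_pos hi]; ring
        rw [this]; exact hMi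
      · have hNi := hNt i
        rw [dp_sub, dp_ee] at hNi
        rw [dp_add, dp_ee, dp_fl hss]
        have : fl s (N i) i = - N i i := by simp only [fl, hs, if_neg hi]; ring
        rw [this]; linarith
    rw [← hsy] at hv
    have h5 := MM hv h1 h3 h4 (ζ := - fl s d) (fun i => by rw [dp_neg]; have := h2 i; linarith)
    have h6 : ∀ j, 0 ≤ Ev j (fl s d) := by
      intro j
      have := h5 j
      have e : Ev j (- fl s d) = - Ev j (fl s d) := by simp [Ev]; ring
      rw [e] at this; linarith
    intro i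
    have h7 : 0 ≤ fl s d i := by
      have a0 := h6 0
      have a1 := h6 1
      have a2 := h6 2
      simp only [Ev] at a0 a1 a2
      have e1 : (1 : Fin 3) + 1 = 2 := by decide
      have e2 : (1 : Fin 3) + 2 = 0 := by decide
      have e3 : (2 : Fin 3) + 1 = 0 := by decide
      have e4 : (2 : Fin 3) + 2 = 1 := by decide
      rw [e1, e2] at a1
      rw [e3, e4] at a2
      simp only [zero_add] at a0
      fin_cases i
      · show 0 ≤ fl s d 0; linarith
      · show 0 ≤ fl s d 1; linarith
      · show 0 ≤ fl s d 2; linarith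
    simp only [fl, hs] at h7
    split_ifs at h7 with hi
    · have : |y i| = y i := abs_of_nonneg hi
      have h8 := hv.one_le i
      rw [hsy] at h8
      simp only at h8
      rw [this] at h8
      linarith
    · have := hd i
      linarith
  have : (fun i => |y i|) = y := by
    funext i; exact abs_of_pos (hpos i)
  rwa [this] at hv

end Pool.Agent.Octa
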