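import Pool.Agent.Octa.ConeF
import Pool.Agent.Octa.ConeV

/-! Cone lemma, part G: Hahn-Banach, coordinates. -/

set_option autoImplicit false
set_option linter.unusedVariables false

namespace Pool.Agent.Octa

/-- supporting functional (Hahn-Banach) -/
theorem support {ψ : V3 → ℝ} (hsub : ∀ x y, ψ (x + y) ≤ ψ x + ψ y) (hhom : ∀ t : ℝ, 0 ≤ t → ∀ x, ψ (t • x) = t * ψ x)
    (x : V3) (hx : ψ x = 0) : ∃ F : V3, dp F x = 0 ∧ ∀ v, - ψ v ≤ dp F v := by
  have hneg : 0 ≤ ψ (-x) := by
    have h0 : ψ 0 = 0 := by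
      have := hhom 0 le_rfl 0
      simpa using this
    have := hsub x (-x)
    rw [add_neg_cancel, h0, hx] at this
    linarith
  obtain ⟨g, hg1, hg2⟩ := exists_extension_of_le_sublinear
    (⟨Submodule.span ℝ {x}, 0⟩ : V3 →ₗ.[ℝ] ℝ) ψ (fun c hc v => hhom c hc.le v) hsub (by
      rintro ⟨v, hv⟩
      obtain ⟨c, rfl⟩ := Submodule.mem_span_singleton.1 hv
      show (0 : ℝ) ≤ ψ (c • x)
      rcases le_total 0 c with hc | hc
      · rw [hhom c hc, hx]; simp
      · have : c • x = (-c) • (-x) := by simp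
        rw [this, hhom _ (by linarith)]
        exact mul_nonneg (by linarith) hneg)
  have hgv : ∀ v, dp (fun i => - g (ee i)) v = - g v := by
    intro v
    have : v = v 0 • ee 0 + v 1 • ee 1 + v 2 • ee 2 := by
      funext m
      fin_cases m <;> simp [ee]
    conv_rhs => rw [this]
    rw [map_add, map_add, map_smul, map_smul, map_smul]
    simp [dp]; ring
  refine ⟨fun i => - g (ee i), ?_, ?_⟩
  · rw [hgv]
    have := hg1 ⟨x, Submodule.mem_span_singleton_self x⟩
    have h2 : g x = 0 := this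
    rw [h2]; simp
  · intro v
    rw [hgv]
    have := hg2 v
    linarith

theorem cone_coord {ψ : V3 → ℝ} (hsub : ∀ x y, ψ (x + y) ≤ ψ x + ψ y)
    (hhom : ∀ t : ℝ, 0 ≤ t → ∀ x, ψ (t • x) = t * ψ x) {d q y η : V3} (hd : ψ d < 0) (hq : dp q q = 1)
    (hA : ∀ i, ψ (y + ee i) = 0 ∧ ψ (y - ee i) = 0)
    (hB : ∀ i, ψ (Rf q (η + ee i)) = 0 ∧ ψ (Rf q (η - ee i)) = 0)
    (hda : ∀ i, 0 < d i) (hdb : ∀ i, 0 < Rf q d i) (hq0 : ∀ i, 0 < q i) : False := by
  choose M hM0 hM using fun i => support hsub hhom _ (hA i).1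
  choose N hN0 hN using fun i => support hsub hhom _ (hA i).2
  choose M' hM'0 hM' using fun i => support hsub hhom _ (hB i).1
  choose N' hN'0 hN' using fun i => support hsub hhom _ (hB i).2
  have hAA : ∀ F : V3, (∀ v, - ψ v ≤ dp F v) → NA y F := by
    intro F hF
    apply NA_of_vertices
    intro i
    have h1 := hF (y + ee i)
    have h2 := hF (y - ee i)
    rw [(hA i).1] at h1
    rw [(hA i).2] at h2
    constructor <;> linarith
  have hBB : ∀ F : V3, (∀ v, - ψ v ≤ dp F v) → NA η (Rf q F) := by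
    intro F hF
    apply NA_of_vertices
    intro i
    have h1 := hF (Rf q (η + ee i))
    have h2 := hF (Rf q (η - ee i))
    rw [(hB i).1] at h1
    rw [(hB i).2] at h2
    rw [← dp_Rf, ← dp_Rf]
    constructor <;> linarith
  have hpd : ∀ F : V3, (∀ v, - ψ v ≤ dp F v) → 0 < dp F d := by
    intro F hF
    have := hF d
    linarith
  have hne : ∀ F : V3, (∀ v, - ψ v ≤ dp F v) → F ≠ 0 := by
    intro F hF h
    have := hpd F hF
    rw [h, zero_dp] at this
    linarith
  have hpd' : ∀ F : V3, (∀ v, - ψ v ≤ dp F v) → 0 < dp (Rf q F) (Rf q d) := by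
    intro F hF
    rw [← dp_Rf, Rf_Rf hq]
    exact hpd F hF
  have vy : Valid y := validity (fun i => hAA _ (hM i)) (fun i => hAA _ (hN i)) hM0 hN0
    (fun i => hpd _ (hM i)) (fun i => hpd _ (hN i)) hda
  have vη : Valid η := validity (fun i => hBB _ (hM' i)) (fun i => hBB _ (hN' i))
    (fun i => by rw [← dp_Rf]; exact hM'0 i) (fun i => by rw [← dp_Rf]; exact hN'0 i)
    (fun i => hpd' _ (hM' i)) (fun i => hpd' _ (hN' i)) hdb
  have h : CD y η q M N M' N' :=
    { q0 := hq0
      q1 := hq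
      vy := vy
      vη := vη
      MA := fun i => hAA _ (hM i)
      MB := fun i => hBB _ (hM i)
      M0 := fun i => hne _ (hM i)
      Mt := hM0
      NA' := fun i => hAA _ (hN i)
      NB := fun i => hBB _ (hN i)
      N0 := fun i => hne _ (hN i)
      Nt := hN0
      M'A := fun i => hAA _ (hM' i)
      M'B := fun i => hBB _ (hM' i)
      M'0 := fun i => hne _ (hM' i)
      M't := fun i => by rw [← dp_Rf]; exact hM'0 i
      N'A := fun i => hAA _ (hN' i)
      N'B := fun i => hBB _ (hN' i)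
      N'0 := fun i => hne _ (hN' i)
      N't := fun i => by rw [← dp_Rf]; exact hN'0 i }
  exact h.absurd

end Pool.Agent.Octa
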