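import Pool.Agent.Octa.Defs
import Pool.Agent.Octa.ConeG

/-! module CONE (C): section 4 of proof_MP_f08f91_co.md -/

set_option autoImplicit false

namespace Pool.Agent.Octa

theorem Rf_negq (q x : V3) : Rf (-q) x = Rf q x := by
  funext i; simp [Rf, dp]; ring

/-- the map from coordinates -/
noncomputable def fromC (a : Fin 3 → E3) (x : V3) : E3 := x 0 • a 0 + x 1 • a 1 + x 2 • a 2

theorem fromC_add (a : Fin 3 → E3) (x y : V3) : fromC a (x + y) = fromC a x + fromC a y := by
  simp only [fromC, Pi.add_apply, add_smul]; abel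
theorem fromC_sub (a : Fin 3 → E3) (x y : V3) : fromC a (x - y) = fromC a x - fromC a y := by
  simp only [fromC, Pi.sub_apply, sub_smul]; abel
theorem fromC_smul (a : Fin 3 → E3) (t : ℝ) (x : V3) : fromC a (t • x) = t • fromC a x := by
  simp only [fromC, Pi.smul_apply, smul_eq_mul, smul_add, smul_smul]
theorem fromC_ee (a : Fin 3 → E3) (i : Fin 3) : fromC a (ee i) = a i := by
  fin_cases i <;> simp [fromC, ee]

theorem fromC_coord {a : Fin 3 → E3} (ha : Orthonormal ℝ a) (x : E3) :
    fromC a (fun i => inner ℝ (a i) x) = x := by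
  have hcard : Fintype.card (Fin 3) = Module.finrank ℝ E3 := by simp
  let b0 : Module.Basis (Fin 3) ℝ E3 := basisOfOrthonormalOfCardEqFinrank ha hcard
  have hb0 : ⇑b0 = a := coe_basisOfOrthonormalOfCardEqFinrank ha hcard
  let b : OrthonormalBasis (Fin 3) ℝ E3 := b0.toOrthonormalBasis (by rw [hb0]; exact ha)
  have hb : ⇑b = a := by
    rw [Module.Basis.coe_toOrthonormalBasis]; exact hb0
  have := b.sum_repr x
  rw [Fin.sum_univ_three] at this
  simp only [OrthonormalBasis.repr_apply_apply, hb] at this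
  exact this

theorem cone_lemma (ψ : E3 → ℝ) (hsub : ∀ x y, ψ (x + y) ≤ ψ x + ψ y)
    (hhom : ∀ t : ℝ, 0 ≤ t → ∀ x, ψ (t • x) = t * ψ x)
    (d : E3) (hd : ψ d < 0) (a : Fin 3 → E3) (ha : Orthonormal ℝ a) (p : E3) (hp : ‖p‖ = 1) (y y' : E3)
    (h1 : ∀ i, ψ (y + a i) = 0 ∧ ψ (y - a i) = 0)
    (h2 : ∀ i, ψ (y' + ((2 * inner ℝ (a i) p) • p - a i)) = 0 ∧ ψ (y' - ((2 * inner ℝ (a i) p) • p - a i)) = 0)
    (hda : ∀ i, 0 < inner ℝ (a i) d) (hdb : ∀ i, 0 < inner ℝ ((2 * inner ℝ (a i) p) • p - a i) d) :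
    False := by
  set q : V3 := fun i => inner ℝ (a i) p with hq
  set D : V3 := fun i => inner ℝ (a i) d with hD
  have hip : ∀ x : E3, inner ℝ p x = dp q (fun i => inner ℝ (a i) x) := by
    intro x
    conv_lhs => rw [← fromC_coord ha p]
    simp only [fromC, inner_add_left, inner_smul_left, dp, hq]
    simp
  have hqq : dp q q = 1 := by
    have := hip p
    rw [real_inner_self_eq_norm_sq, hp] at this
    rw [hq]; linarith
  have hFq : fromC a q = p := fromC_coord ha p
  have hRee : ∀ i, fromC a (Rf q (ee i)) = (2 * inner ℝ (a i) p) • p - a i := by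
    intro i
    rw [Rf_ee, fromC_sub, fromC_smul, fromC_ee, hFq]
  set Y : V3 := fun i => inner ℝ (a i) y with hY
  set Y' : V3 := fun i => inner ℝ (a i) y' with hY'
  have hFY : fromC a Y = y := fromC_coord ha y
  have hFY' : fromC a Y' = y' := fromC_coord ha y'
  have hFD : fromC a D = d := fromC_coord ha d
  have hRD : ∀ i, Rf q D i = inner ℝ ((2 * inner ℝ (a i) p) • p - a i) d := by
    intro i
    rw [inner_sub_left, inner_smul_left, hip d]
    simp only [Rf, Pi.sub_apply, Pi.smul_apply, smul_eq_mul]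
    simp only [hq, hD, conj_trivial]
    ring
  have hsub' : ∀ u v : V3, ψ (fromC a (u + v)) ≤ ψ (fromC a u) + ψ (fromC a v) := by
    intro u v; rw [fromC_add]; exact hsub _ _
  have hhom' : ∀ t : ℝ, 0 ≤ t → ∀ u : V3, ψ (fromC a (t • u)) = t * ψ (fromC a u) := by
    intro t ht u; rw [fromC_smul]; exact hhom t ht _
  have hA : ∀ i, ψ (fromC a (Y + ee i)) = 0 ∧ ψ (fromC a (Y - ee i)) = 0 := by
    intro i
    rw [fromC_add, fromC_sub, fromC_ee, hFY]; exact h1 i
  have hB : ∀ i, ψ (fromC a (Rf q (Rf q Y' + ee i))) = 0 ∧ ψ (fromC a (Rf q (Rf q Y' - ee i))) = 0 := by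
    intro i
    rw [Rf_add, Rf_sub, Rf_Rf hqq, fromC_add, fromC_sub, hRee, hFY']; exact h2 i
  have hdD : ψ (fromC a D) < 0 := by rw [hFD]; exact hd
  have hdb' : ∀ i, 0 < Rf q D i := fun i => by rw [hRD]; exact hdb i
  have hprod : ∀ i, 0 < q i * dp q D := by
    intro i
    have e1 := hdb' i
    have e2 : Rf q D i = 2 * dp q D * q i - D i := by simp [Rf]
    have e3 : 0 < D i := hda i
    rw [e2] at e1
    linarith
  rcases lt_or_ge 0 (dp q D) with hpos | hneg
  · exact cone_coord (ψ := fun u => ψ (fromC a u)) hsub' hhom' hdD hqq hA hB hda hdb'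
      (fun i => by
        have e := hprod i
        by_contra hc
        push Not at hc
        have := mul_nonpos_of_nonpos_of_nonneg hc hpos.le
        linarith)
  · have hq' : ∀ i, 0 < (-q) i := by
      intro i
      have e := hprod i
      by_contra hc
      push Not at hc
      rw [Pi.neg_apply] at hc
      have := mul_nonpos_of_nonneg_of_nonpos (by linarith : 0 ≤ q i) hneg
      linarith
    refine cone_coord (ψ := fun u => ψ (fromC a u)) (q := -q) hsub' hhom' hdD ?_ hA (η := Rf q Y') ?_ hda ?_ hq'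
    · rw [neg_dp, dp_neg, hqq]; ring
    · intro i; rw [Rf_negq, Rf_negq]; exact hB i
    · intro i; rw [Rf_negq]; exact hdb' i

end Pool.Agent.Octa

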