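import Mathlib

/-! Cone lemma, part A: coordinates, one frame. Section 4 of proof_MP_f08f91_co.md -/

set_option autoImplicit false
set_option linter.unusedVariables false

namespace Pool.Agent.Octa

abbrev V3 := Fin 3 → ℝ

/-- dot product -/
def dp (N x : V3) : ℝ := N 0 * x 0 + N 1 * x 1 + N 2 * x 2
/-- cross product -/
def cr (u v : V3) : V3 := ![u 1 * v 2 - u 2 * v 1, u 2 * v 0 - u 0 * v 2, u 0 * v 1 - u 1 * v 0]
/-- determinant -/
def det3 (u v w : V3) : ℝ := dp u (cr v w)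
/-- standard basis -/
def ee (i : Fin 3) : V3 := Pi.single i 1
/-- the functional `x_j + x_k - x_i` -/
def Ev (i : Fin 3) (x : V3) : ℝ := x (i + 1) + x (i + 2) - x i

theorem dp_add (N x y : V3) : dp N (x + y) = dp N x + dp N y := by simp [dp]; ring
theorem dp_sub (N x y : V3) : dp N (x - y) = dp N x - dp N y := by simp [dp]; ring
theorem dp_smul (N x : V3) (c : ℝ) : dp N (c • x) = c * dp N x := by simp [dp]; ring
theorem dp_neg (N x : V3) : dp N (-x) = - dp N x := by simp [dp]; ring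
theorem dp_zero (N : V3) : dp N 0 = 0 := by simp [dp]
theorem add_dp (N M x : V3) : dp (N + M) x = dp N x + dp M x := by simp [dp]; ring
theorem sub_dp (N M x : V3) : dp (N - M) x = dp N x - dp M x := by simp [dp]; ring
theorem smul_dp (N x : V3) (c : ℝ) : dp (c • N) x = c * dp N x := by simp [dp]; ring
theorem neg_dp (N x : V3) : dp (-N) x = - dp N x := by simp [dp]; ring
theorem zero_dp (x : V3) : dp 0 x = 0 := by simp [dp]
theorem dp_comm (N x : V3) : dp N x = dp x N := by simp [dp]; ring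
theorem dp_ee (N : V3) (i : Fin 3) : dp N (ee i) = N i := by
  fin_cases i <;> simp [dp, ee]
theorem dp_cyc (N x : V3) (i : Fin 3) :
    dp N x = N i * x i + N (i + 1) * x (i + 1) + N (i + 2) * x (i + 2) := by
  fin_cases i <;> simp [dp] <;> ring
theorem det3_cyc (u v w : V3) (i : Fin 3) :
    det3 u v w = u i * (v (i + 1) * w (i + 2) - v (i + 2) * w (i + 1))
      + u (i + 1) * (v (i + 2) * w i - v i * w (i + 2))
      + u (i + 2) * (v i * w (i + 1) - v (i + 1) * w i) := by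
  fin_cases i <;> simp [det3, dp, cr] <;> ring

/-- Cramer's rule -/
theorem cramer (N u v w x : V3) :
    det3 u v w * dp N x = det3 x v w * dp N u + det3 u x w * dp N v + det3 u v x * dp N w := by
  simp [det3, dp, cr]; ring

theorem eq_zero_of_basis {N u v w : V3} (h : det3 u v w ≠ 0) (hu : dp N u = 0) (hv : dp N v = 0)
    (hw : dp N w = 0) : N = 0 := by
  funext i
  have := cramer N u v w (ee i)
  rw [hu, hv, hw, dp_ee] at this
  simp only [mul_zero, add_zero, mul_eq_zero] at this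
  rcases this with h1 | h1
  · exact absurd h1 h
  · simpa using h1

/-- nonnegativity on the octahedron around `y` -/
def NA (y N : V3) : Prop := ∀ m, |N m| ≤ dp N y

theorem NA.nonneg {y N : V3} (h : NA y N) : 0 ≤ dp N y := (abs_nonneg _).trans (h 0)

theorem NA.eq_zero {y N : V3} (h : NA y N) (h0 : dp N y = 0) : N = 0 := by
  funext m
  have := h m
  rw [h0] at this
  simpa using abs_nonpos_iff.1 this

theorem NA.pos {y N : V3} (h : NA y N) (h0 : N ≠ 0) : 0 < dp N y :=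
  lt_of_le_of_ne h.nonneg (fun h1 => h0 (h.eq_zero h1.symm))

/-- value at a vertex -/
theorem NA.plus {y N : V3} (h : NA y N) (i : Fin 3) : 0 ≤ dp N (y + ee i) := by
  rw [dp_add, dp_ee]; have := abs_le.1 (h i); linarith
theorem NA.minus {y N : V3} (h : NA y N) (i : Fin 3) : 0 ≤ dp N (y - ee i) := by
  rw [dp_sub, dp_ee]; have := abs_le.1 (h i); linarith

theorem NA_of_vertices {y N : V3} (h : ∀ i, 0 ≤ dp N (y + ee i) ∧ 0 ≤ dp N (y - ee i)) : NA y N := by
  intro m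
  have := h m
  rw [dp_add, dp_sub, dp_ee] at this
  rw [abs_le]
  constructor <;> linarith

/-- valid centers -/
structure Valid (y : V3) : Prop where
  one_le : ∀ i, 1 ≤ y i
  E : ∀ i, 1 ≤ Ev i y

theorem Valid.E' {y : V3} (h : Valid y) (i : Fin 3) : 1 ≤ y (i + 1) + y (i + 2) - y i := h.E i
theorem Valid.E1 {y : V3} (h : Valid y) (i : Fin 3) : 1 ≤ y i + y (i + 2) - y (i + 1) := by
  have := h.E (i + 1)
  fin_cases i <;> simp [Ev] at this ⊢ <;> linarith
theorem Valid.E2 {y : V3} (h : Valid y) (i : Fin 3) : 1 ≤ y i + y (i + 1) - y (i + 2) := by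
  have := h.E (i + 2)
  fin_cases i <;> simp [Ev] at this ⊢ <;> linarith

/-- F1 in scalar form -/
theorem F1_scalar {y1 y2 y3 n1 n2 n3 ny : ℝ} (hy1 : 1 ≤ y1) (hy2 : 1 ≤ y2) (hE : 1 ≤ y1 + y2 - y3) (hy3 : 1 ≤ y3)
    (hn : ny = n1 * y1 + n2 * y2 + n3 * y3) (h1 : n1 = -ny) (h2 : n2 = -ny) (h3 : |n3| ≤ ny) : ny = 0 := by
  subst h1 h2
  have h0 : 0 ≤ ny := (abs_nonneg _).trans h3
  have h4 : n3 ≤ ny := (le_abs_self _).trans h3
  nlinarith

/-- F1: a functional which is nonnegative on the octahedron and vanishes at two of the `t`'s is zero -/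
theorem F1 {y N : V3} (hy : Valid y) (h : NA y N) {i j : Fin 3} (hij : i ≠ j)
    (hi : dp N (y + ee i) = 0) (hj : dp N (y + ee j) = 0) : N = 0 := by
  apply h.eq_zero
  rw [dp_add, dp_ee] at hi hj
  have key : ∀ i : Fin 3, ∀ (_ : N i = - dp N y) (_ : N (i + 1) = - dp N y), dp N y = 0 := by
    intro i h1 h2
    exact F1_scalar (hy.one_le i) (hy.one_le (i + 1)) (hy.E2 i) (hy.one_le (i + 2)) (dp_cyc N y i) h1 h2 (h _)
  have h1 : N i = - dp N y := by linarith
  have h2 : N j = - dp N y := by linarith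
  fin_cases i <;> fin_cases j <;> first | exact absurd rfl hij | skip
  · exact key 0 h1 h2
  · exact key 2 h2 h1
  · exact key 0 h2 h1
  · exact key 1 h1 h2
  · exact key 2 h1 h2
  · exact key 1 h2 h1

/-- F2 in scalar form -/
theorem F2_scalar {y1 y2 y3 n1 n2 n3 ny : ℝ} (hy1 : 1 ≤ y1) (hy2 : 1 ≤ y2) (hE : 1 ≤ y1 + y2 - y3) (hy3 : 1 ≤ y3)
    (hn : ny = n1 * y1 + n2 * y2 + n3 * y3) (h1 : n1 = ny) (h2 : n2 = ny) (h3 : |n3| ≤ ny) (h0 : 0 < ny) :
    y1 + y2 - y3 = 1 ∧ n3 = - ny := by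
  rw [h1, h2] at hn
  have h4 : -ny ≤ n3 := (abs_le.1 h3).1
  have h5 : y1 + y2 - y3 = 1 := by
    have e1 : -ny * y3 ≤ n3 * y3 := mul_le_mul_of_nonneg_right h4 (by linarith)
    have e2 : ny * (y1 + y2 - y3 - 1) ≤ 0 := by linarith
    have e3 : 0 ≤ ny * (y1 + y2 - y3 - 1) := mul_nonneg h0.le (by linarith)
    have e4 : ny * (y1 + y2 - y3 - 1) = 0 := le_antisymm e2 e3
    rcases mul_eq_zero.1 e4 with h | h
    · linarith
    · linarith
  refine ⟨h5, ?_⟩
  have h6 : (n3 + ny) * y3 = 0 := by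
    have : y3 = y1 + y2 - 1 := by linarith
    rw [this] at hn ⊢
    linarith
  rcases mul_eq_zero.1 h6 with h | h
  · linarith
  · linarith

/-- F2: a nonzero functional which is nonnegative on the octahedron and vanishes at `y - e_i, y - e_j` -/
theorem F2 {y N : V3} (hy : Valid y) (h : NA y N) (h0 : N ≠ 0) {i j k : Fin 3} (hij : i ≠ j) (hik : i ≠ k) (hjk : j ≠ k)
    (hi : dp N (y - ee i) = 0) (hj : dp N (y - ee j) = 0) :
    y i + y j - y k = 1 ∧ N i = dp N y ∧ N j = dp N y ∧ N k = - dp N y := by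
  have hp := h.pos h0
  rw [dp_sub, dp_ee] at hi hj
  have h1 : N i = dp N y := by linarith
  have h2 : N j = dp N y := by linarith
  have hs : dp N y = N i * y i + N j * y j + N k * y k := by
    revert hij hik hjk
    fin_cases i <;> fin_cases j <;> fin_cases k <;> simp [dp] <;> ring
  have hE : 1 ≤ y i + y j - y k := by
    have := hy.E k
    revert this hij hik hjk
    fin_cases i <;> fin_cases j <;> fin_cases k <;> simp [Ev] <;> intro h <;> linarith
  obtain ⟨h3, h4⟩ := F2_scalar (hy.one_le i) (hy.one_le j) hE (hy.one_le k) hs h1 h2 (h k) hp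
  exact ⟨h3, h1, h2, h4⟩

/-- representation by the `E` functionals -/
theorem E_repr (N x : V3) (i : Fin 3) :
    dp N x = (N (i+1) + N (i+2)) / 2 * Ev i x + (N i + N (i+2)) / 2 * Ev (i+1) x
      + (N i + N (i+1)) / 2 * Ev (i+2) x := by
  fin_cases i <;> simp [dp, Ev] <;> ring

theorem MM_scalar {Y1 Y2 Y3 Z1 Z2 Z3 n1 n2 n3 ny : ℝ} (hY1 : 1 ≤ Y1) (hY2 : 1 ≤ Y2) (hY3 : 1 ≤ Y3)
    (hny : 0 < ny)
    (hy : ny = (n2 + n3) / 2 * Y1 + (n1 + n3) / 2 * Y2 + (n1 + n2) / 2 * Y3)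
    (h1 : n1 = - ny) (h2 : |n2| ≤ ny) (h3 : |n3| ≤ ny)
    (hmax2 : Z2 * Y1 ≤ Z1 * Y2) (hmax3 : Z3 * Y1 ≤ Z1 * Y3)
    (hz : (n2 + n3) / 2 * Z1 + (n1 + n3) / 2 * Z2 + (n1 + n2) / 2 * Z3 ≤ 0) : Z1 ≤ 0 := by
  subst h1
  have h2' := abs_le.1 h2
  have h3' := abs_le.1 h3
  by_contra hc
  push Not at hc
  have e1 : (ny - n3) / 2 * (Z2 * Y1) ≤ (ny - n3) / 2 * (Z1 * Y2) :=
    mul_le_mul_of_nonneg_left hmax2 (by linarith)
  have e2 : (ny - n2) / 2 * (Z3 * Y1) ≤ (ny - n2) / 2 * (Z1 * Y3) :=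
    mul_le_mul_of_nonneg_left hmax3 (by linarith)
  have e3 : ((n2 + n3) / 2 * Z1 + (-ny + n3) / 2 * Z2 + (-ny + n2) / 2 * Z3) * Y1 ≤ 0 :=
    mul_nonpos_of_nonpos_of_nonneg hz (by linarith)
  have e4 : Z1 * ny ≤ 0 := by nlinarith
  have e5 : 0 < Z1 * ny := mul_pos hc hny
  linarith

/-- the M-matrix lemma -/
theorem MM {y : V3} (hy : Valid y) {N : Fin 3 → V3} (hN : ∀ i, NA y (N i)) (hN0 : ∀ i, N i ≠ 0)
    (ht : ∀ i, dp (N i) (y + ee i) = 0) {ζ : V3} (hz : ∀ i, dp (N i) ζ ≤ 0) : ∀ j, Ev j ζ ≤ 0 := by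
  have key : ∀ i : Fin 3, Ev (i+1) ζ * Ev i y ≤ Ev i ζ * Ev (i+1) y → Ev (i+2) ζ * Ev i y ≤ Ev i ζ * Ev (i+2) y →
      Ev i ζ ≤ 0 := by
    intro i hm2 hm3
    have h1 : N i i = - dp (N i) y := by
      have := ht i
      rw [dp_add, dp_ee] at this; linarith
    exact MM_scalar (hy.E i) (hy.E (i+1)) (hy.E (i+2)) ((hN i).pos (hN0 i)) (E_repr (N i) y i) h1 (hN i _) (hN i _)
      hm2 hm3 (by rw [← E_repr]; exact hz i)
  -- compare ratios
  set r : Fin 3 → ℝ := fun j => Ev j ζ / Ev j y with hr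
  have hpos : ∀ j, 0 < Ev j y := fun j => lt_of_lt_of_le one_pos (hy.E j)
  obtain ⟨i, -, hi⟩ := Finset.exists_max_image Finset.univ r ⟨0, Finset.mem_univ _⟩
  have hle : ∀ j, Ev j ζ * Ev i y ≤ Ev i ζ * Ev j y := by
    intro j
    have := hi j (Finset.mem_univ _)
    simp only [hr] at this
    rwa [div_le_div_iff₀ (hpos j) (hpos i)] at this
  have h0 : Ev i ζ ≤ 0 := key i (hle _) (hle _)
  intro j
  have h1 := hle j
  have h2 : Ev j ζ * Ev i y ≤ 0 := h1.trans (mul_nonpos_of_nonpos_of_nonneg h0 (hpos j).le)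
  by_contra hc
  push Not at hc
  have := mul_pos hc (hpos i)
  linarith

/-- a functional with positive coefficients -/
theorem dp_nonpos_of_Ev {q : V3} (hq : ∀ i, 0 < q i) {ζ : V3} (h : ∀ j, Ev j ζ ≤ 0) : dp q ζ ≤ 0 := by
  have := E_repr q ζ 0
  rw [this]
  have h0 := hq 0
  have h1 := hq 1
  have h2 := hq 2
  have e0 := h 0
  have e1 := h 1
  have e2 := h 2
  simp only [zero_add]
  have p0 : (q 1 + q 2) / 2 * Ev 0 ζ ≤ 0 := mul_nonpos_of_nonneg_of_nonpos (by linarith) e0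
  have p1 : (q 0 + q 2) / 2 * Ev 1 ζ ≤ 0 := mul_nonpos_of_nonneg_of_nonpos (by linarith) e1
  have p2 : (q 0 + q 1) / 2 * Ev 2 ζ ≤ 0 := mul_nonpos_of_nonneg_of_nonpos (by linarith) e2
  linarith

theorem eq_zero_of_Ev {ζ : V3} (h : ∀ j, Ev j ζ = 0) : ζ = 0 := by
  have h0 := h 0
  have h1 := h 1
  have h2 := h 2
  simp [Ev] at h0 h1 h2
  funext j
  fin_cases j <;> simp <;> linarith

theorem eq_zero_of_Ev_dp {q : V3} (hq : ∀ i, 0 < q i) {ζ : V3} (h : ∀ j, 0 ≤ Ev j ζ) (h0 : dp q ζ ≤ 0) : ζ = 0 := by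
  apply eq_zero_of_Ev
  have := E_repr q ζ 0
  rw [this] at h0
  simp only [zero_add] at h0
  have q0 := hq 0
  have q1 := hq 1
  have q2 := hq 2
  have p0 : 0 ≤ (q 1 + q 2) / 2 * Ev 0 ζ := mul_nonneg (by linarith) (h 0)
  have p1 : 0 ≤ (q 0 + q 2) / 2 * Ev 1 ζ := mul_nonneg (by linarith) (h 1)
  have p2 : 0 ≤ (q 0 + q 1) / 2 * Ev 2 ζ := mul_nonneg (by linarith) (h 2)
  intro j
  fin_cases j
  · have : (q 1 + q 2) / 2 * Ev 0 ζ = 0 := by linarith
    rcases mul_eq_zero.1 this with h | h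
    · linarith
    · exact h
  · have : (q 0 + q 2) / 2 * Ev 1 ζ = 0 := by linarith
    rcases mul_eq_zero.1 this with h | h
    · linarith
    · exact h
  · have : (q 0 + q 1) / 2 * Ev 2 ζ = 0 := by linarith
    rcases mul_eq_zero.1 this with h | h
    · linarith
    · exact h

end Pool.Agent.Octa
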