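import Pool.Agent.Octa.ConeA

/-! Cone lemma, part B: vertex checks, Cramer at a vertex, lemma G4. -/

set_option autoImplicit false
set_option linter.unusedVariables false

namespace Pool.Agent.Octa

theorem dp_cr (u v w : V3) : dp (cr u v) w = det3 u v w := by simp [det3, dp, cr]; ring

theorem vertex_scalar {y1 y2 y3 D1 D2 D3 ρ σ : ℝ} (hσ : σ = 1 ∨ σ = -1)
    (hy1 : 1 ≤ y1) (hy2 : 1 ≤ y2) (hy3 : 1 ≤ y3) (hE2 : 1 ≤ y1 + y3 - y2) (hE3 : 1 ≤ y1 + y2 - y3)
    (hY : 0 < y2 + y3 - y1 - σ) (hρ : ρ = D1 * y1 + D2 * y2 + D3 * y3) (h1 : ρ + σ * D1 = 0)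
    (h2 : 0 ≤ ρ - σ * D2) (h3 : 0 ≤ ρ - σ * D3) : |D1| ≤ ρ ∧ |D2| ≤ ρ ∧ |D3| ≤ ρ := by
  set r2 := ρ - σ * D2 with hr2
  set r3 := ρ - σ * D3 with hr3
  have hρ1 : ρ * (y2 + y3 - y1 - σ) = y2 * r2 + y3 * r3 := by
    rcases hσ with h | h <;> subst h
    · have e1 : D1 = - ρ := by linarith
      rw [hr2, hr3]; rw [e1] at hρ; linarith
    · have e1 : D1 = ρ := by linarith
      rw [hr2, hr3]; rw [e1] at hρ; linarith
  have hρ0 : 0 ≤ ρ := by
    by_contra hc
    push Not at hc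
    have : ρ * (y2 + y3 - y1 - σ) < 0 := mul_neg_of_neg_of_pos hc hY
    have : 0 ≤ y2 * r2 := mul_nonneg (by linarith) h2
    have : 0 ≤ y3 * r3 := mul_nonneg (by linarith) h3
    linarith
  have hσ1 : -1 ≤ σ := by rcases hσ with h | h <;> subst h <;> norm_num
  have h22 : r2 ≤ 2 * ρ := by
    have e1 : (y2 + y3 - y1 - σ) * (2 * ρ - r2) = r2 * ((y1 + y2 - y3) + σ) + 2 * (y3 * r3) := by
      have : (y2 + y3 - y1 - σ) * (2 * ρ - r2) = 2 * (ρ * (y2 + y3 - y1 - σ)) - r2 * (y2 + y3 - y1 - σ) := by ring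
      rw [this, hρ1]; ring
    have e2 : 0 ≤ r2 * ((y1 + y2 - y3) + σ) + 2 * (y3 * r3) :=
      add_nonneg (mul_nonneg h2 (by linarith)) (by have := mul_nonneg (by linarith : (0:ℝ) ≤ y3) h3; linarith)
    by_contra hc
    push Not at hc
    have : (y2 + y3 - y1 - σ) * (2 * ρ - r2) < 0 := mul_neg_of_pos_of_neg hY (by linarith)
    linarith
  have h33 : r3 ≤ 2 * ρ := by
    have e1 : (y2 + y3 - y1 - σ) * (2 * ρ - r3) = r3 * ((y1 + y3 - y2) + σ) + 2 * (y2 * r2) := by
      have : (y2 + y3 - y1 - σ) * (2 * ρ - r3) = 2 * (ρ * (y2 + y3 - y1 - σ)) - r3 * (y2 + y3 - y1 - σ) := by ring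
      rw [this, hρ1]; ring
    have e2 : 0 ≤ r3 * ((y1 + y3 - y2) + σ) + 2 * (y2 * r2) :=
      add_nonneg (mul_nonneg h3 (by linarith)) (by have := mul_nonneg (by linarith : (0:ℝ) ≤ y2) h2; linarith)
    by_contra hc
    push Not at hc
    have : (y2 + y3 - y1 - σ) * (2 * ρ - r3) < 0 := mul_neg_of_pos_of_neg hY (by linarith)
    linarith
  rcases hσ with h | h <;> subst h
  · refine ⟨?_, ?_, ?_⟩ <;> rw [abs_le] <;> constructor <;> linarith
  · refine ⟨?_, ?_, ?_⟩ <;> rw [abs_le] <;> constructor <;> linarith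

theorem fin3_cases : ∀ i m : Fin 3, m = i ∨ m = i + 1 ∨ m = i + 2 := by decide

/-- (a)/(b) check: vanishing at `y + σ e_i`, nonnegative at `y - σ e_j, y - σ e_k` implies nonnegative on the octahedron -/
theorem vertex_check {y D : V3} (hy : Valid y) {σ : ℝ} (hσ : σ = 1 ∨ σ = -1) (i : Fin 3) (hY : 0 < Ev i y - σ)
    (h0 : dp D (y + σ • ee i) = 0) (hj : 0 ≤ dp D (y - σ • ee (i + 1))) (hk : 0 ≤ dp D (y - σ • ee (i + 2))) :
    NA y D := by
  rw [dp_add, dp_smul, dp_ee] at h0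
  rw [dp_sub, dp_smul, dp_ee] at hj hk
  obtain ⟨a1, a2, a3⟩ := vertex_scalar (D1 := D i) (D2 := D (i+1)) (D3 := D (i+2)) hσ (hy.one_le i) (hy.one_le (i+1)) (hy.one_le (i+2))
    (hy.E1 i) (hy.E2 i) hY (dp_cyc D y i) h0 hj hk
  intro m
  have : m = i ∨ m = i + 1 ∨ m = i + 2 := fin3_cases i m
  rcases this with h | h | h <;> subst h <;> assumption

/-- determinant of the three relevant vertices -/
theorem det_vertex (y : V3) {σ : ℝ} (hσ : σ = 1 ∨ σ = -1) (i : Fin 3) :
    det3 (y + σ • ee i) (y - σ • ee (i + 2)) (y - σ • ee (i + 1)) = Ev i y - σ := by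
  rcases hσ with h | h <;> subst h <;> fin_cases i <;> simp [det3, dp, cr, ee, Ev] <;> ring

theorem det3_swap (u v w : V3) : det3 u v w = - det3 u w v := by simp [det3, dp, cr]; ring
theorem det3_swap' (u v w : V3) : det3 u v w = - det3 v u w := by simp [det3, dp, cr]; ring

/-- Cramer at a vertex -/
theorem cramer_vertex (y M x : V3) {σ : ℝ} (hσ : σ = 1 ∨ σ = -1) (i : Fin 3) (h0 : dp M (y + σ • ee i) = 0) :
    (Ev i y - σ) * dp M x =
      det3 (y + σ • ee i) x (y - σ • ee (i + 1)) * dp M (y - σ • ee (i + 2))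
      - det3 (y + σ • ee i) x (y - σ • ee (i + 2)) * dp M (y - σ • ee (i + 1)) := by
  have := cramer M (y + σ • ee i) (y - σ • ee (i + 2)) (y - σ • ee (i + 1)) x
  rw [det_vertex y hσ i, h0, det3_swap (y + σ • ee i) (y - σ • ee (i + 2)) x] at this
  linarith

/-- the degenerate case `Y_i = 1` -/
theorem det_degenerate (y x : V3) (i : Fin 3) (hY : Ev i y = 1) :
    det3 (y + ee i) (y - ee (i + 2)) x = y (i + 1) * Ev i x ∧
    det3 (y + ee i) (y - ee (i + 1)) x = - (y (i + 2) * Ev i x) := by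
  fin_cases i
  · simp [Ev] at hY
    have : y 1 = 1 + y 0 - y 2 := by linarith
    constructor
    · simp [det3, dp, cr, ee, Ev]; rw [this]; ring
    · simp [det3, dp, cr, ee, Ev]; rw [this]; ring
  · simp [Ev] at hY
    have : y 2 = 1 + y 1 - y 0 := by linarith
    constructor
    · simp [det3, dp, cr, ee, Ev]; rw [this]; ring
    · simp [det3, dp, cr, ee, Ev]; rw [this]; ring
  · simp [Ev] at hY
    have : y 0 = 1 + y 2 - y 1 := by linarith
    constructor
    · simp [det3, dp, cr, ee, Ev]; rw [this]; ring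
    · simp [det3, dp, cr, ee, Ev]; rw [this]; ring

/-- a support at `t_i` when `Y_i = 1` is a multiple of `E_i` -/
theorem support_degenerate {y M : V3} (hy : Valid y) (hM : NA y M) (i : Fin 3) (hY : Ev i y = 1)
    (h0 : dp M (y + ee i) = 0) (x : V3) : dp M x = dp M y * Ev i x := by
  rw [dp_add, dp_ee] at h0
  have h1 := hM (i + 1)
  have h2 := hM (i + 2)
  have hc := dp_cyc M y i
  have e1 : M (i+1) ≤ dp M y := (le_abs_self _).trans h1
  have e2 : M (i+2) ≤ dp M y := (le_abs_self _).trans h2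
  have y1 := hy.one_le (i+1)
  have y2 := hy.one_le (i+2)
  unfold Ev at hY
  have h3 : (dp M y - M (i+1)) * y (i+1) + (dp M y - M (i+2)) * y (i+2) = 0 := by
    have e3 : M i = - dp M y := by linarith
    rw [e3] at hc
    have e4 : y (i+1) = 1 + y i - y (i+2) := by linarith
    have : (dp M y - M (i+1)) * y (i+1) + (dp M y - M (i+2)) * y (i+2)
      = dp M y * (y (i+1) + y (i+2)) - (M (i+1) * y (i+1) + M (i+2) * y (i+2)) := by ring
    rw [this]
    have e5 : M (i+1) * y (i+1) + M (i+2) * y (i+2) = dp M y + dp M y * y i := by linarith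
    rw [e5, e4]; ring
  have p1 : 0 ≤ (dp M y - M (i+1)) * y (i+1) := mul_nonneg (by linarith) (by linarith)
  have p2 : 0 ≤ (dp M y - M (i+2)) * y (i+2) := mul_nonneg (by linarith) (by linarith)
  have q1 : (dp M y - M (i+1)) * y (i+1) = 0 := by linarith
  have q2 : (dp M y - M (i+2)) * y (i+2) = 0 := by linarith
  have r1 : M (i+1) = dp M y := by
    rcases mul_eq_zero.1 q1 with h | h
    · linarith
    · linarith
  have r2 : M (i+2) = dp M y := by
    rcases mul_eq_zero.1 q2 with h | h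
    · linarith
    · linarith
  have r0 : M i = - dp M y := by linarith
  have := dp_cyc M x i
  rw [r0, r1, r2] at this
  rw [this]; unfold Ev; ring

theorem G4_scalar {c1 c3 c4 al ga be ep N12 N13 N14 N21 N23 N24 N31 N32 N34 N41 N43 : ℝ}
    (hal : 0 < al) (hga : 0 < ga) (hbe : 0 < be) (hep : 0 ≤ ep)
    (p12 : 0 ≤ N12) (p14 : 0 ≤ N14) (p21 : 0 ≤ N21) (p23 : 0 ≤ N23) (p24 : 0 ≤ N24)
    (p32 : 0 ≤ N32) (p34 : 0 ≤ N34) (p41 : 0 ≤ N41) (p43 : 0 ≤ N43) (p13 : 0 < N13) (p31 : 0 < N31)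
    (r1 : ga * N13 = be * N12 + ep * N14) (r3 : al * N31 = be * N32 + ep * N34)
    (r2 : al * N21 + ga * N23 = ep * N24)
    (h1 : c3 * N13 + c4 * N14 = 0) (h3 : c1 * N31 + c4 * N34 = 0)
    (h2 : 0 < c1 * N21 + c3 * N23 + c4 * N24) (h4 : 0 < c1 * N41 + c3 * N43) : False := by
  set p := N34 / N31 with hp
  set r := N14 / N13 with hr
  have hp0 : 0 ≤ p := div_nonneg p34 p31.le
  have hr0 : 0 ≤ r := div_nonneg p14 p13.le
  have hpe : N34 = p * N31 := by rw [hp]; field_simp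
  have hre : N14 = r * N13 := by rw [hr]; field_simp
  have hc1 : c1 = - c4 * p := by
    rw [hpe] at h3
    have : (c1 + c4 * p) * N31 = 0 := by linarith
    rcases mul_eq_zero.1 this with h | h
    · linarith
    · exact absurd h p31.ne'
  have hc3 : c3 = - c4 * r := by
    rw [hre] at h1
    have : (c3 + c4 * r) * N13 = 0 := by linarith
    rcases mul_eq_zero.1 this with h | h
    · linarith
    · exact absurd h p13.ne'
  have hepp : ep * p ≤ al := by
    have : (al - ep * p) * N31 = be * N32 := by rw [hpe] at r3; linarith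
    by_contra hc
    push Not at hc
    have e1 : (al - ep * p) * N31 < 0 := mul_neg_of_neg_of_pos (by linarith) p31
    have e2 : 0 ≤ be * N32 := mul_nonneg hbe.le p32
    linarith
  have hepr : ep * r ≤ ga := by
    have : (ga - ep * r) * N13 = be * N12 := by rw [hre] at r1; linarith
    by_contra hc
    push Not at hc
    have e1 : (ga - ep * r) * N13 < 0 := mul_neg_of_neg_of_pos (by linarith) p13
    have e2 : 0 ≤ be * N12 := mul_nonneg hbe.le p12
    linarith
  rw [hc1, hc3] at h2 h4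
  have hc4 : c4 < 0 := by
    by_contra hc
    push Not at hc
    have : 0 ≤ c4 * (p * N41 + r * N43) :=
      mul_nonneg hc (add_nonneg (mul_nonneg hp0 p41) (mul_nonneg hr0 p43))
    linarith
  have hbr : 0 ≤ N24 - p * N21 - r * N23 := by
    rcases hep.lt_or_eq with h | h
    · by_contra hc
      push Not at hc
      have e1 : ep * (N24 - p * N21 - r * N23) < 0 := mul_neg_of_pos_of_neg h hc
      have e2 : ep * (N24 - p * N21 - r * N23) = (al - ep * p) * N21 + (ga - ep * r) * N23 := by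
        have : ep * (N24 - p * N21 - r * N23) = ep * N24 - ep * p * N21 - ep * r * N23 := by ring
        rw [this, ← r2]; ring
      have e3 : 0 ≤ (al - ep * p) * N21 + (ga - ep * r) * N23 :=
        add_nonneg (mul_nonneg (by linarith) p21) (mul_nonneg (by linarith) p23)
      linarith
    · rw [← h] at r2
      have e1 : 0 ≤ al * N21 := mul_nonneg hal.le p21
      have e2 : 0 ≤ ga * N23 := mul_nonneg hga.le p23
      have e3 : al * N21 = 0 := by linarith
      have e4 : ga * N23 = 0 := by linarith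
      have e5 : N21 = 0 := by
        rcases mul_eq_zero.1 e3 with h | h
        · exact absurd h hal.ne'
        · exact h
      have e6 : N23 = 0 := by
        rcases mul_eq_zero.1 e4 with h | h
        · exact absurd h hga.ne'
        · exact h
      rw [e5, e6]; linarith
  have : c4 * (N24 - p * N21 - r * N23) ≤ 0 := mul_nonpos_of_nonpos_of_nonneg hc4.le hbr
  linarith

/-- lemma G4 -/
theorem G4 {v1 v2 v3 v4 V N1 N2 N3 N4 : V3} {al ga be ep : ℝ} (hb : det3 v1 v3 v4 ≠ 0)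
    (hrel : al • v1 + ga • v3 = be • v2 + ep • v4) (hal : 0 < al) (hga : 0 < ga) (hbe : 0 < be) (hep : 0 ≤ ep)
    (z1 : dp N1 v1 = 0) (z2 : dp N2 v2 = 0) (z3 : dp N3 v3 = 0) (z4 : dp N4 v4 = 0)
    (p12 : 0 ≤ dp N1 v2) (p13 : 0 < dp N1 v3) (p14 : 0 ≤ dp N1 v4)
    (p21 : 0 ≤ dp N2 v1) (p23 : 0 ≤ dp N2 v3) (p24 : 0 ≤ dp N2 v4)
    (p31 : 0 < dp N3 v1) (p32 : 0 ≤ dp N3 v2) (p34 : 0 ≤ dp N3 v4)
    (p41 : 0 ≤ dp N4 v1) (p43 : 0 ≤ dp N4 v3)
    (hV1 : dp N1 V = 0) (hV3 : dp N3 V = 0) (h2 : 0 < dp N2 V) (h4 : 0 < dp N4 V) : False := by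
  have hN : ∀ N : V3, dp N V = det3 V v3 v4 / det3 v1 v3 v4 * dp N v1 + det3 v1 V v4 / det3 v1 v3 v4 * dp N v3
      + det3 v1 v3 V / det3 v1 v3 v4 * dp N v4 := by
    intro N
    have := cramer N v1 v3 v4 V
    field_simp
    linarith
  have hR : ∀ N : V3, al * dp N v1 + ga * dp N v3 = be * dp N v2 + ep * dp N v4 := by
    intro N
    have := congrArg (dp N) hrel
    simpa only [dp_add, dp_smul] using this
  have a1 := hN N1
  have a2 := hN N2
  have a3 := hN N3
  have a4 := hN N4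
  have b1 := hR N1
  have b2 := hR N2
  have b3 := hR N3
  rw [hV1, z1] at a1
  rw [hV3, z3] at a3
  rw [z4] at a4
  rw [z1] at b1
  rw [z2] at b2
  rw [z3] at b3
  refine G4_scalar (c1 := det3 V v3 v4 / det3 v1 v3 v4) (c3 := det3 v1 V v4 / det3 v1 v3 v4)
    (c4 := det3 v1 v3 V / det3 v1 v3 v4) hal hga hbe hep p12 p14 p21 p23 p24 p32 p34 p41 p43 p13 p31
    (by linarith) (by linarith) (by linarith) (by linarith) (by linarith) (by rw [← a2]; exact h2) ?_
  rw [a4] at h4
  linarith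

end Pool.Agent.Octa
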