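import Pool.Agent.Octa.ConeB

/-! Cone lemma, part C: the two frames, lemmas P1, Va, Vb. -/

set_option autoImplicit false
set_option linter.unusedVariables false

namespace Pool.Agent.Octa

/-- half turn about `q` -/
def Rf (q x : V3) : V3 := (2 * dp q x) • q - x

theorem Rf_add (q x y : V3) : Rf q (x + y) = Rf q x + Rf q y := by
  funext i; simp [Rf, dp]; ring
theorem Rf_sub (q x y : V3) : Rf q (x - y) = Rf q x - Rf q y := by
  funext i; simp [Rf, dp]; ring
theorem Rf_smul (q x : V3) (c : ℝ) : Rf q (c • x) = c • Rf q x := by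
  funext i; simp [Rf, dp]; ring
theorem dp_Rf (q N x : V3) : dp N (Rf q x) = dp (Rf q N) x := by
  simp [Rf, dp]; ring
theorem Rf_Rf {q : V3} (hq : dp q q = 1) (x : V3) : Rf q (Rf q x) = x := by
  have h : dp q (Rf q x) = dp q x := by
    unfold Rf
    rw [dp_sub, dp_smul, hq]; ring
  have h2 : Rf q (Rf q x) = (2 * dp q (Rf q x)) • q - Rf q x := rfl
  rw [h2, h]
  unfold Rf
  abel
theorem Rf_self {q : V3} (hq : dp q q = 1) : Rf q q = q := by
  funext i; simp [Rf, hq]; ring
theorem det3_Rf {q : V3} (hq : dp q q = 1) (u v w : V3) : det3 (Rf q u) (Rf q v) (Rf q w) = det3 u v w := by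
  have : det3 (Rf q u) (Rf q v) (Rf q w) = (2 * dp q q - 1) * det3 u v w := by
    simp [Rf, det3, dp, cr]; ring
  rw [this, hq]; ring

theorem Rf_ne_zero {q : V3} (hq : dp q q = 1) {x : V3} (hx : x ≠ 0) : Rf q x ≠ 0 := by
  intro h
  apply hx
  rw [← Rf_Rf hq x, h]
  funext i; simp [Rf, dp]

/-- all the data of the cone lemma in coordinates: `y` is the center of the first octahedron (frame: standard basis),
`η` are the coordinates of the center of the second one in the frame `Rf q (ee i)`. -/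
structure CD (y η q : V3) (M N M' N' : Fin 3 → V3) : Prop where
  q0 : ∀ i, 0 < q i
  q1 : dp q q = 1
  vy : Valid y
  vη : Valid η
  MA : ∀ i, NA y (M i)
  MB : ∀ i, NA η (Rf q (M i))
  M0 : ∀ i, M i ≠ 0
  Mt : ∀ i, dp (M i) (y + ee i) = 0
  NA' : ∀ i, NA y (N i)
  NB : ∀ i, NA η (Rf q (N i))
  N0 : ∀ i, N i ≠ 0
  Nt : ∀ i, dp (N i) (y - ee i) = 0
  M'A : ∀ i, NA y (M' i)
  M'B : ∀ i, NA η (Rf q (M' i))
  M'0 : ∀ i, M' i ≠ 0
  M't : ∀ i, dp (Rf q (M' i)) (η + ee i) = 0
  N'A : ∀ i, NA y (N' i)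
  N'B : ∀ i, NA η (Rf q (N' i))
  N'0 : ∀ i, N' i ≠ 0
  N't : ∀ i, dp (Rf q (N' i)) (η - ee i) = 0

variable {y η q : V3} {M N M' N' : Fin 3 → V3}

/-- exchange of the two octahedra -/
theorem CD.swap (h : CD y η q M N M' N') :
    CD η y q (fun i => Rf q (M' i)) (fun i => Rf q (N' i)) (fun i => Rf q (M i)) (fun i => Rf q (N i)) where
  q0 := h.q0
  q1 := h.q1
  vy := h.vη
  vη := h.vy
  MA := h.M'B
  MB := fun i => by rw [Rf_Rf h.q1]; exact h.M'A i
  M0 := fun i => Rf_ne_zero h.q1 (h.M'0 i)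
  Mt := h.M't
  NA' := h.N'B
  NB := fun i => by rw [Rf_Rf h.q1]; exact h.N'A i
  N0 := fun i => Rf_ne_zero h.q1 (h.N'0 i)
  Nt := h.N't
  M'A := h.MB
  M'B := fun i => by rw [Rf_Rf h.q1]; exact h.MA i
  M'0 := fun i => Rf_ne_zero h.q1 (h.M0 i)
  M't := fun i => by rw [Rf_Rf h.q1]; exact h.Mt i
  N'A := h.NB
  N'B := fun i => by rw [Rf_Rf h.q1]; exact h.NA' i
  N'0 := fun i => Rf_ne_zero h.q1 (h.N0 i)
  N't := fun i => by rw [Rf_Rf h.q1]; exact h.Nt i

/-- the difference of the centers -/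
def zz (y η q : V3) : V3 := Rf q η - y

theorem zz_swap {y η q : V3} (hq : dp q q = 1) : zz η y q = - Rf q (zz y η q) := by
  unfold zz
  rw [Rf_sub, Rf_Rf hq]; abel

theorem Rf_ee (q : V3) (i : Fin 3) : Rf q (ee i) = (2 * q i) • q - ee i := by
  unfold Rf; rw [dp_ee]

/-- `B'_i = t_i + z - φ_i q` -/
theorem vB' (y η q : V3) (i : Fin 3) :
    Rf q (η - ee i) = (y + ee i) + (zz y η q - (2 * q i) • q) := by
  rw [Rf_sub, Rf_ee]; unfold zz; abel
/-- `t'_i = B_i + z + φ_i q` -/
theorem vt' (y η q : V3) (i : Fin 3) :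
    Rf q (η + ee i) = (y - ee i) + (zz y η q + (2 * q i) • q) := by
  rw [Rf_add, Rf_ee]; unfold zz; abel

theorem CD.M_z (h : CD y η q M N M' N') (i : Fin 3) : 2 * q i * dp (M i) q ≤ dp (M i) (zz y η q) := by
  have h1 := (h.MB i).minus i
  rw [← dp_Rf, vB' y, dp_add, h.Mt i, dp_sub, dp_smul] at h1
  linarith
theorem CD.N_z (h : CD y η q M N M' N') (i : Fin 3) : -(2 * q i * dp (N i) q) ≤ dp (N i) (zz y η q) := by
  have h1 := (h.NB i).plus i
  rw [← dp_Rf, vt' y, dp_add, h.Nt i, dp_add, dp_smul] at h1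
  linarith
theorem CD.M'_z (h : CD y η q M N M' N') (i : Fin 3) : dp (M' i) (zz y η q) ≤ -(2 * q i * dp (M' i) q) := by
  have h1 := h.M't i
  have h2 := (h.M'A i).minus i
  rw [← dp_Rf, vt' y, dp_add, dp_add, dp_smul] at h1
  linarith
theorem CD.N'_z (h : CD y η q M N M' N') (i : Fin 3) : dp (N' i) (zz y η q) ≤ 2 * q i * dp (N' i) q := by
  have h1 := h.N't i
  have h2 := (h.N'A i).plus i
  rw [← dp_Rf, vB' y, dp_add, dp_sub, dp_smul] at h1
  linarith

/-- some `M_i (q) > 0` -/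
theorem CD.exists_M (h : CD y η q M N M' N') : ∃ i, 0 < dp (M i) q := by
  by_contra hc
  push Not at hc
  have := MM h.vy h.MA h.M0 h.Mt hc
  have := dp_nonpos_of_Ev h.q0 this
  rw [h.q1] at this
  linarith

theorem CD.exists_M' (h : CD y η q M N M' N') : ∃ i, 0 < dp (M' i) q := by
  obtain ⟨i, hi⟩ := h.swap.exists_M
  refine ⟨i, ?_⟩
  rw [← dp_Rf, Rf_self h.q1] at hi
  exact hi

/-- lemma K -/
theorem CD.K (h : CD y η q M N M' N') : ¬ ((∀ i, 0 ≤ dp (M i) q) ∧ ∀ i, 0 ≤ dp (M' i) q) := by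
  rintro ⟨h1, h2⟩
  have hz1 : ∀ i, dp (M i) (- zz y η q) ≤ 0 := by
    intro i
    rw [dp_neg]
    have := h.M_z i
    have h3 : 0 ≤ 2 * q i * dp (M i) q := mul_nonneg (by have := h.q0 i; linarith) (h1 i)
    linarith
  have e1 := MM h.vy h.MA h.M0 h.Mt hz1
  have hz2 : ∀ i, dp (Rf q (M' i)) (Rf q (zz y η q)) ≤ 0 := by
    intro i
    rw [← dp_Rf, Rf_Rf h.q1]
    have := h.M'_z i
    have h3 : 0 ≤ 2 * q i * dp (M' i) q := mul_nonneg (by have := h.q0 i; linarith) (h2 i)
    linarith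
  have e2 := MM h.swap.vy h.swap.MA h.swap.M0 h.swap.Mt hz2
  have e3 := dp_nonpos_of_Ev h.q0 e2
  rw [dp_Rf, Rf_self h.q1] at e3
  have e4 : ∀ j, 0 ≤ Ev j (zz y η q) := by
    intro j
    have := e1 j
    have e5 : Ev j (- zz y η q) = - Ev j (zz y η q) := by simp [Ev]; ring
    rw [e5] at this; linarith
  have e6 : zz y η q = 0 := eq_zero_of_Ev_dp h.q0 e4 e3
  obtain ⟨i, hi⟩ := h.exists_M
  have := h.M_z i
  rw [e6, dp_zero] at this
  have h3 : 0 < 2 * q i * dp (M i) q := mul_pos (by have := h.q0 i; linarith) hi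
  linarith

/-- signs of elements of the plane spanned by `q` and `z` lying in all half spaces -/
theorem CD.plane (h : CD y η q M N M' N') {X Y : ℝ} (h1 : ∀ i, 0 ≤ dp (M i) (X • q + Y • zz y η q))
    (h2 : ∀ i, 0 ≤ dp (M' i) (X • q + Y • zz y η q)) (h0 : X ≠ 0 ∨ Y ≠ 0) : 0 < X ∧ Y ≠ 0 := by
  obtain ⟨i, hi⟩ := h.exists_M
  obtain ⟨j, hj⟩ := h.exists_M'
  have a1 := h1 i
  have a2 := h2 j
  rw [dp_add, dp_smul, dp_smul] at a1 a2
  have b1 := h.M_z i
  have b2 := h.M'_z j
  have qi := h.q0 i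
  have qj := h.q0 j
  have b1' : 0 < dp (M i) (zz y η q) := lt_of_lt_of_le (mul_pos (by linarith) hi) b1
  have b2' : dp (M' j) (zz y η q) < 0 := by
    have : 0 < 2 * q j * dp (M' j) q := mul_pos (by linarith) hj
    linarith
  have hX : 0 < X := by
    by_contra hX
    push Not at hX
    rcases le_total 0 Y with hY | hY
    · have c1 : X * dp (M' j) q ≤ 0 := mul_nonpos_of_nonpos_of_nonneg hX hj.le
      have c2 : Y * dp (M' j) (zz y η q) ≤ 0 := mul_nonpos_of_nonneg_of_nonpos hY b2'.le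
      have c3 : X * dp (M' j) q = 0 := by linarith
      have c4 : Y * dp (M' j) (zz y η q) = 0 := by linarith
      rcases mul_eq_zero.1 c3 with c | c
      · rcases mul_eq_zero.1 c4 with c' | c'
        · rcases h0 with h0 | h0
          · exact h0 c
          · exact h0 c'
        · linarith
      · linarith
    · have c1 : X * dp (M i) q ≤ 0 := mul_nonpos_of_nonpos_of_nonneg hX hi.le
      have c2 : Y * dp (M i) (zz y η q) ≤ 0 := mul_nonpos_of_nonpos_of_nonneg hY b1'.le
      have c3 : X * dp (M i) q = 0 := by linarith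
      have c4 : Y * dp (M i) (zz y η q) = 0 := by linarith
      rcases mul_eq_zero.1 c3 with c | c
      · rcases mul_eq_zero.1 c4 with c' | c'
        · rcases h0 with h0 | h0
          · exact h0 c
          · exact h0 c'
        · linarith
      · linarith
  refine ⟨hX, ?_⟩
  intro hY
  subst hY
  apply h.K
  constructor
  · intro i
    have := h1 i
    rw [zero_smul, add_zero, dp_smul] at this
    exact nonneg_of_mul_nonneg_right this hX
  · intro i
    have := h2 i
    rw [zero_smul, add_zero, dp_smul] at this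
    exact nonneg_of_mul_nonneg_right this hX

/-- `q` and `z` are linearly independent -/
theorem CD.indep (h : CD y η q M N M' N') : cr q (zz y η q) ≠ 0 := by
  intro hc
  -- z = κ q with κ = dp q z
  have hz : zz y η q = dp q (zz y η q) • q := by
    have h0 := congrFun hc 0
    have h1 := congrFun hc 1
    have h2 := congrFun hc 2
    simp [cr] at h0 h1 h2
    have hq := h.q1
    simp only [dp] at hq
    funext i
    fin_cases i
    · simp [dp]
      linear_combination (- zz y η q 0) * hq - q 1 * h2 + q 2 * h1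
    · simp [dp]
      linear_combination (- zz y η q 1) * hq + q 0 * h2 - q 2 * h0
    · simp [dp]
      linear_combination (- zz y η q 2) * hq - q 0 * h1 + q 1 * h0
  obtain ⟨i, hi⟩ := h.exists_M
  obtain ⟨j, hj⟩ := h.exists_M'
  have b1 := h.M_z i
  have b2 := h.M'_z j
  rw [hz, dp_smul] at b1 b2
  have qi := h.q0 i
  have qj := h.q0 j
  have c1 : 2 * q i ≤ dp q (zz y η q) := by
    by_contra hcc
    push Not at hcc
    have := mul_lt_mul_of_pos_right hcc hi
    linarith
  have c2 : dp q (zz y η q) ≤ - (2 * q j) := by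
    by_contra hcc
    push Not at hcc
    have := mul_lt_mul_of_pos_right hcc hj
    linarith
  linarith

/-- elements of the kernel of `La` -/
theorem plane_repr {q z x : V3} (hi : cr q z ≠ 0) (hx : dp (cr q z) x = 0) : ∃ X Y : ℝ, x = X • q + Y • z := by
  set n := cr q z with hn
  have hd : det3 q z n ≠ 0 := by
    have : det3 q z n = dp n n := by rw [← dp_cr]
    rw [this]
    intro h0
    apply hi
    funext i
    have : n 0 * n 0 + n 1 * n 1 + n 2 * n 2 = 0 := h0
    have a0 := mul_self_nonneg (n 0)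
    have a1 := mul_self_nonneg (n 1)
    have a2 := mul_self_nonneg (n 2)
    have b0 : n 0 = 0 := mul_self_eq_zero.1 (by linarith)
    have b1 : n 1 = 0 := mul_self_eq_zero.1 (by linarith)
    have b2 : n 2 = 0 := mul_self_eq_zero.1 (by linarith)
    fin_cases i
    · exact b0
    · exact b1
    · exact b2
  refine ⟨det3 x z n / det3 q z n, det3 q x n / det3 q z n, ?_⟩
  funext i
  have := cramer (ee i) q z n x
  have h3 : det3 q z x = 0 := by rw [← dp_cr]; exact hx
  rw [h3] at this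
  have he : ∀ w : V3, dp (ee i) w = w i := by intro w; rw [dp_comm, dp_ee]
  rw [he, he, he, he] at this
  simp only [Pi.add_apply, Pi.smul_apply, smul_eq_mul]
  field_simp
  linarith

end Pool.Agent.Octa
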