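import Pool.Agent.Octa.ConeC

/-! Cone lemma, part D: lemma P1. -/

set_option autoImplicit false
set_option linter.unusedVariables false

namespace Pool.Agent.Octa

variable {y η q : V3} {M N M' N' : Fin 3 → V3}

/-- the functional vanishing on `t_i` and `B'_i` -/
def Dv (y η q : V3) (i : Fin 3) : V3 := cr (y + ee i) (zz y η q - (2 * q i) • q)

/-- `La (t_i)` -/
def lam (y η q : V3) (i : Fin 3) : ℝ := det3 (y + ee i) q (zz y η q)

theorem Dv_t (y η q : V3) (i : Fin 3) : dp (Dv y η q i) (y + ee i) = 0 := by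
  unfold Dv; simp only [dp_cr, det3, dp, cr]; simp; ring
theorem Dv_q (y η q : V3) (i : Fin 3) : dp (Dv y η q i) q = - lam y η q i := by
  unfold Dv lam; simp only [dp_cr, det3, dp, cr]; simp; ring
theorem Dv_z (y η q : V3) (i : Fin 3) : dp (Dv y η q i) (zz y η q) = -(2 * q i * lam y η q i) := by
  unfold Dv lam; simp only [dp_cr, det3, dp, cr]; simp; ring
theorem Dv_B' (y η q : V3) (i : Fin 3) : dp (Dv y η q i) (Rf q (η - ee i)) = 0 := by
  rw [vB' y, dp_add, Dv_t, dp_sub, dp_smul, Dv_q, Dv_z]; ring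
theorem Dv_t' (y η q : V3) (i m : Fin 3) : dp (Dv y η q i) (Rf q (η + ee m)) =
    dp (Dv y η q i) (y - ee m) - (2 * q i + 2 * q m) * lam y η q i := by
  rw [vt' y, dp_add, dp_add, dp_smul, Dv_q, Dv_z]; ring

theorem Dv_det (y η q w : V3) (i : Fin 3) :
    det3 (y + ee i) (Rf q (η - ee i)) w = dp (Dv y η q i) w := by
  rw [vB' y]; unfold Dv; rw [dp_cr]
  simp only [det3, dp, cr]; simp; ring

theorem P1_scalar {Y l dj dk d'j d'k Mj Mk Nj Nk fj fk : ℝ} (hY : 1 ≤ Y) (hl : 0 ≤ l) (hfj : 0 < fj) (hfk : 0 < fk)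
    (hj : d'j = dj - fj * l) (hk : d'k = dk - fk * l) (pMj : 0 ≤ Mj) (pMk : 0 ≤ Mk) (pNj : 0 ≤ Nj) (pNk : 0 ≤ Nk)
    (hI : 0 ≤ dj * Mk - dk * Mj) (hII : 0 ≤ d'k * Nj - d'j * Nk) (hIII : Y = 1 → dk ≤ 0)
    (hM : 1 < Y → Mj = 0 → Mk = 0 → False) (hN : Nj = 0 → Nk = 0 → False) (hne : 0 < l ∨ dk ≠ 0) :
    (1 < Y ∧ 0 ≤ dj ∧ 0 ≤ dk) ∨ (d'j ≤ 0 ∧ d'k ≤ 0) := by
  by_cases h : 0 < dk
  · left
    have hY1 : 1 < Y := by
      rcases hY.lt_or_eq with h1 | h1
      · exact h1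
      · exact absurd (hIII h1.symm) (by linarith)
    refine ⟨hY1, ?_, h.le⟩
    have hdM : 0 ≤ dk * Mj := mul_nonneg h.le pMj
    rcases pMk.lt_or_eq with h2 | h2
    · by_contra hc
      push Not at hc
      have := mul_neg_of_neg_of_pos hc h2
      linarith
    · exfalso
      rw [← h2] at hI
      have : dk * Mj = 0 := by linarith
      rcases mul_eq_zero.1 this with h3 | h3
      · linarith
      · exact hM hY1 h3 h2.symm
  · right
    push Not at h
    have h1 : d'k < 0 := by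
      rcases hne with h2 | h2
      · have := mul_pos hfk h2
        linarith
      · have h3 : dk < 0 := lt_of_le_of_ne h h2
        have := mul_nonneg hfk.le hl
        linarith
    refine ⟨?_, h1.le⟩
    rcases pNk.lt_or_eq with h2 | h2
    · by_contra hc
      push Not at hc
      have e1 := mul_pos hc h2
      have e2 : d'k * Nj ≤ 0 := mul_nonpos_of_nonpos_of_nonneg h1.le pNj
      linarith
    · exfalso
      rw [← h2] at hII
      have e2 : d'k * Nj ≤ 0 := mul_nonpos_of_nonpos_of_nonneg h1.le pNj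
      have : d'k * Nj = 0 := by linarith
      rcases mul_eq_zero.1 this with h3 | h3
      · linarith
      · exact hN h3 h2.symm

theorem CD.ineq_I (h : CD y η q M N M' N') (i : Fin 3) :
    0 ≤ dp (Dv y η q i) (y - ee (i + 1)) * dp (M i) (y - ee (i + 2))
      - dp (Dv y η q i) (y - ee (i + 2)) * dp (M i) (y - ee (i + 1)) := by
  have := cramer_vertex y (M i) (Rf q (η - ee i)) (σ := 1) (Or.inl rfl) i (by rw [one_smul]; exact h.Mt i)
  simp only [one_smul] at this
  rw [Dv_det, Dv_det] at this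
  rw [← this]
  apply mul_nonneg
  · have := h.vy.E i; linarith
  · rw [dp_Rf]; exact (h.MB i).minus i

theorem CD.ineq_II (h : CD y η q M N M' N') (i : Fin 3) :
    0 ≤ dp (Dv y η q i) (Rf q (η + ee (i + 2))) * dp (Rf q (N' i)) (η + ee (i + 1))
      - dp (Dv y η q i) (Rf q (η + ee (i + 1))) * dp (Rf q (N' i)) (η + ee (i + 2)) := by
  have h0 : dp (Rf q (N' i)) (η + (-1:ℝ) • ee i) = 0 := by
    rw [neg_smul, one_smul, ← sub_eq_add_neg]; exact h.N't i
  have := cramer_vertex η (Rf q (N' i)) (Rf q (y + ee i)) (σ := -1) (Or.inr rfl) i h0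
  simp only [neg_smul, one_smul, sub_neg_eq_add, ← sub_eq_add_neg] at this
  have key : ∀ m, det3 (η - ee i) (Rf q (y + ee i)) (η + ee m) = - dp (Dv y η q i) (Rf q (η + ee m)) := by
    intro m
    rw [← Dv_det, ← det3_Rf h.q1, Rf_Rf h.q1, det3_swap']
  rw [key, key, ← dp_Rf, Rf_Rf h.q1] at this
  have h1 : 0 ≤ (Ev i η + 1) * dp (N' i) (y + ee i) :=
    mul_nonneg (by have := h.vη.E i; linarith) ((h.N'A i).plus i)
  linarith

theorem CD.M_nondeg (h : CD y η q M N M' N') (i : Fin 3) (hY : 1 < Ev i y) (h1 : dp (M i) (y - ee (i + 1)) = 0)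
    (h2 : dp (M i) (y - ee (i + 2)) = 0) : False := by
  have hd := det_vertex y (σ := 1) (Or.inl rfl) i
  simp only [one_smul] at hd
  exact h.M0 i (eq_zero_of_basis (by rw [hd]; linarith) (h.Mt i) h2 h1)

theorem CD.N'_nondeg (h : CD y η q M N M' N') (i : Fin 3) (h1 : dp (Rf q (N' i)) (η + ee (i + 1)) = 0)
    (h2 : dp (Rf q (N' i)) (η + ee (i + 2)) = 0) : False := by
  have hd := det_vertex η (σ := -1) (Or.inr rfl) i
  simp only [neg_smul, one_smul, sub_neg_eq_add, ← sub_eq_add_neg] at hd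
  have := h.vη.E i
  exact Rf_ne_zero h.q1 (h.N'0 i) (eq_zero_of_basis (by rw [hd]; linarith) (h.N't i) h2 h1)

/-- the degenerate case -/
theorem CD.deg (h : CD y η q M N M' N') (i : Fin 3) (hY : Ev i y = 1) :
    dp (Dv y η q i) (y - ee (i + 2)) ≤ 0 ∧ 0 ≤ dp (Dv y η q i) (y - ee (i + 1)) ∧
    y (i + 1) * dp (Dv y η q i) (y - ee (i + 1)) + y (i + 2) * dp (Dv y η q i) (y - ee (i + 2)) = 0 := by
  have h1 := support_degenerate h.vy (h.MA i) i hY (h.Mt i) (Rf q (η - ee i))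
  have h2 : 0 ≤ dp (M i) (Rf q (η - ee i)) := by rw [dp_Rf]; exact (h.MB i).minus i
  have h3 := (h.MA i).pos (h.M0 i)
  have h4 : 0 ≤ Ev i (Rf q (η - ee i)) := by
    rw [h1] at h2
    exact nonneg_of_mul_nonneg_right h2 h3
  obtain ⟨d1, d2⟩ := det_degenerate y (Rf q (η - ee i)) i hY
  rw [det3_swap, Dv_det] at d1 d2
  have y1 := h.vy.one_le (i + 1)
  have y2 := h.vy.one_le (i + 2)
  have e1 : 0 ≤ y (i + 1) * Ev i (Rf q (η - ee i)) := mul_nonneg (by linarith) h4
  have e2 : 0 ≤ y (i + 2) * Ev i (Rf q (η - ee i)) := mul_nonneg (by linarith) h4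
  refine ⟨by linarith, by linarith, ?_⟩
  have f1 : dp (Dv y η q i) (y - ee (i + 2)) = - (y (i + 1) * Ev i (Rf q (η - ee i))) := by linarith
  have f2 : dp (Dv y η q i) (y - ee (i + 1)) = y (i + 2) * Ev i (Rf q (η - ee i)) := by linarith
  rw [f1, f2]; ring

theorem CD.P1pos (h : CD y η q M N M' N') (i : Fin 3) (hl : 0 ≤ lam y η q i)
    (hne : 0 < lam y η q i ∨ dp (Dv y η q i) (y - ee (i + 2)) ≠ 0) :
    NA y (Dv y η q i) ∨ NA η (Rf q (- Dv y η q i)) := by
  have hq := h.q0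
  have key := P1_scalar (Y := Ev i y) (l := lam y η q i)
    (dj := dp (Dv y η q i) (y - ee (i + 1))) (dk := dp (Dv y η q i) (y - ee (i + 2)))
    (d'j := dp (Dv y η q i) (Rf q (η + ee (i + 1)))) (d'k := dp (Dv y η q i) (Rf q (η + ee (i + 2))))
    (Mj := dp (M i) (y - ee (i + 1))) (Mk := dp (M i) (y - ee (i + 2)))
    (Nj := dp (Rf q (N' i)) (η + ee (i + 1))) (Nk := dp (Rf q (N' i)) (η + ee (i + 2)))
    (fj := 2 * q i + 2 * q (i + 1)) (fk := 2 * q i + 2 * q (i + 2))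
    (h.vy.E i) hl (by have := hq i; have := hq (i+1); linarith) (by have := hq i; have := hq (i+2); linarith)
    (Dv_t' y η q i _) (Dv_t' y η q i _) ((h.MA i).minus _) ((h.MA i).minus _) ((h.N'B i).plus _) ((h.N'B i).plus _)
    (h.ineq_I i) (h.ineq_II i) (fun hY => (h.deg i hY).1) (fun hY h1 h2 => h.M_nondeg i hY h1 h2)
    (fun h1 h2 => h.N'_nondeg i h1 h2) hne
  rcases key with ⟨k1, k2, k3⟩ | ⟨k1, k2⟩
  · left
    refine vertex_check h.vy (σ := 1) (Or.inl rfl) i (by linarith) ?_ ?_ ?_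
    · rw [one_smul]; exact Dv_t y η q i
    · rw [one_smul]; exact k2
    · rw [one_smul]; exact k3
  · right
    refine vertex_check h.vη (σ := -1) (Or.inr rfl) i (by have := h.vη.E i; linarith) ?_ ?_ ?_
    · rw [neg_smul, one_smul, ← sub_eq_add_neg, ← dp_Rf, neg_dp, Dv_B']; ring
    · rw [neg_smul, one_smul, sub_neg_eq_add, ← dp_Rf, neg_dp]; linarith
    · rw [neg_smul, one_smul, sub_neg_eq_add, ← dp_Rf, neg_dp]; linarith

theorem CD.P1neg (h : CD y η q M N M' N') (i : Fin 3) (hl : lam y η q i ≤ 0)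
    (hne : lam y η q i < 0 ∨ dp (Dv y η q i) (y - ee (i + 1)) ≠ 0) :
    NA y (- Dv y η q i) ∨ NA η (Rf q (Dv y η q i)) := by
  have hq := h.q0
  have key := P1_scalar (Y := Ev i y) (l := - lam y η q i)
    (dj := - dp (Dv y η q i) (y - ee (i + 2))) (dk := - dp (Dv y η q i) (y - ee (i + 1)))
    (d'j := - dp (Dv y η q i) (Rf q (η + ee (i + 2)))) (d'k := - dp (Dv y η q i) (Rf q (η + ee (i + 1))))
    (Mj := dp (M i) (y - ee (i + 2))) (Mk := dp (M i) (y - ee (i + 1)))
    (Nj := dp (Rf q (N' i)) (η + ee (i + 2))) (Nk := dp (Rf q (N' i)) (η + ee (i + 1)))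
    (fj := 2 * q i + 2 * q (i + 2)) (fk := 2 * q i + 2 * q (i + 1))
    (h.vy.E i) (by linarith) (by have := hq i; have := hq (i+2); linarith) (by have := hq i; have := hq (i+1); linarith)
    (by rw [Dv_t']; ring) (by rw [Dv_t']; ring) ((h.MA i).minus _) ((h.MA i).minus _) ((h.N'B i).plus _) ((h.N'B i).plus _)
    (by have := h.ineq_I i; linarith) (by have := h.ineq_II i; linarith)
    (fun hY => by have := (h.deg i hY).2.1; linarith) (fun hY h1 h2 => h.M_nondeg i hY h2 h1)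
    (fun h1 h2 => h.N'_nondeg i h2 h1) (by
      rcases hne with h1 | h1
      · left; linarith
      · right; intro h2; apply h1; linarith)
  rcases key with ⟨k1, k2, k3⟩ | ⟨k1, k2⟩
  · left
    refine vertex_check h.vy (σ := 1) (Or.inl rfl) i (by linarith) ?_ ?_ ?_
    · rw [one_smul, neg_dp, Dv_t y η q i]; ring
    · rw [one_smul, neg_dp]; exact k3
    · rw [one_smul, neg_dp]; exact k2
  · right
    refine vertex_check h.vη (σ := -1) (Or.inr rfl) i (by have := h.vη.E i; linarith) ?_ ?_ ?_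
    · rw [neg_smul, one_smul, ← sub_eq_add_neg, ← dp_Rf, Dv_B']
    · rw [neg_smul, one_smul, sub_neg_eq_add, ← dp_Rf]; linarith
    · rw [neg_smul, one_smul, sub_neg_eq_add, ← dp_Rf]; linarith

end Pool.Agent.Octa
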