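import Pool.Agent.Octa.ConeD

/-! Cone lemma, part E: lemmas Va, Vb and the end of the proof. -/

set_option autoImplicit false
set_option linter.unusedVariables false

namespace Pool.Agent.Octa

variable {y η q : V3} {M N M' N' : Fin 3 → V3}

theorem fin3_all : ∀ i j k m : Fin 3, i ≠ j → i ≠ k → j ≠ k → m = i ∨ m = j ∨ m = k := by decide

theorem Ev_eq (x : V3) {i j k : Fin 3} (hij : i ≠ j) (hik : i ≠ k) (hjk : j ≠ k) : Ev k x = x i + x j - x k := by
  revert hij hik hjk
  fin_cases i <;> fin_cases j <;> fin_cases k <;> simp [Ev] <;> ring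

theorem dp_eq (N x : V3) {i j k : Fin 3} (hij : i ≠ j) (hik : i ≠ k) (hjk : j ≠ k) :
    dp N x = N i * x i + N j * x j + N k * x k := by
  revert hij hik hjk
  fin_cases i <;> fin_cases j <;> fin_cases k <;> simp [dp] <;> ring

/-- common part of Va and Vb, equal slopes -/
theorem same_slope {q z R S P Q : V3} {l m : ℝ} (hi : cr q z ≠ 0) (hP : dp (cr q z) P = l) (hQ : dp (cr q z) Q = m)
    (hlm : 0 < l * m) (hq : dp R q = dp S q) (hz : dp R z = dp S z) (hRP : dp R P = 0) (hSQ : dp S Q = 0)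
    (hRQ : 0 < dp R Q) (hSP : 0 < dp S P) : False := by
  have h0 : dp (cr q z) (m • P - l • Q) = 0 := by
    rw [dp_sub, dp_smul, dp_smul, hP, hQ]; ring
  obtain ⟨X, Y, h1⟩ := plane_repr hi h0
  have h2 : dp (R - S) (m • P - l • Q) = 0 := by
    rw [h1, sub_dp, dp_add, dp_add, dp_smul, dp_smul, dp_smul, dp_smul, hq, hz]; ring
  rw [sub_dp, dp_sub, dp_sub, dp_smul, dp_smul, dp_smul, dp_smul, hRP, hSQ] at h2
  -- m * S P + l * R Q = 0
  have h3 : m * dp S P + l * dp R Q = 0 := by linarith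
  rcases lt_or_gt_of_ne (show l ≠ 0 by rintro rfl; simp at hlm) with hl | hl
  · have hm : m < 0 := by
      by_contra hc
      push Not at hc
      have := mul_nonpos_of_nonpos_of_nonneg hl.le hc
      linarith
    have e1 := mul_neg_of_neg_of_pos hm hSP
    have e2 := mul_neg_of_neg_of_pos hl hRQ
    linarith
  · have hm : 0 < m := by
      by_contra hc
      push Not at hc
      have := mul_nonpos_of_nonneg_of_nonpos hl.le hc
      linarith
    have e1 := mul_pos hm hSP
    have e2 := mul_pos hl hRQ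
    linarith

/-- common part of Va and Vb, different slopes -/
theorem decomp {q z R S : V3} {r fi fj L : ℝ} (hr : r ≠ 0) (hf : fi ≠ fj) (hL : L ≠ 0)
    (hRq : dp R q = r) (hSq : dp S q = r) (hRz : dp R z = r * fi) (hSz : dp S z = r * fj) :
    ∃ V, dp R V = 0 ∧ dp S V = 0 ∧ dp (cr q z) V = L ∧ ∀ N : V3, ∃ a b : ℝ, dp N q = r * (a + b) ∧
      dp N z = r * (a * fi + b * fj) ∧ ∀ x, dp N x = a * dp R x + b * dp S x + dp N V / L * dp (cr q z) x := by
  set c := L / (r * r * (fj - fi)) with hc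
  have hf' : fj - fi ≠ 0 := sub_ne_zero.2 (Ne.symm hf)
  have hV : dp (cr q z) (c • cr R S) = L := by
    rw [dp_smul]
    have : dp (cr q z) (cr R S) = dp R q * dp S z - dp R z * dp S q := by simp [dp, cr]; ring
    rw [this, hRq, hSq, hRz, hSz, hc]
    field_simp
  refine ⟨c • cr R S, ?_, ?_, hV, ?_⟩
  · rw [dp_smul]; simp [dp, cr]; right; ring
  · rw [dp_smul]; simp [dp, cr]; right; ring
  · intro N
    set a := (dp N z - fj * dp N q) / (r * (fi - fj)) with ha
    set b := (fi * dp N q - dp N z) / (r * (fi - fj)) with hb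
    have hf'' : fi - fj ≠ 0 := sub_ne_zero.2 hf
    have h1 : dp N q = r * (a + b) := by rw [ha, hb]; field_simp; ring
    have h2 : dp N z = r * (a * fi + b * fj) := by rw [ha, hb]; field_simp; ring
    refine ⟨a, b, h1, h2, ?_⟩
    set V := c • cr R S with hVd
    have hRV : dp R V = 0 := by rw [hVd, dp_smul]; simp [dp, cr]; right; ring
    have hSV : dp S V = 0 := by rw [hVd, dp_smul]; simp [dp, cr]; right; ring
    have hz0 : N - (a • R + b • S + (dp N V / L) • cr q z) = 0 := by
      refine eq_zero_of_basis (u := q) (v := z) (w := V) ?_ ?_ ?_ ?_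
      · rw [← dp_cr, hV]; exact hL
      · rw [sub_dp, add_dp, add_dp, smul_dp, smul_dp, smul_dp, h1, hRq, hSq]
        have : dp (cr q z) q = 0 := by simp [dp, cr]; ring
        rw [this]; ring
      · rw [sub_dp, add_dp, add_dp, smul_dp, smul_dp, smul_dp, h2, hRz, hSz]
        have : dp (cr q z) z = 0 := by simp [dp, cr]; ring
        rw [this]; ring
      · rw [sub_dp, add_dp, add_dp, smul_dp, smul_dp, smul_dp, hRV, hSV, hV]
        field_simp; ring
    intro x
    have : N = a • R + b • S + (dp N V / L) • cr q z := sub_eq_zero.1 hz0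
    calc dp N x = dp (a • R + b • S + (dp N V / L) • cr q z) x := by rw [← this]
      _ = _ := by rw [add_dp, add_dp, smul_dp, smul_dp, smul_dp]

theorem lam_eq (y η q : V3) (i : Fin 3) : dp (cr q (zz y η q)) (y + ee i) = lam y η q i := by
  unfold lam; simp [det3, dp, cr]; ring

theorem lam_eq' (y η q : V3) (i : Fin 3) : dp (cr q (zz y η q)) (Rf q (η - ee i)) = lam y η q i := by
  rw [vB' y, dp_add, lam_eq]
  have : dp (cr q (zz y η q)) (zz y η q - (2 * q i) • q) = 0 := by
    simp [dp, cr]; ring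
  rw [this]; ring

theorem La_t' (y η q : V3) (i : Fin 3) :
    dp (cr q (zz y η q)) (Rf q (η + ee i)) = dp (cr q (zz y η q)) (y - ee i) := by
  rw [vt' y, dp_add]
  have : dp (cr q (zz y η q)) (zz y η q + (2 * q i) • q) = 0 := by
    simp [dp, cr]; ring
  rw [this]; ring

/-- signs of the coefficients in the decomposition -/
theorem coeff_sign {l m a b v RQ SP NP NQ : ℝ} (hlm : 0 < l * m) (hRQ : 0 < RQ) (hSP : 0 < SP) (hNP : 0 ≤ NP) (hNQ : 0 ≤ NQ)
    (hv : v ≤ 0) (h1 : NP = a * 0 + b * SP + v / l * l) (h2 : NQ = a * RQ + b * 0 + v / l * m) : 0 ≤ a ∧ 0 ≤ b := by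
  have hl : l ≠ 0 := by rintro rfl; simp at hlm
  have e1 : v / l * l = v := by field_simp
  have e2 : v / l * m ≤ 0 := by
    have : v / l * m = v * (l * m) / (l * l) := by field_simp
    rw [this]
    apply div_nonpos_of_nonpos_of_nonneg
    · exact mul_nonpos_of_nonpos_of_nonneg hv hlm.le
    · exact mul_self_nonneg l
  constructor
  · by_contra hc
    push Not at hc
    have := mul_neg_of_neg_of_pos hc hRQ
    linarith
  · by_contra hc
    push Not at hc
    have := mul_neg_of_neg_of_pos hc hSP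
    linarith

theorem rel_A {y : V3} {i j k : Fin 3} (hij : i ≠ j) (hik : i ≠ k) (hjk : j ≠ k) :
    y i • (y + ee i) + y j • (y + ee j) = ((y i + y j + y k + 1) / 2) • (y - ee k) + ((y i + y j - y k + 1) / 2) • (y + ee k) := by
  funext m
  revert hij hik hjk
  fin_cases i <;> fin_cases j <;> fin_cases k <;> fin_cases m <;> simp [ee] <;> ring

theorem det_A {y : V3} {i j k : Fin 3} (hij : i ≠ j) (hik : i ≠ k) (hjk : j ≠ k) (hy : Valid y) :
    det3 (y + ee i) (y + ee j) (y + ee k) ≠ 0 := by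
  have h0 := hy.one_le 0
  have h1 := hy.one_le 1
  have h2 := hy.one_le 2
  have : (det3 (y + ee i) (y + ee j) (y + ee k)) ^ 2 = (1 + y 0 + y 1 + y 2) ^ 2 := by
    revert hij hik hjk
    fin_cases i <;> fin_cases j <;> fin_cases k <;> simp [det3, dp, cr, ee] <;> ring
  intro h
  rw [h] at this
  have : 0 < (1 + y 0 + y 1 + y 2) ^ 2 := by positivity
  linarith

theorem rel_B {y : V3} {i j k : Fin 3} (hij : i ≠ j) (hik : i ≠ k) (hjk : j ≠ k) :
    ((1 + y i + y k - y j) / 2) • (y - ee i) + y j • (y - ee j) = y k • (y + ee k) + ((y i + y j - y k - 1) / 2) • (y + ee i) := by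
  funext m
  revert hij hik hjk
  fin_cases i <;> fin_cases j <;> fin_cases k <;> fin_cases m <;> simp [ee] <;> ring

theorem det_B {y : V3} {i j k : Fin 3} (hij : i ≠ j) (hik : i ≠ k) (hjk : j ≠ k) (hy : Valid y) :
    det3 (y - ee i) (y - ee j) (y + ee i) ≠ 0 := by
  have h0 := hy.one_le k
  have : (det3 (y - ee i) (y - ee j) (y + ee i)) ^ 2 = (2 * y k) ^ 2 := by
    clear h0
    revert hij hik hjk
    fin_cases i <;> fin_cases j <;> fin_cases k <;> simp [det3, dp, cr, ee] <;> ring
  intro h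
  rw [h] at this
  have : 0 < (2 * y k) ^ 2 := by positivity
  linarith

theorem Valid.E'' {y : V3} (hy : Valid y) {i j k : Fin 3} (hij : i ≠ j) (hik : i ≠ k) (hjk : j ≠ k) :
    1 ≤ y i + y j - y k := by
  have h0 := hy.E k
  revert hij hik hjk
  fin_cases i <;> fin_cases j <;> fin_cases k <;> simp [Ev] at h0 ⊢ <;> linarith

/-- lemma Va -/
theorem CD.Va (h : CD y η q M N M' N') {i j k : Fin 3} (hij : i ≠ j) (hik : i ≠ k) (hjk : j ≠ k) {R S : V3}
    (hR : NA y R) (hS : NA y S) (hRt : dp R (y + ee i) = 0) (hSt : dp S (y + ee j) = 0)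
    (hRq : dp R q = -1) (hSq : dp S q = -1) (hRz : dp R (zz y η q) = - (2 * q i)) (hSz : dp S (zz y η q) = - (2 * q j))
    (hl : 0 < lam y η q i * lam y η q j) : False := by
  have hR0 : R ≠ 0 := by rintro rfl; rw [zero_dp] at hRq; linarith
  have hS0 : S ≠ 0 := by rintro rfl; rw [zero_dp] at hSq; linarith
  have hRj : 0 < dp R (y + ee j) := lt_of_le_of_ne (hR.plus j) (fun h1 => hR0 (F1 h.vy hR hij hRt h1.symm))
  have hSi : 0 < dp S (y + ee i) := lt_of_le_of_ne (hS.plus i) (fun h1 => hS0 (F1 h.vy hS hij h1.symm hSt))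
  have qi := h.q0 i
  have qj := h.q0 j
  have qk := h.q0 k
  by_cases hqq : 2 * q i = 2 * q j
  · exact same_slope h.indep (lam_eq y η q i) (lam_eq y η q j) hl (by rw [hRq, hSq]) (by rw [hRz, hSz, hqq]) hRt hSt hRj hSi
  have hli : lam y η q i ≠ 0 := by intro h0; rw [h0] at hl; simp at hl
  obtain ⟨V, hV1, hV2, hV3, hdec⟩ := decomp (q := q) (z := zz y η q) (R := R) (S := S) (r := -1) (fi := 2 * q i) (fj := 2 * q j)
    (L := lam y η q i) (by norm_num) hqq hli hRq hSq (by rw [hRz]; ring) (by rw [hSz]; ring)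
  -- nonnegative coefficients
  have hsign : ∀ F : V3, NA y F → dp F V ≤ 0 → ∃ a b, 0 ≤ a ∧ 0 ≤ b ∧ dp F q = -(a + b) ∧
      dp F (zz y η q) = -(a * (2 * q i) + b * (2 * q j)) ∧
      ∀ x, dp F x = a * dp R x + b * dp S x + dp F V / lam y η q i * dp (cr q (zz y η q)) x := by
    intro F hF hFV
    obtain ⟨a, b, h1, h2, h3⟩ := hdec F
    have e1 := h3 (y + ee i)
    have e2 := h3 (y + ee j)
    rw [lam_eq, hRt] at e1
    rw [lam_eq, hSt] at e2
    obtain ⟨ha, hb⟩ := coeff_sign hl hRj hSi (hF.plus i) (hF.plus j) hFV e1 e2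
    exact ⟨a, b, ha, hb, by linarith, by linarith, h3⟩
  have hE := h.vy.E'' hij hik hjk
  have y1 := h.vy.one_le i
  have y2 := h.vy.one_le j
  have y3 := h.vy.one_le k
  have hG : dp (N k) V ≤ 0 ∨ dp (M k) V ≤ 0 := by
    by_contra hc
    push Not at hc
    exact G4 (v1 := y + ee i) (v2 := y - ee k) (v3 := y + ee j) (v4 := y + ee k) (N1 := R) (N2 := N k) (N3 := S) (N4 := M k)
      (det_A hij hik hjk h.vy) (rel_A hij hik hjk) (by linarith) (by linarith) (by linarith) (by linarith)
      hRt (h.Nt k) hSt (h.Mt k) (hR.minus k) hRj (hR.plus k) ((h.NA' k).plus i) ((h.NA' k).plus j) ((h.NA' k).plus k)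
      hSi (hS.minus k) (hS.plus k) ((h.MA k).plus i) ((h.MA k).plus j) hV1 hV2 hc.1 hc.2
  rcases hG with hG | hG
  · obtain ⟨a, b, ha, hb, h1, h2, h3⟩ := hsign (N k) (h.NA' k) hG
    have h4 := h.N_z k
    rw [h1, h2] at h4
    have p1 := mul_nonneg ha qi.le
    have p2 := mul_nonneg hb qj.le
    have p3 := mul_nonneg ha qk.le
    have p4 := mul_nonneg hb qk.le
    have s1 : a * q i = 0 := by linarith
    have s2 : b * q j = 0 := by linarith
    have a0 : a = 0 := by
      rcases mul_eq_zero.1 s1 with h | h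
      · exact h
      · linarith
    have b0 : b = 0 := by
      rcases mul_eq_zero.1 s2 with h | h
      · exact h
      · linarith
    subst a0 b0
    have h5 := h3 (y + ee i)
    rw [lam_eq] at h5
    have h6 : dp (N k) V / lam y η q i * lam y η q i = dp (N k) V := by field_simp
    have h7 := (h.NA' k).plus i
    have h8 : dp (N k) V = 0 := by linarith
    apply h.N0 k
    funext m
    have := h3 (ee m)
    rw [h8, dp_ee] at this
    simpa using this
  · obtain ⟨a, b, ha, hb, h1, h2, h3⟩ := hsign (M k) (h.MA k) hG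
    set F : Fin 3 → V3 := fun m => if m = i then R else if m = j then S else M k with hF
    have hFi : F i = R := by simp [hF]
    have hFj : F j = S := by simp [hF, Ne.symm hij]
    have hFk : F k = M k := by simp [hF, Ne.symm hik, Ne.symm hjk]
    have hall : ∀ m, m = i ∨ m = j ∨ m = k := fun m => fin3_all i j k m hij hik hjk
    have := MM h.vy (N := F) (ζ := q)
      (by intro m; rcases hall m with rfl | rfl | rfl
          · rw [hFi]; exact hR
          · rw [hFj]; exact hS
          · rw [hFk]; exact h.MA _)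
      (by intro m; rcases hall m with rfl | rfl | rfl
          · rw [hFi]; exact hR0
          · rw [hFj]; exact hS0
          · rw [hFk]; exact h.M0 _)
      (by intro m; rcases hall m with rfl | rfl | rfl
          · rw [hFi]; exact hRt
          · rw [hFj]; exact hSt
          · rw [hFk]; exact h.Mt _)
      (by intro m; rcases hall m with rfl | rfl | rfl
          · rw [hFi, hRq]; norm_num
          · rw [hFj, hSq]; norm_num
          · rw [hFk, h1]; linarith)
    have := dp_nonpos_of_Ev h.q0 this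
    rw [h.q1] at this
    linarith

/-- lemma Vb -/
theorem CD.Vb (h : CD y η q M N M' N') {i j k : Fin 3} (hij : i ≠ j) (hik : i ≠ k) (hjk : j ≠ k) {R S : V3}
    (hR : NA η (Rf q R)) (hS : NA η (Rf q S)) (hRt : dp R (Rf q (η - ee i)) = 0) (hSt : dp S (Rf q (η - ee j)) = 0)
    (hRq : dp R q = 1) (hSq : dp S q = 1) (hRz : dp R (zz y η q) = 2 * q i) (hSz : dp S (zz y η q) = 2 * q j)
    (hl : 0 < lam y η q i * lam y η q j) : False := by
  have qi := h.q0 i
  have qj := h.q0 j
  have qk := h.q0 k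
  -- strict positivity
  have hpos : ∀ (i j : Fin 3) (T : V3), i ≠ j → i ≠ k → j ≠ k → NA η (Rf q T) → dp T (Rf q (η - ee i)) = 0 → dp T q = 1 →
      dp T (zz y η q) = 2 * q i → 0 < dp T (Rf q (η - ee j)) := by
    intro i j T hij hik hjk hT hTt hTq hTz
    have qi := h.q0 i
    have hT0 : T ≠ 0 := by rintro rfl; rw [zero_dp] at hTq; linarith
    rw [dp_Rf] at hTt
    rw [dp_Rf]
    refine lt_of_le_of_ne (hT.minus j) (fun h1 => ?_)
    obtain ⟨f1, f2, f3, f4⟩ := F2 h.vη hT (Rf_ne_zero h.q1 hT0) hij hik hjk hTt h1.symm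
    have hEk : Ev k η = 1 := by rw [Ev_eq η hij hik hjk]; exact f1
    have hTx : ∀ x, dp (Rf q T) x = dp (Rf q T) η * Ev k x := by
      intro x
      have hs : dp (Rf q T) x = (Rf q T) i * x i + (Rf q T) j * x j + (Rf q T) k * x k :=
        dp_eq _ _ hij hik hjk
      have hEx : Ev k x = x i + x j - x k := Ev_eq x hij hik hjk
      rw [hs, f2, f3, f4, hEx]; ring
    have hMx := support_degenerate h.vη (h.M'B k) k hEk (h.M't k)
    have pT := hT.pos (Rf_ne_zero h.q1 hT0)
    have pM := (h.M'B k).pos (Rf_ne_zero h.q1 (h.M'0 k))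
    -- values at q and z
    have c1 : dp T q = dp (Rf q T) η * Ev k (Rf q q) := by
      rw [← hTx, ← dp_Rf, Rf_Rf h.q1]
    have c2 : dp T (zz y η q) = dp (Rf q T) η * Ev k (Rf q (zz y η q)) := by
      rw [← hTx, ← dp_Rf, Rf_Rf h.q1]
    have c3 : dp (M' k) q = dp (Rf q (M' k)) η * Ev k (Rf q q) := by
      rw [← hMx, ← dp_Rf, Rf_Rf h.q1]
    have c4 : dp (M' k) (zz y η q) = dp (Rf q (M' k)) η * Ev k (Rf q (zz y η q)) := by
      rw [← hMx, ← dp_Rf, Rf_Rf h.q1]
    have g1 : 0 < Ev k (Rf q q) := by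
      rw [hTq] at c1
      by_contra hc
      push Not at hc
      have := mul_nonpos_of_nonneg_of_nonpos pT.le hc
      linarith
    have g2 : 0 < Ev k (Rf q (zz y η q)) := by
      rw [hTz] at c2
      by_contra hc
      push Not at hc
      have := mul_nonpos_of_nonneg_of_nonpos pT.le hc
      linarith
    have g3 : 0 < dp (M' k) q := by rw [c3]; exact mul_pos pM g1
    have g4 : 0 < dp (M' k) (zz y η q) := by rw [c4]; exact mul_pos pM g2
    have g5 := h.M'_z k
    have g6 := mul_pos (by linarith : 0 < 2 * q k) g3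
    linarith
  have hRj := hpos i j R hij hik hjk hR hRt hRq hRz
  have hSi := hpos j i S (Ne.symm hij) hjk hik hS hSt hSq hSz
  by_cases hqq : 2 * q i = 2 * q j
  · exact same_slope h.indep (lam_eq' y η q i) (lam_eq' y η q j) hl (by rw [hRq, hSq]) (by rw [hRz, hSz, hqq]) hRt hSt hRj hSi
  have hli : lam y η q i ≠ 0 := by intro h0; rw [h0] at hl; simp at hl
  obtain ⟨V, hV1, hV2, hV3, hdec⟩ := decomp (q := q) (z := zz y η q) (R := R) (S := S) (r := 1) (fi := 2 * q i) (fj := 2 * q j)
    (L := lam y η q i) (by norm_num) hqq hli hRq hSq (by rw [hRz]; ring) (by rw [hSz]; ring)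
  have hsign : ∀ (F : V3) (m : Fin 3), NA η (Rf q F) → F ≠ 0 → dp F (zz y η q) ≤ -(2 * q m * dp F q) → dp F V ≤ 0 → False := by
    intro F m hF hF0 hFz hFV
    obtain ⟨a, b, h1, h2, h3⟩ := hdec F
    have e1 := h3 (Rf q (η - ee i))
    have e2 := h3 (Rf q (η - ee j))
    rw [lam_eq', hRt] at e1
    rw [lam_eq', hSt] at e2
    have n1 : 0 ≤ dp F (Rf q (η - ee i)) := by rw [dp_Rf]; exact hF.minus i
    have n2 : 0 ≤ dp F (Rf q (η - ee j)) := by rw [dp_Rf]; exact hF.minus j
    obtain ⟨ha, hb⟩ := coeff_sign hl hRj hSi n1 n2 hFV e1 e2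
    have qm := h.q0 m
    rw [h1, h2] at hFz
    have p1 := mul_nonneg ha qi.le
    have p2 := mul_nonneg hb qj.le
    have p3 := mul_nonneg ha qm.le
    have p4 := mul_nonneg hb qm.le
    have s1 : a * q i = 0 := by linarith
    have s2 : b * q j = 0 := by linarith
    have a0 : a = 0 := by
      rcases mul_eq_zero.1 s1 with h | h
      · exact h
      · linarith
    have b0 : b = 0 := by
      rcases mul_eq_zero.1 s2 with h | h
      · exact h
      · linarith
    subst a0 b0
    have h6 : dp F V / lam y η q i * lam y η q i = dp F V := by field_simp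
    have h8 : dp F V = 0 := by linarith
    apply hF0
    funext m
    have := h3 (ee m)
    rw [h8, dp_ee] at this
    simpa using this
  have hE := h.vη.E'' hij hik hjk
  have hE2 := h.vη.E'' hik hij (Ne.symm hjk)
  have y1 := h.vη.one_le i
  have y2 := h.vη.one_le j
  have y3 := h.vη.one_le k
  have hG : dp (M' k) V ≤ 0 ∨ dp (M' i) V ≤ 0 := by
    by_contra hc
    push Not at hc
    rw [dp_Rf] at hRt hSt hRj hSi
    have t1 : ∀ F, dp (Rf q F) (Rf q V) = dp F V := by intro F; rw [← dp_Rf, Rf_Rf h.q1]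
    exact G4 (v1 := η - ee i) (v2 := η + ee k) (v3 := η - ee j) (v4 := η + ee i)
      (N1 := Rf q R) (N2 := Rf q (M' k)) (N3 := Rf q S) (N4 := Rf q (M' i)) (V := Rf q V)
      (det_B hij hik hjk h.vη) (rel_B hij hik hjk) (by linarith) (by linarith) (by linarith) (by linarith)
      hRt (h.M't k) hSt (h.M't i) (hR.plus k) hRj (hR.plus i) ((h.M'B k).minus i) ((h.M'B k).minus j) ((h.M'B k).plus i)
      hSi (hS.plus k) (hS.plus i) ((h.M'B i).minus i) ((h.M'B i).minus j) (by rw [t1]; exact hV1) (by rw [t1]; exact hV2)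
      (by rw [t1]; exact hc.1) (by rw [t1]; exact hc.2)
  rcases hG with hG | hG
  · exact hsign (M' k) k (h.M'B k) (h.M'0 k) (h.M'_z k) hG
  · exact hsign (M' i) i (h.M'B i) (h.M'0 i) (h.M'_z i) hG

end Pool.Agent.Octa
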