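import Pool.Agent.Octa.ConeE

/-! Cone lemma, part F: end of the proof for coordinate data. -/

set_option autoImplicit false
set_option linter.unusedVariables false

namespace Pool.Agent.Octa

variable {y η q : V3} {M N M' N' : Fin 3 → V3}

theorem NA.smul {y F : V3} (h : NA y F) {c : ℝ} (hc : 0 ≤ c) : NA y (c • F) := by
  intro m
  rw [smul_dp, Pi.smul_apply, smul_eq_mul, abs_mul, abs_of_nonneg hc]
  exact mul_le_mul_of_nonneg_left (h m) hc

theorem NA.of_smul {y F : V3} {c : ℝ} (hc : 0 < c) (h : NA y (c • F)) : NA y F := by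
  have := h.smul (c := c⁻¹) (inv_nonneg.2 hc.le)
  rwa [smul_smul, inv_mul_cancel₀ hc.ne', one_smul] at this

/-- property (a) -/
def PA (y η q : V3) (m : Fin 3) : Prop :=
  ∃ R : V3, NA y R ∧ dp R (y + ee m) = 0 ∧ dp R q = -1 ∧ dp R (zz y η q) = -(2 * q m)
/-- property (b) -/
def PB (y η q : V3) (m : Fin 3) : Prop :=
  ∃ S : V3, NA η (Rf q S) ∧ dp S (Rf q (η - ee m)) = 0 ∧ dp S q = 1 ∧ dp S (zz y η q) = 2 * q m

theorem Rf_neg (q x : V3) : Rf q (-x) = - Rf q x := by
  funext i; simp [Rf, dp]; ring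

theorem CD.P1 (h : CD y η q M N M' N') (i : Fin 3) (hl : lam y η q i ≠ 0) : PA y η q i ∨ PB y η q i := by
  have hR : NA y ((lam y η q i)⁻¹ • Dv y η q i) → PA y η q i := by
    intro hN
    refine ⟨_, hN, ?_, ?_, ?_⟩
    · rw [smul_dp, Dv_t]; ring
    · rw [smul_dp, Dv_q]; field_simp
    · rw [smul_dp, Dv_z]; field_simp
  have hS : NA η (Rf q (-(lam y η q i)⁻¹ • Dv y η q i)) → PB y η q i := by
    intro hN
    refine ⟨_, hN, ?_, ?_, ?_⟩
    · rw [smul_dp, Dv_B']; ring
    · rw [smul_dp, Dv_q]; field_simp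
    · rw [smul_dp, Dv_z]; field_simp
  rcases lt_or_gt_of_ne hl with h1 | h1
  · rcases h.P1neg i h1.le (Or.inl h1) with h2 | h2
    · left
      apply hR
      have := h2.smul (c := -(lam y η q i)⁻¹) (by
        rw [neg_nonneg]; exact inv_nonpos.2 h1.le)
      rwa [smul_neg, neg_smul, neg_neg] at this
    · right
      apply hS
      have := h2.smul (c := -(lam y η q i)⁻¹) (by
        rw [neg_nonneg]; exact inv_nonpos.2 h1.le)
      rwa [Rf_smul]
  · rcases h.P1pos i h1.le (Or.inl h1) with h2 | h2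
    · left
      apply hR
      exact h2.smul (inv_nonneg.2 h1.le)
    · right
      apply hS
      have := h2.smul (c := (lam y η q i)⁻¹) (inv_nonneg.2 h1.le)
      rw [← Rf_smul, smul_neg, ← neg_smul] at this
      exact this

theorem fin3_third : ∀ i j : Fin 3, i ≠ j → ∃ k, i ≠ k ∧ j ≠ k := by decide

theorem CD.VaP (h : CD y η q M N M' N') {i j : Fin 3} (hij : i ≠ j) (hi : PA y η q i) (hj : PA y η q j)
    (hl : 0 < lam y η q i * lam y η q j) : False := by
  obtain ⟨k, hik, hjk⟩ := fin3_third i j hij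
  obtain ⟨R, r1, r2, r3, r4⟩ := hi
  obtain ⟨S, s1, s2, s3, s4⟩ := hj
  exact h.Va hij hik hjk r1 s1 r2 s2 r3 s3 r4 s4 hl

theorem CD.VbP (h : CD y η q M N M' N') {i j : Fin 3} (hij : i ≠ j) (hi : PB y η q i) (hj : PB y η q j)
    (hl : 0 < lam y η q i * lam y η q j) : False := by
  obtain ⟨k, hik, hjk⟩ := fin3_third i j hij
  obtain ⟨R, r1, r2, r3, r4⟩ := hi
  obtain ⟨S, s1, s2, s3, s4⟩ := hj
  exact h.Vb hij hik hjk r1 s1 r2 s2 r3 s3 r4 s4 hl

/-- the normalisation (+) -/
def Dag (y η q : V3) (M M' : Fin 3 → V3) : Prop :=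
  ∀ X Y : ℝ, (∀ i, 0 ≤ dp (M i) (X • q + Y • zz y η q)) → (∀ i, 0 ≤ dp (M' i) (X • q + Y • zz y η q)) →
    (X ≠ 0 ∨ Y ≠ 0) → 0 < X ∧ 0 < Y

theorem CD.dagx (h : CD y η q M N M' N') (hdag : Dag y η q M M') {x : V3} (hx : ∀ F, NA y F → 0 ≤ dp F x)
    (hx0 : x ≠ 0) (hL : dp (cr q (zz y η q)) x = 0) :
    ∃ X Y : ℝ, 0 < X ∧ 0 < Y ∧ x = X • q + Y • zz y η q := by
  obtain ⟨X, Y, he⟩ := plane_repr h.indep hL
  have h0 : X ≠ 0 ∨ Y ≠ 0 := by
    by_contra hc
    push Not at hc
    obtain ⟨h1, h2⟩ := hc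
    apply hx0
    rw [he, h1, h2]; simp
  obtain ⟨h1, h2⟩ := hdag X Y (fun i => by rw [← he]; exact hx _ (h.MA i)) (fun i => by rw [← he]; exact hx _ (h.M'A i)) h0
  exact ⟨X, Y, h1, h2, he⟩

/-- (a) is blocked by an element of the cone over the first octahedron in the plane -/
theorem CD.block (h : CD y η q M N M' N') (hdag : Dag y η q M M') {x : V3} (hx : ∀ F, NA y F → 0 ≤ dp F x)
    (hx0 : x ≠ 0) (hL : dp (cr q (zz y η q)) x = 0) (m : Fin 3) : ¬ PA y η q m := by
  rintro ⟨R, r1, r2, r3, r4⟩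
  obtain ⟨X, Y, hX, hY, he⟩ := h.dagx hdag hx hx0 hL
  have := hx R r1
  rw [he, dp_add, dp_smul, dp_smul, r3, r4] at this
  have e := mul_pos hY (h.q0 m)
  linarith

theorem exists_neg_vertex (hy : Valid y) {F : V3} (hF : ¬ NA y F) :
    ∃ v : V3, (∀ G, NA y G → 0 ≤ dp G v) ∧ 0 < v 0 + v 1 + v 2 ∧ dp F v < 0 := by
  have h0 := hy.one_le 0
  have h1 := hy.one_le 1
  have h2 := hy.one_le 2
  have : ∃ i, dp F (y + ee i) < 0 ∨ dp F (y - ee i) < 0 := by
    by_contra hc
    push Not at hc
    exact hF (NA_of_vertices hc)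
  obtain ⟨i, hi | hi⟩ := this
  · refine ⟨_, fun G hG => hG.plus i, ?_, hi⟩
    fin_cases i <;> simp [ee] <;> linarith
  · refine ⟨_, fun G hG => hG.minus i, ?_, hi⟩
    fin_cases i <;> simp [ee] <;> linarith

/-- a functional vanishing on the plane which is nonnegative on the second octahedron is nonnegative on the first -/
theorem NB_to_NA {F : V3} (hq : dp F q = 0) (hz : dp F (zz y η q) = 0) (h : NA η (Rf q F)) : NA y F := by
  apply NA_of_vertices
  intro i
  constructor
  · have := h.minus i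
    rw [← dp_Rf, vB' y, dp_add, dp_sub, dp_smul, hq, hz] at this
    linarith
  · have := h.plus i
    rw [← dp_Rf, vt' y, dp_add, dp_add, dp_smul, hq, hz] at this
    linarith

theorem cr_q (q z : V3) : dp (cr q z) q = 0 := by simp [dp, cr]; ring
theorem cr_z (q z : V3) : dp (cr q z) z = 0 := by simp [dp, cr]; ring

theorem CD.end_lemma (h : CD y η q M N M' N') (hdag : Dag y η q M M') : False := by
  set L := cr q (zz y η q) with hL
  have hL0 : L ≠ 0 := h.indep
  by_cases hA : NA y L ∨ NA y (-L)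
  · -- constant sign
    obtain ⟨L', hL'A, hL'0, hL'⟩ : ∃ L' : V3, NA y L' ∧ L' ≠ 0 ∧ ((∀ x, dp L' x = dp L x) ∨ (∀ x, dp L' x = - dp L x)) := by
      rcases hA with h1 | h1
      · exact ⟨L, h1, hL0, Or.inl (fun _ => rfl)⟩
      · exact ⟨-L, h1, neg_ne_zero.2 hL0, Or.inr (fun x => neg_dp L x)⟩
    have hll : ∀ i j : Fin 3, lam y η q i ≠ 0 → lam y η q j ≠ 0 → 0 < lam y η q i * lam y η q j := by
      intro i j hi hj
      have e1 := hL'A.plus i
      have e2 := hL'A.plus j
      rcases hL' with h1 | h1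
      · rw [h1, hL, lam_eq] at e1 e2
        exact mul_pos (lt_of_le_of_ne e1 (Ne.symm hi)) (lt_of_le_of_ne e2 (Ne.symm hj))
      · rw [h1, hL, lam_eq] at e1 e2
        have e3 : lam y η q i < 0 := lt_of_le_of_ne (by linarith) hi
        have e4 : lam y η q j < 0 := lt_of_le_of_ne (by linarith) hj
        exact mul_pos_of_neg_of_neg e3 e4
    have h2z : ∀ i j : Fin 3, i ≠ j → lam y η q i = 0 → lam y η q j ≠ 0 := by
      intro i j hij hi hj
      apply hL'0
      have e1 : dp L (y + ee i) = 0 := by rw [hL, lam_eq]; exact hi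
      have e2 : dp L (y + ee j) = 0 := by rw [hL, lam_eq]; exact hj
      refine F1 h.vy hL'A hij ?_ ?_
      · rcases hL' with h1 | h1
        · rw [h1, e1]
        · rw [h1, e1]; ring
      · rcases hL' with h1 | h1
        · rw [h1, e2]
        · rw [h1, e2]; ring
    by_cases hc : ∃ c, lam y η q c = 0
    · obtain ⟨c, hc⟩ := hc
      have hne : ∀ m, m ≠ c → lam y η q m ≠ 0 := fun m hm => h2z c m (Ne.symm hm) hc
      have hx0 : y + ee c ≠ 0 := by
        intro h0
        have e := congrFun h0 c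
        have e1 := h.vy.one_le c
        simp [ee] at e
        linarith
      have hno := h.block hdag (x := y + ee c) (fun F hF => hF.plus c) hx0 (by rw [lam_eq]; exact hc)
      have hb : ∀ m, m ≠ c → PB y η q m := fun m hm => (h.P1 m (hne m hm)).resolve_left (hno m)
      obtain ⟨i, j, hij, hic, hjc⟩ : ∃ i j : Fin 3, i ≠ j ∧ i ≠ c ∧ j ≠ c := by
        clear hc hne hx0 hno hb
        revert c; decide
      exact h.VbP hij (hb i hic) (hb j hjc) (hll i j (hne i hic) (hne j hjc))
    · push Not at hc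
      have hp := fun m => h.P1 m (hc m)
      have e01 := hll 0 1 (hc 0) (hc 1)
      have e02 := hll 0 2 (hc 0) (hc 2)
      have e12 := hll 1 2 (hc 1) (hc 2)
      rcases hp 0 with a0 | b0
      · rcases hp 1 with a1 | b1
        · exact h.VaP (by decide) a0 a1 e01
        · rcases hp 2 with a2 | b2
          · exact h.VaP (by decide) a0 a2 e02
          · exact h.VbP (by decide) b1 b2 e12
      · rcases hp 1 with a1 | b1
        · rcases hp 2 with a2 | b2
          · exact h.VaP (by decide) a1 a2 e12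
          · exact h.VbP (by decide) b0 b2 e02
        · exact h.VbP (by decide) b0 b1 e01
  · -- both signs
    push Not at hA
    obtain ⟨hA1, hA2⟩ := hA
    obtain ⟨v, v1, v2, v3⟩ := exists_neg_vertex h.vy hA1
    obtain ⟨w, w1, w2, w3⟩ := exists_neg_vertex h.vy hA2
    rw [neg_dp] at w3
    have w3' : 0 < dp L w := by linarith
    have hno : ∀ m, ¬ PA y η q m := by
      intro m
      refine h.block hdag (x := (dp L w) • v - (dp L v) • w) ?_ ?_ ?_ m
      · intro F hF
        rw [dp_sub, dp_smul, dp_smul]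
        have e1 := mul_nonneg w3'.le (v1 F hF)
        have e2 := mul_nonneg (by linarith : 0 ≤ - dp L v) (w1 F hF)
        linarith
      · intro h0
        have e0 := congrFun h0 0
        have e1 := congrFun h0 1
        have e2 := congrFun h0 2
        simp at e0 e1 e2
        have f1 := mul_pos w3' v2
        have f2 := mul_pos (by linarith : 0 < - dp L v) w2
        nlinarith
      · rw [dp_sub, dp_smul, dp_smul]; ring
    have hne : ∀ c, lam y η q c ≠ 0 := by
      intro c hc
      have hx0 : y + ee c ≠ 0 := by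
        intro h0
        have e := congrFun h0 c
        have e1 := h.vy.one_le c
        simp [ee] at e
        linarith
      obtain ⟨X, Y, hX, hY, he⟩ := h.dagx hdag (x := y + ee c) (fun F hF => hF.plus c) hx0 (by rw [lam_eq]; exact hc)
      have hκ : 0 < X + 2 * q c * Y := by
        have := mul_pos (h.q0 c) hY; linarith
      have hD : Dv y η q c = (X + 2 * q c * Y) • L := by
        unfold Dv
        rw [he, hL]
        funext m
        fin_cases m <;> simp [cr] <;> ring
      have hLq : dp L q = 0 := cr_q _ _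
      have hLz : dp L (zz y η q) = 0 := cr_z _ _
      have hnLq : dp (-L) q = 0 := by rw [neg_dp, hLq]; ring
      have hnLz : dp (-L) (zz y η q) = 0 := by rw [neg_dp, hLz]; ring
      by_cases h1 : dp (Dv y η q c) (y - ee (c + 2)) = 0
      · by_cases h2 : dp (Dv y η q c) (y - ee (c + 1)) = 0
        · -- both zero
          rw [hD, smul_dp] at h1 h2
          have k1 : dp L (y - ee (c + 2)) = 0 := by
            rcases mul_eq_zero.1 h1 with h | h
            · linarith
            · exact h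
          have k2 : dp L (y - ee (c + 1)) = 0 := by
            rcases mul_eq_zero.1 h2 with h | h
            · linarith
            · exact h
          have k0 : dp L (y + ee c) = 0 := by rw [hL, lam_eq]; exact hc
          rw [dp_sub, dp_ee] at k1 k2
          rw [dp_add, dp_ee] at k0
          have habs : ∀ m, |L m| = |dp L y| := by
            intro m
            rcases fin3_cases c m with rfl | rfl | rfl
            · rw [show L m = - dp L y by linarith, abs_neg]
            · rw [show L (c + 1) = dp L y by linarith]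
            · rw [show L (c + 2) = dp L y by linarith]
          rcases le_total 0 (dp L y) with h3 | h3
          · apply hA1
            intro m
            rw [habs, abs_of_nonneg h3]
          · apply hA2
            intro m
            rw [neg_dp, Pi.neg_apply, abs_neg, habs, abs_of_nonpos h3]
        · rcases h.P1neg c hc.le (Or.inr h2) with h3 | h3
          · rw [hD, ← smul_neg] at h3
            exact hA2 (NA.of_smul hκ h3)
          · rw [hD, Rf_smul] at h3
            exact hA1 (NB_to_NA hLq hLz (NA.of_smul hκ h3))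
      · rcases h.P1pos c hc.ge (Or.inr h1) with h3 | h3
        · rw [hD] at h3
          exact hA1 (NA.of_smul hκ h3)
        · rw [hD, ← smul_neg, Rf_smul] at h3
          exact hA2 (NB_to_NA hnLq hnLz (NA.of_smul hκ h3))
    have hb : ∀ m, PB y η q m := fun m => (h.P1 m (hne m)).resolve_left (hno m)
    have hv := fun (i j : Fin 3) (hij : i ≠ j) => h.VbP hij (hb i) (hb j)
    have n0 := hne 0
    have n1 := hne 1
    have n2 := hne 2
    have h01 := hv 0 1 (by decide)
    have h02 := hv 0 2 (by decide)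
    have h12 := hv 1 2 (by decide)
    rcases lt_or_gt_of_ne n0 with a0 | a0 <;> rcases lt_or_gt_of_ne n1 with a1 | a1 <;>
      rcases lt_or_gt_of_ne n2 with a2 | a2
    · exact h01 (mul_pos_of_neg_of_neg a0 a1)
    · exact h01 (mul_pos_of_neg_of_neg a0 a1)
    · exact h02 (mul_pos_of_neg_of_neg a0 a2)
    · exact h12 (mul_pos a1 a2)
    · exact h12 (mul_pos_of_neg_of_neg a1 a2)
    · exact h02 (mul_pos a0 a2)
    · exact h01 (mul_pos a0 a1)
    · exact h01 (mul_pos a0 a1)

theorem CD.absurd (h : CD y η q M N M' N') : False := by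
  by_cases hY : ∃ X Y : ℝ, 0 < Y ∧ (∀ i, 0 ≤ dp (M i) (X • q + Y • zz y η q)) ∧ (∀ i, 0 ≤ dp (M' i) (X • q + Y • zz y η q))
  · obtain ⟨X0, Y0, hY0, a1, a2⟩ := hY
    obtain ⟨hX0, -⟩ := h.plane a1 a2 (Or.inr hY0.ne')
    apply h.end_lemma
    intro X Y h1 h2 h0
    obtain ⟨hX, hYne⟩ := h.plane h1 h2 h0
    refine ⟨hX, ?_⟩
    by_contra hc
    push Not at hc
    have hYneg : Y < 0 := lt_of_le_of_ne hc hYne
    have e1 : 0 < -Y * X0 + Y0 * X := by
      have := mul_pos (by linarith : 0 < -Y) hX0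
      have := mul_pos hY0 hX
      linarith
    have hcomb : ∀ F : V3, 0 ≤ dp F (X0 • q + Y0 • zz y η q) → 0 ≤ dp F (X • q + Y • zz y η q) →
        0 ≤ dp F ((-Y * X0 + Y0 * X) • q + (0:ℝ) • zz y η q) := by
      intro F f1 f2
      rw [dp_add, dp_smul, dp_smul] at f1 f2 ⊢
      have g1 := mul_nonneg (by linarith : 0 ≤ -Y) f1
      have g2 := mul_nonneg hY0.le f2
      linarith
    exact (h.plane (fun i => hcomb _ (a1 i) (h1 i)) (fun i => hcomb _ (a2 i) (h2 i)) (Or.inl e1.ne')).2 rfl
  · apply h.swap.end_lemma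
    intro X Y h1 h2 h0
    have key : ∀ F : V3, dp (Rf q F) (X • q + Y • zz η y q) = dp F (X • q + (-Y) • zz y η q) := by
      intro F
      rw [zz_swap h.q1, ← dp_Rf, Rf_add, Rf_smul, Rf_smul, Rf_neg, Rf_Rf h.q1, Rf_self h.q1]
      congr 1
      funext m
      simp
    have h1' : ∀ i, 0 ≤ dp (M' i) (X • q + (-Y) • zz y η q) := fun i => by rw [← key]; exact h1 i
    have h2' : ∀ i, 0 ≤ dp (M i) (X • q + (-Y) • zz y η q) := fun i => by rw [← key]; exact h2 i
    obtain ⟨hX, hYne⟩ := h.plane h2' h1' (by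
      rcases h0 with h0 | h0
      · exact Or.inl h0
      · exact Or.inr (neg_ne_zero.2 h0))
    refine ⟨hX, ?_⟩
    by_contra hc
    push Not at hc
    apply hY
    refine ⟨X, -Y, ?_, h2', h1'⟩
    have : -Y ≠ 0 := hYne
    exact lt_of_le_of_ne (by linarith) (Ne.symm this)

end Pool.Agent.Octa
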