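import Pool.Agent.Octa.CoreChain

/-! module CORE (T1+T2+T3): the mod 3 combinatorial core, sections 1.2 and 1.3 of proof_MP_f08f91_co.md -/

set_option autoImplicit false

namespace Pool.Agent.Octa

inductive Lab | f (i : Fin 5) | a (j : Fin 3) | n (j : Fin 3)
  deriving DecidableEq, Fintype

def Lab.shift : Lab → Lab
  | .f i => .f i
  | .a j => .a (j + 1)
  | .n j => .n (j + 1)

/-! ### removal of several labels -/

section
variable {P : Type*} [DecidableEq P]

/-- removal of the labels in a list -/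
def RmL : List P → (Fn P →+ Fn P)
  | [] => AddMonoidHom.id _
  | a :: A => (Rm a).comp (RmL A)

@[simp] theorem RmL_nil (φ : Fn P) : RmL [] φ = φ := rfl
theorem RmL_cons (a : P) (A : List P) (φ : Fn P) : RmL (a :: A) φ = Rm a (RmL A φ) := rfl

theorem RmL_append (A B : List P) (φ : Fn P) : RmL (A ++ B) φ = RmL A (RmL B φ) := by
  induction A with
  | nil => rfl
  | cons a A ih => rw [List.cons_append, RmL_cons, RmL_cons, ih]

theorem RmL_D (A : List P) (φ : Fn P) : RmL A (D φ) = (-1) ^ A.length • D (RmL A φ) := by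
  induction A with
  | nil => simp
  | cons a A ih =>
    rw [RmL_cons, RmL_cons, ih, D_Rm, List.length_cons, pow_succ]
    rcases neg_one_pow_eq_or ℤ A.length with h | h
    · rw [h]; simp
    · rw [h]; simp

/-- total sign -/
def sgL : List P → List P → ZMod 3
  | [], _ => 1
  | a :: A, l => sg a l * sgL A (l.erase a)

/-- what is left -/
def strip : List P → List P → List P
  | [], l => l
  | a :: A, l => strip A (l.erase a)

theorem RmL_eq (A : List P) (φ : Fn P) (l : List P) : RmL A φ l = sgL A l * φ (strip A l) := by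
  induction A generalizing l with
  | nil => simp [sgL, strip]
  | cons a A ih => rw [RmL_cons, Rm_apply, rem_eq, ih, sgL, strip, mul_assoc]

theorem sgL_ne_zero {A : List P} (hA : A.Nodup) {l : List P} (h : sgL A l ≠ 0) :
    ∀ a ∈ A, l.count a = 1 := by
  induction A generalizing l with
  | nil => simp
  | cons b A ih =>
    obtain ⟨hb, hA'⟩ := List.nodup_cons.mp hA
    rw [sgL] at h
    intro a ha
    rcases List.mem_cons.mp ha with rfl | ha
    · exact sg_ne_zero (left_ne_zero_of_mul h)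
    · have := ih hA' (right_ne_zero_of_mul h) a ha
      have hab : a ≠ b := fun e => hb (e ▸ ha)
      rwa [List.count_erase_of_ne hab] at this

theorem strip_sub (A : List P) (l : List P) : ∀ x ∈ strip A l, x ∈ l := by
  induction A generalizing l with
  | nil => intro x hx; exact hx
  | cons b A ih => intro x hx; exact List.mem_of_mem_erase (ih _ x hx)

theorem strip_length {A : List P} (hA : A.Nodup) {l : List P} (h : ∀ a ∈ A, a ∈ l) :
    (strip A l).length + A.length = l.length := by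
  induction A generalizing l with
  | nil => simp [strip]
  | cons b A ih =>
    obtain ⟨hb, hA'⟩ := List.nodup_cons.mp hA
    have hbl := h b (by simp)
    have h1 := ih (l := l.erase b) hA' (by
      intro a ha
      exact (List.mem_erase_of_ne (by rintro rfl; exact hb ha)).mpr (h a (by simp [ha])))
    rw [strip, List.length_cons]
    have h2 := List.length_erase_of_mem hbl
    have h3 := List.length_pos_of_mem hbl
    omega

theorem strip_count {A : List P} {x : P} (hx : x ∉ A) (l : List P) :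
    (strip A l).count x = l.count x := by
  induction A generalizing l with
  | nil => rfl
  | cons b A ih =>
    simp only [List.mem_cons, not_or] at hx
    rw [strip, ih hx.2, List.count_erase_of_ne hx.1]

theorem strip_not_mem {A : List P} (hA : A.Nodup) {l : List P} (h : ∀ a ∈ A, l.count a = 1) :
    ∀ a ∈ A, a ∉ strip A l := by
  induction A generalizing l with
  | nil => simp
  | cons b A ih =>
    obtain ⟨hb, hA'⟩ := List.nodup_cons.mp hA
    intro a ha
    rw [strip]
    rcases List.mem_cons.mp ha with rfl | ha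
    · rw [← List.count_eq_zero, strip_count hb, List.count_erase_self, h a (by simp)]
    · apply ih hA' _ a ha
      intro c hc
      have hcb : c ≠ b := fun e => hb (e ▸ hc)
      rw [List.count_erase_of_ne hcb]
      exact h c (by simp [hc])

theorem RmL_pull {g : P → P} (hg : Function.Injective g) {A : List P} (hA : ∀ a ∈ A, g a = a)
    (φ : Fn P) : pull g (RmL A φ) = RmL A (pull g φ) := by
  induction A with
  | nil => rfl
  | cons a A ih =>
    rw [RmL_cons, RmL_cons, Rm_pull hg (hA a (by simp)), ih (fun b hb => hA b (by simp [hb]))]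

theorem count_of_infix {x : P} {l : List P} (h : [x, x] <:+: l) : 2 ≤ l.count x := by
  obtain ⟨s, t, rfl⟩ := h
  simp only [List.count_append, List.count_cons, List.count_nil, beq_self_eq_true, if_true]
  omega

end

theorem shift_injective : Function.Injective Lab.shift := by
  intro x y h
  rcases x with i | i | i <;> rcases y with j | j | j <;> simp_all [Lab.shift]

/-- the four labels to be removed -/
def FF : List Lab := [.f 1, .f 2, .f 3, .f 4]

theorem FF_nodup : FF.Nodup := by decide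
theorem mem_FF (j : Fin 4) : Lab.f j.succ ∈ FF := by revert j; decide
theorem shift_FF : ∀ a ∈ FF, a.shift = a := by decide

/-- the label lists that occur -/
def Good (l : List Lab) : Prop :=
  (∀ x ∈ l, ∀ i, x ≠ .f i) ∧ (¬ ∀ i : Fin 3, Lab.a i ∈ l) ∧
  (∀ i i' : Fin 3, Lab.n i ∈ l → Lab.n i' ∈ l → i = i')

/-- the hypotheses of the core theorem -/
structure CoreHyp (m : ℕ) (lab : Fin 3 → GP → Lab) : Prop where
  h1 : ∀ k q, (∀ i, q i ≤ m) → lab k (Function.update q 4 m) = lab (k + 1) (Function.update q 4 0)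
  h2 : ∀ k q t, (∀ i, q i ≤ m) → t ≤ m → q 5 = m → lab k (Function.update q 4 t) = lab k q
  h3 : ∀ k q s, (∀ i, q i ≤ m) → s ≤ m → q 5 = 0 → lab k (Function.update q 6 s) = lab k q
  h4 : ∀ k q, (∀ i, q i ≤ m) →
      lab (k + 1) (Function.update q 6 m) = (lab k (Function.update q 6 0)).shift
  h6 : ∀ k q, (∀ i, q i ≤ m) → q 5 = 0 → lab (k + 1) q = (lab k q).shift
  hbot : ∀ k q, ∀ i : Fin 4, (∀ j, q j ≤ m) → q (i.castLE (by norm_num)) = 0 →
      ∃ j : Fin 4, j ≤ i ∧ lab k q = .f j.succ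
  htop : ∀ k q, ∀ i : Fin 4, (∀ j, q j ≤ m) → q (i.castLE (by norm_num)) = m →
      ∃ j : Fin 5, j ≠ i.succ ∧ lab k q = .f j
  hsmall : ∀ (k : Fin 3) (base : Fin 7 → ℕ),
      (¬ ∀ i : Fin 5, ∃ q, (∀ j, q j ≤ m) ∧ (∀ j, base j ≤ q j ∧ q j ≤ base j + 1) ∧ lab k q = .f i) ∧
      (¬ ∀ i : Fin 3, ∃ q, (∀ j, q j ≤ m) ∧ (∀ j, base j ≤ q j ∧ q j ≤ base j + 1) ∧ lab k q = .a i) ∧
      (∀ i i' : Fin 3,
        (∃ q, (∀ j, q j ≤ m) ∧ (∀ j, base j ≤ q j ∧ q j ≤ base j + 1) ∧ lab k q = .n i) →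
        (∃ q, (∀ j, q j ≤ m) ∧ (∀ j, base j ≤ q j ∧ q j ≤ base j + 1) ∧ lab k q = .n i') → i = i')

section Main
variable {m : ℕ} {lab : Fin 3 → GP → Lab}

theorem setc_le {q : GP} (hq : ∀ j, q j ≤ m) (i : Fin 7) {c : ℕ} (hc : c ≤ m) :
    ∀ j, setc i c q j ≤ m := by
  intro j
  by_cases h : j = i
  · subst h; rw [setc_same]; exact hc
  · rw [setc_ne h]; exact hq j

theorem setc_self {q : GP} {i : Fin 7} {c : ℕ} (h : q i = c) : setc i c q = q := by
  rw [setc, ← h, Function.update_eq_self]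

theorem zle : ∀ j : Fin 7, (0 : GP) j ≤ m := fun _ => Nat.zero_le _

/-- top faces of the box -/
theorem face_top (H : CoreHyp m lab) (A : List Lab) (hA : A.Nodup) (i : Fin 4) (hi : Lab.f i.succ ∈ A)
    (j : Fin 7) (hj : j = i.castLE (by norm_num)) (T : List (Fin 7)) (k : Fin 3) (ψ : Fn Lab) :
    Gr m 0 T (pull (setc j m) (pull (lab k) (RmL A ψ))) = 0 := by
  subst hj
  apply Gr_eq_zero
  intro l hl
  rw [pull_apply, pull_apply, RmL_eq]
  by_contra hne
  have h1 := sgL_ne_zero hA (left_ne_zero_of_mul hne) _ hi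
  have h2 : Lab.f i.succ ∈ (l.map (setc (i.castLE (by norm_num)) m)).map (lab k) := by
    rw [← List.count_pos_iff, h1]; norm_num
  rw [List.map_map] at h2
  obtain ⟨q, hq, hq'⟩ := List.mem_map.mp h2
  obtain ⟨j, hj, hj'⟩ := H.htop k (setc (i.castLE (by norm_num)) m q) i
    (setc_le (fun j => cells_le zle hl hq j) _ le_rfl) (setc_same _ _ _)
  rw [Function.comp, hj'] at hq'
  exact hj (Lab.f.inj hq')

/-- bottom faces of the box -/
theorem face_bot (H : CoreHyp m lab) (A : List Lab) (hA : A.Nodup) (i i' : Fin 4) (hii : i < i')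
    (hi : Lab.f i'.succ ∈ A)
    (j : Fin 7) (hj : j = i.castLE (by norm_num)) (T : List (Fin 7)) (k : Fin 3) (ψ : Fn Lab) :
    Gr m 0 T (pull (setc j 0) (pull (lab k) (RmL A ψ))) = 0 := by
  subst hj
  apply Gr_eq_zero
  intro l hl
  rw [pull_apply, pull_apply, RmL_eq]
  by_contra hne
  have h1 := sgL_ne_zero hA (left_ne_zero_of_mul hne) _ hi
  have h2 : Lab.f i'.succ ∈ (l.map (setc (i.castLE (by norm_num)) 0)).map (lab k) := by
    rw [← List.count_pos_iff, h1]; norm_num
  rw [List.map_map] at h2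
  obtain ⟨q, hq, hq'⟩ := List.mem_map.mp h2
  obtain ⟨j, hj, hj'⟩ := H.hbot k (setc (i.castLE (by norm_num)) 0 q) i
    (setc_le (fun j => cells_le zle hl hq j) _ (Nat.zero_le _)) (setc_same _ _ _)
  rw [Function.comp, hj'] at hq'
  have := Fin.succ_injective _ (Lab.f.inj hq')
  subst this
  exact absurd hj (not_le.mpr hii)

/-- bottom faces of the box, long lists -/
theorem face_bot_long (H : CoreHyp m lab) (i : Fin 4)
    (j : Fin 7) (hj : j = i.castLE (by norm_num)) (T : List (Fin 7)) (hT : 4 ≤ T.length)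
    (k : Fin 3) (ψ : Fn Lab) :
    Gr m 0 T (pull (setc j 0) (pull (lab k) (RmL FF ψ))) = 0 := by
  subst hj
  apply Gr_eq_zero
  intro l hl
  rw [pull_apply, pull_apply, RmL_eq, List.map_map]
  by_contra hne
  set L := l.map (lab k ∘ setc (i.castLE (by norm_num)) 0) with hL
  have h1 := sgL_ne_zero FF_nodup (left_ne_zero_of_mul hne)
  have h2 := strip_length (l := L) FF_nodup (fun a ha => by
    rw [← List.count_pos_iff, h1 a ha]; norm_num)
  have h3 : L.length = T.length + 1 := by rw [hL, List.length_map, cells_length hl]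
  have h4 : 0 < (strip FF L).length := by
    have : FF.length = 4 := rfl
    omega
  obtain ⟨x, hx⟩ := List.exists_mem_of_length_pos h4
  have hxL := strip_sub _ _ x hx
  obtain ⟨q, hq, hq'⟩ := List.mem_map.mp hxL
  obtain ⟨j, hj, hj'⟩ := H.hbot k (setc (i.castLE (by norm_num)) 0 q) i
    (setc_le (fun j => cells_le zle hl hq j) _ (Nat.zero_le _)) (setc_same _ _ _)
  rw [Function.comp, hj'] at hq'
  exact strip_not_mem FF_nodup h1 x (hq' ▸ mem_FF j) hx

/-- the chains -/
def cc (m : ℕ) (lab : Fin 3 → GP → Lab) (S : List (Fin 7)) (k : Fin 3) : Fn Lab →+ ZMod 3 :=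
  (Gr m 0 S).comp ((pull (lab k)).comp (RmL FF))

theorem cc_apply (S : List (Fin 7)) (k : Fin 3) (ψ : Fn Lab) :
    cc m lab S k ψ = Gr m 0 S (pull (lab k) (RmL FF ψ)) := rfl

theorem cc_D (S : List (Fin 7)) (hS : S.Nodup) (hne : S ≠ []) (k : Fin 3) (ψ : Fn Lab) :
    cc m lab S k (D ψ) = ((faces S).map (faceVal m 0 (pull (lab k) (RmL FF ψ)))).sum := by
  rw [cc_apply, RmL_D]
  have : (-1 : ℤ) ^ FF.length = 1 := by decide
  rw [this, one_smul, ← D_pull, Gr_D _ _ _ hS, if_neg hne, zero_add]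

/-- occurring lists -/
theorem cc_congr (H : CoreHyp m lab) (S : List (Fin 7)) (k : Fin 3) (φ ψ : Fn Lab)
    (h : ∀ l : List Lab, l.length + 4 = S.length + 1 → Good l → φ l = ψ l) :
    cc m lab S k φ = cc m lab S k ψ := by
  rw [cc_apply, cc_apply]
  apply Gr_congr
  intro l hl
  rw [pull_apply, pull_apply, RmL_eq, RmL_eq]
  by_cases hs : sgL FF (l.map (lab k)) = 0
  · rw [hs, zero_mul, zero_mul]
  congr 1
  have h1 := sgL_ne_zero FF_nodup hs
  obtain ⟨base, hb⟩ := cells_cube hl
  obtain ⟨s1, s2, s3⟩ := H.hsmall k base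
  have hm : ∀ x ∈ l.map (lab k), ∃ q, (∀ j, q j ≤ m) ∧ (∀ j, base j ≤ q j ∧ q j ≤ base j + 1) ∧
      lab k q = x := by
    intro x hx
    obtain ⟨q, hq, hq'⟩ := List.mem_map.mp hx
    exact ⟨q, fun j => cells_le zle hl hq j, hb q hq, hq'⟩
  apply h
  · have h2 := strip_length (l := l.map (lab k)) FF_nodup (fun a ha => by
      rw [← List.count_pos_iff, h1 a ha]; norm_num)
    rw [List.length_map, cells_length hl] at h2
    exact h2
  · refine ⟨?_, ?_, ?_⟩
    · rintro x hx i rfl
      have hx' := strip_sub _ _ _ hx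
      by_cases hi : i = 0
      · subst hi
        apply s1
        intro i
        rcases Fin.eq_zero_or_eq_succ i with rfl | ⟨j, rfl⟩
        · exact hm _ hx'
        · apply hm
          rw [← List.count_pos_iff, h1 _ (mem_FF j)]; norm_num
      · obtain ⟨j, rfl⟩ := Fin.exists_succ_eq.mpr hi
        exact strip_not_mem FF_nodup h1 _ (mem_FF j) hx
    · intro hall
      apply s2
      intro i
      exact hm _ (strip_sub _ _ _ (hall i))
    · intro i i' hi hi'
      exact s3 i i' (hm _ (strip_sub _ _ _ hi)) (hm _ (strip_sub _ _ _ hi'))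

/-- degenerate faces -/
theorem deg_zero (S : List (Fin 7)) (hS : S.Nodup) (g : GP → Lab) (ψ : Fn Lab)
    (hψ : ∀ l : List Lab, ¬ l.Nodup → ψ l = 0) (j : Fin 7) (hj : j ∈ S)
    (hg : ∀ u : GP, ∀ c, (∀ i, u i ≤ m) → c ≤ m → g (setc j c u) = g u) :
    Gr m 0 S (pull g (RmL FF ψ)) = 0 := by
  apply Gr_eq_zero
  intro l hl
  rw [pull_apply, RmL_eq]
  by_cases hs : sgL FF (l.map g) = 0
  · rw [hs, zero_mul]
  have h1 := sgL_ne_zero FF_nodup hs
  obtain ⟨u, c, hc, hu⟩ := cells_adj hS hl hj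
  have hul : u ∈ l := hu.subset (by simp)
  have h2 := infix_pair_map g hu
  rw [hg u c (fun i => cells_le zle hl hul i) hc] at h2
  have h3 := count_of_infix h2
  rw [hψ, mul_zero]
  intro hnd
  by_cases hF : g u ∈ FF
  · rw [h1 _ hF] at h3; omega
  · have h4 := List.nodup_iff_count_le_one.mp hnd (g u)
    rw [strip_count hF] at h4
    omega

theorem pull_pull {P Q R : Type*} (g : P → Q) (h : Q → R) (φ : Fn R) :
    pull g (pull h φ) = pull (h ∘ g) φ := by
  funext l
  simp [List.map_map]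

/-- equal labels on cells give equal values -/
theorem Gr_lab_congr (S : List (Fin 7)) (g g' : GP → Lab) (φ : Fn Lab)
    (h : ∀ q : GP, (∀ i, q i ≤ m) → (∀ j, j ∉ S → q j = 0) → g q = g' q) :
    Gr m 0 S (pull g φ) = Gr m 0 S (pull g' φ) := by
  apply Gr_congr
  intro l hl
  rw [pull_apply, pull_apply]
  congr 1
  apply List.map_congr_left
  intro q hq
  exact h q (fun i => cells_le zle hl hq i) (fun j hj => cells_coord hl hq hj)

/-! ### the boundaries -/

theorem comp_setc_zero (S : List (Fin 7)) {j : Fin 7} (hj : j ∉ S) (g : GP → Lab) (φ : Fn Lab) :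
    Gr m 0 S (pull (setc j 0) (pull g φ)) = Gr m 0 S (pull g φ) := by
  rw [pull_pull]
  apply Gr_lab_congr
  intro q _ hq
  rw [Function.comp, setc_self (hq j hj)]

/-- box faces vanish for long lists -/
theorem box_face (H : CoreHyp m lab) (i : Fin 4) (j : Fin 7) (hj : j = i.castLE (by norm_num))
    (T : List (Fin 7)) (hT : 4 ≤ T.length) (s : ZMod 3) (k : Fin 3) (ψ : Fn Lab) :
    faceVal m 0 (pull (lab k) (RmL FF ψ)) (T, j, s) = 0 := by
  simp only [faceVal]
  rw [face_top H FF FF_nodup i (mem_FF i) j hj, face_bot_long H i j hj T hT]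
  ring

theorem corner1 (H : CoreHyp m lab) (ψ : Fn Lab) :
    Gr m 0 [] (pull (lab 0) (RmL [.f 1] ψ)) = ψ [] := by
  obtain ⟨j, hj, h⟩ := H.hbot 0 0 0 zle rfl
  have hj0 : j = 0 := by
    rcases j with ⟨j, hj'⟩
    simp only [Fin.le_def] at hj
    ext
    simpa using hj
  subst hj0
  rw [Gr_nil, pull_apply, RmL_eq]
  simp only [List.map_cons, List.map_nil, h]
  have : Lab.f (Fin.succ 0) = Lab.f 1 := rfl
  rw [this]
  simp [sgL, strip, sg]

/-- step at the corner -/
theorem corner_step (H : CoreHyp m lab) (A : List Lab) (hA : A.Nodup) (a : Lab) (S : List (Fin 7))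
    (hlen : S.length = A.length)
    (i : Fin 4) (hSi : (i.castLE (by norm_num) : Fin 7) ∉ S)
    (hA' : ∀ j : Fin 4, j ≤ i → Lab.f j.succ ∈ A ∨ Lab.f j.succ = a)
    (ψ : Fn Lab) :
    Gr m 0 S (pull (lab 0) (RmL (A ++ [a]) ψ)) = Gr m 0 S (pull (lab 0) (RmL A (D ψ))) := by
  apply Gr_congr
  intro l hl
  rw [RmL_append, pull_apply, pull_apply, RmL_eq, RmL_eq A]
  by_cases hs : sgL A (l.map (lab 0)) = 0
  · rw [hs, zero_mul, zero_mul]
  congr 1
  have h1 := sgL_ne_zero hA hs
  have h2 := strip_length (l := l.map (lab 0)) hA (fun a ha => by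
    rw [← List.count_pos_iff, h1 a ha]; norm_num)
  rw [List.length_map, cells_length hl] at h2
  have h3 : (strip A (l.map (lab 0))).length = 1 := by omega
  obtain ⟨x, hx⟩ := List.length_eq_one_iff.mp h3
  have hxm : x ∈ strip A (l.map (lab 0)) := by rw [hx]; simp
  obtain ⟨q, hq, hq'⟩ := List.mem_map.mp (strip_sub _ _ _ hxm)
  obtain ⟨j, hj, hj'⟩ := H.hbot 0 q i (fun j => cells_le zle hl hq j) (cells_coord hl hq hSi)
  have hxa : x = a := by
    rcases hA' j hj with h | h
    · exfalso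
      rw [hq'] at hj'
      exact strip_not_mem hA h1 _ (hj' ▸ h) hxm
    · rw [← hq', hj', h]
  subst hxa
  rw [hx, RmL_cons, RmL_nil, Rm_apply, rem_cons_self, D_apply]
  simp

theorem corner4 (H : CoreHyp m lab) (ψ : Fn Lab) :
    Gr m 0 [2, 1, 0] (pull (lab 0) (RmL FF ψ)) = - ψ [] := by
  have e1 := corner1 H
  -- two labels
  have e2 : ∀ ψ, Gr m 0 [0] (pull (lab 0) (RmL [.f 1, .f 2] ψ)) = ψ [] := by
    intro ψ
    have := corner_step H [.f 1] (by decide) (.f 2) [0] rfl 1 (by decide) (by decide) ψ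
    rw [List.singleton_append] at this
    rw [this, RmL_D, List.length_singleton, pow_one, map_zsmul, map_zsmul, ← D_pull,
      Gr_D _ _ _ (by decide)]
    simp only [faces, List.map_cons, List.map_nil, List.sum_cons, List.sum_nil, faceVal]
    rw [face_top H [.f 1] (by decide) 0 (by decide) 0 rfl, comp_setc_zero _ (by decide), e1]
    simp
  have e3 : ∀ ψ, Gr m 0 [1, 0] (pull (lab 0) (RmL [.f 1, .f 2, .f 3] ψ)) = - ψ [] := by
    intro ψ
    have := corner_step H [.f 1, .f 2] (by decide) (.f 3) [1, 0] rfl 2 (by decide) (by decide) ψ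
    simp only [List.cons_append, List.nil_append] at this
    rw [this, RmL_D]
    simp only [List.length_cons, List.length_nil]
    rw [map_zsmul, map_zsmul, ← D_pull, Gr_D _ _ _ (by decide)]
    simp only [faces, List.map_cons, List.map_nil, List.sum_cons, List.sum_nil, faceVal]
    rw [face_top H [.f 1, .f 2] (by decide) 1 (by decide) 1 rfl, comp_setc_zero _ (by decide), e2,
      face_top H [.f 1, .f 2] (by decide) 0 (by decide) 0 rfl,
      face_bot H [.f 1, .f 2] (by decide) 0 1 (by decide) (by decide) 0 rfl]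
    simp
  have := corner_step H [.f 1, .f 2, .f 3] (by decide) (.f 4) [2, 1, 0] rfl 3 (by decide)
    (by decide) ψ
  simp only [List.cons_append, List.nil_append] at this
  rw [FF, this, RmL_D]
  simp only [List.length_cons, List.length_nil]
  rw [map_zsmul, map_zsmul, ← D_pull, Gr_D _ _ _ (by decide)]
  simp only [faces, List.map_cons, List.map_nil, List.sum_cons, List.sum_nil, faceVal]
  rw [face_top H [.f 1, .f 2, .f 3] (by decide) 2 (by decide) 2 rfl,
    comp_setc_zero _ (by decide), e3,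
    face_top H [.f 1, .f 2, .f 3] (by decide) 1 (by decide) 1 rfl,
    face_bot H [.f 1, .f 2, .f 3] (by decide) 1 2 (by decide) (by decide) 1 rfl,
    face_top H [.f 1, .f 2, .f 3] (by decide) 0 (by decide) 0 rfl,
    face_bot H [.f 1, .f 2, .f 3] (by decide) 0 2 (by decide) (by decide) 0 rfl]
  simp

theorem cc0 (H : CoreHyp m lab) (ψ : Fn Lab) : cc m lab [3, 2, 1, 0] 0 (D ψ) = ψ [] := by
  rw [cc_D _ (by decide) (by decide)]
  simp only [faces, List.map_cons, List.map_nil, List.sum_cons, List.sum_nil, faceVal]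
  rw [face_top H FF (by decide) 3 (by decide) 3 rfl,
    comp_setc_zero _ (by decide), corner4 H,
    face_top H FF (by decide) 2 (by decide) 2 rfl,
    face_bot H FF (by decide) 2 3 (by decide) (by decide) 2 rfl,
    face_top H FF (by decide) 1 (by decide) 1 rfl,
    face_bot H FF (by decide) 1 3 (by decide) (by decide) 1 rfl,
    face_top H FF (by decide) 0 (by decide) 0 rfl,
    face_bot H FF (by decide) 0 3 (by decide) (by decide) 0 rfl]
  simp

theorem pull_shift (φ : Fn Lab) : RmL FF (pull Lab.shift φ) = pull Lab.shift (RmL FF φ) :=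
  (RmL_pull shift_injective shift_FF φ).symm

theorem cc1 (H : CoreHyp m lab) (ψ : Fn Lab) :
    cc m lab [4, 3, 2, 1, 0] 0 (D ψ)
      = cc m lab [3, 2, 1, 0] 0 (pull Lab.shift ψ) - cc m lab [3, 2, 1, 0] 0 ψ := by
  rw [cc_D _ (by decide) (by decide)]
  simp only [faces, List.map_cons, List.map_nil, List.sum_cons, List.sum_nil]
  rw [box_face H 3 3 rfl _ (by decide), box_face H 2 2 rfl _ (by decide),
    box_face H 1 1 rfl _ (by decide), box_face H 0 0 rfl _ (by decide)]
  simp only [faceVal]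
  rw [comp_setc_zero _ (by decide), cc_apply, cc_apply, pull_shift, pull_pull, pull_pull]
  have : Gr m 0 [3, 2, 1, 0] (pull (lab 0 ∘ setc 4 m) (RmL FF ψ))
      = Gr m 0 [3, 2, 1, 0] (pull (Lab.shift ∘ lab 0) (RmL FF ψ)) := by
    apply Gr_lab_congr
    intro q hq hq0
    have h4 : q 4 = 0 := hq0 4 (by decide)
    have h5 : q 5 = 0 := hq0 5 (by decide)
    have e1 := H.h1 0 q hq
    have e2 : Function.update q 4 0 = q := setc_self h4
    rw [e2] at e1
    have e3 := H.h6 0 q hq h5
    rw [Function.comp, Function.comp, setc, e1, e3]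
  rw [this]
  ring

theorem cc2 (H : CoreHyp m lab) (ψ : Fn Lab) (hψ : ∀ l : List Lab, ¬ l.Nodup → ψ l = 0) :
    ∑ k, cc m lab [5, 4, 3, 2, 1, 0] k (D ψ)
      = - (cc m lab [4, 3, 2, 1, 0] 0 ψ + cc m lab [4, 3, 2, 1, 0] 0 (pull Lab.shift ψ)
          + cc m lab [4, 3, 2, 1, 0] 0 (pull Lab.shift (pull Lab.shift ψ))) := by
  have e : ∀ k, cc m lab [5, 4, 3, 2, 1, 0] k (D ψ)
      = - cc m lab [4, 3, 2, 1, 0] k ψ
        - (Gr m 0 [5, 3, 2, 1, 0] (pull (setc 4 0) (pull (lab (k + 1)) (RmL FF ψ)))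
          - Gr m 0 [5, 3, 2, 1, 0] (pull (setc 4 0) (pull (lab k) (RmL FF ψ)))) := by
    intro k
    rw [cc_D _ (by decide) (by decide)]
    simp only [faces, List.map_cons, List.map_nil, List.sum_cons, List.sum_nil]
    rw [box_face H 3 3 rfl _ (by decide), box_face H 2 2 rfl _ (by decide),
      box_face H 1 1 rfl _ (by decide), box_face H 0 0 rfl _ (by decide)]
    simp only [faceVal]
    rw [comp_setc_zero _ (by decide), cc_apply]
    have d1 : Gr m 0 [4, 3, 2, 1, 0] (pull (setc 5 m) (pull (lab k) (RmL FF ψ))) = 0 := by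
      rw [pull_pull]
      apply deg_zero (m := m) _ (by decide) _ _ hψ 4 (by decide)
      intro u c hu hc
      have := H.h2 k (setc 5 m u) c (setc_le hu 5 le_rfl) hc (setc_same _ _ _)
      rw [Function.comp, Function.comp, setc_comm (by decide)]
      exact this
    have d2 : Gr m 0 [5, 3, 2, 1, 0] (pull (setc 4 m) (pull (lab k) (RmL FF ψ)))
        = Gr m 0 [5, 3, 2, 1, 0] (pull (setc 4 0) (pull (lab (k + 1)) (RmL FF ψ))) := by
      rw [pull_pull, pull_pull]
      apply Gr_lab_congr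
      intro q hq _
      exact H.h1 k q hq
    rw [d1, d2]
    ring
  have hk : ∀ k, cc m lab [4, 3, 2, 1, 0] (k + 1) ψ
      = cc m lab [4, 3, 2, 1, 0] k (pull Lab.shift ψ) := by
    intro k
    rw [cc_apply, cc_apply, pull_shift, pull_pull]
    apply Gr_lab_congr
    intro q hq hq0
    exact H.h6 k q hq (hq0 5 (by decide))
  have hk' : ∀ k ψ, cc m lab [4, 3, 2, 1, 0] (k + 1) ψ
      = cc m lab [4, 3, 2, 1, 0] k (pull Lab.shift ψ) := by
    intro k ψ
    rw [cc_apply, cc_apply, pull_shift, pull_pull]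
    apply Gr_lab_congr
    intro q hq hq0
    exact H.h6 k q hq (hq0 5 (by decide))
  rw [Fin.sum_univ_three, e 0, e 1, e 2]
  have h1 := hk' 0 ψ
  have h2 := hk' 1 ψ
  have h3 := hk' 0 (pull Lab.shift ψ)
  have a1 : (0 : Fin 3) + 1 = 1 := rfl
  have a2 : (1 : Fin 3) + 1 = 2 := rfl
  have a3 : (2 : Fin 3) + 1 = 0 := rfl
  rw [a1] at h1 h3
  rw [a2] at h2
  rw [a1, a2, a3, h2, h3, h1]
  ring

theorem cc3 (H : CoreHyp m lab) (ψ : Fn Lab) (hψ : ∀ l : List Lab, ¬ l.Nodup → ψ l = 0) :
    ∑ k, cc m lab [6, 5, 4, 3, 2, 1, 0] k (D ψ)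
      = ∑ k, cc m lab [5, 4, 3, 2, 1, 0] k (pull Lab.shift ψ)
        - ∑ k, cc m lab [5, 4, 3, 2, 1, 0] k ψ := by
  have e : ∀ k, cc m lab [6, 5, 4, 3, 2, 1, 0] k (D ψ)
      = Gr m 0 [5, 4, 3, 2, 1, 0] (pull (setc 6 m) (pull (lab k) (RmL FF ψ)))
        - cc m lab [5, 4, 3, 2, 1, 0] k ψ
        + (Gr m 0 [6, 5, 3, 2, 1, 0] (pull (setc 4 0) (pull (lab (k + 1)) (RmL FF ψ)))
          - Gr m 0 [6, 5, 3, 2, 1, 0] (pull (setc 4 0) (pull (lab k) (RmL FF ψ)))) := by
    intro k
    rw [cc_D _ (by decide) (by decide)]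
    simp only [faces, List.map_cons, List.map_nil, List.sum_cons, List.sum_nil]
    rw [box_face H 3 3 rfl _ (by decide), box_face H 2 2 rfl _ (by decide),
      box_face H 1 1 rfl _ (by decide), box_face H 0 0 rfl _ (by decide)]
    simp only [faceVal]
    rw [comp_setc_zero [5, 4, 3, 2, 1, 0] (by decide), cc_apply]
    have d1 : Gr m 0 [6, 4, 3, 2, 1, 0] (pull (setc 5 m) (pull (lab k) (RmL FF ψ))) = 0 := by
      rw [pull_pull]
      apply deg_zero (m := m) _ (by decide) _ _ hψ 4 (by decide)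
      intro u c hu hc
      have := H.h2 k (setc 5 m u) c (setc_le hu 5 le_rfl) hc (setc_same _ _ _)
      rw [Function.comp, Function.comp, setc_comm (by decide)]
      exact this
    have d3 : Gr m 0 [6, 4, 3, 2, 1, 0] (pull (setc 5 0) (pull (lab k) (RmL FF ψ))) = 0 := by
      rw [pull_pull]
      apply deg_zero (m := m) _ (by decide) _ _ hψ 6 (by decide)
      intro u c hu hc
      have := H.h3 k (setc 5 0 u) c (setc_le hu 5 (Nat.zero_le _)) hc (setc_same _ _ _)
      rw [Function.comp, Function.comp, setc_comm (by decide)]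
      exact this
    have d2 : Gr m 0 [6, 5, 3, 2, 1, 0] (pull (setc 4 m) (pull (lab k) (RmL FF ψ)))
        = Gr m 0 [6, 5, 3, 2, 1, 0] (pull (setc 4 0) (pull (lab (k + 1)) (RmL FF ψ))) := by
      rw [pull_pull, pull_pull]
      apply Gr_lab_congr
      intro q hq _
      exact H.h1 k q hq
    rw [d1, d2, d3]
    ring
  have f : ∀ k, Gr m 0 [5, 4, 3, 2, 1, 0] (pull (setc 6 m) (pull (lab (k + 1)) (RmL FF ψ)))
      = cc m lab [5, 4, 3, 2, 1, 0] k (pull Lab.shift ψ) := by
    intro k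
    rw [cc_apply, pull_shift, pull_pull, pull_pull]
    apply Gr_lab_congr
    intro q hq hq0
    have e1 := H.h4 k q hq
    have e2 : Function.update q 6 0 = q := setc_self (hq0 6 (by decide))
    rw [e2] at e1
    exact e1
  rw [Fin.sum_univ_three, Fin.sum_univ_three, Fin.sum_univ_three, e 0, e 1, e 2]
  have h1 := f 0
  have h2 := f 1
  have h3 := f 2
  have a1 : (0 : Fin 3) + 1 = 1 := rfl
  have a2 : (1 : Fin 3) + 1 = 2 := rfl
  have a3 : (2 : Fin 3) + 1 = 0 := rfl
  rw [a1] at h1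
  rw [a2] at h2
  rw [a3] at h3
  rw [a1, a2, a3, ← h1, ← h2, ← h3]
  ring

end Main

/-! ### the cochain tables -/

def β0 : Lab → ZMod 3
  | .f _ => 0
  | .a i => (i.val : ZMod 3)
  | .n i => (i.val : ZMod 3)

def β1 : Lab → Lab → ZMod 3
  | .a i, .a j => if i = 0 ∧ j = 1 then 1 else if i = 1 ∧ j = 0 then -1 else 0
  | .a i, .n j => if i = 0 then (j.val : ZMod 3) else 0
  | .n j, .a i => if i = 0 then -(j.val : ZMod 3) else 0
  | _, _ => 0

def δ1 (x y z : Lab) : ZMod 3 := β1 y z - β1 x z + β1 x y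

def β2 (x y z : Lab) : ZMod 3 :=
  if x = .n 0 ∨ y = .n 0 ∨ z = .n 0 then 0
  else if x = .n 1 ∨ y = .n 1 ∨ z = .n 1 then δ1 x.shift.shift y.shift.shift z.shift.shift
  else if x = .n 2 ∨ y = .n 2 ∨ z = .n 2 then
    δ1 x.shift.shift y.shift.shift z.shift.shift + δ1 x.shift y.shift z.shift
  else 0

def b0 : Fn Lab := fun l => match l with
  | [x] => β0 x
  | _ => 0
def b1 : Fn Lab := fun l => match l with
  | [x, y] => β1 x y
  | _ => 0
def b2 : Fn Lab := fun l => match l with
  | [x, y, z] => β2 x y z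
  | _ => 0

/-- the six labels -/
def lb : Fin 6 → Lab := ![.a 0, .a 1, .a 2, .n 0, .n 1, .n 2]

theorem lb_surj (x : Lab) (h : ∀ i, x ≠ .f i) : ∃ t, x = lb t := by
  rcases x with i | i | i
  · exact absurd rfl (h i)
  · fin_cases i
    · exact ⟨0, rfl⟩
    · exact ⟨1, rfl⟩
    · exact ⟨2, rfl⟩
  · fin_cases i
    · exact ⟨3, rfl⟩
    · exact ⟨4, rfl⟩
    · exact ⟨5, rfl⟩

def ok (l : List (Fin 6)) : Prop :=
  (¬ (0 ∈ l ∧ 1 ∈ l ∧ 2 ∈ l)) ∧ ∀ s ∈ l, ∀ t ∈ l, 3 ≤ s → 3 ≤ t → s = t

instance (l : List (Fin 6)) : Decidable (ok l) := by unfold ok; infer_instance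

theorem lb_n (s : Fin 6) (h : 3 ≤ s) : ∃ i : Fin 3, lb s = .n i ∧ s.val = i.val + 3 := by
  revert s; decide

theorem ok_of_good (l : List (Fin 6)) (h : Good (l.map lb)) : ok l := by
  obtain ⟨_, h2, h3⟩ := h
  refine ⟨?_, ?_⟩
  · rintro ⟨a0, a1, a2⟩
    apply h2
    intro i
    fin_cases i
    · exact List.mem_map.mpr ⟨0, a0, rfl⟩
    · exact List.mem_map.mpr ⟨1, a1, rfl⟩
    · exact List.mem_map.mpr ⟨2, a2, rfl⟩
  · intro s hs t ht h s' 
    obtain ⟨i, hi, hi'⟩ := lb_n s h
    obtain ⟨j, hj, hj'⟩ := lb_n t s'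
    have := h3 i j (hi ▸ List.mem_map.mpr ⟨s, hs, rfl⟩) (hj ▸ List.mem_map.mpr ⟨t, ht, rfl⟩)
    ext
    rw [hi', hj', this]

theorem good_lift (l : List Lab) (h : Good l) : ∃ l' : List (Fin 6), l = l'.map lb ∧ ok l' := by
  have : ∀ l : List Lab, (∀ x ∈ l, ∀ i, x ≠ .f i) → ∃ l' : List (Fin 6), l = l'.map lb := by
    intro l
    induction l with
    | nil => intro _; exact ⟨[], rfl⟩
    | cons x l ih =>
      intro h
      obtain ⟨t, ht⟩ := lb_surj x (h x (by simp))
      obtain ⟨l', hl'⟩ := ih (fun y hy => h y (by simp [hy]))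
      exact ⟨t :: l', by rw [ht, hl']; rfl⟩
  obtain ⟨l', rfl⟩ := this l h.1
  exact ⟨l', rfl, ok_of_good l' h⟩

theorem tab1 : ∀ s : Fin 6, β0 (lb s).shift - β0 (lb s) = 1 := by decide

theorem tab2 : ∀ s t : Fin 6, ok [s, t] → β0 (lb t) - β0 (lb s)
    = β1 (lb s) (lb t) + β1 (lb s).shift (lb t).shift
      + β1 (lb s).shift.shift (lb t).shift.shift := by decide +kernel

theorem tab3 : ∀ s t u : Fin 6, ok [s, t, u] → δ1 (lb s) (lb t) (lb u)
    = β2 (lb s).shift (lb t).shift (lb u).shift - β2 (lb s) (lb t) (lb u) := by decide +kernel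

theorem tab4 : ∀ s t u v : Fin 6, ok [s, t, u, v] →
    β2 (lb t) (lb u) (lb v) - β2 (lb s) (lb u) (lb v) + β2 (lb s) (lb t) (lb v)
      - β2 (lb s) (lb t) (lb u) = 0 := by decide +kernel

theorem b1_norm : ∀ l : List Lab, ¬ l.Nodup → b1 l = 0 := by
  intro l hl
  match l with
  | [] => rfl
  | [_] => rfl
  | [x, y] =>
    have : x = y := by
      by_contra h
      exact hl (by simp [h])
    subst this
    show β1 x x = 0
    revert x; decide
  | _ :: _ :: _ :: _ => rfl

theorem β2_aux : ∀ x y : Lab, β2 x x y = 0 ∧ β2 x y x = 0 ∧ β2 y x x = 0 := by decide +kernel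

theorem b2_norm : ∀ l : List Lab, ¬ l.Nodup → b2 l = 0 := by
  intro l hl
  match l with
  | [] => rfl
  | [_] => rfl
  | [_, _] => rfl
  | [x, y, z] =>
    show β2 x y z = 0
    by_cases h1 : x = y
    · subst h1; exact (β2_aux x z).1
    by_cases h2 : x = z
    · subst h2; exact (β2_aux x y).2.1
    by_cases h3 : y = z
    · subst h3; exact (β2_aux y x).2.2
    exact absurd (by simp [h1, h2, h3]) hl
  | _ :: _ :: _ :: _ :: _ => rfl

theorem core_of_hyp {m : ℕ} {lab : Fin 3 → GP → Lab} (H : CoreHyp m lab) : False := by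
  let ε0 : Fn Lab := fun l => if l = [] then 1 else 0
  have s0 : cc m lab [3, 2, 1, 0] 0 (D ε0) = 1 := by
    rw [cc0 H]; rfl
  have s1 : cc m lab [3, 2, 1, 0] 0 (D ε0)
      = cc m lab [3, 2, 1, 0] 0 (pull Lab.shift b0 - b0) := by
    apply cc_congr H
    intro l hl hg
    have hl1 : l.length = 1 := by simpa using hl
    obtain ⟨l', rfl, hok⟩ := good_lift l hg
    rw [List.length_map] at hl1
    obtain ⟨s, rfl⟩ := List.length_eq_one_iff.mp hl1
    have := tab1 s
    show dl [lb s] ε0 = β0 (lb s).shift - β0 (lb s)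
    rw [this]
    simp [ε0]
  have s2 : cc m lab [4, 3, 2, 1, 0] 0 (D b0)
      = cc m lab [4, 3, 2, 1, 0] 0 (b1 + pull Lab.shift b1 + pull Lab.shift (pull Lab.shift b1)) := by
    apply cc_congr H
    intro l hl hg
    have hl1 : l.length = 2 := by simpa using hl
    obtain ⟨l', rfl, hok⟩ := good_lift l hg
    rw [List.length_map] at hl1
    obtain ⟨s, t, rfl⟩ := List.length_eq_two.mp hl1
    have := tab2 s t hok
    show dl [lb s, lb t] b0 = β1 (lb s) (lb t) + β1 (lb s).shift (lb t).shift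
      + β1 (lb s).shift.shift (lb t).shift.shift
    rw [← this]
    simp [b0]
  have s3 : ∀ k, cc m lab [5, 4, 3, 2, 1, 0] k (D b1)
      = cc m lab [5, 4, 3, 2, 1, 0] k (pull Lab.shift b2 - b2) := by
    intro k
    apply cc_congr H
    intro l hl hg
    have hl1 : l.length = 3 := by simpa using hl
    obtain ⟨l', rfl, hok⟩ := good_lift l hg
    rw [List.length_map] at hl1
    obtain ⟨s, t, u, rfl⟩ := List.length_eq_three.mp hl1
    have := tab3 s t u hok
    show dl [lb s, lb t, lb u] b1 = β2 (lb s).shift (lb t).shift (lb u).shift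
      - β2 (lb s) (lb t) (lb u)
    rw [← this]
    simp [b1, δ1]
    ring
  have s4 : ∀ k, cc m lab [6, 5, 4, 3, 2, 1, 0] k (D b2) = 0 := by
    intro k
    rw [cc_congr H [6, 5, 4, 3, 2, 1, 0] k (D b2) 0, map_zero]
    intro l hl hg
    have hl1 : l.length = 4 := by simpa using hl
    obtain ⟨l', rfl, hok⟩ := good_lift l hg
    rw [List.length_map] at hl1
    match l', hl1 with
    | [s, t, u, v], _ =>
      have := tab4 s t u v hok
      show dl [lb s, lb t, lb u, lb v] b2 = 0
      rw [← this]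
      simp [b2]
      ring
  have e1 := cc1 H b0
  have e2 := cc2 H b1 b1_norm
  have e3 := cc3 H b2 b2_norm
  rw [Finset.sum_congr rfl (fun k _ => s4 k)] at e3
  rw [Finset.sum_congr rfl (fun k _ => s3 k)] at e2
  simp only [map_sub, map_add, Finset.sum_const_zero, Finset.sum_sub_distrib] at s1 s2 e1 e2 e3
  rw [s0, ← e1, s2] at s1
  rw [← e3] at e2
  have : (1 : ZMod 3) = 0 := by
    linear_combination s1 + e2
  exact absurd this (by decide)

/-- Combinatorial core. Grid coordinates `0,1,2,3` : the box, `4 = t`, `5 = r`, `6 = s`. -/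
theorem core (m : ℕ) (_hm : 0 < m) (lab : Fin 3 → (Fin 7 → ℕ) → Lab) (h : CoreHyp m lab) : False :=
  core_of_hyp h

end Pool.Agent.Octa
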