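import Mathlib

/-! module CORE-chains: the dual chain algebra, section 1.2 of proof_MP_f08f91_co.md -/

set_option autoImplicit false

namespace Pool.Agent.Octa

/-- cochains: functions on lists with values in `ZMod 3` -/
abbrev Fn (P : Type*) := List P → ZMod 3

section Chains
variable {P Q : Type*}

/-- `φ ↦ φ (v :: ·)` -/
def consFn (v : P) : Fn P →+ Fn P where
  toFun φ := fun l => φ (v :: l)
  map_zero' := rfl
  map_add' _ _ := rfl

@[simp] theorem consFn_apply (v : P) (φ : Fn P) (l : List P) : consFn v φ l = φ (v :: l) := rfl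

/-- the boundary of a list, as a functional -/
def dl : List P → (Fn P →+ ZMod 3)
  | [] => 0
  | v :: l => Pi.evalAddMonoidHom (fun _ => ZMod 3) l - (dl l).comp (consFn v)

@[simp] theorem dl_nil (φ : Fn P) : dl ([] : List P) φ = 0 := rfl
@[simp] theorem dl_cons (v : P) (l : List P) (φ : Fn P) :
    dl (v :: l) φ = φ l - dl l (consFn v φ) := rfl

/-- the coboundary -/
def D : Fn P →+ Fn P where
  toFun φ := fun l => dl l φ
  map_zero' := by funext l; simp
  map_add' φ ψ := by funext l; simp

theorem D_apply (φ : Fn P) (l : List P) : D φ l = dl l φ := rfl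

/-- the prism operator for two maps -/
def pr (a b : P → Q) : List P → (Fn Q →+ ZMod 3)
  | [] => 0
  | v :: l => Pi.evalAddMonoidHom (fun _ => ZMod 3) (a v :: b v :: l.map b)
      - (pr a b l).comp (consFn (a v))

@[simp] theorem pr_nil (a b : P → Q) (φ : Fn Q) : pr a b ([] : List P) φ = 0 := rfl
@[simp] theorem pr_cons (a b : P → Q) (v : P) (l : List P) (φ : Fn Q) :
    pr a b (v :: l) φ = φ (a v :: b v :: l.map b) - pr a b l (consFn (a v) φ) := rfl

def Pr (a b : P → Q) : Fn Q →+ Fn P where
  toFun φ := fun l => pr a b l φ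
  map_zero' := by funext l; simp
  map_add' φ ψ := by funext l; simp

theorem Pr_apply (a b : P → Q) (φ : Fn Q) (l : List P) : Pr a b φ l = pr a b l φ := rfl

/-- pull back along a map -/
def pull (g : P → Q) : Fn Q →+ Fn P where
  toFun φ := fun l => φ (l.map g)
  map_zero' := rfl
  map_add' _ _ := rfl

@[simp] theorem pull_apply (g : P → Q) (φ : Fn Q) (l : List P) : pull g φ l = φ (l.map g) := rfl

theorem consFn_D (w : P) (φ : Fn P) : consFn w (D φ) = φ - D (consFn w φ) := by
  funext l
  simp [D_apply]

theorem consFn_Pr (a b : P → Q) (v : P) (φ : Fn Q) :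
    consFn v (Pr a b φ) = pull b (consFn (b v) (consFn (a v) φ)) - Pr a b (consFn (a v) φ) := by
  funext l
  simp [Pr_apply]

theorem consFn_pull (g : P → Q) (v : P) (φ : Fn Q) :
    consFn v (pull g φ) = pull g (consFn (g v) φ) := by
  funext l
  simp

theorem dl_pull (g : P → Q) (l : List P) (φ : Fn Q) : dl l (pull g φ) = dl (l.map g) φ := by
  induction l generalizing φ with
  | nil => simp
  | cons v l ih =>
    rw [dl_cons, consFn_pull, ih]
    simp

theorem D_pull (g : P → Q) (φ : Fn Q) : D (pull g φ) = pull g (D φ) := by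
  funext l
  rw [D_apply, dl_pull]
  rfl

/-- the prism homotopy -/
theorem pr_homotopy (a b : P → Q) (l : List P) (φ : Fn Q) :
    pr a b l (D φ) + dl l (Pr a b φ) = φ (l.map b) - φ (l.map a) := by
  induction l generalizing φ with
  | nil => simp
  | cons v l ih =>
    have h := ih (consFn (a v) φ)
    rw [pr_cons, dl_cons, consFn_D, consFn_Pr, map_sub, map_sub, Pr_apply, dl_pull, D_apply,
      dl_cons, dl_cons]
    simp only [consFn_apply, List.map_cons] at h ⊢
    linear_combination h

theorem Pr_D (a b : P → Q) (φ : Fn Q) :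
    Pr a b (D φ) = pull b φ - pull a φ - D (Pr a b φ) := by
  funext l
  have := pr_homotopy a b l φ
  simp only [Pi.sub_apply, pull_apply, D_apply, Pr_apply]
  linear_combination this

theorem pr_pull (a b : P → P) (a' b' : Q → Q) (g : P → Q) (ha : ∀ v, g (a v) = a' (g v))
    (hb : ∀ v, g (b v) = b' (g v)) (l : List P) (φ : Fn Q) :
    pr a b l (pull g φ) = pr a' b' (l.map g) φ := by
  induction l generalizing φ with
  | nil => simp
  | cons v l ih =>
    rw [pr_cons, consFn_pull, ih, List.map_cons, pr_cons]
    simp only [pull_apply, List.map_cons, List.map_map, ha, hb]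
    congr 3
    simp only [List.cons.injEq, true_and, List.map_inj_left, Function.comp]
    intro w _
    exact hb w

/-- the lists of a prism -/
def pl (a b : P → Q) : List P → List (List Q)
  | [] => []
  | v :: l => (a v :: b v :: l.map b) :: (pl a b l).map (a v :: ·)

theorem pr_congr (a b : P → Q) (l : List P) (φ ψ : Fn Q) (h : ∀ l' ∈ pl a b l, φ l' = ψ l') :
    pr a b l φ = pr a b l ψ := by
  induction l generalizing φ ψ with
  | nil => simp
  | cons v l ih =>
    rw [pr_cons, pr_cons, h _ (by simp [pl])]
    congr 1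
    apply ih
    intro l' hl'
    exact h _ (by simp [pl, hl'])

theorem pl_length (a b : P → Q) (l : List P) (l' : List Q) (h : l' ∈ pl a b l) :
    l'.length = l.length + 1 := by
  induction l generalizing l' with
  | nil => simp [pl] at h
  | cons v l ih =>
    simp only [pl, List.mem_cons, List.mem_map] at h
    rcases h with rfl | ⟨l'', h, rfl⟩
    · simp
    · simp [ih _ h]

theorem pl_mem (a b : P → Q) (l : List P) (l' : List Q) (h : l' ∈ pl a b l) :
    ∀ w ∈ l', ∃ v ∈ l, w = a v ∨ w = b v := by
  induction l generalizing l' with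
  | nil => simp [pl] at h
  | cons v l ih =>
    simp only [pl, List.mem_cons, List.mem_map] at h
    rcases h with rfl | ⟨l'', h, rfl⟩
    · intro w hw
      simp only [List.mem_cons, List.mem_map] at hw
      rcases hw with rfl | rfl | ⟨u, hu, rfl⟩
      · exact ⟨v, by simp, Or.inl rfl⟩
      · exact ⟨v, by simp, Or.inr rfl⟩
      · exact ⟨u, by simp [hu], Or.inr rfl⟩
    · intro w hw
      rcases List.mem_cons.mp hw with rfl | hw
      · exact ⟨v, by simp, Or.inl rfl⟩
      · obtain ⟨u, hu, hu'⟩ := ih _ h w hw
        exact ⟨u, by simp [hu], hu'⟩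

/-- some adjacent pair is `a v, b v` -/
theorem pl_adj_new (a b : P → Q) (l : List P) (l' : List Q) (h : l' ∈ pl a b l) :
    ∃ v ∈ l, [a v, b v] <:+: l' := by
  induction l generalizing l' with
  | nil => simp [pl] at h
  | cons v l ih =>
    simp only [pl, List.mem_cons, List.mem_map] at h
    rcases h with rfl | ⟨l'', h, rfl⟩
    · exact ⟨v, by simp, ⟨[], l.map b, by simp⟩⟩
    · obtain ⟨u, hu, hu'⟩ := ih _ h
      exact ⟨u, by simp [hu], hu'.trans (List.suffix_cons _ _).isInfix⟩

theorem infix_pair_map (g : P → Q) {u v : P} {l : List P} (h : [u, v] <:+: l) :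
    [g u, g v] <:+: l.map g := by
  obtain ⟨s, t, rfl⟩ := h
  exact ⟨s.map g, t.map g, by simp⟩

theorem infix_pair_cons {u v w : P} {l : List P} (h : [u, v] <:+: w :: l) :
    (u = w ∧ ∃ t, l = v :: t) ∨ [u, v] <:+: l := by
  obtain ⟨s, t, h⟩ := h
  rcases s with _ | ⟨x, s⟩
  · simp only [List.nil_append, List.cons_append, List.cons.injEq] at h
    exact Or.inl ⟨h.1, t, h.2.symm⟩
  · simp only [List.cons_append, List.cons.injEq] at h
    exact Or.inr ⟨s, t, h.2⟩

/-- the head of a prism list -/
theorem pl_head (a b : P → Q) (v : P) (l : List P) (l' : List Q) (h : l' ∈ pl a b (v :: l)) :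
    ∃ t, l' = a v :: t := by
  simp only [pl, List.mem_cons, List.mem_map] at h
  rcases h with rfl | ⟨l'', h, rfl⟩
  · exact ⟨_, rfl⟩
  · exact ⟨_, rfl⟩

/-- old adjacent pairs persist -/
theorem pl_adj_old (a b : P → Q) (l : List P) (l' : List Q) (h : l' ∈ pl a b l) {u v : P}
    (huv : [u, v] <:+: l) : [a u, a v] <:+: l' ∨ [b u, b v] <:+: l' := by
  induction l generalizing l' with
  | nil => simp [pl] at h
  | cons w l ih =>
    have h0 := h
    simp only [pl, List.mem_cons, List.mem_map] at h
    rcases h with rfl | ⟨l'', h, rfl⟩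
    · right
      have := infix_pair_map b huv
      rw [List.map_cons] at this
      exact this.trans (List.suffix_cons _ _).isInfix
    · rcases infix_pair_cons huv with ⟨rfl, t, rfl⟩ | huv
      · obtain ⟨t', rfl⟩ := pl_head a b v t l'' h
        left
        exact ⟨[], t', by simp⟩
      · rcases ih _ h huv with h | h
        · exact Or.inl (h.trans (List.suffix_cons _ _).isInfix)
        · exact Or.inr (h.trans (List.suffix_cons _ _).isInfix)

end Chains

/-! ### grid chains -/

/-- grid points -/
abbrev GP := Fin 7 → ℕ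

/-- set a coordinate -/
def setc (i : Fin 7) (t : ℕ) (q : GP) : GP := Function.update q i t

theorem setc_comm {i j : Fin 7} (h : i ≠ j) (s t : ℕ) (q : GP) :
    setc i s (setc j t q) = setc j t (setc i s q) := Function.update_comm h.symm _ _ _

theorem setc_idem (i : Fin 7) (s t : ℕ) (q : GP) : setc i s (setc i t q) = setc i s q := by
  simp [setc]

@[simp] theorem setc_same (i : Fin 7) (t : ℕ) (q : GP) : setc i t q i = t := by simp [setc]

theorem setc_ne {i j : Fin 7} (h : j ≠ i) (t : ℕ) (q : GP) : setc i t q j = q j := by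
  simp [setc, h]

/-- the triangulated grid box in the directions `S`, with base point `p` -/
def Gr (m : ℕ) (p : GP) : List (Fin 7) → (Fn GP →+ ZMod 3)
  | [] => Pi.evalAddMonoidHom (fun _ => ZMod 3) [p]
  | i :: S => ∑ t ∈ Finset.range m, (Gr m p S).comp (Pr (setc i t) (setc i (t + 1)))

@[simp] theorem Gr_nil (m : ℕ) (p : GP) (φ : Fn GP) : Gr m p [] φ = φ [p] := rfl
@[simp] theorem Gr_cons (m : ℕ) (p : GP) (i : Fin 7) (S : List (Fin 7)) (φ : Fn GP) :
    Gr m p (i :: S) φ = ∑ t ∈ Finset.range m, Gr m p S (Pr (setc i t) (setc i (t + 1)) φ) := by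
  simp [Gr, AddMonoidHom.finsetSum_apply]

/-- the list of faces with signs -/
def faces : List (Fin 7) → List (List (Fin 7) × Fin 7 × ZMod 3)
  | [] => []
  | i :: S => (S, i, 1) :: (faces S).map (fun x => (i :: x.1, x.2.1, -x.2.2))

/-- the contribution of a face -/
def faceVal (m : ℕ) (p : GP) (φ : Fn GP) (x : List (Fin 7) × Fin 7 × ZMod 3) : ZMod 3 :=
  x.2.2 * (Gr m p x.1 (pull (setc x.2.1 m) φ) - Gr m p x.1 (pull (setc x.2.1 0) φ))

theorem faces_mem {S : List (Fin 7)} {x : List (Fin 7) × Fin 7 × ZMod 3} (h : x ∈ faces S) :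
    x.2.1 ∈ S ∧ ∀ j ∈ x.1, j ∈ S := by
  induction S generalizing x with
  | nil => simp [faces] at h
  | cons i S ih =>
    simp only [faces, List.mem_cons, List.mem_map] at h
    rcases h with rfl | ⟨y, hy, rfl⟩
    · exact ⟨by simp, fun j hj => by simp [hj]⟩
    · obtain ⟨h1, h2⟩ := ih hy
      refine ⟨by simp [h1], ?_⟩
      intro j hj
      simp only [List.mem_cons] at hj ⊢
      rcases hj with rfl | hj
      · exact Or.inl rfl
      · exact Or.inr (h2 j hj)

theorem Pr_pull_setc {i j : Fin 7} (h : i ≠ j) (t c : ℕ) (φ : Fn GP) :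
    pull (setc j c) (Pr (setc i t) (setc i (t + 1)) φ)
      = Pr (setc i t) (setc i (t + 1)) (pull (setc j c) φ) := by
  funext l
  rw [Pr_apply, pr_pull (setc i t) (setc i (t + 1)) (setc i t) (setc i (t + 1)) (setc j c)
    (fun v => setc_comm h.symm _ _ _) (fun v => setc_comm h.symm _ _ _)]
  rfl

/-- the boundary formula -/
theorem Gr_D (m : ℕ) (p : GP) (S : List (Fin 7)) (hS : S.Nodup) (φ : Fn GP) :
    Gr m p S (D φ) = (if S = [] then φ [] else 0) + ((faces S).map (faceVal m p φ)).sum := by
  induction S generalizing φ with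
  | nil => simp [faces, D_apply]
  | cons i S ih =>
    obtain ⟨hi, hS'⟩ := List.nodup_cons.mp hS
    rw [Gr_cons]
    have h1 : ∀ t, Gr m p S (Pr (setc i t) (setc i (t + 1)) (D φ))
        = (Gr m p S (pull (setc i (t + 1)) φ) - Gr m p S (pull (setc i t) φ))
          - ((faces S).map (faceVal m p (Pr (setc i t) (setc i (t + 1)) φ))).sum := by
      intro t
      rw [Pr_D, map_sub, map_sub, ih hS']
      have : (if S = [] then (Pr (setc i t) (setc i (t + 1)) φ) [] else 0) = 0 := by
        split_ifs
        · rfl
        · rfl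
      rw [this, zero_add]
    simp only [h1, Finset.sum_sub_distrib]
    rw [← Finset.sum_sub_distrib, Finset.sum_range_sub (fun t => Gr m p S (pull (setc i t) φ))]
    simp only [reduceCtorEq, if_false, zero_add, faces, List.map_cons, List.sum_cons, List.map_map]
    rw [sub_eq_add_neg]
    congr 1
    · simp [faceVal]
    · have h2 : ∀ L : List (List (Fin 7) × Fin 7 × ZMod 3), (∀ x ∈ L, x.2.1 ≠ i) →
          -∑ t ∈ Finset.range m, (L.map (faceVal m p (Pr (setc i t) (setc i (t + 1)) φ))).sum
          = (L.map (faceVal m p φ ∘ fun x => (i :: x.1, x.2.1, -x.2.2))).sum := by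
        intro L hL
        induction L with
        | nil => simp
        | cons x L ihL =>
          simp only [List.map_cons, List.sum_cons, Finset.sum_add_distrib, neg_add]
          rw [ihL (fun y hy => hL y (by simp [hy]))]
          congr 1
          have hx := (hL x (by simp)).symm
          simp only [Function.comp, faceVal, Gr_cons, Pr_pull_setc hx, ← Finset.mul_sum,
            Finset.sum_sub_distrib]
          ring
      apply h2
      intro x hx he
      exact hi (he ▸ (faces_mem hx).1)

/-- the lists of a grid chain -/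
def cells (m : ℕ) (p : GP) : List (Fin 7) → Set (List GP)
  | [] => {[p]}
  | i :: S => {l' | ∃ l ∈ cells m p S, ∃ t < m, l' ∈ pl (setc i t) (setc i (t + 1)) l}

theorem Gr_congr (m : ℕ) (p : GP) (S : List (Fin 7)) (φ ψ : Fn GP)
    (h : ∀ l ∈ cells m p S, φ l = ψ l) : Gr m p S φ = Gr m p S ψ := by
  induction S generalizing φ ψ with
  | nil => simp [h [p] (by simp [cells])]
  | cons i S ih =>
    rw [Gr_cons, Gr_cons]
    apply Finset.sum_congr rfl
    intro t ht
    apply ih
    intro l hl
    apply pr_congr
    intro l' hl'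
    exact h l' ⟨l, hl, t, Finset.mem_range.mp ht, hl'⟩

theorem Gr_eq_zero (m : ℕ) (p : GP) (S : List (Fin 7)) (φ : Fn GP)
    (h : ∀ l ∈ cells m p S, φ l = 0) : Gr m p S φ = 0 := by
  rw [Gr_congr m p S φ 0 h, map_zero]

theorem cells_length {m : ℕ} {p : GP} {S : List (Fin 7)} {l : List GP} (h : l ∈ cells m p S) :
    l.length = S.length + 1 := by
  induction S generalizing l with
  | nil => simp only [cells, Set.mem_singleton_iff] at h; simp [h]
  | cons i S ih =>
    obtain ⟨l', hl', t, ht, h⟩ := h
    rw [pl_length _ _ _ _ h, ih hl', List.length_cons]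

/-- coordinates outside `S` are those of `p` -/
theorem cells_coord {m : ℕ} {p : GP} {S : List (Fin 7)} {l : List GP} (h : l ∈ cells m p S)
    {q : GP} (hq : q ∈ l) {j : Fin 7} (hj : j ∉ S) : q j = p j := by
  induction S generalizing l q with
  | nil =>
    simp only [cells, Set.mem_singleton_iff] at h
    subst h
    simp at hq
    rw [hq]
  | cons i S ih =>
    obtain ⟨l', hl', t, ht, h⟩ := h
    simp only [List.mem_cons, not_or] at hj
    obtain ⟨v, hv, hv'⟩ := pl_mem _ _ _ _ h q hq
    rcases hv' with rfl | rfl
    · rw [setc_ne hj.1]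
      exact ih hl' hv hj.2
    · rw [setc_ne hj.1]
      exact ih hl' hv hj.2

/-- coordinates are at most `m` -/
theorem cells_le {m : ℕ} {p : GP} (hp : ∀ j, p j ≤ m) {S : List (Fin 7)} {l : List GP}
    (h : l ∈ cells m p S) {q : GP} (hq : q ∈ l) (j : Fin 7) : q j ≤ m := by
  induction S generalizing l q with
  | nil =>
    simp only [cells, Set.mem_singleton_iff] at h
    subst h
    simp at hq
    rw [hq]
    exact hp j
  | cons i S ih =>
    obtain ⟨l', hl', t, ht, h⟩ := h
    obtain ⟨v, hv, hv'⟩ := pl_mem _ _ _ _ h q hq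
    by_cases hj : j = i
    · subst hj
      rcases hv' with rfl | rfl
      · rw [setc_same]; omega
      · rw [setc_same]; omega
    · rcases hv' with rfl | rfl
      · rw [setc_ne hj]
        exact ih hl' hv
      · rw [setc_ne hj]
        exact ih hl' hv

/-- all entries lie in one unit cube -/
theorem cells_cube {m : ℕ} {p : GP} {S : List (Fin 7)} {l : List GP} (h : l ∈ cells m p S) :
    ∃ base : GP, ∀ q ∈ l, ∀ j, base j ≤ q j ∧ q j ≤ base j + 1 := by
  induction S generalizing l with
  | nil =>
    simp only [cells, Set.mem_singleton_iff] at h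
    subst h
    exact ⟨p, by simp⟩
  | cons i S ih =>
    obtain ⟨l', hl', t, ht, h⟩ := h
    obtain ⟨base, hb⟩ := ih hl'
    refine ⟨setc i t base, ?_⟩
    intro q hq j
    obtain ⟨v, hv, hv'⟩ := pl_mem _ _ _ _ h q hq
    by_cases hj : j = i
    · subst hj
      rcases hv' with rfl | rfl
      · rw [setc_same, setc_same]; omega
      · rw [setc_same, setc_same]; omega
    · rcases hv' with rfl | rfl
      · rw [setc_ne hj, setc_ne hj]
        exact hb v hv j
      · rw [setc_ne hj, setc_ne hj]
        exact hb v hv j

/-- for every direction there is an adjacent pair differing only in this coordinate -/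
theorem cells_adj {m : ℕ} {p : GP} {S : List (Fin 7)} (hS : S.Nodup) {l : List GP}
    (h : l ∈ cells m p S) {j : Fin 7} (hj : j ∈ S) :
    ∃ (u : GP) (c : ℕ), c ≤ m ∧ [u, setc j c u] <:+: l := by
  induction S generalizing l with
  | nil => simp at hj
  | cons i S ih =>
    obtain ⟨hi, hS'⟩ := List.nodup_cons.mp hS
    obtain ⟨l', hl', t, ht, h⟩ := h
    rcases List.mem_cons.mp hj with rfl | hj
    · obtain ⟨v, _, hv⟩ := pl_adj_new _ _ _ _ h
      refine ⟨setc j t v, t + 1, ht, ?_⟩
      rw [setc_idem]
      exact hv
    · obtain ⟨u, c, hc, hu⟩ := ih hS' hl' hj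
      have hij : i ≠ j := by rintro rfl; exact hi hj
      rcases pl_adj_old _ _ _ _ h hu with h | h
      · refine ⟨setc i t u, c, hc, ?_⟩
        rw [setc_comm hij] at h
        exact h
      · refine ⟨setc i (t + 1) u, c, hc, ?_⟩
        rw [setc_comm hij] at h
        exact h

/-! ### removal of labels -/

section Removal
variable {P : Type*} [DecidableEq P]

/-- removal of a label -/
def rem (a : P) : List P → (Fn P →+ ZMod 3)
  | [] => 0
  | v :: l => if v = a then (if a ∈ l then 0 else Pi.evalAddMonoidHom (fun _ => ZMod 3) l)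
      else -(rem a l).comp (consFn v)

@[simp] theorem rem_nil (a : P) (φ : Fn P) : rem a [] φ = 0 := rfl
theorem rem_cons_self (a : P) (l : List P) (φ : Fn P) :
    rem a (a :: l) φ = if a ∈ l then 0 else φ l := by
  simp only [rem, if_true]
  split_ifs <;> rfl
theorem rem_cons_ne {a v : P} (h : v ≠ a) (l : List P) (φ : Fn P) :
    rem a (v :: l) φ = - rem a l (consFn v φ) := by
  simp only [rem, if_neg h]
  rfl

def Rm (a : P) : Fn P →+ Fn P where
  toFun φ := fun l => rem a l φ
  map_zero' := by funext l; simp
  map_add' φ ψ := by funext l; simp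

theorem Rm_apply (a : P) (φ : Fn P) (l : List P) : Rm a φ l = rem a l φ := rfl

/-- cut off lists containing `a` -/
def Kn (a : P) : Fn P →+ Fn P where
  toFun φ := fun l => if a ∈ l then 0 else φ l
  map_zero' := by funext l; simp
  map_add' φ ψ := by funext l; simp only [Pi.add_apply]; split_ifs <;> simp

theorem Kn_apply (a : P) (φ : Fn P) (l : List P) : Kn a φ l = if a ∈ l then 0 else φ l := rfl

theorem dl_Kn (a : P) (l : List P) (φ : Fn P) :
    dl l (Kn a φ) = rem a l φ + (if a ∈ l then 0 else dl l φ) := by
  induction l generalizing φ with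
  | nil => simp
  | cons v l ih =>
    rw [dl_cons]
    by_cases h : v = a
    · subst h
      have : consFn v (Kn v φ) = 0 := by
        funext l'
        simp [Kn_apply]
      rw [this, map_zero, rem_cons_self, Kn_apply]
      simp
    · have h' : consFn v (Kn a φ) = Kn a (consFn v φ) := by
        funext l'
        simp [Kn_apply, Ne.symm h]
      rw [h', ih, rem_cons_ne h, Kn_apply]
      simp only [List.mem_cons, Ne.symm h, false_or]
      split_ifs
      · ring
      · rw [dl_cons]; ring

theorem dl_Rm (a : P) (l : List P) (φ : Fn P) : dl l (Rm a φ) = - rem a l (D φ) := by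
  induction l generalizing φ with
  | nil => simp
  | cons v l ih =>
    rw [dl_cons, Rm_apply]
    by_cases h : v = a
    · subst h
      have h' : consFn v (Rm v φ) = Kn v φ := by
        funext l'
        simp [Rm_apply, rem_cons_self, Kn_apply]
      rw [h', dl_Kn, rem_cons_self, D_apply]
      split_ifs <;> ring
    · have h' : consFn v (Rm a φ) = - Rm a (consFn v φ) := by
        funext l'
        simp [Rm_apply, rem_cons_ne h]
      rw [h', map_neg, ih, rem_cons_ne h, consFn_D, map_sub]
      ring

theorem D_Rm (a : P) (φ : Fn P) : D (Rm a φ) = - Rm a (D φ) := by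
  funext l
  rw [D_apply, dl_Rm]
  rfl

/-- the sign of the removal -/
def sg (a : P) : List P → ZMod 3
  | [] => 0
  | v :: l => if v = a then (if a ∈ l then 0 else 1) else - sg a l

theorem rem_eq (a : P) (l : List P) (φ : Fn P) : rem a l φ = sg a l * φ (l.erase a) := by
  induction l generalizing φ with
  | nil => simp [sg]
  | cons v l ih =>
    by_cases h : v = a
    · subst h
      rw [rem_cons_self, sg]
      simp
    · rw [rem_cons_ne h, ih, sg, if_neg h, List.erase_cons_tail (by simpa using h)]
      simp

theorem sg_ne_zero {a : P} {l : List P} (h : sg a l ≠ 0) : l.count a = 1 := by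
  induction l with
  | nil => simp [sg] at h
  | cons v l ih =>
    by_cases hv : v = a
    · subst hv
      simp only [sg, if_true] at h
      split_ifs at h with h1
      · exact absurd rfl h
      · rw [List.count_cons_self, List.count_eq_zero_of_not_mem h1]
    · simp only [sg, if_neg hv, ne_eq, neg_eq_zero] at h
      rw [List.count_cons_of_ne hv]
      exact ih h

theorem sg_map {g : P → P} (hg : Function.Injective g) {a : P} (ha : g a = a) (l : List P) :
    sg a (l.map g) = sg a l := by
  induction l with
  | nil => rfl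
  | cons v l ih =>
    have h1 : g v = a ↔ v = a := by
      constructor
      · intro h; exact hg (h.trans ha.symm)
      · rintro rfl; exact ha
    have h2 : a ∈ l.map g ↔ a ∈ l := by
      constructor
      · intro h
        obtain ⟨w, hw, hw'⟩ := List.mem_map.mp h
        have := hg (hw'.trans ha.symm)
        exact this ▸ hw
      · intro h
        exact List.mem_map.mpr ⟨a, h, ha⟩
    simp only [List.map_cons, sg, ih, h1, h2]

theorem Rm_pull {g : P → P} (hg : Function.Injective g) {a : P} (ha : g a = a) (φ : Fn P) :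
    pull g (Rm a φ) = Rm a (pull g φ) := by
  funext l
  rw [pull_apply, Rm_apply, Rm_apply, rem_eq, rem_eq, sg_map hg ha, pull_apply]
  congr 2
  rw [List.map_erase hg, ha]

end Removal

end Pool.Agent.Octa
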