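import Mathlib

/-!
# MP_f08f91_co (S12335): shared definitions
-/

set_option autoImplicit false

namespace Pool.Agent.Octa

open Quaternion

/-- three-dimensional Euclidean space -/
abbrev E3 := EuclideanSpace ℝ (Fin 3)

/-- the order three unit quaternion `(-1+i+j+k)/2` -/
noncomputable def om : ℍ[ℝ] := ⟨-1/2, 1/2, 1/2, 1/2⟩

/-- `fr u k` is the imaginary part of `u * e_k * star u` (`e_0 = i, e_1 = j, e_2 = k`), written out. -/
noncomputable def fr (u : ℍ[ℝ]) : Fin 3 → E3 := ![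
  !₂[u.re^2 + u.imI^2 - u.imJ^2 - u.imK^2, 2*(u.imI*u.imJ + u.re*u.imK), 2*(u.imI*u.imK - u.re*u.imJ)],
  !₂[2*(u.imI*u.imJ - u.re*u.imK), u.re^2 - u.imI^2 + u.imJ^2 - u.imK^2, 2*(u.imJ*u.imK + u.re*u.imI)],
  !₂[2*(u.imI*u.imK + u.re*u.imJ), 2*(u.imJ*u.imK - u.re*u.imI), u.re^2 - u.imI^2 - u.imJ^2 + u.imK^2]]

/-- the configuration space: center, parameter, frame -/
abbrev Y3 := E3 × ℝ × ℍ[ℝ]

/-- the order three symmetry -/
noncomputable def gam (z : Y3) : Y3 := (z.1, z.2.1, z.2.2 * om)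

/-- the properties of the gauge function that are used -/
structure GoodGauge (g : E3 → ℝ) : Prop where
  sub : ∀ x y, g (x + y) ≤ g x + g y
  hom : ∀ t : ℝ, 0 ≤ t → ∀ x, g (t • x) = t * g x
  lower : ∃ m : ℝ, 0 < m ∧ ∀ x, m * ‖x‖ ≤ g x
  upper : ∃ M : ℝ, 0 < M ∧ ∀ x, g x ≤ M * ‖x‖

/-- the homotopy of convex functions -/
noncomputable def fs (g : E3 → ℝ) (s : ℝ) (x : E3) : ℝ := (1 - s) * ‖x‖^2 + s * g x - 1

/-- octahedra of half-diagonal `lam` inscribed in some `{fs g s = 0}`, `0 < s < 1` -/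
def Zset (g : E3 → ℝ) (lam : ℝ) : Set Y3 :=
  {z | 0 < z.2.1 ∧ z.2.1 < 1 ∧ ‖z.2.2‖ = 1 ∧
    ∀ k : Fin 3, fs g z.2.1 (z.1 + lam • fr z.2.2 k) = 0 ∧ fs g z.2.1 (z.1 - lam • fr z.2.2 k) = 0}

/-- one step of size `< ε` inside `S` -/
def Step {Y : Type*} [PseudoMetricSpace Y] (S : Set Y) (ε : ℝ) (x y : Y) : Prop :=
  x ∈ S ∧ y ∈ S ∧ dist x y < ε

/-- `ε`-chain connectivity inside `S` -/
abbrev Conn {Y : Type*} [PseudoMetricSpace Y] (S : Set Y) (ε : ℝ) : Y → Y → Prop :=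
  Relation.ReflTransGen (Step S ε)

end Pool.Agent.Octa
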