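import Pool.Agent.Octa.Defs

/-! module FRAME: elementary facts on the frames `fr u` (all are polynomial identities) -/

set_option autoImplicit false

namespace Pool.Agent.Octa
open Quaternion

theorem om_sq : om * om = ⟨-1/2, -1/2, -1/2, -1/2⟩ := by
  unfold om
  ext <;> simp <;> norm_num

theorem om_cube : om * om * om = 1 := by
  rw [om_sq]
  unfold om
  ext <;> simp <;> norm_num

theorem normSq_eq_one {u : ℍ[ℝ]} (hu : ‖u‖ = 1) :
    u.re^2 + u.imI^2 + u.imJ^2 + u.imK^2 = 1 := by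
  have h1 := Quaternion.normSq_eq_norm_mul_self u
  rw [hu, Quaternion.normSq_def'] at h1
  linarith

theorem norm_om : ‖om‖ = 1 := by
  have h1 := Quaternion.normSq_eq_norm_mul_self om
  rw [Quaternion.normSq_def'] at h1
  have h2 : ‖om‖ * ‖om‖ = 1 := by
    rw [← h1]; unfold om; norm_num
  nlinarith [norm_nonneg om]

theorem inner_fin3 (x y : E3) : inner ℝ x y = x 0 * y 0 + x 1 * y 1 + x 2 * y 2 := by
  rw [PiLp.inner_apply, Fin.sum_univ_three]
  simp
  ring

theorem fr_orthonormal (u : ℍ[ℝ]) (hu : ‖u‖ = 1) : Orthonormal ℝ (fr u) := by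
  have h := normSq_eq_one hu
  rw [orthonormal_iff_ite]
  intro i j
  rw [inner_fin3]
  fin_cases i <;> fin_cases j <;> simp [fr] <;>
    first
    | (ring_nf; done)
    | (have h2 : (u.re^2 + u.imI^2 + u.imJ^2 + u.imK^2)^2 = 1 := by rw [h]; norm_num
       linear_combination h2)

theorem fr_mul_om (u : ℍ[ℝ]) (k : Fin 3) : fr (u * om) k = fr u (k - 1) := by
  have h0 : (0 : Fin 3) - 1 = 2 := rfl
  have h1 : (1 : Fin 3) - 1 = 0 := rfl
  have h2 : (2 : Fin 3) - 1 = 1 := rfl
  have e1 : (u * om).re = -u.re/2 - u.imI/2 - u.imJ/2 - u.imK/2 := by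
    rw [Quaternion.re_mul]; unfold om; ring
  have e2 : (u * om).imI = u.re/2 - u.imI/2 + u.imJ/2 - u.imK/2 := by
    rw [Quaternion.imI_mul]; unfold om; ring
  have e3 : (u * om).imJ = u.re/2 - u.imJ/2 + u.imK/2 - u.imI/2 := by
    rw [Quaternion.imJ_mul]; unfold om; ring
  have e4 : (u * om).imK = u.re/2 - u.imK/2 + u.imI/2 - u.imJ/2 := by
    rw [Quaternion.imK_mul]; unfold om; ring
  unfold fr
  rw [e1, e2, e3, e4]
  fin_cases k
  · show _ = ![_, _, _] ((0 : Fin 3) - 1)
    rw [h0]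
    ext i
    fin_cases i <;> simp <;> ring
  · show _ = ![_, _, _] ((1 : Fin 3) - 1)
    rw [h1]
    ext i
    fin_cases i <;> simp <;> ring
  · show _ = ![_, _, _] ((2 : Fin 3) - 1)
    rw [h2]
    ext i
    fin_cases i <;> simp <;> ring

theorem continuous_fr (k : Fin 3) : Continuous (fun u => fr u k) := by
  have c1 := Quaternion.continuous_re
  have c2 := Quaternion.continuous_imI
  have c3 := Quaternion.continuous_imJ
  have c4 := Quaternion.continuous_imK
  have key : ∀ f : ℍ[ℝ] → Fin 3 → ℝ, (∀ i, Continuous fun u => f u i) →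
      Continuous (fun u => (WithLp.toLp 2 (f u) : E3)) := fun f hf =>
    (PiLp.continuous_toLp 2 _).comp (continuous_pi hf)
  fin_cases k
  · refine key _ fun i => ?_
    fin_cases i <;> simp <;> fun_prop
  · refine key _ fun i => ?_
    fin_cases i <;> simp <;> fun_prop
  · refine key _ fun i => ?_
    fin_cases i <;> simp <;> fun_prop

/-- a frame rotated by an imaginary quaternion -/
theorem fr_imag (w u : ℍ[ℝ]) (hw : w.re = 0) (k : Fin 3) :
    fr (w * u) k = (2 * inner ℝ (fr u k) (!₂[w.imI, w.imJ, w.imK] : E3)) •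
      (!₂[w.imI, w.imJ, w.imK] : E3) - (w.imI^2 + w.imJ^2 + w.imK^2) • fr u k := by
  rw [inner_fin3]
  unfold fr
  rw [Quaternion.re_mul, Quaternion.imI_mul, Quaternion.imJ_mul, Quaternion.imK_mul, hw]
  fin_cases k <;> ext i <;> fin_cases i <;> simp <;> ring

/-- every orthonormal frame of positive determinant is not needed; only this half-turn relation is:
if `Re (star u * v) = 0` then `fr v` is the image of `fr u` under the half turn about the axis `p`, `p = Im (v * star u)` -/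
theorem fr_half_turn (u v : ℍ[ℝ]) (hu : ‖u‖ = 1) (hv : ‖v‖ = 1) (h : (star u * v).re = 0) :
    ∃ p : E3, ‖p‖ = 1 ∧ ∀ k, fr v k = (2 * inner ℝ (fr u k) p) • p - fr u k := by
  set w := v * star u with hw
  have hwre : w.re = 0 := by
    rw [hw, Quaternion.re_mul]
    rw [Quaternion.re_mul] at h
    simp only [Quaternion.re_star, Quaternion.imI_star, Quaternion.imJ_star,
      Quaternion.imK_star] at h ⊢
    linarith
  have hwu : w * u = v := by
    rw [hw, mul_assoc, Quaternion.star_mul_self]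
    rw [Quaternion.normSq_eq_norm_mul_self, hu]
    simp
  have hwn : ‖w‖ = 1 := by rw [hw, norm_mul, norm_star, hu, hv, mul_one]
  have hs := normSq_eq_one hwn
  rw [hwre] at hs
  have hs' : w.imI^2 + w.imJ^2 + w.imK^2 = 1 := by linarith
  refine ⟨!₂[w.imI, w.imJ, w.imK], ?_, fun k => ?_⟩
  · rw [EuclideanSpace.norm_eq, Fin.sum_univ_three]
    rw [Real.sqrt_eq_one]
    simp
    exact hs'
  · have := fr_imag w u hwre k
    rw [hwu, hs', one_smul] at this
    exact this

theorem gam_gam_gam (z : Y3) : gam (gam (gam z)) = z := by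
  unfold gam
  simp only
  rw [mul_assoc, mul_assoc, ← mul_assoc om om om, om_cube, mul_one]

theorem dist_gam (z w : Y3) : dist (gam z) (gam w) = dist z w := by
  unfold gam
  rw [Prod.dist_eq, Prod.dist_eq, Prod.dist_eq, Prod.dist_eq]
  simp only
  have : dist (z.2.2 * om) (w.2.2 * om) = dist z.2.2 w.2.2 := by
    rw [dist_eq_norm, dist_eq_norm, ← sub_mul, norm_mul, norm_om, mul_one]
  rw [this]

theorem gam_mem_Zset {g : E3 → ℝ} {lam : ℝ} {z : Y3} (hz : z ∈ Zset g lam) :
    gam z ∈ Zset g lam := by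
  obtain ⟨h1, h2, h3, h4⟩ := hz
  refine ⟨h1, h2, ?_, fun k => ?_⟩
  · show ‖z.2.2 * om‖ = 1
    rw [norm_mul, h3, norm_om, mul_one]
  · show fs g z.2.1 (z.1 + lam • fr (z.2.2 * om) k) = 0 ∧
      fs g z.2.1 (z.1 - lam • fr (z.2.2 * om) k) = 0
    rw [fr_mul_om]
    exact h4 (k - 1)

theorem norm_sq_fin3 (x : E3) : ‖x‖^2 = x 0^2 + x 1^2 + x 2^2 := by
  rw [EuclideanSpace.norm_sq_eq, Fin.sum_univ_three]
  simp

/-- the frame spans: Parseval -/
theorem norm_sq_eq_fr (u : ℍ[ℝ]) (hu : ‖u‖ = 1) (x : E3) :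
    ‖x‖^2 = inner ℝ x (fr u 0)^2 + inner ℝ x (fr u 1)^2 + inner ℝ x (fr u 2)^2 := by
  have h := normSq_eq_one hu
  have h2 : (u.re^2 + u.imI^2 + u.imJ^2 + u.imK^2)^2 = 1 := by rw [h]; norm_num
  rw [norm_sq_fin3, inner_fin3, inner_fin3, inner_fin3]
  simp [fr]
  linear_combination (-(x 0^2 + x 1^2 + x 2^2)) * h2

theorem sum_fr (u : ℍ[ℝ]) (hu : ‖u‖ = 1) (x : E3) :
    x = (inner ℝ x (fr u 0)) • fr u 0 + (inner ℝ x (fr u 1)) • fr u 1 +
      (inner ℝ x (fr u 2)) • fr u 2 := by
  have h := normSq_eq_one hu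
  have h2 : (u.re^2 + u.imI^2 + u.imJ^2 + u.imK^2)^2 = 1 := by rw [h]; norm_num
  rw [inner_fin3, inner_fin3, inner_fin3]
  ext i
  fin_cases i
  · simp [fr]
    linear_combination (-(x 0)) * h2
  · simp [fr]
    linear_combination (-(x 1)) * h2
  · simp [fr]
    linear_combination (-(x 2)) * h2

end Pool.Agent.Octa
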