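import Pool.Agent.Octa.Setup
import Pool.Agent.Octa.Climb
import Pool.Agent.Octa.Claim0
import Pool.Agent.Octa.Cone

/-! module FINAL-limit (A3): section 3.5 of proof_MP_f08f91_co.md -/

set_option autoImplicit false

namespace Pool.Agent.Octa
open Quaternion Filter Topology

namespace GM

/-- limits along an ultrafilter -/
theorem exists_lim {X : Type*} [TopologicalSpace X] (U : Ultrafilter ℕ) {K : Set X} (hK : IsCompact K)
    {a : ℕ → X} (h : ∀ᶠ n in (U : Filter ℕ), a n ∈ K) :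
    ∃ x ∈ K, Tendsto a (U : Filter ℕ) (𝓝 x) := by
  have h1 : ((U.map a : Ultrafilter X) : Filter X) ≤ 𝓟 K := by
    rw [le_principal_iff]; exact h
  obtain ⟨x, hx, hx'⟩ := hK.ultrafilter_le_nhds (U.map a) h1
  exact ⟨x, hx, hx'⟩

theorem conn_ind {Y : Type*} [PseudoMetricSpace Y] {S : Set Y} {ε : ℝ} {P : Y → Prop}
    (hP : ∀ x y, Step S ε x y → P x → P y) {x y : Y} (h : Conn S ε x y) (hx : P x) : P y := by
  induction h with
  | refl => exact hx
  | tail _ hs ih => exact hP _ _ hs ih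

theorem step_dist {S : Set Y3} {ε : ℝ} {z w : Y3} (h : Step S ε z w) :
    ‖z.1 - w.1‖ < ε ∧ |z.2.1 - w.2.1| < ε ∧ ‖z.2.2 - w.2.2‖ < ε := by
  obtain ⟨-, -, h⟩ := h
  rw [Prod.dist_eq, max_lt_iff, Prod.dist_eq, max_lt_iff] at h
  exact ⟨by rw [← dist_eq_norm]; exact h.1, by rw [← Real.dist_eq]; exact h.2.1,
    by rw [← dist_eq_norm]; exact h.2.2⟩

theorem norm_fr (u : ℍ[ℝ]) (hu : ‖u‖ = 1) (k : Fin 3) : ‖fr u k‖ = 1 := (fr_orthonormal u hu).1 k

theorem fr_unif (k : Fin 3) (δ : ℝ) (hδ : 0 < δ) :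
    ∃ η > 0, ∀ u v : ℍ[ℝ], ‖u‖ = 1 → ‖v‖ = 1 → ‖u - v‖ < η → ‖fr u k - fr v k‖ < δ := by
  have hc : IsCompact (Metric.sphere (0 : ℍ[ℝ]) 1) := isCompact_sphere _ _
  have hu : UniformContinuousOn (fun u => fr u k) (Metric.sphere (0 : ℍ[ℝ]) 1) :=
    hc.uniformContinuousOn_of_continuous (continuous_fr k).continuousOn
  rw [Metric.uniformContinuousOn_iff] at hu
  obtain ⟨η, hη, h⟩ := hu δ hδ
  refine ⟨η, hη, fun u v h1 h2 h3 => ?_⟩
  have := h u (by simpa using h1) v (by simpa using h2) (by rwa [dist_eq_norm])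
  rwa [dist_eq_norm] at this

theorem fr_unif' (δ : ℝ) (hδ : 0 < δ) :
    ∃ η > 0, ∀ u v : ℍ[ℝ], ‖u‖ = 1 → ‖v‖ = 1 → ‖u - v‖ < η → ∀ k, ‖fr u k - fr v k‖ < δ := by
  obtain ⟨η0, h0, H0⟩ := fr_unif 0 δ hδ
  obtain ⟨η1, h1, H1⟩ := fr_unif 1 δ hδ
  obtain ⟨η2, h2, H2⟩ := fr_unif 2 δ hδ
  refine ⟨min η0 (min η1 η2), lt_min h0 (lt_min h1 h2), fun u v hu hv huv k => ?_⟩
  rw [lt_min_iff, lt_min_iff] at huv
  fin_cases k
  · exact H0 u v hu hv huv.1
  · exact H1 u v hu hv huv.2.1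
  · exact H2 u v hu hv huv.2.2

/-- the signs of `⟨x, u_k⟩` are constant on a chain class, hence independent of `k` -/
theorem inv_sign (g : E3 → ℝ) (hg : GoodGauge g) :
    ∃ κ Λ : ℝ, 0 < κ ∧ 0 < Λ ∧ ∀ lam : ℝ, 0 < lam → lam < Λ → ∀ z₀ ∈ Zset g lam,
      Conn (Zset g lam) (lam ^ 2) z₀ (gam z₀) →
      ∃ σ : ℝ, (σ = 1 ∨ σ = -1) ∧ ∀ z, Conn (Zset g lam) (lam ^ 2) z₀ z →
        z ∈ Zset g lam ∧ ∀ k, κ ≤ σ * inner ℝ z.1 (fr z.2.2 k) := by
  obtain ⟨R, hR, hRb⟩ := center_bound g hg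
  obtain ⟨κ, Λ0, hκ, hΛ0, hc⟩ := coord_lower g hg
  obtain ⟨η, hη, hfr⟩ := fr_unif' (κ / (2 * (R + 1))) (by positivity)
  refine ⟨κ, min Λ0 (min 1 (min η (κ / 2))), hκ, by positivity, fun lam h0 h1 z₀ hz₀ hconn => ?_⟩
  rw [lt_min_iff, lt_min_iff, lt_min_iff] at h1
  obtain ⟨hl0, hl1, hlη, hlκ⟩ := h1
  have hsq : lam ^ 2 < lam := by nlinarith
  have key : ∀ sg : Fin 3 → ℝ, (∀ k, sg k = 1 ∨ sg k = -1) →
      (∀ k, κ ≤ sg k * inner ℝ z₀.1 (fr z₀.2.2 k)) →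
      ∀ z, Conn (Zset g lam) (lam ^ 2) z₀ z → z ∈ Zset g lam ∧ ∀ k, κ ≤ sg k * inner ℝ z.1 (fr z.2.2 k) := by
    intro sg hsg hstart z hz
    refine conn_ind (P := fun z => z ∈ Zset g lam ∧ ∀ k, κ ≤ sg k * inner ℝ z.1 (fr z.2.2 k)) ?_ hz ⟨hz₀, hstart⟩
    intro x y hxy hx
    refine ⟨hxy.2.1, fun k => ?_⟩
    obtain ⟨hd1, -, hd3⟩ := step_dist hxy
    have hy := hc lam h0 hl0 y hxy.2.1 k
    have hxk := hx.2 k
    have hux : ‖x.2.2‖ = 1 := hx.1.2.2.1
    have huy : ‖y.2.2‖ = 1 := hxy.2.1.2.2.1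
    have hfk := hfr x.2.2 y.2.2 hux huy (by linarith) k
    have hdiff : |inner ℝ x.1 (fr x.2.2 k) - inner ℝ y.1 (fr y.2.2 k)| < κ := by
      have e1 : inner ℝ x.1 (fr x.2.2 k) - inner ℝ y.1 (fr y.2.2 k)
          = inner ℝ (x.1 - y.1) (fr x.2.2 k) + inner ℝ y.1 (fr x.2.2 k - fr y.2.2 k) := by
        rw [inner_sub_left, inner_sub_right]; ring
      rw [e1]
      refine lt_of_le_of_lt (abs_add_le _ _) ?_
      have a1 : |inner ℝ (x.1 - y.1) (fr x.2.2 k)| ≤ ‖x.1 - y.1‖ := by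
        have := abs_real_inner_le_norm (x.1 - y.1) (fr x.2.2 k)
        rwa [norm_fr _ hux, mul_one] at this
      have a2 : |inner ℝ y.1 (fr x.2.2 k - fr y.2.2 k)| ≤ (R + 1) * (κ / (2 * (R + 1))) := by
        refine (abs_real_inner_le_norm _ _).trans ?_
        refine mul_le_mul ?_ hfk.le (norm_nonneg _) (by positivity)
        have := hRb lam y hxy.2.1
        linarith
      have a3 : (R + 1) * (κ / (2 * (R + 1))) = κ / 2 := by
        field_simp
      rw [a3] at a2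
      linarith
    rw [abs_lt] at hdiff
    rcases hsg k with hs | hs
    · rw [hs, one_mul] at hxk ⊢
      have : 0 < inner ℝ y.1 (fr y.2.2 k) := by linarith
      rwa [abs_of_pos this] at hy
    · rw [hs] at hxk ⊢
      have : inner ℝ y.1 (fr y.2.2 k) < 0 := by linarith
      rw [abs_of_neg this] at hy
      linarith
  -- the starting signs
  let sg : Fin 3 → ℝ := fun k => if 0 ≤ inner ℝ z₀.1 (fr z₀.2.2 k) then 1 else -1
  have hsg : ∀ k, sg k = 1 ∨ sg k = -1 := by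
    intro k
    simp only [sg]
    split_ifs <;> simp
  have hstart : ∀ k, κ ≤ sg k * inner ℝ z₀.1 (fr z₀.2.2 k) := by
    intro k
    have := hc lam h0 hl0 z₀ hz₀ k
    simp only [sg]
    split_ifs with h
    · rwa [abs_of_nonneg h, ← one_mul (inner ℝ z₀.1 (fr z₀.2.2 k))] at this
    · rw [abs_of_neg (not_le.1 h)] at this
      linarith
  have H := key sg hsg hstart
  have hg' := (H (gam z₀) hconn).2
  have heq : ∀ k, sg k = sg (k - 1) := by
    intro k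
    have h1 := hg' k
    have h2 := hstart (k - 1)
    have h3 : inner ℝ (gam z₀).1 (fr (gam z₀).2.2 k) = inner ℝ z₀.1 (fr z₀.2.2 (k - 1)) := by
      show inner ℝ z₀.1 (fr (z₀.2.2 * om) k) = _
      rw [fr_mul_om]
    rw [h3] at h1
    rcases hsg k with a | a <;> rcases hsg (k - 1) with b | b <;> rw [a] at h1 <;> rw [b] at h2 <;> rw [a, b] <;> linarith
  have hall : ∀ k, sg k = sg 0 := by
    intro k
    fin_cases k
    · rfl
    · exact heq 1
    · exact (heq 2).trans (heq 1)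
  refine ⟨sg 0, hsg 0, fun z hz => ⟨(H z hz).1, fun k => ?_⟩⟩
  rw [← hall k]
  exact (H z hz).2 k

/-- the projections stay small on the chain class -/
theorem inv_proj (g : E3 → ℝ) (hg : GoodGauge g) (p : E3) (hp : ‖p‖ = 1) :
    ∃ C η Λ κ : ℝ, 0 < C ∧ 0 < η ∧ 0 < Λ ∧ 0 < κ ∧ ∀ lam : ℝ, 0 < lam → lam < Λ → ∀ z₀ ∈ Zset g lam,
      0 < inner ℝ z₀.1 p → ‖z₀.1 - (inner ℝ z₀.1 p) • p‖ ≤ η →
      ∀ z, Conn (Zset g lam) (lam ^ 2) z₀ z →
        κ ≤ inner ℝ z.1 p ∧ ‖z.1 - (inner ℝ z.1 p) • p‖ ≤ C * lam := by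
  obtain ⟨κ, Λ0, hκ, hΛ0, hc⟩ := coord_lower g hg
  obtain ⟨C, η, Λ1, hC, hη, hΛ1, hcl⟩ := claim0 g hg p hp
  refine ⟨C, η, min Λ0 (min Λ1 (min 1 (min (η / (C + 2)) (κ / (2 * (C + 2)))))), κ / 2, hC, hη, by positivity,
    by positivity, fun lam h0 h1 z₀ hz₀ hpos hsm z hz => ?_⟩
  simp only [lt_min_iff] at h1
  obtain ⟨hl0, hl1, hl2, hl3, hl4⟩ := h1
  rw [lt_div_iff₀ (by positivity)] at hl3 hl4
  have hsq : lam ^ 2 < lam := by nlinarith
  have hlow : ∀ x ∈ Zset g lam, 0 < inner ℝ x.1 p → ‖x.1 - (inner ℝ x.1 p) • p‖ ≤ C * lam →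
      κ - C * lam ≤ inner ℝ x.1 p := by
    intro x hx hxp hxC
    have h1 : κ ≤ ‖x.1‖ := by
      refine (hc lam h0 hl0 x hx 0).trans ?_
      have := abs_real_inner_le_norm x.1 (fr x.2.2 0)
      rwa [norm_fr _ hx.2.2.1, mul_one] at this
    have h2 : ‖x.1‖ ≤ ‖x.1 - (inner ℝ x.1 p) • p‖ + ‖(inner ℝ x.1 p) • p‖ := by
      have := norm_add_le (x.1 - (inner ℝ x.1 p) • p) ((inner ℝ x.1 p) • p)
      rwa [sub_add_cancel] at this
    rw [norm_smul, hp, mul_one, Real.norm_eq_abs, abs_of_pos hxp] at h2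
    linarith
  have H := conn_ind (P := fun x : Y3 => x ∈ Zset g lam ∧ 0 < inner ℝ x.1 p ∧
    ‖x.1 - (inner ℝ x.1 p) • p‖ ≤ C * lam) ?_ hz ⟨hz₀, hpos, hcl lam h0 hl1 z₀ hz₀ hpos hsm⟩
  · refine ⟨?_, H.2.2⟩
    have := hlow z H.1 H.2.1 H.2.2
    nlinarith
  · intro x y hxy hx
    obtain ⟨hd1, -, -⟩ := step_dist hxy
    have hxl := hlow x hx.1 hx.2.1 hx.2.2
    have hpp : |inner ℝ (x.1 - y.1) p| ≤ lam ^ 2 := by
      have := abs_real_inner_le_norm (x.1 - y.1) p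
      rw [hp, mul_one] at this
      linarith
    have e1 : inner ℝ (x.1 - y.1) p = inner ℝ x.1 p - inner ℝ y.1 p := inner_sub_left _ _ _
    have hyp : 0 < inner ℝ y.1 p := by
      rw [e1, abs_le] at hpp
      nlinarith [hpp.2]
    have hyC : ‖y.1 - (inner ℝ y.1 p) • p‖ ≤ η := by
      have e2 : y.1 - (inner ℝ y.1 p) • p = (x.1 - (inner ℝ x.1 p) • p) - (x.1 - y.1)
          + (inner ℝ (x.1 - y.1) p) • p := by
        rw [e1, sub_smul]; abel
      rw [e2]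
      refine (norm_add_le _ _).trans ?_
      have h3 := norm_sub_le (x.1 - (inner ℝ x.1 p) • p) (x.1 - y.1)
      have h4 : ‖(inner ℝ (x.1 - y.1) p) • p‖ ≤ lam ^ 2 := by
        rw [norm_smul, hp, mul_one]; exact hpp
      have h5 := hx.2.2
      nlinarith
    exact ⟨hxy.2.1, hyp, hcl lam h0 hl1 y hxy.2.1 hyp hyC⟩

/-- the properties of the directional derivative -/
structure IsD (g : E3 → ℝ) (p : E3) (D : E3 → ℝ) : Prop where
  sub : ∀ x y, D (x + y) ≤ D x + D y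
  hom : ∀ t : ℝ, 0 ≤ t → ∀ x, D (t • x) = t * D x
  add : ∀ (t : ℝ) (v : E3), D (v + t • p) = D v + t * g p
  der : ∀ ε : ℝ, 0 < ε → ∃ η : ℝ, 0 < η ∧ ∀ v : E3, ‖v‖ ≤ η → |g (p + v) - g p - D v| ≤ ε * ‖v‖

theorem D_le {g : E3 → ℝ} (hg : GoodGauge g) {p : E3} {D : E3 → ℝ} (hD : IsD g p D) (x : E3) : D x ≤ g x := by
  refine le_of_forall_pos_le_add fun ε hε => ?_
  obtain ⟨η, hη, h⟩ := hD.der (ε / (‖x‖ + 1)) (by positivity)
  have ht : 0 < η / (‖x‖ + 1) := by positivity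
  have hn : ‖(η / (‖x‖ + 1)) • x‖ ≤ η := by
    rw [norm_smul, Real.norm_eq_abs, abs_of_pos ht, div_mul_eq_mul_div, div_le_iff₀ (by positivity)]
    nlinarith [norm_nonneg x]
  have h1 := h _ hn
  rw [abs_le, hD.hom _ ht.le, norm_smul, Real.norm_eq_abs, abs_of_pos ht] at h1
  have h2 := hg.sub p ((η / (‖x‖ + 1)) • x)
  rw [hg.hom _ ht.le] at h2
  have h3 : (η / (‖x‖ + 1)) * D x ≤ (η / (‖x‖ + 1)) * (g x + ε) := by
    have h4 : ε / (‖x‖ + 1) * (η / (‖x‖ + 1) * ‖x‖) ≤ (η / (‖x‖ + 1)) * ε := by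
      have h5 : ε / (‖x‖ + 1) * (η / (‖x‖ + 1) * ‖x‖) = (η / (‖x‖ + 1)) * (ε * (‖x‖ / (‖x‖ + 1))) := by ring
      rw [h5]
      refine mul_le_mul_of_nonneg_left ?_ ht.le
      have h6 : ‖x‖ / (‖x‖ + 1) ≤ 1 := by
        rw [div_le_one (by positivity)]; linarith
      nlinarith
    linarith [h1.1, mul_add (η / (‖x‖ + 1)) (g x) ε]
  exact le_of_mul_le_mul_left h3 ht

theorem D_zero {g : E3 → ℝ} {p : E3} {D : E3 → ℝ} (hD : IsD g p D) : D 0 = 0 := by
  have := hD.hom 0 le_rfl 0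
  simpa using this

theorem D_cont {g : E3 → ℝ} (hg : GoodGauge g) {p : E3} {D : E3 → ℝ} (hD : IsD g p D) : Continuous D := by
  obtain ⟨M, hM, hgM⟩ := hg.upper
  have hl : LipschitzWith (Real.toNNReal M) D := by
    refine LipschitzWith.of_dist_le_mul fun x y => ?_
    rw [Real.coe_toNNReal _ hM.le, Real.dist_eq, dist_eq_norm, abs_le]
    have h1 : D x ≤ D y + D (x - y) := by
      have := hD.sub y (x - y)
      rwa [add_sub_cancel] at this
    have h2 : D y ≤ D x + D (y - x) := by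
      have := hD.sub x (y - x)
      rwa [add_sub_cancel] at this
    have h3 := (D_le hg hD (x - y)).trans (hgM _)
    have h4 := (D_le hg hD (y - x)).trans (hgM _)
    rw [norm_sub_rev] at h4
    constructor <;> linarith
  exact hl.continuous

/-- the blow-up limit -/
theorem lim_psi {g : E3 → ℝ} (hg : GoodGauge g) {p : E3} {D : E3 → ℝ} (hD : IsD g p D)
    {l : Filter ℕ} {lam s r : ℕ → ℝ} {v : ℕ → E3} (hl0 : ∀ n, 0 < lam n) (hl : Tendsto lam l (𝓝 0))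
    {sb rb : ℝ} {v0 : E3} (hs : Tendsto s l (𝓝 sb)) (hr : Tendsto r l (𝓝 rb)) (hrb : 0 < rb)
    (hv : Tendsto v l (𝓝 v0)) :
    Tendsto (fun n => (lam n)⁻¹ * (fs g (s n) (r n • p + lam n • v n) - fs g (s n) (r n • p))) l
      (𝓝 (2 * (1 - sb) * rb * inner ℝ p v0 + sb * D v0)) := by
  have hr0 : ∀ᶠ n in l, 0 < r n := hr.eventually_const_lt hrb
  -- the error term
  have he : Tendsto (fun n => (lam n)⁻¹ * (g (r n • p + lam n • v n) - g (r n • p)) - D (v n)) l (𝓝 0) := by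
    rw [Metric.tendsto_nhds]
    intro ε hε
    obtain ⟨η, hη, hder⟩ := hD.der (ε / (2 * (‖v0‖ + 1))) (by positivity)
    have hw : Tendsto (fun n => (lam n / r n) • v n) l (𝓝 0) := by
      have h1 : Tendsto (fun n => lam n / r n) l (𝓝 (0 / rb)) := hl.div hr hrb.ne'
      have h2 := h1.smul hv
      simpa using h2
    have hw' : ∀ᶠ n in l, ‖(lam n / r n) • v n‖ < η := by
      have h3 := hw.norm
      rw [norm_zero] at h3
      exact h3.eventually_lt_const hη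
    have hv' : ∀ᶠ n in l, ‖v n‖ < ‖v0‖ + 1 := hv.norm.eventually_lt_const (by linarith)
    filter_upwards [hr0, hw', hv'] with n h1 h2 h3
    rw [Real.dist_eq, sub_zero]
    have hln := hl0 n
    have hq : 0 < lam n / r n := div_pos hln h1
    have e1 : r n • p + lam n • v n = r n • (p + (lam n / r n) • v n) := by
      rw [smul_add, smul_smul, mul_div_cancel₀ _ h1.ne']
    have h4 := hder _ h2.le
    rw [hD.hom _ hq.le] at h4
    rw [e1, hg.hom _ h1.le, hg.hom _ h1.le]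
    have e2 : (lam n)⁻¹ * (r n * g (p + (lam n / r n) • v n) - r n * g p) - D (v n)
        = (r n / lam n) * (g (p + (lam n / r n) • v n) - g p - lam n / r n * D (v n)) := by
      field_simp
    rw [e2, abs_mul, abs_of_pos (div_pos h1 hln)]
    have h5 : ‖(lam n / r n) • v n‖ = (lam n / r n) * ‖v n‖ := by
      rw [norm_smul, Real.norm_eq_abs, abs_of_pos hq]
    rw [h5] at h4
    calc r n / lam n * |g (p + (lam n / r n) • v n) - g p - lam n / r n * D (v n)|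
        ≤ r n / lam n * (ε / (2 * (‖v0‖ + 1)) * (lam n / r n * ‖v n‖)) :=
          mul_le_mul_of_nonneg_left h4 (div_pos h1 hln).le
      _ = ε / (2 * (‖v0‖ + 1)) * ‖v n‖ := by field_simp
      _ ≤ ε / (2 * (‖v0‖ + 1)) * (‖v0‖ + 1) := by
          refine mul_le_mul_of_nonneg_left h3.le (by positivity)
      _ = ε / 2 := by
          have : (‖v0‖ + 1) ≠ 0 := by positivity
          field_simp
      _ < ε := by linarith
  have hDv : Tendsto (fun n => D (v n)) l (𝓝 (D v0)) := ((D_cont hg hD).tendsto v0).comp hv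
  have hip : Tendsto (fun n => (inner ℝ p (v n) : ℝ)) l (𝓝 (inner ℝ p v0)) :=
    ((continuous_const.inner continuous_id).tendsto v0).comp hv
  have hmain : Tendsto (fun n => (1 - s n) * (2 * r n * inner ℝ p (v n) + lam n * ‖v n‖ ^ 2)
      + s n * (((lam n)⁻¹ * (g (r n • p + lam n • v n) - g (r n • p)) - D (v n)) + D (v n))) l
      (𝓝 ((1 - sb) * (2 * rb * inner ℝ p v0 + 0 * ‖v0‖ ^ 2) + sb * (0 + D v0))) := by
    refine ((tendsto_const_nhds.sub hs).mul ?_).add (hs.mul (he.add hDv))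
    exact ((tendsto_const_nhds.mul hr).mul hip).add (hl.mul (hv.norm.pow 2))
  have e3 : (1 - sb) * (2 * rb * inner ℝ p v0 + 0 * ‖v0‖ ^ 2) + sb * (0 + D v0)
      = 2 * (1 - sb) * rb * inner ℝ p v0 + sb * D v0 := by ring
  rw [e3] at hmain
  refine hmain.congr fun n => ?_
  have hln := (hl0 n).ne'
  have e4 : ‖r n • p + lam n • v n‖ ^ 2 = ‖r n • p‖ ^ 2 + 2 * (r n * (lam n * inner ℝ p (v n))) + lam n ^ 2 * ‖v n‖ ^ 2 := by
    rw [norm_add_sq_real, inner_smul_left, inner_smul_right, norm_smul (lam n)]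
    simp only [conj_trivial, Real.norm_eq_abs, mul_pow, sq_abs]
  unfold fs
  rw [e4]
  field_simp
  ring

noncomputable def lamn (n : ℕ) : ℝ := 1 / ((n : ℝ) + 11)

theorem lamn_pos (n : ℕ) : 0 < lamn n := by
  unfold lamn; positivity

theorem lamn_le (n : ℕ) : lamn n ≤ 1 / 11 := by
  unfold lamn
  apply one_div_le_one_div_of_le (by norm_num)
  have : (0 : ℝ) ≤ n := Nat.cast_nonneg n
  linarith

theorem lamn_tendsto : Tendsto lamn atTop (𝓝 0) := by
  have h := tendsto_one_div_add_atTop_nhds_zero_nat (𝕜 := ℝ)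
  have h2 := h.comp (tendsto_add_atTop_nat 10)
  refine h2.congr fun n => ?_
  simp only [Function.comp, lamn]
  push_cast
  ring_nf

/-- no inscribed octahedron of the gauge itself -/
def NoOcta (g : E3 → ℝ) : Prop :=
  ∀ (c : E3) (u : ℍ[ℝ]) (r : ℝ), ‖u‖ = 1 → 0 < r →
      ¬ ∀ k : Fin 3, g (c + r • fr u k) = 1 ∧ g (c - r • fr u k) = 1

/-- what holds along the sequence -/
structure Dat (g : E3 → ℝ) (p : E3) (C κ lam σ : ℝ) (A B : Y3) : Prop where
  hA : A ∈ Zset g lam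
  hB : B ∈ Zset g lam
  rA : κ ≤ inner ℝ A.1 p
  rB : κ ≤ inner ℝ B.1 p
  pA : ‖A.1 - (inner ℝ A.1 p) • p‖ ≤ C * lam
  pB : ‖B.1 - (inner ℝ B.1 p) • p‖ ≤ C * lam
  sA : ∀ k, κ ≤ σ * inner ℝ A.1 (fr A.2.2 k)
  sB : ∀ k, κ ≤ σ * inner ℝ B.1 (fr B.2.2 k)
  ss : |A.2.1 - B.2.1| ≤ 4 * lam ^ 2
  uu : |(star A.2.2 * B.2.2).re| ≤ 4 * lam ^ 2

theorem exists_data (g : E3 → ℝ) (hg : GoodGauge g) (hno : NoOcta g) :
    ∃ (p : E3) (U : Ultrafilter ℕ) (A B : ℕ → Y3) (σ : ℕ → ℝ) (C κ : ℝ),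
      ‖p‖ = 1 ∧ Tendsto lamn (U : Filter ℕ) (𝓝 0) ∧ 0 < C ∧ 0 < κ ∧ (∀ n, σ n = 1 ∨ σ n = -1) ∧
      ∀ᶠ n in (U : Filter ℕ), Dat g p C κ (lamn n) (σ n) (A n) (B n) := by
  have hlt : ∀ n, lamn n < 1 := fun n => lt_of_le_of_lt (lamn_le n) (by norm_num)
  have hsq : ∀ n, 0 < lamn n ^ 2 := fun n => pow_pos (lamn_pos n) 2
  have hsq' : ∀ n, lamn n ^ 2 < 1 / 100 := by
    intro n
    have h1 := lamn_le n
    have h2 := lamn_pos n
    nlinarith
  have hex : ∀ n, ∃ z ∈ Zset g (lamn n), Conn (Zset g (lamn n)) (lamn n ^ 2) z (gam z) := fun n =>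
    exists_chain g hg hno (lamn n) (lamn_pos n) (hlt n) (lamn n ^ 2) (hsq n)
  choose z hz hconn using hex
  have hex2 : ∀ n, ∃ A B, A ∈ Zset g (lamn n) ∧ B ∈ Zset g (lamn n) ∧
      Conn (Zset g (lamn n)) (lamn n ^ 2) (z n) A ∧ Conn (Zset g (lamn n)) (lamn n ^ 2) (z n) B ∧
      |A.2.1 - B.2.1| ≤ 4 * lamn n ^ 2 ∧ |(star A.2.2 * B.2.2).re| ≤ 4 * lamn n ^ 2 := fun n =>
    climb (Zset g (lamn n)) (fun w hw => gam_mem_Zset hw) (fun w hw => hw.2.2.1) (lamn n ^ 2) (hsq n)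
      (hsq' n) (z n) (hz n) (hconn n)
  choose A B hA hB hcA hcB hss huu using hex2
  obtain ⟨R, hR, hRb⟩ := center_bound g hg
  obtain ⟨κ1, Λ1, hκ1, hΛ1, hsign⟩ := inv_sign g hg
  obtain ⟨κ2, Λ2, hκ2, hΛ2, hcoord⟩ := coord_lower g hg
  let U : Ultrafilter ℕ := Filter.hyperfilter ℕ
  have hUle : (U : Filter ℕ) ≤ atTop := by
    rw [← Nat.cofinite_eq_atTop]; exact Filter.hyperfilter_le_cofinite
  have hlU : Tendsto lamn (U : Filter ℕ) (𝓝 0) := lamn_tendsto.mono_left hUle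
  obtain ⟨xb, -, hxb⟩ := exists_lim U (isCompact_closedBall (0 : E3) R) (a := fun n => (z n).1)
    (Eventually.of_forall fun n => by
      simpa using hRb _ (z n) (hz n))
  have hxbpos : 0 < ‖xb‖ := by
    have h1 : ∀ᶠ n in (U : Filter ℕ), κ2 ≤ ‖(z n).1‖ := by
      filter_upwards [hlU.eventually_lt_const hΛ2] with n hn
      refine (hcoord _ (lamn_pos n) hn _ (hz n) 0).trans ?_
      have := abs_real_inner_le_norm (z n).1 (fr (z n).2.2 0)
      rwa [norm_fr _ (hz n).2.2.1, mul_one] at this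
    exact lt_of_lt_of_le hκ2 (ge_of_tendsto hxb.norm h1)
  let p : E3 := ‖xb‖⁻¹ • xb
  have hp : ‖p‖ = 1 := by
    simp only [p, norm_smul, norm_inv, norm_norm]
    exact inv_mul_cancel₀ hxbpos.ne'
  obtain ⟨C, η, Λ3, κ3, hC, hη, hΛ3, hκ3, hproj⟩ := inv_proj g hg p hp
  have hip : Tendsto (fun n => (inner ℝ (z n).1 p : ℝ)) (U : Filter ℕ) (𝓝 (inner ℝ xb p)) :=
    ((continuous_id.inner continuous_const).tendsto xb).comp hxb
  have hipv : (inner ℝ xb p : ℝ) = ‖xb‖ := by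
    simp only [p, inner_smul_right, real_inner_self_eq_norm_sq]
    field_simp
  have hpv : xb - (inner ℝ xb p : ℝ) • p = 0 := by
    rw [hipv]
    simp only [p, smul_smul]
    rw [mul_inv_cancel₀ hxbpos.ne', one_smul, sub_self]
  have hpr : Tendsto (fun n => ‖(z n).1 - (inner ℝ (z n).1 p : ℝ) • p‖) (U : Filter ℕ) (𝓝 0) := by
    have h1 : Tendsto (fun n => (z n).1 - (inner ℝ (z n).1 p : ℝ) • p) (U : Filter ℕ)
        (𝓝 (xb - (inner ℝ xb p : ℝ) • p)) := hxb.sub (hip.smul_const p)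
    rw [hpv] at h1
    simpa using h1.norm
  rw [hipv] at hip
  have hsg : ∀ n, ∃ σ : ℝ, (σ = 1 ∨ σ = -1) ∧ (lamn n < Λ1 → ∀ w, Conn (Zset g (lamn n)) (lamn n ^ 2) (z n) w →
        w ∈ Zset g (lamn n) ∧ ∀ k, κ1 ≤ σ * inner ℝ w.1 (fr w.2.2 k)) := by
    intro n
    by_cases h : lamn n < Λ1
    · obtain ⟨σ, h1, h2⟩ := hsign (lamn n) (lamn_pos n) h (z n) (hz n) (hconn n)
      exact ⟨σ, h1, fun _ => h2⟩
    · exact ⟨1, Or.inl rfl, fun h' => absurd h' h⟩
  choose σ hσ1 hσ2 using hsg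
  refine ⟨p, U, A, B, σ, C, min κ1 κ3, hp, hlU, hC, lt_min hκ1 hκ3, hσ1, ?_⟩
  filter_upwards [hlU.eventually_lt_const hΛ1, hlU.eventually_lt_const hΛ3, hip.eventually_const_lt hxbpos,
    hpr.eventually_lt_const hη] with n h1 h3 h4 h5
  have H := hproj (lamn n) (lamn_pos n) h3 (z n) (hz n) h4 h5.le
  have S := hσ2 n h1
  exact {
    hA := hA n
    hB := hB n
    rA := (min_le_right _ _).trans (H _ (hcA n)).1
    rB := (min_le_right _ _).trans (H _ (hcB n)).1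
    pA := (H _ (hcA n)).2
    pB := (H _ (hcB n)).2
    sA := fun k => (min_le_left _ _).trans ((S _ (hcA n)).2 k)
    sB := fun k => (min_le_left _ _).trans ((S _ (hcB n)).2 k)
    ss := hss n
    uu := huu n }

theorem fs_diff {g : E3 → ℝ} {M : ℝ} (hM : ∀ x, g x ≤ M * ‖x‖) (hM0 : 0 < M) (hg0 : ∀ x, 0 ≤ g x) (s s' : ℝ) (x : E3) (R : ℝ)
    (hx : ‖x‖ ≤ R) : |fs g s x - fs g s' x| ≤ |s - s'| * (M * R + R ^ 2) := by
  have e : fs g s x - fs g s' x = (s - s') * (g x - ‖x‖ ^ 2) := by unfold fs; ring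
  rw [e, abs_mul]
  refine mul_le_mul_of_nonneg_left ?_ (abs_nonneg _)
  have h1 := hM x
  have h2 := hg0 x
  have h3 := norm_nonneg x
  rw [abs_le]
  constructor <;> nlinarith

theorem gg_nonneg {g : E3 → ℝ} (hg : GoodGauge g) (x : E3) : 0 ≤ g x := by
  obtain ⟨m, hm, h⟩ := hg.lower
  exact (mul_nonneg hm.le (norm_nonneg x)).trans (h x)

/-- the heights of `A` and `B` along `p` are close -/
theorem r_close (g : E3 → ℝ) (hg : GoodGauge g) (p : E3) (hp : ‖p‖ = 1) (C κ : ℝ) (hC : 0 < C) (hκ : 0 < κ) :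
    ∃ C' : ℝ, 0 < C' ∧ ∀ (lam σ : ℝ) (A B : Y3), 0 < lam → lam < 1 → Dat g p C κ lam σ A B →
      |inner ℝ B.1 p - inner ℝ A.1 p| ≤ C' * lam := by
  obtain ⟨R, hR, hRb⟩ := center_bound g hg
  obtain ⟨L, hL, hLip⟩ := fs_lipschitz g hg (R + 1)
  obtain ⟨M, hM, hgM⟩ := hg.upper
  obtain ⟨m, hm, hgm⟩ := hg.lower
  have hc0 : 0 < min (2 * κ) m := by positivity
  refine ⟨(2 * (L * (C + 1)) + 4 * (M * R + R ^ 2)) / min (2 * κ) m, by positivity, ?_⟩
  intro lam σ A B h0 h1 hD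
  have key : ∀ z ∈ Zset g lam, ‖z.1 - (inner ℝ z.1 p : ℝ) • p‖ ≤ C * lam →
      |fs g z.2.1 ((inner ℝ z.1 p : ℝ) • p)| ≤ L * (C + 1) * lam ∧ ‖(inner ℝ z.1 p : ℝ) • p‖ ≤ R := by
    intro z hz hzC
    have hzR := hRb lam z hz
    have a1 : ‖(inner ℝ z.1 p : ℝ) • p‖ ≤ R := by
      rw [norm_smul, hp, mul_one]
      have := abs_real_inner_le_norm z.1 p
      rw [hp, mul_one] at this
      exact this.trans hzR
    have a2 : ‖lam • fr z.2.2 0‖ = lam := by
      rw [norm_smul, norm_fr _ hz.2.2.1, mul_one, Real.norm_eq_abs, abs_of_pos h0]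
    have a3 : ‖z.1 + lam • fr z.2.2 0‖ ≤ R + 1 := by
      refine (norm_add_le _ _).trans ?_
      rw [a2]; linarith
    have a4 := hLip z.2.1 ⟨hz.1.le, hz.2.1.le⟩ (z.1 + lam • fr z.2.2 0) ((inner ℝ z.1 p : ℝ) • p) a3 (by linarith)
    rw [(hz.2.2.2 0).1, zero_sub, abs_neg] at a4
    refine ⟨a4.trans ?_, a1⟩
    have a5 : z.1 + lam • fr z.2.2 0 - (inner ℝ z.1 p : ℝ) • p = (z.1 - (inner ℝ z.1 p : ℝ) • p) + lam • fr z.2.2 0 := by
      abel
    have a6 : ‖z.1 + lam • fr z.2.2 0 - (inner ℝ z.1 p : ℝ) • p‖ ≤ (C + 1) * lam := by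
      rw [a5]
      refine (norm_add_le _ _).trans ?_
      rw [a2]; linarith
    calc L * ‖z.1 + lam • fr z.2.2 0 - (inner ℝ z.1 p : ℝ) • p‖ ≤ L * ((C + 1) * lam) :=
          mul_le_mul_of_nonneg_left a6 hL.le
      _ = L * (C + 1) * lam := by ring
  obtain ⟨hA1, hA2⟩ := key A hD.hA hD.pA
  obtain ⟨hB1, hB2⟩ := key B hD.hB hD.pB
  have hsd := fs_diff hgM hM (gg_nonneg hg) A.2.1 B.2.1 ((inner ℝ B.1 p : ℝ) • p) R hB2
  set ra : ℝ := inner ℝ A.1 p with hra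
  set rb : ℝ := inner ℝ B.1 p with hrb
  have hra0 : κ ≤ ra := hD.rA
  have hrb0 : κ ≤ rb := hD.rB
  have hfs : ∀ r : ℝ, 0 ≤ r → fs g A.2.1 (r • p) = (1 - A.2.1) * r ^ 2 + A.2.1 * (r * g p) - 1 := by
    intro r hr
    unfold fs
    rw [hg.hom r hr, norm_smul, hp, mul_one, Real.norm_eq_abs, sq_abs]
  have hgp : m ≤ g p := by
    have := hgm p
    rwa [hp, mul_one] at this
  have hs0 : 0 < A.2.1 := hD.hA.1
  have hs1 : A.2.1 < 1 := hD.hA.2.1
  have hslope : min (2 * κ) m ≤ (1 - A.2.1) * (rb + ra) + A.2.1 * g p := by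
    have b1 : min (2 * κ) m ≤ 2 * κ := min_le_left _ _
    have b2 : min (2 * κ) m ≤ m := min_le_right _ _
    have b3 : (1 - A.2.1) * min (2 * κ) m ≤ (1 - A.2.1) * (rb + ra) :=
      mul_le_mul_of_nonneg_left (by linarith) (by linarith)
    have b4 : A.2.1 * min (2 * κ) m ≤ A.2.1 * g p :=
      mul_le_mul_of_nonneg_left (by linarith) hs0.le
    linarith
  have hdiff : fs g A.2.1 (rb • p) - fs g A.2.1 (ra • p) = (rb - ra) * ((1 - A.2.1) * (rb + ra) + A.2.1 * g p) := by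
    rw [hfs _ (by linarith), hfs _ (by linarith)]; ring
  have hss : |A.2.1 - B.2.1| * (M * R + R ^ 2) ≤ 4 * (M * R + R ^ 2) * lam := by
    have := hD.ss
    have c1 : |A.2.1 - B.2.1| ≤ 4 * lam := by nlinarith
    calc |A.2.1 - B.2.1| * (M * R + R ^ 2) ≤ 4 * lam * (M * R + R ^ 2) :=
          mul_le_mul_of_nonneg_right c1 (by positivity)
      _ = _ := by ring
  have hbound : |fs g A.2.1 (rb • p) - fs g A.2.1 (ra • p)| ≤ (2 * (L * (C + 1)) + 4 * (M * R + R ^ 2)) * lam := by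
    have e : fs g A.2.1 (rb • p) - fs g A.2.1 (ra • p) =
        (fs g A.2.1 (rb • p) - fs g B.2.1 (rb • p)) + fs g B.2.1 (rb • p) - fs g A.2.1 (ra • p) := by ring
    rw [e]
    have c2 := abs_sub ((fs g A.2.1 (rb • p) - fs g B.2.1 (rb • p)) + fs g B.2.1 (rb • p)) (fs g A.2.1 (ra • p))
    have c3 := abs_add_le (fs g A.2.1 (rb • p) - fs g B.2.1 (rb • p)) (fs g B.2.1 (rb • p))
    linarith
  rw [hdiff, abs_mul] at hbound
  rw [div_mul_eq_mul_div, le_div_iff₀ hc0]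
  refine le_trans ?_ hbound
  refine mul_le_mul_of_nonneg_left ?_ (abs_nonneg _)
  exact hslope.trans (le_abs_self _)


theorem tendsto_fr {l : Filter ℕ} {u : ℕ → ℍ[ℝ]} {u0 : ℍ[ℝ]} (h : Tendsto u l (𝓝 u0)) (k : Fin 3) :
    Tendsto (fun n => fr (u n) k) l (𝓝 (fr u0 k)) := ((continuous_fr k).tendsto u0).comp h

/-- the final contradiction -/
theorem false_of_data (g : E3 → ℝ) (hg : GoodGauge g) (p : E3) (hp : ‖p‖ = 1) (U : Ultrafilter ℕ)
    (A B : ℕ → Y3) (σ : ℕ → ℝ) (C κ : ℝ) (hlU : Tendsto lamn (U : Filter ℕ) (𝓝 0)) (hC : 0 < C) (hκ : 0 < κ)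
    (hσ : ∀ n, σ n = 1 ∨ σ n = -1)
    (hD : ∀ᶠ n in (U : Filter ℕ), Dat g p C κ (lamn n) (σ n) (A n) (B n)) : False := by
  have hlt : ∀ n, lamn n < 1 := fun n => lt_of_le_of_lt (lamn_le n) (by norm_num)
  obtain ⟨R, hR, hRb⟩ := center_bound g hg
  obtain ⟨M, hM, hgM⟩ := hg.upper
  obtain ⟨m, hm, hgm⟩ := hg.lower
  obtain ⟨C', hC', hclose⟩ := r_close g hg p hp C κ hC hκ
  obtain ⟨D, hD1, hD2, hD3, hD4⟩ := dir_deriv g hg p
  have hDD : IsD g p D := ⟨hD1, hD2, hD3, hD4⟩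
  let ra : ℕ → ℝ := fun n => inner ℝ (A n).1 p
  let va : ℕ → E3 := fun n => (lamn n)⁻¹ • ((A n).1 - ra n • p)
  let vb : ℕ → E3 := fun n => (lamn n)⁻¹ • ((B n).1 - ra n • p)
  have hAeq : ∀ n, (A n).1 = ra n • p + lamn n • va n := by
    intro n
    simp only [va, smul_smul]
    rw [mul_inv_cancel₀ (lamn_pos n).ne', one_smul]; abel
  have hBeq : ∀ n, (B n).1 = ra n • p + lamn n • vb n := by
    intro n
    simp only [vb, smul_smul]
    rw [mul_inv_cancel₀ (lamn_pos n).ne', one_smul]; abel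
  have hinv : ∀ n (w : E3), ‖(lamn n)⁻¹ • w‖ = (lamn n)⁻¹ * ‖w‖ := by
    intro n w
    rw [norm_smul, norm_inv, Real.norm_eq_abs, abs_of_pos (lamn_pos n)]
  have hva : ∀ᶠ n in (U : Filter ℕ), va n ∈ Metric.closedBall (0 : E3) C := by
    filter_upwards [hD] with n hn
    rw [mem_closedBall_zero_iff]
    simp only [va]
    rw [hinv, inv_mul_le_iff₀ (lamn_pos n)]
    have := hn.pA
    linarith
  have hvb : ∀ᶠ n in (U : Filter ℕ), vb n ∈ Metric.closedBall (0 : E3) (C + C') := by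
    filter_upwards [hD] with n hn
    rw [mem_closedBall_zero_iff]
    simp only [vb]
    rw [hinv, inv_mul_le_iff₀ (lamn_pos n)]
    have h1 := hn.pB
    have h2 := hclose _ _ _ _ (lamn_pos n) (hlt n) hn
    have e : (B n).1 - ra n • p = ((B n).1 - (inner ℝ (B n).1 p : ℝ) • p) + ((inner ℝ (B n).1 p : ℝ) - ra n) • p := by
      rw [sub_smul]; abel
    rw [e]
    refine (norm_add_le _ _).trans ?_
    rw [norm_smul, hp, mul_one, Real.norm_eq_abs]
    linarith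
  have hra : ∀ᶠ n in (U : Filter ℕ), ra n ∈ Set.Icc κ R := by
    filter_upwards [hD] with n hn
    refine ⟨hn.rA, ?_⟩
    have h1 := hRb _ _ hn.hA
    have h2 := abs_real_inner_le_norm (A n).1 p
    rw [hp, mul_one] at h2
    exact (le_abs_self _).trans (h2.trans h1)
  obtain ⟨r0, hr0, hrl⟩ := exists_lim U isCompact_Icc hra
  obtain ⟨sb, hsb, hsl⟩ := exists_lim U (isCompact_Icc (a := (0 : ℝ)) (b := 1)) (a := fun n => (A n).2.1)
    (hD.mono fun n hn => ⟨hn.hA.1.le, hn.hA.2.1.le⟩)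
  obtain ⟨ua, hua, hual⟩ := exists_lim U (isCompact_sphere (0 : ℍ[ℝ]) 1) (a := fun n => (A n).2.2)
    (hD.mono fun n hn => by simpa using hn.hA.2.2.1)
  obtain ⟨ub, hub, hubl⟩ := exists_lim U (isCompact_sphere (0 : ℍ[ℝ]) 1) (a := fun n => (B n).2.2)
    (hD.mono fun n hn => by simpa using hn.hB.2.2.1)
  obtain ⟨v0, -, hv0l⟩ := exists_lim U (isCompact_closedBall (0 : E3) C) hva
  obtain ⟨w0, -, hw0l⟩ := exists_lim U (isCompact_closedBall (0 : E3) (C + C')) hvb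
  obtain ⟨σ0, hσ0, hσl⟩ := exists_lim U ((Set.toFinite ({1, -1} : Set ℝ)).isCompact) (a := σ)
    (Eventually.of_forall fun n => by simpa using hσ n)
  have hua1 : ‖ua‖ = 1 := by simpa using hua
  have hub1 : ‖ub‖ = 1 := by simpa using hub
  have hr0pos : 0 < r0 := lt_of_lt_of_le hκ hr0.1
  have hσ0' : σ0 = 1 ∨ σ0 = -1 := by simpa using hσ0
  let ψ : E3 → ℝ := fun v => 2 * (1 - sb) * r0 * inner ℝ p v + sb * D v
  have hlim : ∀ (w : ℕ → E3) (w' : E3), Tendsto w (U : Filter ℕ) (𝓝 w') →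
      Tendsto (fun n => (lamn n)⁻¹ * (fs g (A n).2.1 (ra n • p + lamn n • w n) - fs g (A n).2.1 (ra n • p)))
        (U : Filter ℕ) (𝓝 (ψ w')) := fun w w' hw =>
    lim_psi hg hDD lamn_pos hlU hsl hrl hr0pos hw
  let c : ℕ → ℝ := fun n => -((lamn n)⁻¹ * fs g (A n).2.1 (ra n • p))
  have hcA : ∀ (τ : ℝ), (τ = 1 ∨ τ = -1) → ∀ k, Tendsto c (U : Filter ℕ) (𝓝 (ψ (v0 + τ • fr ua k))) := by
    intro τ hτ k
    have h1 : Tendsto (fun n => va n + τ • fr (A n).2.2 k) (U : Filter ℕ) (𝓝 (v0 + τ • fr ua k)) :=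
      hv0l.add ((tendsto_fr hual k).const_smul τ)
    refine (hlim _ _ h1).congr' ?_
    filter_upwards [hD] with n hn
    have e : ra n • p + lamn n • (va n + τ • fr (A n).2.2 k) = (A n).1 + τ • (lamn n • fr (A n).2.2 k) := by
      rw [hAeq n, smul_add, smul_comm (lamn n) τ]; abel
    rw [e]
    have e2 : fs g (A n).2.1 ((A n).1 + τ • (lamn n • fr (A n).2.2 k)) = 0 := by
      rcases hτ with h | h
      · rw [h, one_smul]; exact (hn.hA.2.2.2 k).1
      · rw [h, neg_one_smul, ← sub_eq_add_neg]; exact (hn.hA.2.2.2 k).2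
    rw [e2]
    simp only [c]
    ring
  have hcB : ∀ (τ : ℝ), (τ = 1 ∨ τ = -1) → ∀ k, Tendsto c (U : Filter ℕ) (𝓝 (ψ (w0 + τ • fr ub k))) := by
    intro τ hτ k
    have h1 : Tendsto (fun n => vb n + τ • fr (B n).2.2 k) (U : Filter ℕ) (𝓝 (w0 + τ • fr ub k)) :=
      hw0l.add ((tendsto_fr hubl k).const_smul τ)
    have h2 := hlim _ _ h1
    let er : ℕ → ℝ := fun n => (lamn n)⁻¹ * (fs g (A n).2.1 ((B n).1 + τ • (lamn n • fr (B n).2.2 k))
        - fs g (B n).2.1 ((B n).1 + τ • (lamn n • fr (B n).2.2 k)))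
    have her : Tendsto er (U : Filter ℕ) (𝓝 0) := by
      have h3 : Tendsto (fun n => lamn n * (4 * (M * (R + 1) + (R + 1) ^ 2))) (U : Filter ℕ) (𝓝 0) := by
        have := hlU.mul_const (4 * (M * (R + 1) + (R + 1) ^ 2))
        simpa using this
      refine squeeze_zero_norm' ?_ h3
      filter_upwards [hD] with n hn
      have h4 : ‖(B n).1 + τ • (lamn n • fr (B n).2.2 k)‖ ≤ R + 1 := by
        refine (norm_add_le _ _).trans ?_
        have h5 := hRb _ _ hn.hB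
        have h6 : ‖τ • (lamn n • fr (B n).2.2 k)‖ ≤ 1 := by
          rw [norm_smul, norm_smul, norm_fr _ hn.hB.2.2.1, Real.norm_eq_abs, Real.norm_eq_abs,
            abs_of_pos (lamn_pos n)]
          have h7 : |τ| = 1 := by rcases hτ with h | h <;> rw [h] <;> norm_num
          rw [h7]
          linarith [hlt n]
        linarith
      have h8 := fs_diff hgM hM (gg_nonneg hg) (A n).2.1 (B n).2.1 _ (R + 1) h4
      have h9 := hn.ss
      simp only [er]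
      rw [Real.norm_eq_abs, abs_mul, abs_of_pos (inv_pos.2 (lamn_pos n)), inv_mul_le_iff₀ (lamn_pos n)]
      refine h8.trans ?_
      calc |(A n).2.1 - (B n).2.1| * (M * (R + 1) + (R + 1) ^ 2) ≤ 4 * lamn n ^ 2 * (M * (R + 1) + (R + 1) ^ 2) :=
            mul_le_mul_of_nonneg_right h9 (by positivity)
        _ = _ := by ring
    have h10 := h2.sub her
    rw [sub_zero] at h10
    refine h10.congr' ?_
    filter_upwards [hD] with n hn
    have e : ra n • p + lamn n • (vb n + τ • fr (B n).2.2 k) = (B n).1 + τ • (lamn n • fr (B n).2.2 k) := by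
      rw [hBeq n, smul_add, smul_comm (lamn n) τ]; abel
    have e2 : fs g (B n).2.1 ((B n).1 + τ • (lamn n • fr (B n).2.2 k)) = 0 := by
      rcases hτ with h | h
      · rw [h, one_smul]; exact (hn.hB.2.2.2 k).1
      · rw [h, neg_one_smul, ← sub_eq_add_neg]; exact (hn.hB.2.2.2 k).2
    simp only [er, c]
    rw [e, e2]
    ring
  -- the common value
  let c0 : ℝ := ψ (v0 + (1 : ℝ) • fr ua 0)
  have hc0 : Tendsto c (U : Filter ℕ) (𝓝 c0) := hcA 1 (Or.inl rfl) 0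
  have hA0 : ∀ τ : ℝ, (τ = 1 ∨ τ = -1) → ∀ k, ψ (v0 + τ • fr ua k) = c0 := fun τ hτ k =>
    tendsto_nhds_unique (hcA τ hτ k) hc0
  have hB0 : ∀ τ : ℝ, (τ = 1 ∨ τ = -1) → ∀ k, ψ (w0 + τ • fr ub k) = c0 := fun τ hτ k =>
    tendsto_nhds_unique (hcB τ hτ k) hc0
  -- properties of ψ
  have hψsub : ∀ x y, ψ (x + y) ≤ ψ x + ψ y := by
    intro x y
    have h1 := mul_le_mul_of_nonneg_left (hD1 x y) hsb.1
    have h2 : 0 ≤ 2 * (1 - sb) * r0 := by
      have := hsb.2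
      have : 0 ≤ 1 - sb := by linarith
      positivity
    simp only [ψ, inner_add_right]
    linarith
  have hψhom : ∀ t : ℝ, 0 ≤ t → ∀ x, ψ (t • x) = t * ψ x := by
    intro t ht x
    simp only [ψ, inner_smul_right, hD2 t ht x]
    ring
  let K : ℝ := 2 * (1 - sb) * r0 + sb * g p
  have hgp : 0 < g p := by
    have := hgm p
    rw [hp, mul_one] at this
    linarith
  have hK : 0 < K := by
    have h1 : 0 ≤ sb := hsb.1
    have h2 : 0 ≤ 1 - sb := by linarith [hsb.2]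
    have h3 : 0 ≤ (1 - sb) * r0 := mul_nonneg h2 hr0pos.le
    have h4 : 0 ≤ sb * g p := mul_nonneg h1 hgp.le
    rcases h1.lt_or_eq with h | h
    · have : 0 < sb * g p := mul_pos h hgp
      simp only [K]; linarith
    · simp only [K]; rw [← h]; linarith
  have hψp : ∀ (v : E3) (t : ℝ), ψ (v + t • p) = ψ v + t * K := by
    intro v t
    simp only [ψ, K]
    rw [hD3, inner_add_right, inner_smul_right, real_inner_self_eq_norm_sq, hp]
    ring
  -- the shifted centers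
  have hshift : ∀ (v w : E3), ψ (v + w) = c0 → ψ ((v + (-(c0 / K)) • p) + w) = 0 := by
    intro v w h
    have e : (v + (-(c0 / K)) • p) + w = (v + w) + (-(c0 / K)) • p := by abel
    rw [e, hψp, h]
    field_simp
    ring
  -- the half turn
  have hre : (star ua * ub).re = 0 := by
    have h1 : Tendsto (fun n => (star (A n).2.2 * (B n).2.2).re) (U : Filter ℕ) (𝓝 ((star ua * ub).re)) := by
      have h2 : Tendsto (fun n => star (A n).2.2 * (B n).2.2) (U : Filter ℕ) (𝓝 (star ua * ub)) :=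
        ((continuous_star.tendsto ua).comp hual).mul hubl
      exact (Quaternion.continuous_re.tendsto _).comp h2
    have h3 : Tendsto (fun n => (star (A n).2.2 * (B n).2.2).re) (U : Filter ℕ) (𝓝 0) := by
      have h4 : Tendsto (fun n => 4 * lamn n ^ 2) (U : Filter ℕ) (𝓝 0) := by
        have := (hlU.pow 2).const_mul 4
        simpa using this
      refine squeeze_zero_norm' ?_ h4
      filter_upwards [hD] with n hn
      rw [Real.norm_eq_abs]
      exact hn.uu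
    exact tendsto_nhds_unique h1 h3
  obtain ⟨q, hq, hqk⟩ := fr_half_turn ua ub hua1 hub1 hre
  -- limits of the centers
  have hAl : Tendsto (fun n => (A n).1) (U : Filter ℕ) (𝓝 (r0 • p)) := by
    have h1 := (hrl.smul_const p).add (hlU.smul hv0l)
    rw [zero_smul, add_zero] at h1
    refine h1.congr fun n => (hAeq n).symm
  have hBl : Tendsto (fun n => (B n).1) (U : Filter ℕ) (𝓝 (r0 • p)) := by
    have h1 := (hrl.smul_const p).add (hlU.smul hw0l)
    rw [zero_smul, add_zero] at h1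
    refine h1.congr fun n => (hBeq n).symm
  have hsA : ∀ k, κ ≤ σ0 * inner ℝ (r0 • p) (fr ua k) := by
    intro k
    have h1 : Tendsto (fun n => σ n * inner ℝ (A n).1 (fr (A n).2.2 k)) (U : Filter ℕ)
        (𝓝 (σ0 * inner ℝ (r0 • p) (fr ua k))) := hσl.mul (hAl.inner (tendsto_fr hual k))
    exact ge_of_tendsto h1 (hD.mono fun n hn => hn.sA k)
  have hsB : ∀ k, κ ≤ σ0 * inner ℝ (r0 • p) (fr ub k) := by
    intro k
    have h1 : Tendsto (fun n => σ n * inner ℝ (B n).1 (fr (B n).2.2 k)) (U : Filter ℕ)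
        (𝓝 (σ0 * inner ℝ (r0 • p) (fr ub k))) := hσl.mul (hBl.inner (tendsto_fr hubl k))
    exact ge_of_tendsto h1 (hD.mono fun n hn => hn.sB k)
  have hpos : ∀ w : E3, κ ≤ σ0 * inner ℝ (r0 • p) w → 0 < σ0 * inner ℝ w p := by
    intro w hw
    rw [inner_smul_left, real_inner_comm] at hw
    simp only [conj_trivial] at hw
    by_contra hcon
    have h1 : r0 * (σ0 * inner ℝ w p) ≤ 0 := mul_nonpos_of_nonneg_of_nonpos hr0pos.le (not_lt.1 hcon)
    linarith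
  have hσsq : σ0 * σ0 = 1 := by rcases hσ0' with h | h <;> rw [h] <;> norm_num
  have hσneg : (-σ0 = 1 ∨ -σ0 = -1) := by rcases hσ0' with h | h <;> rw [h] <;> norm_num
  let a : Fin 3 → E3 := fun i => (-σ0) • fr ua i
  have hor := fr_orthonormal ua hua1
  have ha : Orthonormal ℝ a := by
    refine ⟨fun i => ?_, fun i j hij => ?_⟩
    · simp only [a]
      rw [norm_smul, hor.1 i, mul_one, norm_neg, Real.norm_eq_abs]
      rcases hσ0' with h | h <;> rw [h] <;> norm_num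
    · simp only [a]
      rw [inner_smul_left, inner_smul_right, hor.2 hij]
      simp
  have hb : ∀ i, (2 * inner ℝ (a i) q) • q - a i = (-σ0) • fr ub i := by
    intro i
    simp only [a]
    rw [hqk i, inner_smul_left, smul_sub, smul_smul]
    simp only [conj_trivial]
    congr 2
    ring
  refine cone_lemma ψ hψsub hψhom (-p) ?_ a ha q hq (v0 + (-(c0 / K)) • p) (w0 + (-(c0 / K)) • p) ?_ ?_ ?_ ?_
  · have h1 := hψp 0 (-1)
    have h2 : ψ 0 = 0 := by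
      have := hψhom 0 le_rfl 0
      simpa using this
    rw [h2, zero_add, neg_one_smul] at h1
    rw [h1]; linarith
  · intro i
    refine ⟨hshift _ _ (hA0 (-σ0) hσneg i), ?_⟩
    have h1 := hshift _ _ (hA0 σ0 hσ0' i)
    have e : (v0 + (-(c0 / K)) • p) - a i = (v0 + (-(c0 / K)) • p) + σ0 • fr ua i := by
      simp only [a]; module
    rw [e]; exact h1
  · intro i
    rw [hb i]
    refine ⟨hshift _ _ (hB0 (-σ0) hσneg i), ?_⟩
    have h1 := hshift _ _ (hB0 σ0 hσ0' i)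
    have e : (w0 + (-(c0 / K)) • p) - (-σ0) • fr ub i = (w0 + (-(c0 / K)) • p) + σ0 • fr ub i := by
      module
    rw [e]; exact h1
  · intro i
    simp only [a]
    rw [inner_neg_right, inner_smul_left]
    simp only [conj_trivial]
    have := hpos _ (hsA i)
    linarith
  · intro i
    rw [hb i, inner_neg_right, inner_smul_left]
    simp only [conj_trivial]
    have := hpos _ (hsB i)
    linarith

end GM

/-- main theorem for gauges -/
theorem gauge_main (g : E3 → ℝ) (hg : GoodGauge g) :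
    ∃ (c : E3) (u : ℍ[ℝ]) (r : ℝ), ‖u‖ = 1 ∧ 0 < r ∧
      ∀ k : Fin 3, g (c + r • fr u k) = 1 ∧ g (c - r • fr u k) = 1 := by
  by_contra hcon
  have hno : GM.NoOcta g := by
    intro c u r hu hr h
    exact hcon ⟨c, u, r, hu, hr, h⟩
  obtain ⟨p, U, A, B, σ, C, κ, hp, hl, hC, hκ, hσ, hD⟩ := GM.exists_data g hg hno
  exact GM.false_of_data g hg p hp U A B σ C κ hl hC hκ hσ hD

end Pool.Agent.Octa
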