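import Pool.Agent.Octa.Top
import Pool.Agent.Octa.Cells

/-! module SETUP (A1): Miranda boundary conditions, section 1.5 of proof_MP_f08f91_co.md -/

set_option autoImplicit false

namespace Pool.Agent.Octa
open Quaternion

namespace Setup

/-- parameters of the homotopy -/
noncomputable def sC (τ : ℝ) : ℝ := max 0 (min τ 1)
noncomputable def cC (τ : ℝ) : ℝ := 1 + min τ 0
noncomputable def lC (lam Lam τ : ℝ) : ℝ := lam + max (τ - 1) 0 * (Lam - lam)

noncomputable def ff (g : E3 → ℝ) (τ : ℝ) (x : E3) : ℝ :=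
  (1 - sC τ) * cC τ * ‖x‖ ^ 2 + sC τ * g x - 1

/-- value at the upper vertex -/
noncomputable def fp (g : E3 → ℝ) (lam Lam : ℝ) (k : Fin 3) (z : Y3) : ℝ :=
  ff g z.2.1 (z.1 + lC lam Lam z.2.1 • fr z.2.2 k)

/-- value at the lower vertex -/
noncomputable def fm (g : E3 → ℝ) (lam Lam : ℝ) (k : Fin 3) (z : Y3) : ℝ :=
  ff g z.2.1 (z.1 - lC lam Lam z.2.1 • fr z.2.2 k)

noncomputable def aa (g : E3 → ℝ) (lam Lam : ℝ) (k : Fin 3) (z : Y3) : ℝ :=
  fp g lam Lam k z + fm g lam Lam k z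

noncomputable def vv (g : E3 → ℝ) (lam Lam : ℝ) (z : Y3) : E3 :=
  ∑ k : Fin 3, (fp g lam Lam k z - fm g lam Lam k z) • fr z.2.2 k

noncomputable def xinf (x : E3) : ℝ := max |x 0| (max |x 1| |x 2|)

noncomputable def coe (Cc ρ0 : ℝ) (z : Y3) : ℝ := - min z.2.1 0 + Cc * max 0 (xinf z.1 - ρ0)

noncomputable def Fv (g : E3 → ℝ) (lam Lam Cc ρ0 : ℝ) (z : Y3) : E3 :=
  vv g lam Lam z + coe Cc ρ0 z • z.1

noncomputable def Fz (g : E3 → ℝ) (lam Lam Cc ρ0 : ℝ) (i : Fin 4) (z : Y3) : ℝ :=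
  (![Fv g lam Lam Cc ρ0 z 0, Fv g lam Lam Cc ρ0 z 1, Fv g lam Lam Cc ρ0 z 2,
    ∑ k : Fin 3, aa g lam Lam k z] : Fin 4 → ℝ) i

/-! ### continuity -/

theorem continuous_gauge {g : E3 → ℝ} (hg : GoodGauge g) : Continuous g := by
  obtain ⟨M, hM, hup⟩ := hg.upper
  have key : ∀ x y, g x - g y ≤ M * ‖x - y‖ := by
    intro x y
    have h1 := hg.sub (x - y) y
    rw [sub_add_cancel] at h1
    have h2 := hup (x - y)
    linarith
  rw [Metric.continuous_iff]
  intro b ε hε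
  refine ⟨ε / M, by positivity, fun a ha => ?_⟩
  rw [dist_eq_norm] at ha
  have h1 := key a b
  have h2 := key b a
  rw [norm_sub_rev] at h2
  have h3 : M * ‖a - b‖ < ε := by
    rw [lt_div_iff₀ hM] at ha
    linarith [mul_comm M ‖a - b‖]
  rw [Real.dist_eq, abs_lt]
  constructor <;> linarith

theorem continuous_sC : Continuous sC := by unfold sC; fun_prop
theorem continuous_cC : Continuous cC := by unfold cC; fun_prop
theorem continuous_lC (lam Lam : ℝ) : Continuous (lC lam Lam) := by unfold lC; fun_prop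

theorem continuous_fp {g : E3 → ℝ} (hg : Continuous g) (lam Lam : ℝ) (k : Fin 3) :
    Continuous (fp g lam Lam k) := by
  have h1 := continuous_sC
  have h2 := continuous_cC
  have h3 := continuous_lC lam Lam
  have h4 := continuous_fr k
  have h5 : Continuous (fun z : Y3 => z.1 + lC lam Lam z.2.1 • fr z.2.2 k) := by
    have : Continuous (fun z : Y3 => fr z.2.2 k) := h4.comp (continuous_snd.comp continuous_snd)
    have h6 : Continuous (fun z : Y3 => lC lam Lam z.2.1) := h3.comp (continuous_fst.comp continuous_snd)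
    exact continuous_fst.add (h6.smul this)
  have h7 : Continuous (fun z : Y3 => sC z.2.1) := h1.comp (continuous_fst.comp continuous_snd)
  have h8 : Continuous (fun z : Y3 => cC z.2.1) := h2.comp (continuous_fst.comp continuous_snd)
  unfold fp ff
  exact ((((continuous_const.sub h7).mul h8).mul (h5.norm.pow 2)).add (h7.mul (hg.comp h5))).sub
    continuous_const

theorem continuous_fm {g : E3 → ℝ} (hg : Continuous g) (lam Lam : ℝ) (k : Fin 3) :
    Continuous (fm g lam Lam k) := by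
  have h1 := continuous_sC
  have h2 := continuous_cC
  have h3 := continuous_lC lam Lam
  have h4 := continuous_fr k
  have h5 : Continuous (fun z : Y3 => z.1 - lC lam Lam z.2.1 • fr z.2.2 k) := by
    have : Continuous (fun z : Y3 => fr z.2.2 k) := h4.comp (continuous_snd.comp continuous_snd)
    have h6 : Continuous (fun z : Y3 => lC lam Lam z.2.1) := h3.comp (continuous_fst.comp continuous_snd)
    exact continuous_fst.sub (h6.smul this)
  have h7 : Continuous (fun z : Y3 => sC z.2.1) := h1.comp (continuous_fst.comp continuous_snd)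
  have h8 : Continuous (fun z : Y3 => cC z.2.1) := h2.comp (continuous_fst.comp continuous_snd)
  unfold fm ff
  exact ((((continuous_const.sub h7).mul h8).mul (h5.norm.pow 2)).add (h7.mul (hg.comp h5))).sub
    continuous_const

theorem continuous_aa {g : E3 → ℝ} (hg : Continuous g) (lam Lam : ℝ) (k : Fin 3) :
    Continuous (aa g lam Lam k) :=
  (continuous_fp hg lam Lam k).add (continuous_fm hg lam Lam k)

theorem continuous_vv {g : E3 → ℝ} (hg : Continuous g) (lam Lam : ℝ) :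
    Continuous (vv g lam Lam) := by
  unfold vv
  refine continuous_finsetSum _ fun k _ => ?_
  exact ((continuous_fp hg lam Lam k).sub (continuous_fm hg lam Lam k)).smul
    ((continuous_fr k).comp (continuous_snd.comp continuous_snd))

theorem continuous_coord (i : Fin 3) : Continuous (fun x : E3 => x i) := by fun_prop

theorem continuous_xinf : Continuous xinf := by
  unfold xinf
  exact (continuous_coord 0).abs.max ((continuous_coord 1).abs.max (continuous_coord 2).abs)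

theorem continuous_coe (Cc ρ0 : ℝ) : Continuous (coe Cc ρ0) := by
  unfold coe
  have h1 : Continuous (fun z : Y3 => xinf z.1) := continuous_xinf.comp continuous_fst
  have h2 : Continuous (fun z : Y3 => z.2.1) := continuous_fst.comp continuous_snd
  exact (h2.min continuous_const).neg.add (continuous_const.mul (continuous_const.max (h1.sub continuous_const)))

theorem continuous_Fv {g : E3 → ℝ} (hg : Continuous g) (lam Lam Cc ρ0 : ℝ) :
    Continuous (Fv g lam Lam Cc ρ0) :=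
  (continuous_vv hg lam Lam).add ((continuous_coe Cc ρ0).smul continuous_fst)

theorem continuous_Fz {g : E3 → ℝ} (hg : Continuous g) (lam Lam Cc ρ0 : ℝ) (i : Fin 4) :
    Continuous (Fz g lam Lam Cc ρ0 i) := by
  have h := continuous_Fv hg lam Lam Cc ρ0
  fin_cases i
  · exact (continuous_coord 0).comp h
  · exact (continuous_coord 1).comp h
  · exact (continuous_coord 2).comp h
  · have h2 : Continuous (fun z : Y3 => ∑ k : Fin 3, aa g lam Lam k z) :=
      continuous_finsetSum _ fun k _ => continuous_aa hg lam Lam k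
    exact h2

/-! ### invariance -/

theorem fp_gam (g : E3 → ℝ) (lam Lam : ℝ) (k : Fin 3) (z : Y3) :
    fp g lam Lam k (gam z) = fp g lam Lam (k - 1) z := by
  simp only [fp, gam, fr_mul_om]

theorem fm_gam (g : E3 → ℝ) (lam Lam : ℝ) (k : Fin 3) (z : Y3) :
    fm g lam Lam k (gam z) = fm g lam Lam (k - 1) z := by
  simp only [fm, gam, fr_mul_om]

theorem aa_gam (g : E3 → ℝ) (lam Lam : ℝ) (k : Fin 3) (z : Y3) :
    aa g lam Lam k (gam z) = aa g lam Lam (k - 1) z := by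
  simp only [aa, fp_gam, fm_gam]

theorem sum_shift {M : Type*} [AddCommMonoid M] (f : Fin 3 → M) : ∑ k, f (k - 1) = ∑ k, f k :=
  Equiv.sum_comp (Equiv.subRight (1 : Fin 3)) f

theorem vv_gam (g : E3 → ℝ) (lam Lam : ℝ) (z : Y3) : vv g lam Lam (gam z) = vv g lam Lam z := by
  unfold vv
  rw [← sum_shift (fun k => (fp g lam Lam k z - fm g lam Lam k z) • fr z.2.2 k)]
  refine Finset.sum_congr rfl fun k _ => ?_
  rw [fp_gam, fm_gam]
  simp only [gam, fr_mul_om]

theorem Fv_gam (g : E3 → ℝ) (lam Lam Cc ρ0 : ℝ) (z : Y3) :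
    Fv g lam Lam Cc ρ0 (gam z) = Fv g lam Lam Cc ρ0 z := by
  unfold Fv
  rw [vv_gam]
  rfl

theorem Fz_gam (g : E3 → ℝ) (lam Lam Cc ρ0 : ℝ) (i : Fin 4) (z : Y3) :
    Fz g lam Lam Cc ρ0 i (gam z) = Fz g lam Lam Cc ρ0 i z := by
  have h := Fv_gam g lam Lam Cc ρ0 z
  have h2 : ∑ k : Fin 3, aa g lam Lam k (gam z) = ∑ k : Fin 3, aa g lam Lam k z := by
    rw [← sum_shift (fun k => aa g lam Lam k z)]
    exact Finset.sum_congr rfl fun k _ => aa_gam g lam Lam k z
  unfold Fz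
  rw [h, h2]

/-! ### values of the parameters -/

theorem sC_of_nonpos {τ : ℝ} (h : τ ≤ 0) : sC τ = 0 := by
  unfold sC; rw [max_eq_left]; exact (min_le_left _ _).trans h
theorem sC_of_mid {τ : ℝ} (h : 0 ≤ τ) (h1 : τ ≤ 1) : sC τ = τ := by
  unfold sC; rw [min_eq_left h1, max_eq_right h]
theorem sC_of_ge {τ : ℝ} (h : 1 ≤ τ) : sC τ = 1 := by
  unfold sC; rw [min_eq_right h, max_eq_right zero_le_one]
theorem sC_nonneg (τ : ℝ) : 0 ≤ sC τ := le_max_left _ _
theorem sC_le_one (τ : ℝ) : sC τ ≤ 1 := max_le zero_le_one (min_le_right _ _)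
theorem cC_of_nonneg {τ : ℝ} (h : 0 ≤ τ) : cC τ = 1 := by
  unfold cC; rw [min_eq_right h]; ring
theorem cC_of_nonpos {τ : ℝ} (h : τ ≤ 0) : cC τ = 1 + τ := by
  unfold cC; rw [min_eq_left h]
theorem cC_nonneg {τ : ℝ} (h : -1 ≤ τ) : 0 ≤ cC τ := by
  unfold cC
  have : -1 ≤ min τ 0 := le_min h (by norm_num)
  linarith
theorem cC_le_one (τ : ℝ) : cC τ ≤ 1 := by
  unfold cC
  have : min τ 0 ≤ 0 := min_le_right _ _
  linarith
theorem lC_of_le {lam Lam τ : ℝ} (h : τ ≤ 1) : lC lam Lam τ = lam := by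
  unfold lC; rw [max_eq_right (by linarith)]; ring
theorem lC_two (lam Lam : ℝ) : lC lam Lam 2 = Lam := by
  unfold lC; rw [max_eq_left (by norm_num)]; ring
theorem lC_ge {lam Lam τ : ℝ} (h : lam ≤ Lam) : lam ≤ lC lam Lam τ := by
  unfold lC
  have := mul_nonneg (le_max_right (τ - 1) 0) (sub_nonneg.2 h)
  linarith
theorem lC_le {lam Lam τ : ℝ} (h : lam ≤ Lam) (h2 : τ ≤ 2) : lC lam Lam τ ≤ Lam := by
  unfold lC
  have h1 : max (τ - 1) 0 ≤ 1 := max_le (by linarith) zero_le_one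
  have := mul_le_mul_of_nonneg_right h1 (sub_nonneg.2 h)
  linarith

/-! ### the sup norm -/

theorem abs_le_xinf (x : E3) (i : Fin 3) : |x i| ≤ xinf x := by
  unfold xinf
  fin_cases i
  · exact le_max_left _ _
  · exact (le_max_left _ _).trans (le_max_right _ _)
  · exact (le_max_right _ _).trans (le_max_right _ _)

theorem xinf_le {x : E3} {r : ℝ} (h : ∀ i, |x i| ≤ r) : xinf x ≤ r :=
  max_le (h 0) (max_le (h 1) (h 2))

theorem abs_coord_le (x : E3) (i : Fin 3) : |x i| ≤ ‖x‖ := by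
  have := EuclideanSpace.norm_eq x
  rw [this]
  refine Real.abs_le_sqrt ?_
  have : (x i) ^ 2 = ‖x i‖ ^ 2 := by rw [Real.norm_eq_abs, sq_abs]
  rw [this]
  exact Finset.single_le_sum (f := fun j => ‖x j‖ ^ 2) (fun j _ => by positivity) (Finset.mem_univ i)

theorem norm_le_of_coord {x : E3} {r : ℝ} (hr : 0 ≤ r) (h : ∀ i, |x i| ≤ r) : ‖x‖ ≤ 2 * r := by
  rw [EuclideanSpace.norm_eq]
  refine Real.sqrt_le_iff.2 ⟨by linarith, ?_⟩
  rw [Fin.sum_univ_three]
  have h' : ∀ i, ‖x i‖ ^ 2 ≤ r ^ 2 := by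
    intro i
    rw [Real.norm_eq_abs]
    exact pow_le_pow_left₀ (abs_nonneg _) (h i) 2
  nlinarith [h' 0, h' 1, h' 2]

/-! ### zeros -/

theorem norm_fr {u : ℍ[ℝ]} (hu : ‖u‖ = 1) (k : Fin 3) : ‖fr u k‖ = 1 := (fr_orthonormal u hu).1 k

theorem vv_inner {g : E3 → ℝ} {lam Lam : ℝ} {z : Y3} (hu : ‖z.2.2‖ = 1) (k : Fin 3) :
    inner ℝ (vv g lam Lam z) (fr z.2.2 k) = fp g lam Lam k z - fm g lam Lam k z := by
  have ho := fr_orthonormal z.2.2 hu
  unfold vv
  rw [sum_inner, Finset.sum_eq_single k]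
  · rw [real_inner_smul_left, real_inner_self_eq_norm_sq, ho.1 k]; ring
  · intro j _ hj
    rw [real_inner_smul_left, ho.2 hj, mul_zero]
  · intro h; exact absurd (Finset.mem_univ k) h

theorem ff_nonpos {g : E3 → ℝ} {τ : ℝ} (h : τ ≤ 0) (x : E3) : ff g τ x = (1 + τ) * ‖x‖ ^ 2 - 1 := by
  unfold ff; rw [sC_of_nonpos h, cC_of_nonpos h]; ring

theorem ff_nonneg {g : E3 → ℝ} {τ : ℝ} (h : 0 ≤ τ) (x : E3) :
    ff g τ x = (1 - sC τ) * ‖x‖ ^ 2 + sC τ * g x - 1 := by
  unfold ff; rw [cC_of_nonneg h]; ring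

/-- no zeros with `τ ≤ 0` -/
theorem no_zero_nonpos {g : E3 → ℝ} {lam Lam Cc ρ0 : ℝ} (h0 : 0 < lam) (h1 : lam < 1)
    (hCc : 0 ≤ Cc) {z : Y3} (hu : ‖z.2.2‖ = 1) (hτ : -1 ≤ z.2.1) (hτ0 : z.2.1 ≤ 0)
    (hF : Fv g lam Lam Cc ρ0 z = 0) (ha : ∀ k, aa g lam Lam k z = 0) : False := by
  have hl : lC lam Lam z.2.1 = lam := lC_of_le (by linarith)
  have hfp : ∀ k, fp g lam Lam k z = (1 + z.2.1) * ‖z.1 + lam • fr z.2.2 k‖ ^ 2 - 1 := by
    intro k; unfold fp; rw [hl, ff_nonpos hτ0]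
  have hfm : ∀ k, fm g lam Lam k z = (1 + z.2.1) * ‖z.1 - lam • fr z.2.2 k‖ ^ 2 - 1 := by
    intro k; unfold fm; rw [hl, ff_nonpos hτ0]
  have hn : ∀ k, ‖lam • fr z.2.2 k‖ ^ 2 = lam ^ 2 := by
    intro k; rw [norm_smul, norm_fr hu k, mul_one, Real.norm_eq_abs, sq_abs]
  have hi : ∀ k, inner ℝ z.1 (lam • fr z.2.2 k) = lam * inner ℝ z.1 (fr z.2.2 k) := by
    intro k; rw [real_inner_smul_right]
  have hdiff : ∀ k, fp g lam Lam k z - fm g lam Lam k z
      = 4 * (1 + z.2.1) * lam * inner ℝ z.1 (fr z.2.2 k) := by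
    intro k
    rw [hfp, hfm, norm_add_sq_real, norm_sub_sq_real, hi]; ring
  have hv : vv g lam Lam z = (4 * (1 + z.2.1) * lam) • z.1 := by
    conv_rhs => rw [sum_fr z.2.2 hu z.1]
    unfold vv
    rw [Fin.sum_univ_three, hdiff, hdiff, hdiff, smul_add, smul_add, smul_smul, smul_smul, smul_smul]
  have hx : z.1 = 0 := by
    unfold Fv at hF
    rw [hv, ← add_smul] at hF
    rcases smul_eq_zero.1 hF with h | h
    · exfalso
      unfold coe at h
      rw [min_eq_left hτ0] at h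
      have h5 : 0 ≤ Cc * max 0 (xinf z.1 - ρ0) := mul_nonneg hCc (le_max_left _ _)
      have h6 : 0 ≤ (1 + z.2.1) * lam := mul_nonneg (by linarith) h0.le
      rcases eq_or_lt_of_le hτ with h7 | h7
      · rw [← h7] at h h6; linarith
      · have : 0 < (1 + z.2.1) * lam := mul_pos (by linarith) h0
        linarith
    · exact h
  have h2 := ha 0
  unfold aa at h2
  rw [hfp, hfm, hx, zero_add, zero_sub, norm_neg, hn] at h2
  have h3 : (1 + z.2.1) * lam ^ 2 ≤ 1 * lam ^ 2 :=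
    mul_le_mul_of_nonneg_right (by linarith) (by positivity)
  nlinarith

theorem gauge_mid {g : E3 → ℝ} (hg : GoodGauge g) (x v : E3) : 2 * g x ≤ g (x + v) + g (x - v) := by
  have h1 := hg.sub (x + v) (x - v)
  have h2 := hg.hom 2 (by norm_num) x
  have h3 : x + v + (x - v) = (2 : ℝ) • x := by rw [two_smul]; abel
  rw [h3, h2] at h1
  exact h1

theorem ff_mid {g : E3 → ℝ} (hg : GoodGauge g) {τ : ℝ} (h : 0 ≤ τ) (x v : E3) :
    2 * ff g τ x ≤ ff g τ (x + v) + ff g τ (x - v) := by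
  rw [ff_nonneg h, ff_nonneg h, ff_nonneg h, norm_add_sq_real, norm_sub_sq_real]
  have h1 := mul_le_mul_of_nonneg_left (gauge_mid hg x v) (sC_nonneg τ)
  have h2 : 0 ≤ (1 - sC τ) * ‖v‖ ^ 2 := mul_nonneg (by linarith [sC_le_one τ]) (by positivity)
  nlinarith

/-- outside a ball the function is positive -/
theorem ff_pos_far {g : E3 → ℝ} {m : ℝ} (hlow : ∀ x, m * ‖x‖ ≤ g x) {τ : ℝ}
    (h : 0 ≤ τ) {x : E3} (h1 : 1 < ‖x‖) (h2 : 1 < m * ‖x‖) : 0 < ff g τ x := by
  rw [ff_nonneg h]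
  have hs := sC_nonneg τ
  have hs1 := sC_le_one τ
  have h3 : sC τ * (m * ‖x‖) ≤ sC τ * g x := mul_le_mul_of_nonneg_left (hlow x) hs
  have h4 : 1 < ‖x‖ ^ 2 := by nlinarith
  rcases eq_or_lt_of_le hs with h5 | h5
  · rw [← h5]; linarith
  · have h6 : sC τ * 1 < sC τ * (m * ‖x‖) := mul_lt_mul_of_pos_left h2 h5
    have h7 : (1 - sC τ) * 1 ≤ (1 - sC τ) * ‖x‖ ^ 2 := mul_le_mul_of_nonneg_left h4.le (by linarith)
    linarith

/-- zeros with `τ ≥ 0` -/
theorem zero_nonneg {g : E3 → ℝ} (hg : GoodGauge g) {m : ℝ} (hm : 0 < m)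
    (hlow : ∀ x, m * ‖x‖ ≤ g x) {lam Lam Cc ρ0 : ℝ}
    (hρ1 : 1 < ρ0) (hρ2 : 1 < m * ρ0) {z : Y3} (hu : ‖z.2.2‖ = 1) (hτ : 0 ≤ z.2.1)
    (hF : Fv g lam Lam Cc ρ0 z = 0) (ha : ∀ k, aa g lam Lam k z = 0) (k : Fin 3) :
    fp g lam Lam k z = 0 ∧ fm g lam Lam k z = 0 := by
  have hx : ‖z.1‖ < ρ0 := by
    by_contra hcon
    push Not at hcon
    have h1 : 0 < ff g z.2.1 z.1 :=
      ff_pos_far hlow hτ (lt_of_lt_of_le hρ1 hcon)
        (lt_of_lt_of_le hρ2 (mul_le_mul_of_nonneg_left hcon hm.le))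
    have h2 := ff_mid hg hτ z.1 (lC lam Lam z.2.1 • fr z.2.2 0)
    have h3 := ha 0
    unfold aa fp fm at h3
    linarith
  have hc : coe Cc ρ0 z = 0 := by
    unfold coe
    rw [min_eq_right hτ, max_eq_left]
    · ring
    · have : xinf z.1 ≤ ‖z.1‖ := xinf_le (abs_coord_le z.1)
      linarith
  have hv : vv g lam Lam z = 0 := by
    unfold Fv at hF
    rwa [hc, zero_smul, add_zero] at hF
  have h4 := vv_inner (g := g) (lam := lam) (Lam := Lam) hu k
  rw [hv, inner_zero_left] at h4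
  have h5 := ha k
  unfold aa at h5
  constructor <;> linarith

/-! ### boundary estimates -/

theorem abs_ff_le {g : E3 → ℝ} {m M : ℝ} (_hm : 0 < m) (hlow : ∀ x, m * ‖x‖ ≤ g x)
    (hM : 0 < M) (hup : ∀ x, g x ≤ M * ‖x‖) {τ : ℝ} (hτ : -1 ≤ τ) {x : E3} {R : ℝ} (hx : ‖x‖ ≤ R) :
    |ff g τ x| ≤ R ^ 2 + M * R + 1 := by
  have h0 := norm_nonneg x
  have hs := sC_nonneg τ
  have hs1 := sC_le_one τ
  have hc := cC_nonneg hτ
  have hc1 := cC_le_one τ
  have hg0 : 0 ≤ g x := le_trans (mul_nonneg _hm.le h0) (hlow x)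
  have hg1 : g x ≤ M * R := (hup x).trans (mul_le_mul_of_nonneg_left hx hM.le)
  have hn : ‖x‖ ^ 2 ≤ R ^ 2 := pow_le_pow_left₀ h0 hx 2
  have hA0 : 0 ≤ (1 - sC τ) * cC τ := mul_nonneg (by linarith) hc
  have hA1 : (1 - sC τ) * cC τ ≤ 1 := by nlinarith
  have e1 : (1 - sC τ) * cC τ * ‖x‖ ^ 2 ≤ R ^ 2 := by
    have := mul_le_mul hA1 hn (by positivity) zero_le_one
    linarith
  have e0 : 0 ≤ (1 - sC τ) * cC τ * ‖x‖ ^ 2 := by positivity
  have e2 : sC τ * g x ≤ M * R := by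
    have := mul_le_mul hs1 hg1 hg0 zero_le_one
    linarith
  have e3 : 0 ≤ sC τ * g x := mul_nonneg hs hg0
  unfold ff
  rw [abs_le]
  constructor <;> nlinarith [hM, h0.trans hx]

theorem norm_vertex_le {ρ lam Lam : ℝ} (h0 : 0 < lam) (hl : lam ≤ Lam) {z : Y3}
    (hx : ‖z.1‖ ≤ 2 * ρ) (hu : ‖z.2.2‖ = 1) (hτ : z.2.1 ≤ 2) (k : Fin 3) :
    ‖z.1 + lC lam Lam z.2.1 • fr z.2.2 k‖ ≤ 2 * ρ + Lam ∧
      ‖z.1 - lC lam Lam z.2.1 • fr z.2.2 k‖ ≤ 2 * ρ + Lam := by
  have h1 : ‖lC lam Lam z.2.1 • fr z.2.2 k‖ ≤ Lam := by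
    rw [norm_smul, norm_fr hu k, mul_one, Real.norm_eq_abs, abs_of_nonneg (h0.le.trans (lC_ge hl))]
    exact lC_le hl hτ
  exact ⟨(norm_add_le _ _).trans (add_le_add hx h1), (norm_sub_le _ _).trans (add_le_add hx h1)⟩

theorem norm_vv_le {g : E3 → ℝ} {lam Lam B : ℝ} {z : Y3} (hu : ‖z.2.2‖ = 1)
    (h : ∀ k, |fp g lam Lam k z| ≤ B ∧ |fm g lam Lam k z| ≤ B) : ‖vv g lam Lam z‖ ≤ 6 * B := by
  unfold vv
  refine (norm_sum_le _ _).trans ?_
  rw [Fin.sum_univ_three]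
  have : ∀ k, ‖(fp g lam Lam k z - fm g lam Lam k z) • fr z.2.2 k‖ ≤ 2 * B := by
    intro k
    rw [norm_smul, norm_fr hu k, mul_one, Real.norm_eq_abs]
    have h1 := abs_le.1 (h k).1
    have h2 := abs_le.1 (h k).2
    rw [abs_le]
    constructor <;> linarith
  linarith [this 0, this 1, this 2]

/-! ### the configuration space and the cells -/

noncomputable def xq (ρ : ℝ) (q : Fin 7 → ℝ) : E3 :=
  !₂[ρ * (2 * q 0 - 1), ρ * (2 * q 1 - 1), ρ * (2 * q 2 - 1)]

noncomputable def ptt (ρ : ℝ) (k : Fin 3) (q : Fin 7 → ℝ) : Y3 :=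
  (xq ρ q, 3 * q 3 - 1, cell k (q 4) (q 5) (q 6))

def CC (ρ : ℝ) : Set Y3 :=
  {z | (∀ i, |z.1 i| ≤ ρ) ∧ -1 ≤ z.2.1 ∧ z.2.1 ≤ 2 ∧ ‖z.2.2‖ = 1}

theorem isCompact_CC {ρ : ℝ} (hρ : 0 ≤ ρ) : IsCompact (CC ρ) := by
  have : ProperSpace ℍ[ℝ] := FiniteDimensional.proper ℝ ℍ[ℝ]
  have hK : IsCompact ((Metric.closedBall (0 : E3) (2 * ρ)) ×ˢ
      ((Set.Icc (-1 : ℝ) 2) ×ˢ (Metric.sphere (0 : ℍ[ℝ]) 1))) :=
    (isCompact_closedBall _ _).prod (isCompact_Icc.prod (isCompact_sphere _ _))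
  refine hK.of_isClosed_subset ?_ ?_
  · have c1 : ∀ i : Fin 3, IsClosed {z : Y3 | |z.1 i| ≤ ρ} := fun i =>
      isClosed_le ((continuous_coord i).comp continuous_fst).abs continuous_const
    have c2 : IsClosed {z : Y3 | -1 ≤ z.2.1} :=
      isClosed_le continuous_const (continuous_fst.comp continuous_snd)
    have c3 : IsClosed {z : Y3 | z.2.1 ≤ 2} :=
      isClosed_le (continuous_fst.comp continuous_snd) continuous_const
    have c4 : IsClosed {z : Y3 | ‖z.2.2‖ = 1} :=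
      isClosed_eq (continuous_snd.comp continuous_snd).norm continuous_const
    have : CC ρ = (⋂ i : Fin 3, {z : Y3 | |z.1 i| ≤ ρ}) ∩ ({z : Y3 | -1 ≤ z.2.1} ∩
        ({z : Y3 | z.2.1 ≤ 2} ∩ {z : Y3 | ‖z.2.2‖ = 1})) := by
      ext z
      simp [CC]
    rw [this]
    exact (isClosed_iInter c1).inter (c2.inter (c3.inter c4))
  · intro z hz
    obtain ⟨h1, h2, h3, h4⟩ := hz
    refine ⟨?_, ⟨h2, h3⟩, ?_⟩
    · rw [mem_closedBall_zero_iff]
      exact norm_le_of_coord hρ h1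
    · rw [mem_sphere_zero_iff_norm]
      exact h4

theorem continuous_ptt (ρ : ℝ) (k : Fin 3) : Continuous (ptt ρ k) := by
  have h1 : Continuous (xq ρ) := by
    unfold xq
    refine (PiLp.continuous_toLp 2 _).comp ?_
    refine continuous_pi fun i => ?_
    fin_cases i
    · show Continuous fun q : Fin 7 → ℝ => ρ * (2 * q 0 - 1)
      fun_prop
    · show Continuous fun q : Fin 7 → ℝ => ρ * (2 * q 1 - 1)
      fun_prop
    · show Continuous fun q : Fin 7 → ℝ => ρ * (2 * q 2 - 1)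
      fun_prop
  have h2 : Continuous (fun q : Fin 7 → ℝ => (3 * q 3 - 1 : ℝ)) := by fun_prop
  have h3 : Continuous (fun q : Fin 7 → ℝ => cell k (q 4) (q 5) (q 6)) := by
    have h4 : Continuous (fun q : Fin 7 → ℝ => ((q 4, q 5, q 6) : ℝ × ℝ × ℝ)) := by fun_prop
    exact Continuous.comp (g := fun p : ℝ × ℝ × ℝ => cell k p.1 p.2.1 p.2.2)
      (f := fun q : Fin 7 → ℝ => ((q 4, q 5, q 6) : ℝ × ℝ × ℝ)) (continuous_cell k) h4
  unfold ptt
  exact Continuous.prodMk h1 (Continuous.prodMk h2 h3)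

theorem xq_update (ρ : ℝ) (q : Fin 7 → ℝ) (j : Fin 7) (hj : 3 < j) (v : ℝ) :
    xq ρ (Function.update q j v) = xq ρ q := by
  unfold xq
  have h0 : (0 : Fin 7) ≠ j := by omega
  have h1 : (1 : Fin 7) ≠ j := by omega
  have h2 : (2 : Fin 7) ≠ j := by omega
  rw [Function.update_of_ne h0, Function.update_of_ne h1, Function.update_of_ne h2]

theorem abs_xq {ρ : ℝ} (hρ : 0 ≤ ρ) {q : Fin 7 → ℝ} (hq : q ∈ Set.Icc (0 : Fin 7 → ℝ) 1) (i : Fin 3) :
    |xq ρ q i| ≤ ρ := by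
  have key : ∀ t : ℝ, 0 ≤ t → t ≤ 1 → |ρ * (2 * t - 1)| ≤ ρ := by
    intro t h0 h1
    rw [abs_mul, abs_of_nonneg hρ]
    have : |2 * t - 1| ≤ 1 := by rw [abs_le]; constructor <;> linarith
    nlinarith
  fin_cases i
  · exact key _ (hq.1 0) (hq.2 0)
  · exact key _ (hq.1 1) (hq.2 1)
  · exact key _ (hq.1 2) (hq.2 2)

theorem ptt_mem {ρ : ℝ} (hρ : 0 ≤ ρ) (k : Fin 3) {q : Fin 7 → ℝ} (hq : q ∈ Set.Icc (0 : Fin 7 → ℝ) 1) :
    ptt ρ k q ∈ CC ρ := by
  refine ⟨fun i => abs_xq hρ hq i, ?_, ?_, norm_cell _ _ _ _⟩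
  · show -1 ≤ 3 * q 3 - 1
    have : (0 : ℝ) ≤ q 3 := hq.1 3
    linarith
  · show 3 * q 3 - 1 ≤ 2
    have : q 3 ≤ 1 := hq.2 3
    linarith

/-- the vector part on a face of the box -/
theorem face_vec {g : E3 → ℝ} {m M : ℝ} (hm : 0 < m) (hlow : ∀ x, m * ‖x‖ ≤ g x)
    (hM : 0 < M) (hup : ∀ x, g x ≤ M * ‖x‖) {lam Lam ρ0 : ℝ} (h0 : 0 < lam) (hl : lam ≤ Lam)
    (hρ1 : 1 < ρ0) {z : Y3} (hz : z ∈ CC (ρ0 + 1)) (i : Fin 3) :
    (z.1 i = -(ρ0 + 1) → Fv g lam Lam
      (6 * ((2 * (ρ0 + 1) + Lam) ^ 2 + M * (2 * (ρ0 + 1) + Lam) + 1)) ρ0 z i < 0) ∧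
    (z.1 i = ρ0 + 1 → 0 < Fv g lam Lam
      (6 * ((2 * (ρ0 + 1) + Lam) ^ 2 + M * (2 * (ρ0 + 1) + Lam) + 1)) ρ0 z i) := by
  obtain ⟨hz1, hz2, hz3, hz4⟩ := hz
  set ρ : ℝ := ρ0 + 1 with hρdef
  set B : ℝ := (2 * ρ + Lam) ^ 2 + M * (2 * ρ + Lam) + 1 with hB
  have hB1 : 0 < B := by
    have : 0 < 2 * ρ + Lam := by linarith
    positivity
  have hx : ‖z.1‖ ≤ 2 * ρ := norm_le_of_coord (by linarith) hz1
  have hv : ‖vv g lam Lam z‖ ≤ 6 * B := by
    refine norm_vv_le hz4 fun k => ?_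
    have hn := norm_vertex_le h0 hl hx hz4 hz3 k
    exact ⟨abs_ff_le hm hlow hM hup hz2 hn.1, abs_ff_le hm hlow hM hup hz2 hn.2⟩
  have hvi : |vv g lam Lam z i| ≤ 6 * B := (abs_coord_le _ i).trans hv
  have hFi : Fv g lam Lam (6 * B) ρ0 z i = vv g lam Lam z i + coe (6 * B) ρ0 z * z.1 i := by
    unfold Fv
    simp [PiLp.add_apply, PiLp.smul_apply]
  have hcoe : |z.1 i| = ρ → 6 * B ≤ coe (6 * B) ρ0 z := by
    intro hi
    have h1 : ρ ≤ xinf z.1 := hi ▸ abs_le_xinf z.1 i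
    have h2 : 1 ≤ max 0 (xinf z.1 - ρ0) := le_trans (by linarith) (le_max_right _ _)
    have h3 : min z.2.1 0 ≤ 0 := min_le_right _ _
    unfold coe
    have h4 : 6 * B * 1 ≤ 6 * B * max 0 (xinf z.1 - ρ0) :=
      mul_le_mul_of_nonneg_left h2 (by positivity)
    linarith
  have habs := abs_le.1 hvi
  constructor
  · intro hi
    have h1 := hcoe (by rw [hi, abs_neg, abs_of_pos (by linarith)])
    rw [hFi, hi]
    nlinarith
  · intro hi
    have h1 := hcoe (by rw [hi, abs_of_pos (by linarith)])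
    rw [hFi, hi]
    nlinarith

end Setup

open Setup in
theorem exists_chain (g : E3 → ℝ) (hg : GoodGauge g)
    (hno : ∀ (c : E3) (u : ℍ[ℝ]) (r : ℝ), ‖u‖ = 1 → 0 < r →
      ¬ ∀ k : Fin 3, g (c + r • fr u k) = 1 ∧ g (c - r • fr u k) = 1)
    (lam : ℝ) (h0 : 0 < lam) (h1 : lam < 1) (ε : ℝ) (hε : 0 < ε) :
    ∃ z ∈ Zset g lam, Conn (Zset g lam) ε z (gam z) := by
  obtain ⟨m, hm, hlow⟩ := hg.lower
  obtain ⟨M, hM, hup⟩ := hg.upper
  have hgc := continuous_gauge hg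
  obtain ⟨ρ0, hρ1, hρ2⟩ : ∃ ρ0 : ℝ, 1 < ρ0 ∧ 1 < m * ρ0 := by
    refine ⟨1 + max 1 (1 / m), ?_, ?_⟩
    · have : (1 : ℝ) ≤ max 1 (1 / m) := le_max_left _ _
      linarith
    · have h2 : 1 / m ≤ max 1 (1 / m) := le_max_right _ _
      have h3 : m * (1 / m) = 1 := by field_simp
      nlinarith [mul_le_mul_of_nonneg_left h2 hm.le]
  set ρ : ℝ := ρ0 + 1 with hρ
  obtain ⟨Lam, hL1, hL2⟩ : ∃ Lam : ℝ, lam ≤ Lam ∧ 1 < m * (Lam - 2 * ρ) := by
    refine ⟨2 * ρ + 1 / m + 1, ?_, ?_⟩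
    · have : 0 < 1 / m := by positivity
      linarith
    · have h3 : m * (1 / m) = 1 := by field_simp
      have : m * (2 * ρ + 1 / m + 1 - 2 * ρ) = 1 + m := by
        rw [show 2 * ρ + 1 / m + 1 - 2 * ρ = 1 / m + 1 by ring, mul_add, h3, mul_one]
      linarith
  set B : ℝ := (2 * (ρ0 + 1) + Lam) ^ 2 + M * (2 * (ρ0 + 1) + Lam) + 1 with hB
  have hB1 : 0 < B := by
    have : 0 < 2 * (ρ0 + 1) + Lam := by linarith
    positivity
  -- inclusion of the zero set
  have hsub : ∀ z : Y3, z ∈ ZZ (CC ρ) (Fz g lam Lam (6 * B) ρ0) (aa g lam Lam) → z ∈ Zset g lam := by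
    intro z hz
    obtain ⟨⟨hz1, hz2, hz3, hz4⟩, hF, ha⟩ := hz
    have hsum : ∑ k : Fin 3, aa g lam Lam k z = 0 := hF 3
    have ha' : ∀ k, aa g lam Lam k z = 0 := by
      rw [Fin.sum_univ_three, ha 1, ha 2] at hsum
      intro k
      rw [ha k]
      linarith
    have hFv : Fv g lam Lam (6 * B) ρ0 z = 0 := by
      ext i
      fin_cases i
      · exact hF 0
      · exact hF 1
      · exact hF 2
    have hτ0 : 0 < z.2.1 := by
      by_contra hcon
      push Not at hcon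
      exact no_zero_nonpos h0 h1 (by positivity) hz4 hz2 hcon hFv ha'
    have hall := zero_nonneg hg hm hlow hρ1 hρ2 hz4 hτ0.le hFv ha'
    have hτ1 : z.2.1 < 1 := by
      by_contra hcon
      push Not at hcon
      refine hno z.1 z.2.2 (lC lam Lam z.2.1) hz4 (lt_of_lt_of_le h0 (lC_ge hL1)) fun k => ?_
      obtain ⟨e1, e2⟩ := hall k
      unfold fp at e1
      unfold fm at e2
      rw [ff_nonneg hτ0.le, sC_of_ge hcon] at e1 e2
      constructor <;> linarith
    refine ⟨hτ0, hτ1, hz4, fun k => ?_⟩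
    obtain ⟨e1, e2⟩ := hall k
    unfold fp at e1
    unfold fm at e2
    rw [ff_nonneg hτ0.le, sC_of_mid hτ0.le hτ1.le, lC_of_le hτ1.le] at e1 e2
    exact ⟨e1, e2⟩
  have hρ0 : 0 ≤ ρ := by linarith
  obtain ⟨z, hz, hc⟩ := top (CC ρ) (isCompact_CC hρ0) gam dist_gam
    (fun x hx => ⟨hx.1, hx.2.1, hx.2.2.1, by
      show ‖x.2.2 * om‖ = 1
      rw [norm_mul, norm_om, mul_one]; exact hx.2.2.2⟩)
    gam_gam_gam (Fz g lam Lam (6 * B) ρ0) (fun i => (continuous_Fz hgc _ _ _ _ i).continuousOn)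
    (fun i x _ => Fz_gam g lam Lam _ _ i x) (aa g lam Lam)
    (fun j => (continuous_aa hgc lam Lam j).continuousOn)
    (fun j x _ => by rw [aa_gam]; congr 1; abel)
    (ptt ρ) (fun k => (continuous_ptt ρ k).continuousOn) (fun k q hq => ptt_mem hρ0 k hq)
    (by
      intro k q _
      unfold ptt
      rw [xq_update _ _ _ (by decide), xq_update _ _ _ (by decide)]
      simp only [Function.update_self, ne_eq, Fin.reduceEq, not_false_eq_true, Function.update_of_ne]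
      rw [cell_h1])
    (by
      intro k q _ t _ h5
      unfold ptt
      rw [xq_update _ _ _ (by decide)]
      simp only [Function.update_self, ne_eq, Fin.reduceEq, not_false_eq_true, Function.update_of_ne]
      rw [h5, cell_h2 k t (q 4)])
    (by
      intro k q _ t _ h5
      unfold ptt
      rw [xq_update _ _ _ (by decide)]
      simp only [Function.update_self, ne_eq, Fin.reduceEq, not_false_eq_true, Function.update_of_ne]
      rw [h5, cell_h3 k (q 4) t (q 6)])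
    (by
      intro k q _
      unfold ptt gam
      rw [xq_update _ _ _ (by decide), xq_update _ _ _ (by decide)]
      simp only [Function.update_self, ne_eq, Fin.reduceEq, not_false_eq_true, Function.update_of_ne]
      rw [cell_h4])
    (by
      intro k q _ h5
      unfold ptt gam
      simp only
      rw [h5, cell_h6])
    (by
      intro k q hq i hi
      have hmem := ptt_mem hρ0 k hq
      have hface := face_vec (g := g) hm hlow hM hup h0 hL1 hρ1 (z := ptt ρ k q) hmem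
      fin_cases i
      · refine (hface 0).1 ?_
        have hi' : q 0 = 0 := hi
        show ρ * (2 * q 0 - 1) = -ρ
        rw [hi']; ring
      · refine (hface 1).1 ?_
        have hi' : q 1 = 0 := hi
        show ρ * (2 * q 1 - 1) = -ρ
        rw [hi']; ring
      · refine (hface 2).1 ?_
        have hi' : q 2 = 0 := hi
        show ρ * (2 * q 2 - 1) = -ρ
        rw [hi']; ring
      · have hi' : q 3 = 0 := hi
        have hτ : (ptt ρ k q).2.1 = -1 := by
          show 3 * q 3 - 1 = -1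
          rw [hi']; ring
        show ∑ j : Fin 3, aa g lam Lam j (ptt ρ k q) < 0
        have : ∀ j, aa g lam Lam j (ptt ρ k q) = -2 := by
          intro j
          unfold aa fp fm
          rw [hτ, ff_nonpos (by norm_num), ff_nonpos (by norm_num)]
          ring
        simp only [this]
        norm_num)
    (by
      intro k q hq i hi
      have hmem := ptt_mem hρ0 k hq
      have hface := face_vec (g := g) hm hlow hM hup h0 hL1 hρ1 (z := ptt ρ k q) hmem
      fin_cases i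
      · refine (hface 0).2 ?_
        have hi' : q 0 = 1 := hi
        show ρ * (2 * q 0 - 1) = ρ
        rw [hi']; ring
      · refine (hface 1).2 ?_
        have hi' : q 1 = 1 := hi
        show ρ * (2 * q 1 - 1) = ρ
        rw [hi']; ring
      · refine (hface 2).2 ?_
        have hi' : q 2 = 1 := hi
        show ρ * (2 * q 2 - 1) = ρ
        rw [hi']; ring
      · have hi' : q 3 = 1 := hi
        have hτ : (ptt ρ k q).2.1 = 2 := by
          show 3 * q 3 - 1 = 2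
          rw [hi']; ring
        have hx : ‖(ptt ρ k q).1‖ ≤ 2 * ρ := norm_le_of_coord hρ0 hmem.1
        have hu : ‖(ptt ρ k q).2.2‖ = 1 := hmem.2.2.2
        have hval : ∀ (v : E3), Lam - 2 * ρ ≤ ‖v‖ → 0 < ff g 2 v := by
          intro v hv
          rw [ff_nonneg (by norm_num), sC_of_ge (by norm_num)]
          have := hlow v
          have h3 := mul_le_mul_of_nonneg_left hv hm.le
          linarith
        have hpos : ∀ j, 0 < aa g lam Lam j (ptt ρ k q) := by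
          intro j
          unfold aa fp fm
          rw [hτ, lC_two]
          have hn : ‖Lam • fr (ptt ρ k q).2.2 j‖ = Lam := by
            rw [norm_smul, norm_fr hu j, mul_one, Real.norm_eq_abs, abs_of_nonneg (h0.le.trans hL1)]
          have n1 : Lam - 2 * ρ ≤ ‖(ptt ρ k q).1 + Lam • fr (ptt ρ k q).2.2 j‖ := by
            have := norm_sub_le ((ptt ρ k q).1 + Lam • fr (ptt ρ k q).2.2 j) (ptt ρ k q).1
            rw [add_sub_cancel_left, hn] at this
            linarith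
          have n2 : Lam - 2 * ρ ≤ ‖(ptt ρ k q).1 - Lam • fr (ptt ρ k q).2.2 j‖ := by
            have := norm_sub_le (ptt ρ k q).1 ((ptt ρ k q).1 - Lam • fr (ptt ρ k q).2.2 j)
            rw [sub_sub_cancel, hn] at this
            linarith
          exact add_pos (hval _ n1) (hval _ n2)
        show 0 < ∑ j : Fin 3, aa g lam Lam j (ptt ρ k q)
        exact Finset.sum_pos (fun j _ => hpos j) Finset.univ_nonempty)
    ε hε
  refine ⟨z, hsub z hz, ?_⟩
  exact Relation.ReflTransGen.mono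
    (fun a b hab => ⟨hsub a hab.1, hsub b hab.2.1, hab.2.2⟩) _ _ hc

end Pool.Agent.Octa
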