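import Pool.Agent.Octa.Frame

/-! module SIGNS (A2a, claim 2): section 3.1 of proof_MP_f08f91_co.md -/

set_option autoImplicit false

namespace Pool.Agent.Octa
open Quaternion

theorem GoodGauge.map_zero {g : E3 → ℝ} (hg : GoodGauge g) : g 0 = 0 := by
  have := hg.hom 0 le_rfl 0
  simpa using this

theorem gauge_lipschitz {g : E3 → ℝ} (hg : GoodGauge g) : ∃ M : ℝ, 0 < M ∧ ∀ x y, |g x - g y| ≤ M * ‖x - y‖ := by
  obtain ⟨M, hM, hup⟩ := hg.upper
  refine ⟨M, hM, fun x y => ?_⟩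
  have h1 := hg.sub (x - y) y
  have h2 := hg.sub (y - x) x
  have h3 := hup (x - y)
  have h4 := hup (y - x)
  rw [sub_add_cancel] at h1 h2
  rw [norm_sub_rev] at h4
  rw [abs_le]
  constructor <;> linarith

theorem fs_zero {g : E3 → ℝ} (hg : GoodGauge g) (s : ℝ) : fs g s 0 = -1 := by
  simp [fs, hg.map_zero]

theorem gauge_convexOn {g : E3 → ℝ} (hg : GoodGauge g) : ConvexOn ℝ Set.univ g := by
  refine ⟨convex_univ, fun x _ y _ a b ha hb _ => ?_⟩
  have h := hg.sub (a • x) (b • y)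
  rw [hg.hom a ha, hg.hom b hb] at h
  simpa using h

theorem fs_convexOn {g : E3 → ℝ} (hg : GoodGauge g) {s : ℝ} (hs : s ∈ Set.Icc (0 : ℝ) 1) :
    ConvexOn ℝ Set.univ (fs g s) := by
  have h1 : ConvexOn ℝ Set.univ (fun x : E3 => ‖x‖ ^ 2) :=
    convexOn_univ_norm.pow (fun _ _ => norm_nonneg _) 2
  have h2 := (h1.smul (sub_nonneg.2 hs.2)).add ((gauge_convexOn hg).smul hs.1)
  have h3 := h2.add_const (-1)
  refine h3.congr (fun x _ => ?_)
  simp [fs, sub_eq_add_neg]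

/-- centers are bounded -/
theorem center_bound (g : E3 → ℝ) (hg : GoodGauge g) :
    ∃ R : ℝ, 0 < R ∧ ∀ lam : ℝ, ∀ z ∈ Zset g lam, ‖z.1‖ ≤ R := by
  obtain ⟨m, hm, hlow⟩ := hg.lower
  refine ⟨1 + 1 / m, by positivity, ?_⟩
  rintro lam ⟨x, s, u⟩ ⟨h0, h1, hu, hz⟩
  simp only at h0 h1 hu hz ⊢
  by_contra hcon
  push Not at hcon
  have hs : s ∈ Set.Icc (0 : ℝ) 1 := ⟨h0.le, h1.le⟩
  obtain ⟨hp, hq⟩ := hz 0
  have hc := (fs_convexOn hg hs).2 (Set.mem_univ (x + lam • fr u 0)) (Set.mem_univ (x - lam • fr u 0))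
    (by norm_num : (0 : ℝ) ≤ 1 / 2) (by norm_num : (0 : ℝ) ≤ 1 / 2) (by norm_num)
  rw [hp, hq] at hc
  have he : (1 / 2 : ℝ) • (x + lam • fr u 0) + (1 / 2 : ℝ) • (x - lam • fr u 0) = x := by
    rw [← smul_add, add_add_sub_cancel, ← two_smul ℝ x, smul_smul]
    norm_num
  rw [he] at hc
  simp only [smul_eq_mul, mul_zero, add_zero] at hc
  have h2 : 1 < ‖x‖ := by
    have : 0 < 1 / m := by positivity
    linarith
  have h3 : 1 < m * ‖x‖ := by
    have h4 : 1 / m < ‖x‖ := by linarith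
    rwa [div_lt_iff₀' hm] at h4
  have h5 : m * ‖x‖ ≤ g x := hlow x
  unfold fs at hc
  have h6 : 1 < ‖x‖ ^ 2 := by nlinarith
  nlinarith

/-- the functions `fs g s`, `0 ≤ s ≤ 1`, are uniformly Lipschitz on balls -/
theorem fs_lipschitz (g : E3 → ℝ) (hg : GoodGauge g) (R : ℝ) :
    ∃ L : ℝ, 0 < L ∧ ∀ s ∈ Set.Icc (0 : ℝ) 1, ∀ x y : E3, ‖x‖ ≤ R → ‖y‖ ≤ R →
      |fs g s x - fs g s y| ≤ L * ‖x - y‖ := by
  obtain ⟨M, hM, hlip⟩ := gauge_lipschitz hg
  refine ⟨2 * |R| + M, by positivity, fun s hs x y hx hy => ?_⟩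
  have h1 : fs g s x - fs g s y = (1 - s) * ((‖x‖ - ‖y‖) * (‖x‖ + ‖y‖)) + s * (g x - g y) := by
    unfold fs; ring
  have h2 : |‖x‖ - ‖y‖| ≤ ‖x - y‖ := abs_norm_sub_norm_le x y
  have h3 : |‖x‖ + ‖y‖| ≤ 2 * |R| := by
    rw [abs_of_nonneg (by positivity)]
    have := le_abs_self R
    linarith
  have h4 : |(‖x‖ - ‖y‖) * (‖x‖ + ‖y‖)| ≤ ‖x - y‖ * (2 * |R|) := by
    rw [abs_mul]
    exact mul_le_mul h2 h3 (abs_nonneg _) (norm_nonneg _)
  have h5 := hlip x y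
  rw [h1]
  have hn : 0 ≤ ‖x - y‖ := norm_nonneg _
  have hR : 0 ≤ |R| := abs_nonneg _
  calc |(1 - s) * ((‖x‖ - ‖y‖) * (‖x‖ + ‖y‖)) + s * (g x - g y)|
      ≤ |(1 - s) * ((‖x‖ - ‖y‖) * (‖x‖ + ‖y‖))| + |s * (g x - g y)| := abs_add_le _ _
    _ = (1 - s) * |(‖x‖ - ‖y‖) * (‖x‖ + ‖y‖)| + s * |g x - g y| := by
        rw [abs_mul (1 - s), abs_mul s, abs_of_nonneg (sub_nonneg.2 hs.2), abs_of_nonneg hs.1]
    _ ≤ 1 * (‖x - y‖ * (2 * |R|)) + 1 * (M * ‖x - y‖) := by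
        apply add_le_add
        · exact mul_le_mul (by linarith [hs.1]) h4 (abs_nonneg _) (by norm_num)
        · exact mul_le_mul hs.2 h5 (abs_nonneg _) (by norm_num)
    _ = (2 * |R| + M) * ‖x - y‖ := by ring

/-- a vertex of the octahedron on the side of a given coordinate -/
theorem exists_vertex {C : Set E3} {x a : E3} {lam : ℝ} (hp : x + lam • a ∈ C)
    (hm : x - lam • a ∈ C) (α : ℝ) : ∃ p ∈ C, |α| • p = |α| • x + (lam * α) • a := by
  rcases le_total 0 α with h | h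
  · refine ⟨_, hp, ?_⟩
    rw [abs_of_nonneg h, smul_add, smul_smul, mul_comm]
  · refine ⟨_, hm, ?_⟩
    rw [abs_of_nonpos h, smul_sub, smul_smul, sub_eq_add_neg, ← neg_smul]
    congr 2
    ring

theorem cross_mem {C : Set E3} (hC : Convex ℝ C) {x a b c : E3} {lam : ℝ}
    (ha : x + lam • a ∈ C) (ha' : x - lam • a ∈ C) (hb : x + lam • b ∈ C) (hb' : x - lam • b ∈ C)
    (hc : x + lam • c ∈ C) (hc' : x - lam • c ∈ C) {α β γ : ℝ} (h : |α| + |β| + |γ| ≤ 1) :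
    x + lam • (α • a + β • b + γ • c) ∈ C := by
  obtain ⟨p, hp, hpe⟩ := exists_vertex ha ha' α
  obtain ⟨q, hq, hqe⟩ := exists_vertex hb hb' β
  obtain ⟨r, hr, hre⟩ := exists_vertex hc hc' γ
  have hx : x ∈ C := by
    have := hC ha ha' (by norm_num : (0 : ℝ) ≤ 1 / 2) (by norm_num : (0 : ℝ) ≤ 1 / 2) (by norm_num)
    have he : (1 / 2 : ℝ) • (x + lam • a) + (1 / 2 : ℝ) • (x - lam • a) = x := by
      rw [← smul_add, add_add_sub_cancel, ← two_smul ℝ x, smul_smul]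
      norm_num
    rwa [he] at this
  have h1 := hC.sum_mem (t := (Finset.univ : Finset (Fin 4)))
    (w := ![|α|, |β|, |γ|, 1 - (|α| + |β| + |γ|)]) (z := ![p, q, r, x])
    (by
      intro i _
      fin_cases i
      · exact abs_nonneg _
      · exact abs_nonneg _
      · exact abs_nonneg _
      · simpa using h)
    (by simp [Fin.sum_univ_four])
    (by
      intro i _
      fin_cases i
      · exact hp
      · exact hq
      · exact hr
      · exact hx)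
  have h2 : ∑ i ∈ (Finset.univ : Finset (Fin 4)),
      (![|α|, |β|, |γ|, 1 - (|α| + |β| + |γ|)] : Fin 4 → ℝ) i • (![p, q, r, x] : Fin 4 → E3) i =
      x + lam • (α • a + β • b + γ • c) := by
    rw [Fin.sum_univ_four]
    change |α| • p + |β| • q + |γ| • r + (1 - (|α| + |β| + |γ|)) • x = _
    rw [hpe, hqe, hre]
    module
  rwa [h2] at h1

theorem fs_cross_le {g : E3 → ℝ} (hg : GoodGauge g) {s L ρ : ℝ} (hs : s ∈ Set.Icc (0 : ℝ) 1)
    (hL : ∀ x y : E3, ‖x‖ ≤ ρ → ‖y‖ ≤ ρ → |fs g s x - fs g s y| ≤ L * ‖x - y‖) (hL0 : 0 ≤ L)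
    {x a b c : E3} {lam : ℝ} (hlam : 0 < lam) (na : ‖a‖ = 1) (nb : ‖b‖ = 1) (nc : ‖c‖ = 1)
    (ha : fs g s (x + lam • a) = 0) (ha' : fs g s (x - lam • a) = 0)
    (hb : fs g s (x + lam • b) = 0) (hb' : fs g s (x - lam • b) = 0)
    (hc : fs g s (x + lam • c) = 0) (hc' : fs g s (x - lam • c) = 0)
    {α β γ δ : ℝ} (h : |α| + |β| + |γ| ≤ 1 + δ) (hδ : 0 ≤ δ) (hρ : ‖x‖ + lam * (1 + δ) ≤ ρ) :
    fs g s (x + lam • (α • a + β • b + γ • c)) ≤ L * lam * δ := by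
  have hC : Convex ℝ {y : E3 | y ∈ Set.univ ∧ fs g s y ≤ 0} := (fs_convexOn hg hs).convex_le 0
  set N : ℝ := |α| + |β| + |γ| with hN
  have hN0 : 0 ≤ N := by positivity
  have hpos : 0 ≤ L * lam * δ := by positivity
  rcases le_or_gt N 1 with h1 | h1
  · have := cross_mem hC (x := x) (a := a) (b := b) (c := c) (lam := lam)
      ⟨trivial, ha.le⟩ ⟨trivial, ha'.le⟩ ⟨trivial, hb.le⟩ ⟨trivial, hb'.le⟩ ⟨trivial, hc.le⟩
      ⟨trivial, hc'.le⟩ (α := α) (β := β) (γ := γ) h1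
    exact this.2.trans hpos
  · have hNp : 0 < N := by linarith
    have hw : ‖α • a + β • b + γ • c‖ ≤ N := by
      calc ‖α • a + β • b + γ • c‖ ≤ ‖α • a‖ + ‖β • b‖ + ‖γ • c‖ := norm_add₃_le
        _ = N := by rw [norm_smul, norm_smul, norm_smul, na, nb, nc]; simp [hN]
    have h2 : |α / N| + |β / N| + |γ / N| ≤ 1 := by
      rw [abs_div, abs_div, abs_div, abs_of_pos hNp, ← add_div, ← add_div, ← hN, div_self hNp.ne']
    have h3 := (cross_mem hC (x := x) (a := a) (b := b) (c := c) (lam := lam)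
      ⟨trivial, ha.le⟩ ⟨trivial, ha'.le⟩ ⟨trivial, hb.le⟩ ⟨trivial, hb'.le⟩ ⟨trivial, hc.le⟩
      ⟨trivial, hc'.le⟩ h2).2
    have h4 : x + lam • ((α / N) • a + (β / N) • b + (γ / N) • c) =
        x + (lam / N) • (α • a + β • b + γ • c) := by
      simp only [smul_add, smul_smul]
      congr 2 <;> [congr 2; skip] <;> ring_nf
    rw [h4] at h3
    set w : E3 := α • a + β • b + γ • c with hw'
    have h5 : ‖x + lam • w‖ ≤ ρ := by
      calc ‖x + lam • w‖ ≤ ‖x‖ + ‖lam • w‖ := norm_add_le _ _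
        _ ≤ ‖x‖ + lam * (1 + δ) := by
            rw [norm_smul, Real.norm_of_nonneg hlam.le]
            have : lam * ‖w‖ ≤ lam * (1 + δ) := by
              apply mul_le_mul_of_nonneg_left _ hlam.le
              linarith
            linarith
        _ ≤ ρ := hρ
    have h6 : ‖x + (lam / N) • w‖ ≤ ρ := by
      calc ‖x + (lam / N) • w‖ ≤ ‖x‖ + ‖(lam / N) • w‖ := norm_add_le _ _
        _ ≤ ‖x‖ + lam * (1 + δ) := by
            rw [norm_smul, Real.norm_of_nonneg (by positivity)]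
            have h7 : lam / N * ‖w‖ ≤ lam / N * N := by
              apply mul_le_mul_of_nonneg_left hw (by positivity)
            rw [div_mul_cancel₀ _ hNp.ne'] at h7
            nlinarith
        _ ≤ ρ := hρ
    have h7 := hL _ _ h5 h6
    have h8 : (x + lam • w) - (x + (lam / N) • w) = (lam - lam / N) • w := by
      rw [sub_smul]; abel
    rw [h8, norm_smul] at h7
    have h9 : ‖lam - lam / N‖ = lam - lam / N := by
      apply Real.norm_of_nonneg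
      have : lam / N ≤ lam := div_le_self hlam.le h1.le
      linarith
    rw [h9] at h7
    have h10 : (lam - lam / N) * ‖w‖ ≤ lam * δ := by
      have h11 : 0 ≤ lam - lam / N := by
        have : lam / N ≤ lam := div_le_self hlam.le h1.le
        linarith
      calc (lam - lam / N) * ‖w‖ ≤ (lam - lam / N) * N := mul_le_mul_of_nonneg_left hw h11
        _ = lam * (N - 1) := by field_simp
        _ ≤ lam * δ := by
            apply mul_le_mul_of_nonneg_left _ hlam.le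
            linarith
    have h12 := (abs_le.1 h7).2
    have h13 : L * ((lam - lam / N) * ‖w‖) ≤ L * (lam * δ) := mul_le_mul_of_nonneg_left h10 hL0
    linarith

theorem coord_key {g : E3 → ℝ} (hg : GoodGauge g) {s L ρ κ : ℝ} (hs : s ∈ Set.Icc (0 : ℝ) 1)
    (hL : ∀ x y : E3, ‖x‖ ≤ ρ → ‖y‖ ≤ ρ → |fs g s x - fs g s y| ≤ L * ‖x - y‖) (hL0 : 0 ≤ L)
    {x a b c : E3} {lam : ℝ} (hlam : 0 < lam) (na : ‖a‖ = 1) (nb : ‖b‖ = 1) (nc : ‖c‖ = 1)
    (ha : fs g s (x + lam • a) = 0) (ha' : fs g s (x - lam • a) = 0)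
    (hb : fs g s (x + lam • b) = 0) (hb' : fs g s (x - lam • b) = 0)
    (hc : fs g s (x + lam • c) = 0) (hc' : fs g s (x - lam • c) = 0)
    {A xb xc : ℝ} (hx : x = (-A) • a + xb • b + xc • c) (hκ0 : 0 ≤ κ) (hκ : L * (lam + κ) < 1)
    (hlA : lam ≤ A) (hκA : κ ≤ A) (hρ : ‖x‖ + 3 * lam ≤ ρ) :
    A < |xb| + |xc| - κ := by
  have hA : 0 < A := lt_of_lt_of_le hlam hlA
  by_contra hcon
  push Not at hcon
  set θ : ℝ := lam / A with hθ
  have hθ0 : 0 < θ := by positivity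
  have hδ : 0 ≤ (lam + κ) / A := by positivity
  have hN : |θ| + |xb / A| + |xc / A| ≤ 1 + (lam + κ) / A := by
    rw [abs_of_pos hθ0, abs_div xb, abs_div xc, abs_of_pos hA, hθ, ← add_div, ← add_div]
    rw [div_le_iff₀ hA, add_mul, div_mul_cancel₀ _ hA.ne']
    linarith
  have hδ2 : (lam + κ) / A ≤ 2 := by
    rw [div_le_iff₀ hA]; linarith
  have h1 := fs_cross_le hg hs hL hL0 hlam na nb nc ha ha' hb hb' hc hc' hN hδ (by nlinarith)
  set w : E3 := θ • a + (xb / A) • b + (xc / A) • c with hw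
  have h2 : x + lam • a = (1 / (1 + θ)) • (x + lam • w) + (θ / (1 + θ)) • (0 : E3) := by
    have h3 : (1 + θ) • (x + lam • a) = x + lam • w := by
      have h4 : lam • w = (lam * θ) • a + θ • (xb • b + xc • c) := by
        rw [hw, smul_add, smul_add, smul_smul, smul_smul, smul_smul, smul_add, smul_smul,
          smul_smul, add_assoc]
        congr 2
        · congr 1; rw [hθ]; ring
        · congr 1; rw [hθ]; ring
      have h5 : xb • b + xc • c = x + A • a := by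
        rw [hx]; module
      rw [h4, h5, smul_add, smul_smul]
      have h6 : lam = θ * A := by rw [hθ]; field_simp
      have h7 : ((1 + θ) * lam) • a = (lam * θ) • a + (θ * A) • a := by
        rw [← h6]; module
      rw [h7]
      module
    rw [smul_zero, add_zero, ← h3, smul_smul]
    have : 1 / (1 + θ) * (1 + θ) = 1 := by field_simp
    rw [this, one_smul]
  have h3 := (fs_convexOn hg hs).2 (Set.mem_univ (x + lam • w)) (Set.mem_univ (0 : E3))
    (by positivity : (0 : ℝ) ≤ 1 / (1 + θ)) (by positivity : (0 : ℝ) ≤ θ / (1 + θ))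
    (by field_simp)
  rw [← h2, ha, fs_zero hg] at h3
  simp only [smul_eq_mul] at h3
  have h4 : 0 ≤ fs g s (x + lam • w) - θ := by
    have h5 : (1 + θ) * (1 / (1 + θ) * fs g s (x + lam • w) + θ / (1 + θ) * -1) =
        fs g s (x + lam • w) - θ := by field_simp; ring
    rw [← h5]
    exact mul_nonneg (by positivity) h3
  have h5 : L * lam * ((lam + κ) / A) - θ = (lam / A) * (L * (lam + κ) - 1) := by
    rw [hθ]; ring
  have h6 : (lam / A) * (L * (lam + κ) - 1) < 0 :=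
    mul_neg_of_pos_of_neg (by positivity) (by linarith)
  linarith

theorem coord_key' {g : E3 → ℝ} (hg : GoodGauge g) {s L ρ κ : ℝ} (hs : s ∈ Set.Icc (0 : ℝ) 1)
    (hL : ∀ x y : E3, ‖x‖ ≤ ρ → ‖y‖ ≤ ρ → |fs g s x - fs g s y| ≤ L * ‖x - y‖) (hL0 : 0 ≤ L)
    {x a b c : E3} {lam : ℝ} (hlam : 0 < lam) (na : ‖a‖ = 1) (nb : ‖b‖ = 1) (nc : ‖c‖ = 1)
    (ha : fs g s (x + lam • a) = 0) (ha' : fs g s (x - lam • a) = 0)
    (hb : fs g s (x + lam • b) = 0) (hb' : fs g s (x - lam • b) = 0)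
    (hc : fs g s (x + lam • c) = 0) (hc' : fs g s (x - lam • c) = 0)
    {xa xb xc : ℝ} (hx : x = xa • a + xb • b + xc • c) (hκ0 : 0 ≤ κ) (hκ : L * (lam + κ) < 1)
    (hlA : lam ≤ |xa|) (hκA : κ ≤ |xa|) (hρ : ‖x‖ + 3 * lam ≤ ρ)
    (hxb : |xb| ≤ |xa|) (hxc : |xc| ≤ |xa|) :
    κ ≤ |xa| ∧ κ ≤ |xb| ∧ κ ≤ |xc| := by
  have h : |xa| < |xb| + |xc| - κ := by
    rcases le_total xa 0 with h0 | h0
    · rw [abs_of_nonpos h0] at hlA hκA ⊢
      exact coord_key hg hs hL hL0 hlam na nb nc ha ha' hb hb' hc hc' (by simpa using hx)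
        hκ0 hκ hlA hκA hρ
    · rw [abs_of_nonneg h0] at hlA hκA ⊢
      refine coord_key hg hs hL hL0 hlam (a := -a) (b := b) (c := c) (by simpa using na) nb nc
        ?_ ?_ hb hb' hc hc' ?_ hκ0 hκ hlA hκA hρ
      · rw [smul_neg, ← sub_eq_add_neg]; exact ha'
      · rw [smul_neg, sub_neg_eq_add]; exact ha
      · rw [hx]; simp
  refine ⟨by linarith, by linarith, by linarith⟩

theorem coord_lower (g : E3 → ℝ) (hg : GoodGauge g) :
    ∃ κ Λ : ℝ, 0 < κ ∧ 0 < Λ ∧ ∀ lam : ℝ, 0 < lam → lam < Λ → ∀ z ∈ Zset g lam, ∀ k : Fin 3,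
      κ ≤ |inner ℝ z.1 (fr z.2.2 k)| := by
  obtain ⟨R, hR, hcb⟩ := center_bound g hg
  obtain ⟨L, hL, hlip⟩ := fs_lipschitz g hg (R + 3)
  refine ⟨1 / (4 * L), min 1 (1 / (4 * L)), by positivity, by positivity, ?_⟩
  intro lam hlam hlt z hz
  have hxR := hcb lam z hz
  obtain ⟨x, s, u⟩ := z
  obtain ⟨h0, h1, hu, hf⟩ := hz
  simp only at h0 h1 hu hf hxR ⊢
  have hs : s ∈ Set.Icc (0 : ℝ) 1 := ⟨h0.le, h1.le⟩
  have hl1 : lam < 1 := lt_of_lt_of_le hlt (min_le_left _ _)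
  have hl2 : lam < 1 / (4 * L) := lt_of_lt_of_le hlt (min_le_right _ _)
  have hn := (fr_orthonormal u hu).1
  have hfl := hlip s hs
  -- the center is not close to the origin
  have hxl : 3 / (4 * L) ≤ ‖x‖ := by
    have h2 : ‖x + lam • fr u 0‖ ≤ ‖x‖ + lam := by
      calc ‖x + lam • fr u 0‖ ≤ ‖x‖ + ‖lam • fr u 0‖ := norm_add_le _ _
        _ = ‖x‖ + lam := by rw [norm_smul, hn 0, Real.norm_of_nonneg hlam.le, mul_one]
    have h3 := hfl (x + lam • fr u 0) 0 (by linarith) (by simp; linarith)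
    rw [(hf 0).1, fs_zero hg, sub_zero] at h3
    have h4 : (1 : ℝ) ≤ L * (‖x‖ + lam) := by
      have : |(0 : ℝ) - -1| = 1 := by norm_num
      rw [this] at h3
      exact h3.trans (mul_le_mul_of_nonneg_left h2 hL.le)
    have h5 : 1 / L ≤ ‖x‖ + lam := by
      rw [div_le_iff₀' hL]; exact h4
    have h6 : 3 / (4 * L) = 1 / L - 1 / (4 * L) := by field_simp; norm_num
    rw [h6]; linarith
  have hpars := norm_sq_eq_fr u hu x
  have hsum := sum_fr u hu x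
  have hLpos : 0 < 1 / (4 * L) := by positivity
  have h34 : 3 / (4 * L) = 3 * (1 / (4 * L)) := by ring
  have hκ : L * (lam + 1 / (4 * L)) < 1 := by
    have h2 : L * (1 / (4 * L)) = 1 / 4 := by field_simp
    have h3 : L * lam < L * (1 / (4 * L)) := mul_lt_mul_of_pos_left hl2 hL
    rw [mul_add]; linarith
  have hρ : ‖x‖ + 3 * lam ≤ R + 3 := by linarith
  -- the largest coordinate is large
  have hbig : ∀ p q r : ℝ, ‖x‖ ^ 2 = p ^ 2 + q ^ 2 + r ^ 2 → |q| ≤ |p| → |r| ≤ |p| →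
      lam ≤ |p| ∧ 1 / (4 * L) ≤ |p| := by
    intro p q r he hq hr
    have h2 : ‖x‖ ^ 2 ≤ 3 * |p| ^ 2 := by
      have h3 : q ^ 2 ≤ |p| ^ 2 := by rw [← sq_abs q]; gcongr
      have h4 : r ^ 2 ≤ |p| ^ 2 := by rw [← sq_abs r]; gcongr
      have h5 : p ^ 2 = |p| ^ 2 := (sq_abs p).symm
      linarith
    have h3 : 1 / (4 * L) ≤ |p| := by
      by_contra hcon
      push Not at hcon
      have h4 : |p| ^ 2 < (1 / (4 * L)) ^ 2 := by
        have := abs_nonneg p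
        gcongr
      rw [h34] at hxl
      nlinarith
    exact ⟨by linarith, h3⟩
  obtain ⟨i, hi⟩ := Finite.exists_max (fun k : Fin 3 => |inner ℝ x (fr u k)|)
  fin_cases i
  · simp only [Fin.zero_eta] at hi
    obtain ⟨hb1, hb2⟩ := hbig _ _ _ hpars (hi 1) (hi 2)
    have := coord_key' hg hs hfl hL.le hlam (hn 0) (hn 1) (hn 2) (hf 0).1 (hf 0).2 (hf 1).1
      (hf 1).2 (hf 2).1 (hf 2).2 hsum hLpos.le hκ hb1 hb2 hρ (hi 1) (hi 2)
    intro k
    fin_cases k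
    · exact this.1
    · exact this.2.1
    · exact this.2.2
  · simp only [Fin.mk_one] at hi
    obtain ⟨hb1, hb2⟩ := hbig _ _ _ (by rw [hpars]; ring :
      ‖x‖ ^ 2 = inner ℝ x (fr u 1) ^ 2 + inner ℝ x (fr u 0) ^ 2 + inner ℝ x (fr u 2) ^ 2)
      (hi 0) (hi 2)
    have := coord_key' hg hs hfl hL.le hlam (hn 1) (hn 0) (hn 2) (hf 1).1 (hf 1).2 (hf 0).1
      (hf 0).2 (hf 2).1 (hf 2).2 (xa := inner ℝ x (fr u 1)) (xb := inner ℝ x (fr u 0))
      (xc := inner ℝ x (fr u 2)) (by nth_rw 1 [hsum]; abel)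
      hLpos.le hκ hb1 hb2 hρ (hi 0) (hi 2)
    intro k
    fin_cases k
    · exact this.2.1
    · exact this.1
    · exact this.2.2
  · simp only [Fin.reduceFinMk] at hi
    obtain ⟨hb1, hb2⟩ := hbig _ _ _ (by rw [hpars]; ring :
      ‖x‖ ^ 2 = inner ℝ x (fr u 2) ^ 2 + inner ℝ x (fr u 1) ^ 2 + inner ℝ x (fr u 0) ^ 2)
      (hi 1) (hi 0)
    have := coord_key' hg hs hfl hL.le hlam (hn 2) (hn 1) (hn 0) (hf 2).1 (hf 2).2 (hf 1).1
      (hf 1).2 (hf 0).1 (hf 0).2 (xa := inner ℝ x (fr u 2)) (xb := inner ℝ x (fr u 1))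
      (xc := inner ℝ x (fr u 0)) (by nth_rw 1 [hsum]; abel)
      hLpos.le hκ hb1 hb2 hρ (hi 1) (hi 0)
    intro k
    fin_cases k
    · exact this.2.2
    · exact this.2.1
    · exact this.1

end Pool.Agent.Octa
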