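import Pool.Agent.Octa.Defs
import Pool.Agent.Octa.Core

/-! module TOP (T4): from the combinatorial core to the topological theorem, section 1.1 of proof_MP_f08f91_co.md -/

set_option autoImplicit false

namespace Pool.Agent.Octa

/-- the set of common zeros -/
def ZZ {Y : Type*} (C : Set Y) (F : Fin 4 → Y → ℝ) (a : Fin 3 → Y → ℝ) : Set Y :=
  {y | y ∈ C ∧ (∀ i, F i y = 0) ∧ ∀ j, a j y = a 0 y}

theorem f3a : ∀ j k : Fin 3, k = j ∨ k = j + 1 ∨ k = j + 2 := by decide
theorem f3b : ∀ j : Fin 3, j + 1 + 2 = j := by decide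
theorem f3c : ∀ j : Fin 3, j + 2 + 1 = j := by decide
theorem f3d : ∀ j : Fin 3, j + 1 + 2 = (j + 2) + 1 := by decide

theorem iter_mod {Y : Type*} {γ : Y → Y} (hγ3 : ∀ x, γ (γ (γ x)) = x) (n : ℕ) (x : Y) :
    γ^[n] x = γ^[n % 3] x := by
  have h3 : ∀ k x, γ^[3 * k] x = x := by
    intro k
    induction k with
    | zero => intro x; rfl
    | succ k ih =>
      intro x
      rw [show 3 * (k + 1) = 3 * k + 3 by ring, Function.iterate_add_apply]
      have : γ^[3] x = x := hγ3 x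
      rw [this, ih]
  conv_lhs => rw [← Nat.mod_add_div n 3]
  rw [Function.iterate_add_apply, h3]

section
variable {Y : Type*} [MetricSpace Y] {S : Set Y} {ε : ℝ}

theorem conn_symm {x y : Y} (h : Conn S ε x y) : Conn S ε y x := by
  induction h with
  | refl => exact Relation.ReflTransGen.refl
  | tail _ h ih => exact Relation.ReflTransGen.head ⟨h.2.1, h.1, by rw [dist_comm]; exact h.2.2⟩ ih

theorem conn_mem {x y : Y} (h : Conn S ε x y) (hx : x ∈ S) : y ∈ S := by
  induction h with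
  | refl => exact hx
  | tail _ h _ => exact h.2.1

theorem conn_map {γ : Y → Y} (hγ : ∀ x y, dist (γ x) (γ y) = dist x y) (hS : ∀ x ∈ S, γ x ∈ S)
    {x y : Y} (h : Conn S ε x y) : Conn S ε (γ x) (γ y) :=
  h.lift γ (fun a b hab => ⟨hS _ hab.1, hS _ hab.2.1, by rw [hγ]; exact hab.2.2⟩)

theorem conn_map_iter {γ : Y → Y} (hγ : ∀ x y, dist (γ x) (γ y) = dist x y) (hS : ∀ x ∈ S, γ x ∈ S)
    {x y : Y} (n : ℕ) (h : Conn S ε x y) : Conn S ε (γ^[n] x) (γ^[n] y) := by
  induction n with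
  | zero => exact h
  | succ n ih =>
    rw [Function.iterate_succ_apply', Function.iterate_succ_apply']
    exact conn_map hγ hS ih

/-- the labelling of the classes -/
theorem exists_l {γ : Y → Y} (hγ : ∀ x y, dist (γ x) (γ y) = dist x y) (hS : ∀ x ∈ S, γ x ∈ S)
    (hγ3 : ∀ x, γ (γ (γ x)) = x) (hfree : ∀ z ∈ S, ¬ Conn S ε z (γ z)) :
    ∃ l : Y → Fin 3, (∀ z w, z ∈ S → Conn S ε z w → l z = l w) ∧ ∀ z ∈ S, l (γ z) = l z + 1 := by
  have h3 : ∀ (k : ℕ) (x : Y), γ^[3 * k] x = x := by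
    intro k x
    rw [iter_mod hγ3, Nat.mul_mod_right]
    rfl
  let R : Setoid Y :=
    { r := fun z w => ∃ j : ℕ, Conn S ε z (γ^[j] w)
      iseqv :=
        { refl := fun z => ⟨0, Relation.ReflTransGen.refl⟩
          symm := by
            rintro z w ⟨j, h⟩
            refine ⟨2 * j, ?_⟩
            have := conn_map_iter hγ hS (2 * j) h
            rw [← Function.iterate_add_apply, show 2 * j + j = 3 * j by ring, h3] at this
            exact conn_symm this
          trans := by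
            rintro z w v ⟨i, h⟩ ⟨j, h'⟩
            refine ⟨i + j, h.trans ?_⟩
            have := conn_map_iter hγ hS i h'
            rwa [← Function.iterate_add_apply] at this } }
  let ρ : Y → Y := fun z => (Quotient.mk R z).out
  have hρ : ∀ z, ∃ j : ℕ, Conn S ε z (γ^[j] (ρ z)) := by
    intro z
    have : R (ρ z) z := Quotient.mk_out (s := R) z
    exact R.symm this
  have huniq : ∀ (z r : Y) (i j : ℕ), z ∈ S → Conn S ε z (γ^[i] r) → Conn S ε z (γ^[j] r) →
      Fin.ofNat 3 i = Fin.ofNat 3 j := by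
    intro z r i j hz h1 h2
    have hi : γ^[i] r ∈ S := conn_mem h1 hz
    have hSn : ∀ (n : ℕ) (x : Y), x ∈ S → γ^[n] x ∈ S := by
      intro n
      induction n with
      | zero => intro x hx; exact hx
      | succ n ih => intro x hx; rw [Function.iterate_succ_apply']; exact hS _ (ih x hx)
    have hr : r ∈ S := by
      have := hSn (2 * i) _ hi
      rwa [← Function.iterate_add_apply, show 2 * i + i = 3 * i by ring, h3] at this
    have h4 : Conn S ε (γ^[i] r) (γ^[j] r) := (conn_symm h1).trans h2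
    have h5 := conn_map_iter hγ hS (2 * i) h4
    rw [← Function.iterate_add_apply, ← Function.iterate_add_apply,
      show 2 * i + i = 3 * i by ring, h3, iter_mod hγ3 (2 * i + j)] at h5
    have h6 : (2 * i + j) % 3 = 0 ∨ (2 * i + j) % 3 = 1 ∨ (2 * i + j) % 3 = 2 := by omega
    rcases h6 with h6 | h6 | h6
    · apply Fin.ext
      simp only [Fin.val_ofNat]
      omega
    · rw [h6] at h5
      exact absurd h5 (hfree r hr)
    · rw [h6] at h5
      have h7 := conn_map hγ hS h5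
      have h8 : γ (γ^[2] r) = r := hγ3 r
      rw [h8] at h7
      exact absurd (conn_symm h7) (hfree r hr)
  have hρeq : ∀ z w, R z w → ρ z = ρ w := by
    intro z w h
    show (Quotient.mk R z).out = (Quotient.mk R w).out
    rw [Quotient.sound h]
  choose j hj using hρ
  refine ⟨fun z => Fin.ofNat 3 (j z), ?_, ?_⟩
  · intro z w hz h
    have e : ρ z = ρ w := hρeq z w ⟨0, h⟩
    apply huniq z (ρ z) _ _ hz (hj z)
    rw [e]
    exact h.trans (hj w)
  · intro z hz
    have e : ρ (γ z) = ρ z := hρeq (γ z) z ⟨1, Relation.ReflTransGen.refl⟩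
    have h1 := conn_map hγ hS (hj z)
    have h2 := hj (γ z)
    rw [e] at h2
    rw [← Function.iterate_succ_apply' γ] at h1
    have := huniq (γ z) (ρ z) _ _ (hS z hz) h2 h1
    show Fin.ofNat 3 (j (γ z)) = Fin.ofNat 3 (j z) + 1
    rw [this]
    apply Fin.ext
    simp [Fin.val_add]

/-- the specification of the label of a point -/
def Spec (S : Set Y) (l : Y → Fin 3) (η δ : ℝ) (F : Fin 4 → Y → ℝ) (a : Fin 3 → Y → ℝ)
    (y : Y) (x : Lab) : Prop :=
  (∃ z ∈ S, dist y z < η ∧ x = .n (l z)) ∨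
  ((∀ z ∈ S, η ≤ dist y z) ∧ (∃ i, δ ≤ |F i y|) ∧
    ((∃ i : Fin 4, x = .f i.succ ∧ F i y < 0 ∧ ∀ i' < i, 0 ≤ F i' y) ∨
      (x = .f 0 ∧ ∀ i, 0 ≤ F i y))) ∨
  ((∀ z ∈ S, η ≤ dist y z) ∧ (∀ i, |F i y| < δ) ∧
    ∃ j : Fin 3, x = .a j ∧ a (j + 2) y ≤ a j y ∧ a (j + 1) y < a j y)

theorem spec_exists (l : Y → Fin 3) (η δ : ℝ) (F : Fin 4 → Y → ℝ) (a : Fin 3 → Y → ℝ) (y : Y)
    (h : (∀ z ∈ S, η ≤ dist y z) → (∀ i, |F i y| < δ) → ∃ j, a j y ≠ a 0 y) :
    ∃ x, Spec S l η δ F a y x := by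
  by_cases h1 : ∃ z ∈ S, dist y z < η
  · obtain ⟨z, hz, hz'⟩ := h1
    exact ⟨_, Or.inl ⟨z, hz, hz', rfl⟩⟩
  push Not at h1
  by_cases h2 : ∃ i, δ ≤ |F i y|
  · by_cases h3 : ∃ i, F i y < 0
    · classical
      let s := Finset.univ.filter (fun i => F i y < 0)
      have hs : s.Nonempty := by
        obtain ⟨i, hi⟩ := h3
        exact ⟨i, by simp [s, hi]⟩
      refine ⟨.f (s.min' hs).succ, Or.inr (Or.inl ⟨h1, h2, Or.inl ⟨s.min' hs, rfl, ?_, ?_⟩⟩)⟩
      · have := s.min'_mem hs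
        simpa [s] using this
      · intro i' hi'
        by_contra hc
        push Not at hc
        have : i' ∈ s := by simp [s, hc]
        exact absurd (s.min'_le _ this) (not_le.mpr hi')
    · push Not at h3
      exact ⟨.f 0, Or.inr (Or.inl ⟨h1, h2, Or.inr ⟨rfl, h3⟩⟩)⟩
  · push Not at h2
    obtain ⟨j, hj⟩ := h h1 h2
    have : ∃ j : Fin 3, a (j + 2) y ≤ a j y ∧ a (j + 1) y < a j y := by
      by_contra hc
      push Not at hc
      have e0 := hc 0
      have e1 := hc 1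
      have e2 := hc 2
      have a1 : (0 : Fin 3) + 1 = 1 := rfl
      have a2 : (1 : Fin 3) + 1 = 2 := rfl
      have a3 : (2 : Fin 3) + 1 = 0 := rfl
      have b1 : (0 : Fin 3) + 2 = 2 := rfl
      have b2 : (1 : Fin 3) + 2 = 0 := rfl
      have b3 : (2 : Fin 3) + 2 = 1 := rfl
      rw [a1, b1] at e0
      rw [a2, b2] at e1
      rw [a3, b3] at e2
      apply hj
      have key : a 1 y = a 0 y ∧ a 2 y = a 0 y := by
        rcases le_or_gt (a 2 y) (a 0 y) with c0 | c0
        · have d0 := e0 c0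
          rcases le_or_gt (a 0 y) (a 1 y) with c1 | c1
          · have d1 := e1 c1
            rcases le_or_gt (a 1 y) (a 2 y) with c2 | c2
            · have d2 := e2 c2
              constructor <;> linarith
            · constructor <;> linarith
          · constructor <;> linarith
        · rcases le_or_gt (a 0 y) (a 1 y) with c1 | c1
          · have d1 := e1 c1
            rcases le_or_gt (a 1 y) (a 2 y) with c2 | c2
            · have d2 := e2 c2
              constructor <;> linarith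
            · constructor <;> linarith
          · rcases le_or_gt (a 1 y) (a 2 y) with c2 | c2
            · have d2 := e2 c2
              constructor <;> linarith
            · constructor <;> linarith
      fin_cases j
      · rfl
      · exact key.1
      · exact key.2
    obtain ⟨j, hj1, hj2⟩ := this
    exact ⟨.a j, Or.inr (Or.inr ⟨h1, h2, j, rfl, hj1, hj2⟩)⟩

theorem spec_unique {l : Y → Fin 3} (hl : ∀ z w, z ∈ S → Conn S ε z w → l z = l w)
    {η δ : ℝ} (hη : 2 * η ≤ ε) {F : Fin 4 → Y → ℝ} {a : Fin 3 → Y → ℝ} {y : Y} {x x' : Lab}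
    (h : Spec S l η δ F a y x) (h' : Spec S l η δ F a y x') : x = x' := by
  rcases h with ⟨z, hz, hd, rfl⟩ | ⟨hf, ⟨i0, hi0⟩, h⟩ | ⟨hf, hF, j, rfl, hj1, hj2⟩
  · rcases h' with ⟨z', hz', hd', rfl⟩ | ⟨hf', _, _⟩ | ⟨hf', _, _⟩
    · have : dist z z' < ε := by
        have := dist_triangle z y z'
        rw [dist_comm z y] at this
        linarith
      rw [hl z z' hz (Relation.ReflTransGen.single ⟨hz, hz', this⟩)]
    · exact absurd (hf' z hz) (not_le.mpr hd)
    · exact absurd (hf' z hz) (not_le.mpr hd)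
  · rcases h' with ⟨z', hz', hd', rfl⟩ | ⟨hf', _, h'⟩ | ⟨hf', hF', _⟩
    · exact absurd (hf z' hz') (not_le.mpr hd')
    · rcases h with ⟨i, rfl, hi, hi'⟩ | ⟨rfl, hi⟩
      · rcases h' with ⟨k, rfl, hk, hk'⟩ | ⟨rfl, hk⟩
        · rcases lt_trichotomy i k with hik | hik | hik
          · exact absurd (hk' i hik) (not_le.mpr hi)
          · rw [hik]
          · exact absurd (hi' k hik) (not_le.mpr hk)
        · exact absurd (hk i) (not_le.mpr hi)
      · rcases h' with ⟨k, rfl, hk, hk'⟩ | ⟨rfl, hk⟩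
        · exact absurd (hi k) (not_le.mpr hk)
        · rfl
    · exact absurd (hF' i0) (not_lt.mpr hi0)
  · rcases h' with ⟨z', hz', hd', rfl⟩ | ⟨hf', ⟨i0, hi0⟩, h'⟩ | ⟨hf', hF', k, rfl, hk1, hk2⟩
    · exact absurd (hf z' hz') (not_le.mpr hd')
    · exact absurd (hF i0) (not_lt.mpr hi0)
    · rcases f3a j k with rfl | rfl | rfl
      · rfl
      · rw [f3b] at hk1
        linarith
      · rw [f3c] at hk2
        linarith

theorem spec_shift {γ : Y → Y} (hγ : ∀ x y, dist (γ x) (γ y) = dist x y) (hS : ∀ x ∈ S, γ x ∈ S)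
    (hγ3 : ∀ x, γ (γ (γ x)) = x) {l : Y → Fin 3} (hl : ∀ z ∈ S, l (γ z) = l z + 1)
    {η δ : ℝ} {F : Fin 4 → Y → ℝ} {a : Fin 3 → Y → ℝ} {y : Y} (hF : ∀ i, F i (γ y) = F i y)
    (ha : ∀ j, a (j + 1) (γ y) = a j y) {x : Lab} (h : Spec S l η δ F a y x) :
    Spec S l η δ F a (γ y) x.shift := by
  have hfar : (∀ z ∈ S, η ≤ dist y z) → ∀ z ∈ S, η ≤ dist (γ y) z := by
    intro h z hz
    have := h (γ (γ z)) (hS _ (hS _ hz))
    rwa [← hγ y, hγ3] at this
  rcases h with ⟨z, hz, hd, rfl⟩ | ⟨hf, hi0, h⟩ | ⟨hf, hFl, j, rfl, hj1, hj2⟩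
  · left
    refine ⟨γ z, hS z hz, by rw [hγ]; exact hd, ?_⟩
    rw [hl z hz]
    rfl
  · right; left
    refine ⟨hfar hf, ?_, ?_⟩
    · simpa only [hF] using hi0
    · rcases h with ⟨i, rfl, hi, hi'⟩ | ⟨rfl, hi⟩
      · left
        exact ⟨i, rfl, by rw [hF]; exact hi, fun i' h => by rw [hF]; exact hi' i' h⟩
      · right
        exact ⟨rfl, fun i => by rw [hF]; exact hi i⟩
  · right; right
    refine ⟨hfar hf, fun i => by rw [hF]; exact hFl i, j + 1, rfl, ?_, ?_⟩
    · rw [f3d, ha, ha]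
      exact hj1
    · rw [ha, ha]
      exact hj2

end

/-- scaling of grid points -/
noncomputable def sc (m : ℕ) (q : Fin 7 → ℕ) : Fin 7 → ℝ := fun j => (q j : ℝ) / m

theorem sc_mem {m : ℕ} (hm : 0 < m) {q : Fin 7 → ℕ} (hq : ∀ j, q j ≤ m) :
    sc m q ∈ Set.Icc (0 : Fin 7 → ℝ) 1 := by
  have hm' : (0 : ℝ) < m := by exact_mod_cast hm
  constructor
  · intro j
    show (0 : ℝ) ≤ (q j : ℝ) / m
    positivity
  · intro j
    show (q j : ℝ) / m ≤ 1
    rw [div_le_one hm']
    exact_mod_cast hq j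

theorem sc_update {m : ℕ} (q : Fin 7 → ℕ) (i : Fin 7) (c : ℕ) :
    sc m (Function.update q i c) = Function.update (sc m q) i ((c : ℝ) / m) := by
  funext j
  by_cases h : j = i
  · subst h; simp [sc]
  · simp [sc, h]

theorem sc_dist {m : ℕ} (hm : 0 < m) {base q q' : Fin 7 → ℕ}
    (hq : ∀ j, base j ≤ q j ∧ q j ≤ base j + 1) (hq' : ∀ j, base j ≤ q' j ∧ q' j ≤ base j + 1) :
    dist (sc m q) (sc m q') ≤ 1 / m := by
  have hm' : (0 : ℝ) < m := by exact_mod_cast hm
  rw [dist_pi_le_iff (by positivity)]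
  intro j
  rw [Real.dist_eq, sc, sc, ← sub_div, abs_div, abs_of_pos hm']
  apply div_le_div_of_nonneg_right _ hm'.le
  rw [abs_le]
  obtain ⟨h1, h2⟩ := hq j
  obtain ⟨h3, h4⟩ := hq' j
  have h1' : (base j : ℝ) ≤ q j := by exact_mod_cast h1
  have h2' : (q j : ℝ) ≤ base j + 1 := by exact_mod_cast h2
  have h3' : (base j : ℝ) ≤ q' j := by exact_mod_cast h3
  have h4' : (q' j : ℝ) ≤ base j + 1 := by exact_mod_cast h4
  constructor <;> linarith

theorem top {Y : Type*} [MetricSpace Y] (C : Set Y) (hC : IsCompact C) (γ : Y → Y)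
    (hγ : ∀ x y, dist (γ x) (γ y) = dist x y) (hγC : ∀ x ∈ C, γ x ∈ C) (hγ3 : ∀ x, γ (γ (γ x)) = x)
    (F : Fin 4 → Y → ℝ) (hF : ∀ i, ContinuousOn (F i) C) (hFγ : ∀ i, ∀ x ∈ C, F i (γ x) = F i x)
    (a : Fin 3 → Y → ℝ) (ha : ∀ j, ContinuousOn (a j) C)
    (haγ : ∀ j, ∀ x ∈ C, a (j + 1) (γ x) = a j x)
    (pt : Fin 3 → (Fin 7 → ℝ) → Y) (hpt : ∀ k, ContinuousOn (pt k) (Set.Icc 0 1))
    (hptC : ∀ k, ∀ q ∈ Set.Icc (0 : Fin 7 → ℝ) 1, pt k q ∈ C)
    (h1 : ∀ k, ∀ q ∈ Set.Icc (0 : Fin 7 → ℝ) 1, pt k (Function.update q 4 1) = pt (k + 1) (Function.update q 4 0))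
    (h2 : ∀ k, ∀ q ∈ Set.Icc (0 : Fin 7 → ℝ) 1, ∀ t ∈ Set.Icc (0 : ℝ) 1, q 5 = 1 →
      pt k (Function.update q 4 t) = pt k q)
    (h3 : ∀ k, ∀ q ∈ Set.Icc (0 : Fin 7 → ℝ) 1, ∀ s ∈ Set.Icc (0 : ℝ) 1, q 5 = 0 →
      pt k (Function.update q 6 s) = pt k q)
    (h4 : ∀ k, ∀ q ∈ Set.Icc (0 : Fin 7 → ℝ) 1,
      pt (k + 1) (Function.update q 6 1) = γ (pt k (Function.update q 6 0)))
    (h6 : ∀ k, ∀ q ∈ Set.Icc (0 : Fin 7 → ℝ) 1, q 5 = 0 → pt (k + 1) q = γ (pt k q))
    (hneg : ∀ k, ∀ q ∈ Set.Icc (0 : Fin 7 → ℝ) 1, ∀ i : Fin 4, q (i.castLE (by norm_num)) = 0 →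
      F i (pt k q) < 0)
    (hpos : ∀ k, ∀ q ∈ Set.Icc (0 : Fin 7 → ℝ) 1, ∀ i : Fin 4, q (i.castLE (by norm_num)) = 1 →
      0 < F i (pt k q))
    (ε : ℝ) (hε : 0 < ε) :
    ∃ z ∈ ZZ C F a, Conn (ZZ C F a) ε z (γ z) := by
  by_contra hcon
  push Not at hcon
  set S := ZZ C F a with hSdef
  have hSC : ∀ z ∈ S, z ∈ C := fun z hz => hz.1
  have hSγ : ∀ z ∈ S, γ z ∈ S := by
    intro z hz
    refine ⟨hγC z hz.1, fun i => by rw [hFγ i z hz.1]; exact hz.2.1 i, ?_⟩
    have key : ∀ j, a j (γ z) = a 0 z := by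
      intro j
      have e : j = (j + 2) + 1 := (f3c j).symm
      rw [e, haγ _ z hz.1]
      exact hz.2.2 _
    intro j
    rw [key j, key 0]
  obtain ⟨l, hl1, hl2⟩ := exists_l hγ hSγ hγ3 hcon
  -- (a) the faces
  have hcompI : IsCompact (Set.Icc (0 : Fin 7 → ℝ) 1) := isCompact_Icc
  have hFpt : ∀ k i, ContinuousOn (fun q => F i (pt k q)) (Set.Icc (0 : Fin 7 → ℝ) 1) :=
    fun k i => (hF i).comp (hpt k) (fun q hq => hptC k q hq)
  have face : ∀ p : Fin 3 × Fin 4, ∃ d : ℝ, 0 < d ∧ ∀ q ∈ Set.Icc (0 : Fin 7 → ℝ) 1,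
      (q (p.2.castLE (by norm_num)) = 0 → F p.2 (pt p.1 q) ≤ -d) ∧
      (q (p.2.castLE (by norm_num)) = 1 → d ≤ F p.2 (pt p.1 q)) := by
    rintro ⟨k, i⟩
    have hcl : ∀ c : ℝ, IsClosed {q : Fin 7 → ℝ | q (i.castLE (by norm_num)) = c} :=
      fun c => isClosed_eq (continuous_apply _) continuous_const
    have hc0 := hcompI.inter_right (hcl 0)
    have hc1 := hcompI.inter_right (hcl 1)
    have hn0 : (Set.Icc (0 : Fin 7 → ℝ) 1 ∩ {q : Fin 7 → ℝ | q (i.castLE (by norm_num)) = 0}).Nonempty :=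
      ⟨0, ⟨le_refl _, zero_le_one⟩, rfl⟩
    have hn1 : (Set.Icc (0 : Fin 7 → ℝ) 1 ∩ {q : Fin 7 → ℝ | q (i.castLE (by norm_num)) = 1}).Nonempty :=
      ⟨1, ⟨zero_le_one, le_refl _⟩, rfl⟩
    obtain ⟨q0, hq0, hmax⟩ := hc0.exists_isMaxOn hn0 ((hFpt k i).mono Set.inter_subset_left)
    obtain ⟨q1, hq1, hmin⟩ := hc1.exists_isMinOn hn1 ((hFpt k i).mono Set.inter_subset_left)
    have g0 := hneg k q0 hq0.1 i hq0.2
    have g1 := hpos k q1 hq1.1 i hq1.2
    refine ⟨min (-(F i (pt k q0))) (F i (pt k q1)), lt_min (by linarith) g1, ?_⟩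
    intro q hq
    constructor
    · intro h
      have := hmax (show q ∈ _ from ⟨hq, h⟩)
      simp only [Set.mem_ofPred_eq] at this
      have h' := min_le_left (-(F i (pt k q0))) (F i (pt k q1))
      linarith
    · intro h
      have := hmin (show q ∈ _ from ⟨hq, h⟩)
      simp only [Set.mem_ofPred_eq] at this
      have h' := min_le_right (-(F i (pt k q0))) (F i (pt k q1))
      linarith
  choose d hd0 hd using face
  obtain ⟨δ1, hδ1, hδ1'⟩ : ∃ δ1 : ℝ, 0 < δ1 ∧ ∀ p, δ1 ≤ d p := by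
    refine ⟨Finset.univ.inf' Finset.univ_nonempty d, ?_, fun p => Finset.inf'_le _ (Finset.mem_univ p)⟩
    rw [Finset.lt_inf'_iff]
    exact fun p _ => hd0 p
  -- the vector valued function
  let G : Y → (Fin 4 → ℝ) × (Fin 3 → ℝ) := fun y => (fun i => F i y, fun j => a j y)
  have hG : ContinuousOn G C :=
    (continuousOn_pi.mpr hF).prodMk (continuousOn_pi.mpr ha)
  have hGu := hC.uniformContinuousOn_of_continuous hG
  rw [Metric.uniformContinuousOn_iff] at hGu
  have hGsplit : ∀ (e : ℝ) (y y' : Y), dist (G y) (G y') < e →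
      (∀ i, |F i y - F i y'| < e) ∧ ∀ j, |a j y - a j y'| < e := by
    intro e y y' h
    rw [Prod.dist_eq, max_lt_iff] at h
    constructor
    · intro i
      have := lt_of_le_of_lt (dist_le_pi_dist _ _ i) h.1
      simpa [G, Real.dist_eq] using this
    · intro j
      have := lt_of_le_of_lt (dist_le_pi_dist _ _ j) h.2
      simpa [G, Real.dist_eq] using this
  obtain ⟨η0, hη0, hη0'⟩ := hGu δ1 hδ1
  set η := min η0 (ε / 4) with hηdef
  have hη : 0 < η := lt_min hη0 (by linarith)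
  have hηε : 4 * η ≤ ε := by have := min_le_right η0 (ε / 4); linarith
  -- near points have small F
  have hnear : ∀ y ∈ C, ∀ z ∈ S, dist y z < η → ∀ i, |F i y| < δ1 := by
    intro y hy z hz hyz i
    have := (hGsplit _ _ _ (hη0' y hy z hz.1 (lt_of_lt_of_le hyz (min_le_left _ _)))).1 i
    rw [hz.2.1 i, sub_zero] at this
    exact this
  -- (c)
  obtain ⟨δ2, hδ2, hδ2'⟩ : ∃ δ2 : ℝ, 0 < δ2 ∧ ∀ y ∈ C, (∀ z ∈ S, η ≤ dist y z) →
      (∀ i, |F i y| < δ2) → ∃ j, δ2 ≤ |a j y - a 0 y| := by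
    let K : Set Y := C ∩ ⋂ z ∈ S, {y | η ≤ dist y z}
    have hK : IsCompact K := hC.inter_right (isClosed_biInter (fun z _ =>
      isClosed_le continuous_const (continuous_id.dist continuous_const)))
    let g : Y → ℝ := fun y => ∑ i, |F i y| + ∑ j, |a j y - a 0 y|
    have hg : ContinuousOn g K := by
      apply ContinuousOn.add
      · exact continuousOn_finsetSum _ (fun i _ => ((hF i).mono Set.inter_subset_left).abs)
      · exact continuousOn_finsetSum _ (fun j _ =>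
          (((ha j).mono Set.inter_subset_left).sub ((ha 0).mono Set.inter_subset_left)).abs)
    by_cases hKn : K.Nonempty
    · obtain ⟨y0, hy0, hmin⟩ := hK.exists_isMinOn hKn hg
      have hg0 : 0 < g y0 := by
        have hnn : 0 ≤ g y0 := by positivity
        rcases hnn.lt_or_eq with h | h
        · exact h
        exfalso
        have hs1 : 0 ≤ ∑ i, |F i y0| := Finset.sum_nonneg (fun i _ => abs_nonneg _)
        have hs2 : 0 ≤ ∑ j, |a j y0 - a 0 y0| := Finset.sum_nonneg (fun i _ => abs_nonneg _)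
        have hsum : ∑ i, |F i y0| + ∑ j, |a j y0 - a 0 y0| = 0 := h.symm
        have z1 : ∑ i, |F i y0| = 0 := by linarith
        have z2 : ∑ j, |a j y0 - a 0 y0| = 0 := by linarith
        rw [Finset.sum_eq_zero_iff_of_nonneg (fun i _ => abs_nonneg _)] at z1 z2
        have hy0S : y0 ∈ S := by
          refine ⟨hy0.1, fun i => abs_eq_zero.mp (z1 i (Finset.mem_univ i)), fun j => ?_⟩
          have := abs_eq_zero.mp (z2 j (Finset.mem_univ j))
          linarith
        have h5 := hy0.2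
        simp only [Set.mem_iInter, Set.mem_ofPred_eq] at h5
        have := h5 y0 hy0S
        rw [dist_self] at this
        linarith
      refine ⟨g y0 / 8, by linarith, ?_⟩
      intro y hy hfar hFl
      by_contra hc
      push Not at hc
      have hyK : y ∈ K := ⟨hy, by simpa using hfar⟩
      have h5 : g y0 ≤ g y := hmin hyK
      have h6 : ∑ i, |F i y| < 4 * (g y0 / 8) := by
        rw [Fin.sum_univ_four]
        have := hFl 0; have := hFl 1; have := hFl 2; have := hFl 3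
        linarith
      have h7 : ∑ j, |a j y - a 0 y| < 4 * (g y0 / 8) := by
        rw [Fin.sum_univ_three]
        have := hc 0; have := hc 1; have := hc 2
        linarith
      have h8 : g y = ∑ i, |F i y| + ∑ j, |a j y - a 0 y| := rfl
      linarith
    · refine ⟨1, one_pos, ?_⟩
      intro y hy hfar _
      exact absurd ⟨y, hy, by simpa using hfar⟩ hKn
  set δ := min δ1 δ2 with hδdef
  have hδ : 0 < δ := lt_min hδ1 hδ2
  have hδδ1 : δ ≤ δ1 := min_le_left _ _
  have hδδ2 : δ ≤ δ2 := min_le_right _ _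
  -- (d) mesh
  obtain ⟨ρ0, hρ0, hρ0'⟩ := hGu (δ / 8) (by linarith)
  set ρ := min ρ0 η with hρdef
  have hρ : 0 < ρ := lt_min hρ0 hη
  have hPT : ContinuousOn (fun q => fun k => pt k q) (Set.Icc (0 : Fin 7 → ℝ) 1) :=
    continuousOn_pi.mpr hpt
  have hPTu := hcompI.uniformContinuousOn_of_continuous hPT
  rw [Metric.uniformContinuousOn_iff] at hPTu
  obtain ⟨θ, hθ, hθ'⟩ := hPTu ρ hρ
  obtain ⟨m, hm⟩ := exists_nat_gt (1 / θ)
  have hm0' : (0 : ℝ) < m := lt_trans (by positivity) hm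
  have hm0 : 0 < m := by exact_mod_cast hm0'
  have hmθ : 1 / (m : ℝ) < θ := by
    rw [div_lt_iff₀ hm0']
    rw [div_lt_iff₀ hθ] at hm
    linarith
  have hmesh : ∀ (k : Fin 3) (base q q' : Fin 7 → ℕ), (∀ j, q j ≤ m) → (∀ j, q' j ≤ m) →
      (∀ j, base j ≤ q j ∧ q j ≤ base j + 1) → (∀ j, base j ≤ q' j ∧ q' j ≤ base j + 1) →
      dist (pt k (sc m q)) (pt k (sc m q')) < ρ := by
    intro k base q q' hq hq' hb hb'
    have h5 := sc_dist hm0 hb hb'
    have h6 := hθ' _ (sc_mem hm0 hq) _ (sc_mem hm0 hq') (lt_of_le_of_lt h5 hmθ)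
    exact lt_of_le_of_lt (dist_le_pi_dist (fun k => pt k (sc m q)) (fun k => pt k (sc m q')) k) h6
  -- labels
  have hex : ∀ y ∈ C, ∃ x, Spec S l η δ F a y x := by
    intro y hy
    apply spec_exists
    intro hfar hFl
    obtain ⟨j, hj⟩ := hδ2' y hy hfar (fun i => lt_of_lt_of_le (hFl i) hδδ2)
    refine ⟨j, ?_⟩
    intro he
    rw [he, sub_self, abs_zero] at hj
    linarith
  classical
  let Lb : Y → Lab := fun y => if h : ∃ x, Spec S l η δ F a y x then h.choose else .f 0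
  have hLb : ∀ y ∈ C, Spec S l η δ F a y (Lb y) := by
    intro y hy
    have h := hex y hy
    show Spec S l η δ F a y (if h : ∃ x, Spec S l η δ F a y x then h.choose else .f 0)
    rw [dif_pos h]
    exact h.choose_spec
  have hLbγ : ∀ y ∈ C, Lb (γ y) = (Lb y).shift := by
    intro y hy
    have e1 := hLb (γ y) (hγC y hy)
    have e2 := spec_shift hγ hSγ hγ3 hl2 (fun i => hFγ i y hy) (fun j => haγ j y hy) (hLb y hy)
    exact spec_unique hl1 (by linarith) e1 e2
  let lab : Fin 3 → (Fin 7 → ℕ) → Lab := fun k q => Lb (pt k (sc m q))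
  have hone : ((m : ℕ) : ℝ) / m = 1 := div_self hm0'.ne'
  have hzero : ((0 : ℕ) : ℝ) / m = 0 := by simp
  have hrange : ∀ t : ℕ, t ≤ m → (t : ℝ) / m ∈ Set.Icc (0 : ℝ) 1 := by
    intro t ht
    constructor
    · positivity
    · rw [div_le_one hm0']; exact_mod_cast ht
  apply core m hm0 lab
  constructor
  · intro k q hq
    show Lb _ = Lb _
    rw [sc_update, sc_update, hone, hzero, h1 k _ (sc_mem hm0 hq)]
  · intro k q t hq ht h5
    show Lb _ = Lb _
    rw [sc_update, h2 k _ (sc_mem hm0 hq) _ (hrange t ht) (by rw [sc, h5, hone])]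
  · intro k q t hq ht h5
    show Lb _ = Lb _
    rw [sc_update, h3 k _ (sc_mem hm0 hq) _ (hrange t ht) (by rw [sc, h5, hzero])]
  · intro k q hq
    show Lb _ = (Lb _).shift
    rw [sc_update, sc_update, hone, hzero, h4 k _ (sc_mem hm0 hq)]
    apply hLbγ
    apply hptC
    have := sc_mem hm0 (setc_le (m := m) hq 6 (Nat.zero_le m))
    rw [setc, sc_update, hzero] at this
    exact this
  · intro k q hq h5
    show Lb _ = (Lb _).shift
    rw [h6 k _ (sc_mem hm0 hq) (by rw [sc, h5, hzero])]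
    exact hLbγ _ (hptC _ _ (sc_mem hm0 hq))
  · -- bottom
    intro k q i hq hi
    have hx := sc_mem hm0 hq
    have hy := hptC k _ hx
    have hFi : F i (pt k (sc m q)) ≤ -δ1 :=
      ((hd (k, i) _ hx).1 (by rw [sc, hi, hzero])).trans (neg_le_neg (hδ1' (k, i)))
    have habs : δ1 ≤ |F i (pt k (sc m q))| := by
      rw [abs_of_neg (by linarith)]; linarith
    rcases hLb _ hy with ⟨z, hz, hdz, _⟩ | ⟨_, _, ⟨i', hi', hneg', hmin⟩ | ⟨_, hall⟩⟩ | ⟨_, hFl, _⟩
    · exact absurd (hnear _ hy z hz hdz i) (not_lt.mpr habs)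
    · refine ⟨i', ?_, hi'⟩
      by_contra hlt
      push Not at hlt
      have := hmin i hlt
      linarith
    · have := hall i
      linarith
    · have := hFl i
      linarith
  · -- top
    intro k q i hq hi
    have hx := sc_mem hm0 hq
    have hy := hptC k _ hx
    have hFi : δ1 ≤ F i (pt k (sc m q)) :=
      (hδ1' (k, i)).trans ((hd (k, i) _ hx).2 (by rw [sc, hi, hone]))
    have habs : δ1 ≤ |F i (pt k (sc m q))| := by
      rw [abs_of_pos (by linarith)]; exact hFi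
    rcases hLb _ hy with ⟨z, hz, hdz, _⟩ | ⟨_, _, ⟨i', hi', hneg', hmin⟩ | ⟨h0, _⟩⟩ | ⟨_, hFl, _⟩
    · exact absurd (hnear _ hy z hz hdz i) (not_lt.mpr habs)
    · refine ⟨i'.succ, ?_, hi'⟩
      intro he
      have := Fin.succ_injective _ he
      subst this
      linarith
    · exact ⟨0, (Fin.succ_ne_zero i).symm, h0⟩
    · have := hFl i
      linarith
  · -- small cubes
    intro k base
    have hG8 : ∀ q q' : Fin 7 → ℕ, (∀ j, q j ≤ m) → (∀ j, q' j ≤ m) →
        (∀ j, base j ≤ q j ∧ q j ≤ base j + 1) → (∀ j, base j ≤ q' j ∧ q' j ≤ base j + 1) →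
        (∀ i, |F i (pt k (sc m q)) - F i (pt k (sc m q'))| < δ / 8) ∧
        ∀ j, |a j (pt k (sc m q)) - a j (pt k (sc m q'))| < δ / 8 := by
      intro q q' hq hq' hb hb'
      exact hGsplit _ _ _ (hρ0' _ (hptC k _ (sc_mem hm0 hq)) _ (hptC k _ (sc_mem hm0 hq'))
        (lt_of_lt_of_le (hmesh k base q q' hq hq' hb hb') (min_le_left _ _)))
    refine ⟨?_, ?_, ?_⟩
    · intro hall
      obtain ⟨q0, hq0, hb0, hL0⟩ := hall 0
      have e0 := hLb _ (hptC k _ (sc_mem hm0 hq0))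
      have hL0' : Lb (pt k (sc m q0)) = .f 0 := hL0
      rw [hL0'] at e0
      rcases e0 with ⟨z, _, _, h⟩ | ⟨_, ⟨i, hi⟩, ⟨i', h, _⟩ | ⟨_, hnn⟩⟩ | ⟨_, _, j, h, _⟩
      · exact absurd h (by simp)
      · exact absurd (Lab.f.inj h).symm (Fin.succ_ne_zero i')
      · obtain ⟨q1, hq1, hb1, hL1⟩ := hall i.succ
        have e1 := hLb _ (hptC k _ (sc_mem hm0 hq1))
        have hL1' : Lb (pt k (sc m q1)) = .f i.succ := hL1
        rw [hL1'] at e1
        rcases e1 with ⟨z, _, _, h⟩ | ⟨_, _, ⟨i', h, hlt, _⟩ | ⟨h, _⟩⟩ | ⟨_, _, j, h, _⟩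
        · exact absurd h (by simp)
        · have := Fin.succ_injective _ (Lab.f.inj h)
          subst this
          have h8 := (hG8 q0 q1 hq0 hq1 hb0 hb1).1 i
          have h9 := hnn i
          rw [abs_of_nonneg h9] at hi
          rw [abs_lt] at h8
          linarith
        · exact absurd (Lab.f.inj h) (Fin.succ_ne_zero i)
        · exact absurd h (by simp)
      · exact absurd h (by simp)
    · intro hall
      choose q hq hb hL using hall
      have key : ∀ j : Fin 3, (∀ z ∈ S, η ≤ dist (pt k (sc m (q j))) z) ∧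
          (∀ i, |F i (pt k (sc m (q j)))| < δ) ∧
          ∀ j', a j' (pt k (sc m (q j))) ≤ a j (pt k (sc m (q j))) := by
        intro j
        have e := hLb _ (hptC k _ (sc_mem hm0 (hq j)))
        have hL' : Lb (pt k (sc m (q j))) = .a j := hL j
        rw [hL'] at e
        rcases e with ⟨z, _, _, h⟩ | ⟨_, _, ⟨i', h, _⟩ | ⟨h, _⟩⟩ | ⟨hf, hFl, j', h, e1, e2⟩
        · exact absurd h (by simp)
        · exact absurd h (by simp)
        · exact absurd h (by simp)
        · have := Lab.a.inj h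
          subst this
          refine ⟨hf, hFl, ?_⟩
          intro j'
          rcases f3a j j' with rfl | rfl | rfl
          · exact le_refl _
          · exact e2.le
          · exact e1
      obtain ⟨j, hj⟩ := hδ2' _ (hptC k _ (sc_mem hm0 (hq 0))) (key 0).1
        (fun i => lt_of_lt_of_le ((key 0).2.1 i) hδδ2)
      have b1 := (key j).2.2 0
      have b2 := (key 0).2.2 j
      have c1 := (hG8 _ _ (hq 0) (hq j) (hb 0) (hb j)).2 j
      have c2 := (hG8 _ _ (hq 0) (hq j) (hb 0) (hb j)).2 0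
      rw [abs_lt] at c1 c2
      rw [le_abs] at hj
      rcases hj with hj | hj <;> linarith
    · rintro i i' ⟨q, hq, hb, hL⟩ ⟨q', hq', hb', hL'⟩
      have e := hLb _ (hptC k _ (sc_mem hm0 hq))
      have e' := hLb _ (hptC k _ (sc_mem hm0 hq'))
      have hL1 : Lb (pt k (sc m q)) = .n i := hL
      have hL1' : Lb (pt k (sc m q')) = .n i' := hL'
      rw [hL1] at e
      rw [hL1'] at e'
      rcases e with ⟨z, hz, hdz, h⟩ | ⟨_, _, ⟨_, h, _⟩ | ⟨h, _⟩⟩ | ⟨_, _, _, h, _⟩
      · rcases e' with ⟨z', hz', hdz', h'⟩ | ⟨_, _, ⟨_, h', _⟩ | ⟨h', _⟩⟩ | ⟨_, _, _, h', _⟩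
        · rw [Lab.n.inj h, Lab.n.inj h']
          apply hl1 z z' hz
          apply Relation.ReflTransGen.single
          refine ⟨hz, hz', ?_⟩
          have t1 := dist_triangle z (pt k (sc m q)) z'
          have t2 := dist_triangle (pt k (sc m q)) (pt k (sc m q')) z'
          have t3 := hmesh k base q q' hq hq' hb hb'
          have t4 := min_le_right ρ0 η
          rw [dist_comm z (pt k (sc m q))] at t1
          linarith
        · exact absurd h' (by simp)
        · exact absurd h' (by simp)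
        · exact absurd h' (by simp)
      · exact absurd h (by simp)
      · exact absurd h (by simp)
      · exact absurd h (by simp)

end Pool.Agent.Octa
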